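import Mathlib

/-!
# The values of a polynomial at a grid

(Copied from `H32/KR/N1.lean` and `H84/KBOX/BlkA.lean`, to keep the imports small.)
-/

set_option autoImplicit false

namespace Pool.UNJ

open Set MvPolynomial

theorem natDegree_aeval_le {σ : Type} (Q : MvPolynomial σ ℝ) (g : σ → Polynomial ℝ)
    (hg : ∀ i, (g i).natDegree ≤ 1) {D : ℕ} (h : Q.totalDegree ≤ D) :
    (MvPolynomial.aeval g Q).natDegree ≤ D := by
  rw [MvPolynomial.aeval_def, MvPolynomial.eval₂_eq]
  refine Polynomial.natDegree_sum_le_of_forall_le _ _ fun α hα => ?_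
  refine (Polynomial.natDegree_mul_le).trans ?_
  have h1 : (algebraMap ℝ (Polynomial ℝ) (MvPolynomial.coeff α Q)).natDegree = 0 :=
    Polynomial.natDegree_C _
  have h2 : (∏ i ∈ α.support, g i ^ α i).natDegree ≤ α.degree := by
    refine (Polynomial.natDegree_prod_le _ _).trans ?_
    rw [Finsupp.degree_apply]
    refine Finset.sum_le_sum fun i _ => ?_
    refine Polynomial.natDegree_pow_le.trans ?_
    have := Nat.mul_le_mul_left (α i) (hg i)
    simpa using this
  rw [h1, zero_add]
  exact h2.trans ((MvPolynomial.le_totalDegree hα).trans h)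

theorem eval_aeval_poly {σ : Type} (Q : MvPolynomial σ ℝ) (g : σ → Polynomial ℝ) (t : ℝ) :
    (MvPolynomial.aeval g Q).eval t = MvPolynomial.eval (fun i => (g i).eval t) Q := by
  have h := MvPolynomial.map_aeval g (Polynomial.evalRingHom t) Q
  rw [Polynomial.coe_evalRingHom] at h
  rw [h, MvPolynomial.coe_eval₂Hom, MvPolynomial.eval, MvPolynomial.coe_eval₂Hom]
  congr 1
  ext a
  simp

/-- The values of a polynomial are bounded by the values at some points of the unit interval. -/
theorem lag1 (D : ℕ) (R : ℝ) : ∃ C : ℝ, 1 ≤ C ∧ ∀ (q : Polynomial ℝ) (S : ℝ), q.natDegree ≤ D →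
    (∀ i : Fin (D + 1), |q.eval (((i : ℕ) : ℝ) / (D + 1))| ≤ S) →
    ∀ t ∈ Icc (-R) R, |q.eval t| ≤ C * S := by
  classical
  set v : ℕ → ℝ := fun i => (i : ℝ) / (D + 1) with hv
  have hD : (0 : ℝ) < D + 1 := by positivity
  have hinj : Set.InjOn v (Finset.range (D + 1) : Finset ℕ) := by
    intro i _ k _ h
    have h1 : (i : ℝ) / (D + 1) = (k : ℝ) / (D + 1) := h
    field_simp at h1
    exact_mod_cast h1
  have hM : ∀ i, ∃ M : ℝ, 0 ≤ M ∧ ∀ t ∈ Icc (-R) R,
      |(Lagrange.basis (Finset.range (D + 1)) v i).eval t| ≤ M := by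
    intro i
    obtain ⟨M, hM⟩ := (isCompact_Icc (a := -R) (b := R)).exists_bound_of_continuousOn
      ((Lagrange.basis (Finset.range (D + 1)) v i).continuous.continuousOn)
    refine ⟨max M 0, le_max_right _ _, fun t ht => ?_⟩
    exact (hM t ht).trans (le_max_left _ _)
  choose M hM0 hM1 using hM
  refine ⟨1 + ∑ i ∈ Finset.range (D + 1), M i, ?_, ?_⟩
  · have := Finset.sum_nonneg (s := Finset.range (D + 1)) fun i _ => hM0 i
    linarith
  intro q S hq hS t ht
  have hS0 : 0 ≤ S := le_trans (abs_nonneg _) (hS 0)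
  have h1 : q = Lagrange.interpolate (Finset.range (D + 1)) v fun i => q.eval (v i) := by
    refine Lagrange.eq_interpolate hinj ?_
    rw [Finset.card_range]
    refine lt_of_le_of_lt (Polynomial.degree_le_natDegree) ?_
    exact_mod_cast Nat.lt_succ_of_le hq
  have h2 : q.eval t = ∑ i ∈ Finset.range (D + 1),
      q.eval (v i) * (Lagrange.basis (Finset.range (D + 1)) v i).eval t := by
    conv_lhs => rw [h1]
    rw [Lagrange.interpolate_apply, Polynomial.eval_finsetSum]
    refine Finset.sum_congr rfl fun i _ => ?_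
    rw [Polynomial.eval_mul, Polynomial.eval_C]
  rw [h2]
  refine le_trans (Finset.abs_sum_le_sum_abs _ _) ?_
  have h3 : ∑ i ∈ Finset.range (D + 1),
      |q.eval (v i) * (Lagrange.basis (Finset.range (D + 1)) v i).eval t| ≤
      ∑ i ∈ Finset.range (D + 1), M i * S := by
    refine Finset.sum_le_sum fun i hi => ?_
    rw [abs_mul, mul_comm]
    exact mul_le_mul (hM1 i t ht) (hS ⟨i, Finset.mem_range.1 hi⟩) (abs_nonneg _) (hM0 i)
  refine h3.trans ?_
  rw [← Finset.sum_mul]
  nlinarith

/-- The values of a polynomial are bounded by the values at a grid. -/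
theorem lagm (m D : ℕ) (R : ℝ) (hR : 1 ≤ R) : ∃ C : ℝ, 1 ≤ C ∧
    ∀ (Q : MvPolynomial (Fin m) ℝ) (S : ℝ), Q.totalDegree ≤ D →
    (∀ i : Fin m → Fin (D + 1), |eval (fun k => (((i k : Fin (D + 1)) : ℕ) : ℝ) / (D + 1)) Q| ≤ S) →
    ∀ x : Fin m → ℝ, (∀ k, |x k| ≤ R) → |eval x Q| ≤ C * S := by
  classical
  obtain ⟨C₁, hC₁, h1⟩ := lag1 D R
  refine ⟨C₁ ^ m, one_le_pow₀ hC₁, ?_⟩
  intro Q S hQ hS x hx
  have hS0 : 0 ≤ S := le_trans (abs_nonneg _) (hS fun _ => 0)
  have key : ∀ I : Finset (Fin m), ∀ i : Fin m → Fin (D + 1),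
      |eval (fun k => if k ∈ I then x k else (((i k : Fin (D + 1)) : ℕ) : ℝ) / (D + 1)) Q| ≤
        C₁ ^ I.card * S := by
    intro I
    induction I using Finset.induction_on with
    | empty =>
      intro i
      simpa using hS i
    | insert k I hk ih =>
      intro i
      obtain ⟨y, hy⟩ : ∃ y : Fin m → ℝ, y = fun l => if l ∈ I then x l else
        (((i l : Fin (D + 1)) : ℕ) : ℝ) / (D + 1) := ⟨_, rfl⟩
      obtain ⟨q, hq⟩ : ∃ q : Polynomial ℝ, q = aeval (fun l => if l = k then
        (Polynomial.X : Polynomial ℝ) else Polynomial.C (y l)) Q := ⟨_, rfl⟩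
      have hqe : ∀ t, q.eval t = eval (fun l => if l = k then t else y l) Q := by
        intro t
        rw [hq, eval_aeval_poly]
        congr 2
        funext l
        split_ifs <;> simp
      have hqd : q.natDegree ≤ D := by
        rw [hq]
        refine natDegree_aeval_le _ _ (fun l => ?_) hQ
        split_ifs
        · exact Polynomial.natDegree_X_le
        · rw [Polynomial.natDegree_C]
          exact Nat.zero_le _
      have h2 := h1 q (C₁ ^ I.card * S) hqd (by
        intro j
        rw [hqe]
        have h3 := ih (fun l => if l = k then j else i l)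
        have e : (fun l => if l = k then (((j : Fin (D + 1)) : ℕ) : ℝ) / (D + 1) else y l) =
            fun l => if l ∈ I then x l else
              ((((fun l => if l = k then j else i l) l : Fin (D + 1)) : ℕ) : ℝ) / (D + 1) := by
          funext l
          by_cases hl : l = k
          · subst hl
            simp only [if_neg hk]
            simp
          · simp only [if_neg hl, hy]
        rw [e]
        exact h3) (x k) (abs_le.1 (hx k))
      rw [hqe] at h2
      have e : (fun l => if l ∈ insert k I then x l else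
          (((i l : Fin (D + 1)) : ℕ) : ℝ) / (D + 1)) = fun l => if l = k then x k else y l := by
        funext l
        by_cases hl : l = k
        · subst hl
          simp
        · rw [if_neg hl, hy]
          simp only [Finset.mem_insert, hl, false_or]
      rw [e, Finset.card_insert_of_notMem hk, pow_succ]
      calc _ ≤ C₁ * (C₁ ^ I.card * S) := h2
        _ = _ := by ring
  have h2 := key Finset.univ (fun _ => 0)
  simp only [Finset.mem_univ, if_true, Finset.card_univ, Fintype.card_fin] at h2
  exact h2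

end Pool.UNJ
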