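import Pool.Agent.H2.GEN.Iso

/-!
# Two labels of the same coordinate

`relv_two`: two two-sided labels of the same target on the natural boxes of a chain without
relations are near each other on the natural boxes, on a large part of the event.
`nbx_inc`: the increments of a polynomial which is small on a natural box.
`relv_inc`: the increments of the difference of two labels (the tilts).
-/

set_option autoImplicit false

namespace Pool.CHT

open Finset Real MvPolynomial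
open Pool.Agent.H49.Ent Pool.Agent.H32.Dense Pool.STK Pool.KA Pool.KSAT Pool.K2S Pool.PB Pool.S6C
open Pool.GEN

variable {m J : ℕ}

/-- **Two labels of one target** on the natural boxes of a chain without relations. -/
theorem relv_two {F : Fam m J} {c : ℕ → Fin m} {i a w : ℕ} {g : ℕ → ℕ} {D h : ℕ} {κ : ℝ}
    {B₀ B' : F.Ω → Prop} {G : PtT F → ℕ → MvPolynomial (Option (Fin m)) ℝ}
    (hR : RelvF F c i a w g D h κ B₀ G) (hB : Sub B' B₀) (hP : κ * Pe F.p B₀ ≤ Pe F.p B')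
    {X₁ X₂ : PtT F → MvPolynomial (Option (Fin m)) ℝ}
    {Y₁ Y₂ : LnT F → MvPolynomial (Option (Fin m)) ℝ} {x : F.Ω → ℝ} {M : ℝ} (hM : 0 < M)
    (dX₁ : ∀ y, (X₁ y).totalDegree ≤ D) (dX₂ : ∀ y, (X₂ y).totalDegree ≤ D)
    (dY₁ : ∀ s, (Y₁ s).totalDegree ≤ D) (dY₂ : ∀ s, (Y₂ s).totalDegree ≤ D)
    (cX₁ : ∀ y, DepC c i (X₁ y)) (cX₂ : ∀ y, DepC c i (X₂ y))
    (cY₁ : ∀ s, DepC c i (Y₁ s)) (cY₂ : ∀ s, DepC c i (Y₂ s))
    (p₁ : ∀ ω, B' ω → |x ω - eval (bt F ω) (X₁ (ptr F J ω))| ≤ M)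
    (p₂ : ∀ ω, B' ω → |x ω - eval (bt F ω) (X₂ (ptr F J ω))| ≤ M)
    (t₁ : ∀ ω, B' ω → ∀ b, NBx c (G (ptr F J ω)) g a (F.t ω) i b →
      |eval b (X₁ (ptr F J ω)) - eval b (Y₁ (slam F w ω))| ≤ M)
    (t₂ : ∀ ω, B' ω → ∀ b, NBx c (G (ptr F J ω)) g a (F.t ω) i b →
      |eval b (X₂ (ptr F J ω)) - eval b (Y₂ (slam F w ω))| ≤ M) :
    ∃ B'' : F.Ω → Prop, Sub B'' B' ∧ Pe F.p B' / 2 ≤ Pe F.p B'' ∧ ∀ ω, B'' ω →
      ∀ b, NBx c (G (ptr F J ω)) g a (F.t ω) i b →
        |eval b (X₁ (ptr F J ω)) - eval b (X₂ (ptr F J ω))| ≤ 2 ^ (h + 1) * M := by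
  obtain ⟨B'', k1, k2, k3⟩ := hR B' hB hP (fun y => X₁ y - X₂ y) (fun s => Y₁ s - Y₂ s) (2 * M)
    (fun y => (totalDegree_sub _ _).trans (max_le (dX₁ y) (dX₂ y)))
    (fun s => (totalDegree_sub _ _).trans (max_le (dY₁ s) (dY₂ s)))
    (fun y b b' hn hb => by rw [map_sub, map_sub, cX₁ y b b' hn hb, cX₂ y b b' hn hb])
    (fun s b b' hn hb => by rw [map_sub, map_sub, cY₁ s b b' hn hb, cY₂ s b b' hn hb])
    (by linarith only [hM]) (fun ω hω => by
      have h1 := abs_le.1 (p₁ ω hω)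
      have h2 := abs_le.1 (p₂ ω hω)
      rw [map_sub, abs_le]
      constructor <;> linarith only [h1.1, h1.2, h2.1, h2.2]) (fun ω hω b hb => by
      have h1 := abs_le.1 (t₁ ω hω b hb)
      have h2 := abs_le.1 (t₂ ω hω b hb)
      rw [map_sub, map_sub, abs_le]
      constructor <;> linarith only [h1.1, h1.2, h2.1, h2.2])
  refine ⟨B'', k1, k2, fun ω hω b hb => ?_⟩
  have h1 := k3 ω hω b hb
  rw [map_sub] at h1
  refine h1.trans (le_of_eq ?_)
  rw [pow_succ]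
  ring

/-- **The increments** of a polynomial which is small on a natural box, in terms of the heights. -/
theorem nbx_inc (D r : ℕ) : ∃ C : ℝ, 1 ≤ C ∧ ∀ {m : ℕ} {c : ℕ → Fin m} {i : ℕ}
    {G : ℕ → MvPolynomial (Option (Fin m)) ℝ} {Q : MvPolynomial (Option (Fin m)) ℝ}
    {g : ℕ → ℕ} {a : ℕ} {t M lam : ℝ} {b b' : Option (Fin m) → ℝ}, i < r →
    Set.InjOn c (Set.Iio i) → (∀ l, (G l).totalDegree ≤ D) → (∀ l, DepC c l (G l)) → DepC c i Q →
    Q.totalDegree ≤ D → 0 ≤ M → 0 ≤ lam → (∀ b, NBx c G g a t i b → |eval b Q| ≤ M) →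
    NBx c G g a t i b → NBx c G g a t i b' → b' none = b none →
    (∀ l < i, |(b' (some (c l)) - eval b' (G l)) - (b (some (c l)) - eval b (G l))| ≤
      lam / 2 ^ g l) → |eval b' Q - eval b Q| ≤ C * M * lam := by
  obtain ⟨c₀, hdbl⟩ := nbx_dbl r (fun _ => D)
  obtain ⟨D', hD'⟩ : ∃ D', D' = ∑ i ∈ range r, D * dga (fun _ => D) i := ⟨_, rfl⟩
  obtain ⟨C, hC, hlip⟩ := Pool.Agent.H40.SLP.lip_one D'
  have h20 : (1 : ℝ) ≤ 2 ^ c₀ := one_le_pow₀ (by norm_num)
  refine ⟨2 * (C * 2 ^ c₀), by nlinarith only [hC, h20], ?_⟩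
  intro m c i G Q g a t M lam b b' hi hc hdeg hdep hQ hQd hM0 hl0 hM hb hb' hn hbb
  have hDi : D * dga (fun _ => D) i ≤ D' := by
    rw [hD']
    exact Finset.single_le_sum (f := fun i => D * dga (fun _ => D) i) (fun _ _ => Nat.zero_le _)
      (mem_range.2 hi)
  have hCc : (1 : ℝ) ≤ C * 2 ^ c₀ := by nlinarith only [hC, h20]
  rcases le_or_gt lam 1 with h1 | h1
  · rcases hl0.eq_or_lt with h0 | h0
    · -- no change
      have h2 : eval b' Q = eval b Q := by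
        refine hQ _ _ hn ?_
        have key : ∀ k ≤ i, ∀ l < k, b' (some (c l)) = b (some (c l)) := by
          intro k
          induction k with
          | zero => exact fun _ l hl => absurd hl (Nat.not_lt_zero l)
          | succ k ih =>
            intro hk l hl
            rcases Nat.lt_or_ge l k with h3 | h3
            · exact ih (by omega) l h3
            · have h4 : l = k := by omega
              subst h4
              have h5 := hbb l (by omega)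
              rw [← h0, zero_div, hdep l b' b hn (ih (by omega))] at h5
              have h6 := abs_nonpos_iff.1 h5
              linarith only [h6]
        exact key i le_rfl
      rw [h2, sub_self, abs_zero, ← h0, mul_zero]
    · -- the curve from `b` to `b'`
      obtain ⟨p, q1, q2, q3, q4, q5⟩ := curve_all (K := fun _ => D) hc hdeg hdep b b' i le_rfl
      obtain ⟨f, hf⟩ : ∃ f : Polynomial ℝ, f = (MvPolynomial.aeval p Q).comp
          (Polynomial.C (1 / lam) * Polynomial.X) := ⟨_, rfl⟩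
      have hfe : ∀ s, f.eval s = eval (fun o => (p o).eval (s / lam)) Q := by
        intro s
        have e1 : (Polynomial.C (1 / lam) * Polynomial.X).eval s = s / lam := by
          simp only [Polynomial.eval_mul, Polynomial.eval_C, Polynomial.eval_X]
          ring
        rw [hf, Polynomial.eval_comp, e1, Pool.KBX.eval_aeval_poly]
      have hfd : f.natDegree ≤ D' := by
        rw [hf]
        refine Polynomial.natDegree_comp_le.trans ?_
        calc (MvPolynomial.aeval p Q).natDegree *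
              (Polynomial.C (1 / lam : ℝ) * Polynomial.X).natDegree ≤ D' * 1 :=
              Nat.mul_le_mul ((natDegree_aeval_mul Q p q1 hQd).trans hDi)
                ((Polynomial.natDegree_C_mul_le _ _).trans Polynomial.natDegree_X_le)
          _ = D' := mul_one _
      have h6 := hlip f (2 ^ c₀ * M) hfd (by
        intro τ hτ
        rw [hfe]
        have hs0 : 0 ≤ τ / lam := div_nonneg hτ.1 h0.le
        have hs1 : τ / lam * lam ≤ 1 := by
          rw [div_mul_cancel₀ _ h0.ne']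
          exact hτ.2
        refine hdbl (c := c) (G := G) (Q := Q) (g := g) (a := a) (t := t) (M := M) hi hc hdeg
          hdep hQ hQd hM0 hM _ ?_ fun l hl => ?_
        · show |(p none).eval (τ / lam) - t| ≤ _
          have e1 : (p none).eval (τ / lam) - t = b none - t := by
            rw [q2, hn]; ring
          rw [e1]
          exact hb.1
        · show |(p (some (c l))).eval (τ / lam) - eval (fun o => (p o).eval (τ / lam)) (G l)| ≤ _
          rw [q3 l hl, add_sub_cancel_left]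
          refine (abs_add_le _ _).trans ?_
          rw [abs_mul, abs_of_nonneg hs0]
          have h7 : τ / lam * |(b' (some (c l)) - eval b' (G l)) - (b (some (c l)) -
              eval b (G l))| ≤ 1 / 2 ^ g l := by
            calc _ ≤ τ / lam * (lam / 2 ^ g l) := mul_le_mul_of_nonneg_left (hbb l hl) hs0
              _ = (τ / lam * lam) / 2 ^ g l := by ring
              _ ≤ 1 / 2 ^ g l := div_le_div_of_nonneg_right hs1 (by positivity)
          have h8 : (4 : ℝ) / 2 ^ g l = 4 * (1 / 2 ^ g l) := by ring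
          have h9 : (0 : ℝ) ≤ 1 / 2 ^ g l := by positivity
          rw [h8]
          linarith only [hb.2 l hl, h7, h9]) lam 0 (by rw [abs_of_pos h0]; linarith only [h1])
            (by simp)
      rw [hfe, hfe, div_self h0.ne', zero_div, sub_zero, abs_of_pos h0] at h6
      have e0 : eval (fun o => (p o).eval 0) Q = eval b Q := hQ _ _ (by
        show (p none).eval 0 = b none
        rw [q2]; ring) q4
      have e1 : eval (fun o => (p o).eval 1) Q = eval b' Q := hQ _ _ (by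
        show (p none).eval 1 = b' none
        rw [q2]; ring) q5
      rw [e0, e1] at h6
      refine h6.trans ?_
      have : 0 ≤ C * 2 ^ c₀ * M * lam := by positivity
      nlinarith only [this]
  · have h2 := hM b hb
    have h3 := hM b' hb'
    have h4 : |eval b' Q - eval b Q| ≤ 2 * M := by
      rw [abs_le] at h2 h3 ⊢
      constructor <;> linarith only [h2.1, h2.2, h3.1, h3.2]
    refine h4.trans ?_
    have h5 : (1 : ℝ) ≤ C * 2 ^ c₀ * lam := by nlinarith only [hCc, h1]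
    nlinarith only [h5, hM0]

/-- **The tilts** of two labels of one target on the natural boxes of a chain without relations:
the increments of the difference, in terms of the heights. -/
theorem relv_inc (D r : ℕ) : ∃ C : ℝ, 1 ≤ C ∧ ∀ {m J : ℕ} {F : Fam m J} {c : ℕ → Fin m}
    {i a w : ℕ} {g : ℕ → ℕ} {h : ℕ} {κ : ℝ} {B₀ B' : F.Ω → Prop}
    {G : PtT F → ℕ → MvPolynomial (Option (Fin m)) ℝ}, i < r → Set.InjOn c (Set.Iio i) →
    RelvF F c i a w g D h κ B₀ G → (∀ y l, (G y l).totalDegree ≤ D) → (∀ y l, DepC c l (G y l)) →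
    Sub B' B₀ → κ * Pe F.p B₀ ≤ Pe F.p B' →
    ∀ {X₁ X₂ : PtT F → MvPolynomial (Option (Fin m)) ℝ}
    {Y₁ Y₂ : LnT F → MvPolynomial (Option (Fin m)) ℝ} {x : F.Ω → ℝ} {M : ℝ}, 0 < M →
    (∀ y, (X₁ y).totalDegree ≤ D) → (∀ y, (X₂ y).totalDegree ≤ D) →
    (∀ s, (Y₁ s).totalDegree ≤ D) → (∀ s, (Y₂ s).totalDegree ≤ D) →
    (∀ y, DepC c i (X₁ y)) → (∀ y, DepC c i (X₂ y)) → (∀ s, DepC c i (Y₁ s)) →
    (∀ s, DepC c i (Y₂ s)) →
    (∀ ω, B' ω → |x ω - eval (bt F ω) (X₁ (ptr F J ω))| ≤ M) →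
    (∀ ω, B' ω → |x ω - eval (bt F ω) (X₂ (ptr F J ω))| ≤ M) →
    (∀ ω, B' ω → ∀ b, NBx c (G (ptr F J ω)) g a (F.t ω) i b →
      |eval b (X₁ (ptr F J ω)) - eval b (Y₁ (slam F w ω))| ≤ M) →
    (∀ ω, B' ω → ∀ b, NBx c (G (ptr F J ω)) g a (F.t ω) i b →
      |eval b (X₂ (ptr F J ω)) - eval b (Y₂ (slam F w ω))| ≤ M) →
    ∃ B'' : F.Ω → Prop, Sub B'' B' ∧ Pe F.p B' / 2 ≤ Pe F.p B'' ∧ ∀ ω, B'' ω →
      (∀ b, NBx c (G (ptr F J ω)) g a (F.t ω) i b →
        |eval b (X₁ (ptr F J ω)) - eval b (X₂ (ptr F J ω))| ≤ 2 ^ (h + 1) * M) ∧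
      ∀ (lam : ℝ) (b b' : Option (Fin m) → ℝ), 0 ≤ lam →
        NBx c (G (ptr F J ω)) g a (F.t ω) i b → NBx c (G (ptr F J ω)) g a (F.t ω) i b' →
        b' none = b none →
        (∀ l < i, |(b' (some (c l)) - eval b' (G (ptr F J ω) l)) -
          (b (some (c l)) - eval b (G (ptr F J ω) l))| ≤ lam / 2 ^ g l) →
        |(eval b' (X₁ (ptr F J ω)) - eval b' (X₂ (ptr F J ω))) -
          (eval b (X₁ (ptr F J ω)) - eval b (X₂ (ptr F J ω)))| ≤ C * (2 ^ (h + 1) * M) * lam := by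
  obtain ⟨C, hC, hinc⟩ := nbx_inc D r
  refine ⟨C, hC, ?_⟩
  intro m J F c i a w g h κ B₀ B' G hi hc hR hdeg hdep hB hP X₁ X₂ Y₁ Y₂ x M hM dX₁ dX₂ dY₁ dY₂
    cX₁ cX₂ cY₁ cY₂ p₁ p₂ t₁ t₂
  obtain ⟨B'', k1, k2, k3⟩ := relv_two hR hB hP hM dX₁ dX₂ dY₁ dY₂ cX₁ cX₂ cY₁ cY₂ p₁ p₂ t₁ t₂
  refine ⟨B'', k1, k2, fun ω hω => ⟨k3 ω hω, fun lam b b' hl hb hb' hn hbb => ?_⟩⟩
  have h1 := hinc (c := c) (G := G (ptr F J ω)) (Q := X₁ (ptr F J ω) - X₂ (ptr F J ω)) (g := g)
    (a := a) (t := F.t ω) (M := 2 ^ (h + 1) * M) (lam := lam) (b := b) (b' := b') hi hc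
    (hdeg _) (hdep _) (fun y y' hn hy => by
      rw [map_sub, map_sub, cX₁ _ y y' hn hy, cX₂ _ y y' hn hy])
    ((totalDegree_sub _ _).trans (max_le (dX₁ _) (dX₂ _))) (by positivity) hl
    (fun b hb => by rw [map_sub]; exact k3 ω hω b hb) hb hb' hn hbb
  rw [map_sub, map_sub] at h1
  exact h1

open Pool.ISO in
/-- **The natural increments of a label over re-centred boxes**: a label `Gt` of the target, and the
label `Γ i` of a chain without relations. -/
theorem relv_rcn {F : Fam m J} {c : ℕ → Fin m} {i a w e : ℕ} {g : ℕ → ℕ} {D h : ℕ} {κ : ℝ}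
    {K : ℕ → ℕ} {B₀ B' : F.Ω → Prop} {Γ : PtT F → ℕ → MvPolynomial (Option (Fin m)) ℝ}
    {Hm : LnT F → ℕ → MvPolynomial (Option (Fin m)) ℝ}
    (hR : RelvF F c i a w g D h κ B₀ Γ) (hB : Sub B' B₀) (hP : κ * Pe F.p B₀ ≤ Pe F.p B')
    (hL : ChOK F c (i + 1) K a w e g B' Γ Hm) (hK : K i ≤ D)
    {Gt : PtT F → MvPolynomial (Option (Fin m)) ℝ} {Ht : LnT F → MvPolynomial (Option (Fin m)) ℝ}
    {p : ℕ} (dG : ∀ y, (Gt y).totalDegree ≤ D) (dH : ∀ s, (Ht s).totalDegree ≤ D)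
    (cG : ∀ y, DepC c i (Gt y)) (cH : ∀ s, DepC c i (Ht s))
    (pos : ∀ ω, B' ω → |F.x ω (c i) - eval (bt F ω) (Gt (ptr F J ω))| ≤ 1 / 2 ^ p)
    (agr : ∀ ω, B' ω → ∀ b, NBx c (Γ (ptr F J ω)) g a (F.t ω) i b →
      |eval b (Gt (ptr F J ω)) - eval b (Ht (slam F w ω))| ≤ 1 / 2 ^ p) :
    ∃ B'' : F.Ω → Prop, Sub B'' B' ∧ Pe F.p B' / 2 ≤ Pe F.p B'' ∧ ∀ ω, B'' ω →
      ∀ b, NBx c (Γ (ptr F J ω)) g a (F.t ω) i b →
        |eval b (Gt (ptr F J ω)) - eval b (Γ (ptr F J ω) i)| ≤ 2 ^ (h + 1) / 2 ^ min p (g i) ∧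
        |rdif (Gt (ptr F J ω)) (Γ (ptr F J ω) i) (bt F ω) b| ≤ 2 ^ (h + 2) / 2 ^ min p (g i) := by
  have m1 : (1 : ℝ) / 2 ^ p ≤ 1 / 2 ^ min p (g i) := inv_mono (min_le_left _ _)
  have m2 : (1 : ℝ) / 2 ^ g i ≤ 1 / 2 ^ min p (g i) := inv_mono (min_le_right _ _)
  obtain ⟨B'', k1, k2, k3⟩ := relv_two (X₁ := Gt) (X₂ := fun y => Γ y i) (Y₁ := Ht)
    (Y₂ := fun s => Hm s i) (x := fun ω => F.x ω (c i)) (M := 1 / 2 ^ min p (g i)) hR hB hP
    (by positivity) dG (fun y => (hL.degG y i).trans hK) dH (fun s => (hL.degH s i).trans hK) cG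
    (fun y => hL.depG y i) cH (fun s => hL.depH s i) (fun ω hω => (pos ω hω).trans m1)
    (fun ω hω => (hL.pos ω hω i (Nat.lt_succ_self i)).trans m2)
    (fun ω hω b hb => (agr ω hω b hb).trans m1)
    (fun ω hω b hb => (hL.agr ω hω i (Nat.lt_succ_self i) b hb).trans m2)
  refine ⟨B'', k1, k2, fun ω hω b hb => ?_⟩
  have hs : NBx c (Γ (ptr F J ω)) g a (F.t ω) i (bt F ω) := hL.self (k1 ω hω) (Nat.le_succ i)
  have h1 := k3 ω hω b hb
  have h2 := k3 ω hω _ hs
  rw [mul_one_div] at h1 h2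
  refine ⟨h1, ?_⟩
  have h3 : (2 : ℝ) ^ (h + 2) / 2 ^ min p (g i) = 2 ^ (h + 1) / 2 ^ min p (g i) +
      2 ^ (h + 1) / 2 ^ min p (g i) := by
    rw [pow_succ 2 (h + 1)]
    ring
  unfold rdif
  rw [h3]
  rw [abs_le] at h1 h2 ⊢
  constructor <;> linarith only [h1.1, h1.2, h2.1, h2.2]

end Pool.CHT
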