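import Pool.Agent.H95.GN.Rla

/-!
# Relations: the coefficients

The coefficients of the Taylor polynomials of a relation in the direction of the last coordinate,
at the label of this coordinate, are relations over the coordinates before.
-/

set_option autoImplicit false

namespace Pool.RLV

open Finset Real MvPolynomial
open Pool.GEN

section
variable {σ : Type} [DecidableEq σ]

/-- **The coefficients of the slices**, in units `s`, at the graph of `S`. -/
noncomputable def cof (κ : σ) (s : ℝ) (S R : MvPolynomial σ ℝ) (k : ℕ) : MvPolynomial σ ℝ :=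
  C (s ^ k / k.factorial) * aeval (sbk κ S) ((pderiv κ)^[k] R)

theorem cof_eval (κ : σ) (s : ℝ) (S R : MvPolynomial σ ℝ) (k : ℕ) (b : σ → ℝ) :
    eval b (cof κ s S R k) = s ^ k / k.factorial *
      eval (Function.update b κ (eval b S)) ((pderiv κ)^[k] R) := by
  unfold cof
  rw [map_mul, eval_C, eval_sbk]

omit [DecidableEq σ] in
theorem iter_deg [Fintype σ] (κ : σ) {R : MvPolynomial σ ℝ} {D : ℕ} (h : R.totalDegree ≤ D)
    (k : ℕ) : ((pderiv κ)^[k] R).totalDegree ≤ D := by
  induction k with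
  | zero => exact h
  | succ k ih =>
    rw [Function.iterate_succ_apply']
    exact totalDegree_pdσ ih _

theorem cof_deg [Fintype σ] (κ : σ) (s : ℝ) {S R : MvPolynomial σ ℝ} {D d : ℕ}
    (hR : R.totalDegree ≤ D) (hd : 1 ≤ d) (hS : S.totalDegree ≤ d) (k : ℕ) :
    (cof κ s S R k).totalDegree ≤ d * D := by
  unfold cof
  refine (totalDegree_mul _ _).trans ?_
  rw [totalDegree_C, zero_add]
  exact deg_sbk κ (iter_deg κ hR k) hd hS

theorem abs_fac (s x : ℝ) (hs : 0 ≤ s) (k : ℕ) :
    |s ^ k / k.factorial * x| ≤ s ^ k * |x| := by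
  have h1 : (1 : ℝ) ≤ k.factorial := by exact_mod_cast Nat.succ_le_of_lt (Nat.factorial_pos k)
  rw [abs_mul, abs_of_nonneg (by positivity : (0 : ℝ) ≤ s ^ k / k.factorial)]
  refine mul_le_mul_of_nonneg_right ?_ (abs_nonneg _)
  exact div_le_self (by positivity) h1

end

/-- The Taylor polynomial. -/
theorem tay_sum {D : ℕ} (p : Polynomial ℝ) (hp : p.natDegree ≤ D) (x y : ℝ) :
    p.eval y = ∑ k ∈ range (D + 1),
      (Polynomial.derivative^[k] p).eval x / k.factorial * (y - x) ^ k := by
  have h1 : p.eval y = (Polynomial.taylor x p).eval (y - x) := by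
    rw [Polynomial.taylor_eval, sub_add_cancel]
  rw [h1, Polynomial.eval_eq_sum_range' (n := D + 1) (by
    rw [Polynomial.natDegree_taylor]
    exact Nat.lt_succ_of_le hp)]
  refine Finset.sum_congr rfl fun k _ => ?_
  congr 1
  rw [Polynomial.taylor_coeff]
  have h2 : (k.factorial : ℝ) * (Polynomial.hasseDeriv k p).eval x =
      (Polynomial.derivative^[k] p).eval x := by
    rw [← Polynomial.factorial_smul_hasseDeriv]
    simp
  have h3 : (k.factorial : ℝ) ≠ 0 := by positivity
  rw [← h2, mul_div_cancel_left₀ _ h3]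

section
variable {m : ℕ} {c : ℕ → Fin m} {j : ℕ}

theorem cof_dep {S R : MvPolynomial (Option (Fin m)) ℝ} (s : ℝ) (hS : DepC c j S)
    (hR : DepC c (j + 1) R) (k : ℕ) : DepC c j (cof (some (c j)) s S R k) :=
  dep_mul (dep_C _) (sbk_dep hS (iter_dep j hR k))

/-- The graph is in the box. -/
theorem nbx_graph {G : ℕ → MvPolynomial (Option (Fin m)) ℝ} {q : ℕ → ℕ} {a : ℕ} {t : ℝ}
    (hc : Set.InjOn c (Set.Iio (j + 1))) (hdep : ∀ l, DepC c l (G l))
    {b : Option (Fin m) → ℝ} (hb : NBx c G q a t j b) :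
    NBx c G q a t (j + 1) (Function.update b (some (c j)) (eval b (G j))) := by
  refine nbx_upd hc hdep hb ?_
  rw [sub_self, abs_zero]
  positivity

/-- Some coefficient is not small. -/
theorem cof_low {G : ℕ → MvPolynomial (Option (Fin m)) ℝ} {q : ℕ → ℕ} {a Kd : ℕ} {t : ℝ}
    {Q : MvPolynomial (Option (Fin m)) ℝ} (hQ : Q.totalDegree ≤ Kd)
    {b : Option (Fin m) → ℝ} (hb : NBx c G q a t (j + 1) b) :
    ∃ k < Kd + 1, |eval b Q| ≤ (Kd + 1) * |eval b (cof (some (c j)) (1 / 2 ^ q j) (G j) Q k)| := by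
  by_contra hcon
  push Not at hcon
  have hs0 : (0 : ℝ) < 1 / 2 ^ q j := by positivity
  have h1 : eval b Q = ∑ k ∈ range (Kd + 1),
      eval b (cof (some (c j)) (1 / 2 ^ q j) (G j) Q k) *
        ((b (some (c j)) - eval b (G j)) / (1 / 2 ^ q j)) ^ k := by
    have h2 : eval b Q = (slc (some (c j)) b Q).eval (b (some (c j))) := by
      rw [slc_eval, Function.update_eq_self]
    rw [h2, tay_sum _ (slc_deg _ _ hQ) (eval b (G j)) (b (some (c j)))]
    refine Finset.sum_congr rfl fun k _ => ?_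
    rw [cof_eval, slc_iter, slc_eval, div_pow]
    field_simp
    rw [one_pow, mul_one, mul_pow]
    ring
  have h3 : ∀ k ∈ range (Kd + 1), |eval b (cof (some (c j)) (1 / 2 ^ q j) (G j) Q k) *
      ((b (some (c j)) - eval b (G j)) / (1 / 2 ^ q j)) ^ k| < |eval b Q| / (Kd + 1) ∨
      eval b Q = 0 := by
    intro k hk
    rcases eq_or_ne (eval b Q) 0 with h0 | h0
    · exact Or.inr h0
    · left
      rw [abs_mul, abs_pow]
      have h4 := hcon k (mem_range.1 hk)
      have h5 : |(b (some (c j)) - eval b (G j)) / (1 / 2 ^ q j)| ≤ 1 := by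
        rw [abs_div, abs_of_pos hs0, div_le_one hs0]
        exact hb.2 j (Nat.lt_succ_self j)
      have h6 : |(b (some (c j)) - eval b (G j)) / (1 / 2 ^ q j)| ^ k ≤ 1 :=
        pow_le_one₀ (abs_nonneg _) h5
      rw [lt_div_iff₀ (by positivity)]
      calc |eval b (cof (some (c j)) (1 / 2 ^ q j) (G j) Q k)| *
            |(b (some (c j)) - eval b (G j)) / (1 / 2 ^ q j)| ^ k * (Kd + 1)
          ≤ |eval b (cof (some (c j)) (1 / 2 ^ q j) (G j) Q k)| * 1 * (Kd + 1) :=
            mul_le_mul_of_nonneg_right (mul_le_mul_of_nonneg_left h6 (abs_nonneg _))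
              (by positivity)
        _ = (Kd + 1) * |eval b (cof (some (c j)) (1 / 2 ^ q j) (G j) Q k)| := by ring
        _ < |eval b Q| := h4
  rcases eq_or_ne (eval b Q) 0 with h0 | h0
  · have h4 := hcon 0 (Nat.succ_pos Kd)
    rw [h0, abs_zero] at h4
    have : 0 ≤ ((Kd : ℝ) + 1) * |eval b (cof (some (c j)) (1 / 2 ^ q j) (G j) Q 0)| := by
      positivity
    linarith only [h4, this]
  · have h4 : |eval b Q| < |eval b Q| := by
      calc |eval b Q| ≤ ∑ k ∈ range (Kd + 1), |eval b (cof (some (c j)) (1 / 2 ^ q j) (G j) Q k) *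
            ((b (some (c j)) - eval b (G j)) / (1 / 2 ^ q j)) ^ k| := by
            conv_lhs => rw [h1]
            exact Finset.abs_sum_le_sum_abs _ _
        _ < ∑ k ∈ range (Kd + 1), |eval b Q| / (Kd + 1) := by
            refine Finset.sum_lt_sum_of_nonempty ⟨0, mem_range.2 (Nat.succ_pos Kd)⟩ fun k hk => ?_
            exact (h3 k hk).resolve_right h0
        _ = |eval b Q| := by
            rw [Finset.sum_const, card_range, nsmul_eq_mul]
            push_cast
            field_simp
    exact lt_irrefl _ h4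

end

/-- **The coefficient step**, at one sample. -/
theorem cof_step (Kd : ℕ) : ∃ κ : ℕ, ∀ {m j : ℕ} {c : ℕ → Fin m} {K : ℕ → ℕ}
    {G H : ℕ → MvPolynomial (Option (Fin m)) ℝ} {q p : ℕ → ℕ} {a e h h' : ℕ}
    {b₀ : Option (Fin m) → ℝ} {M : ℝ} {Dx Dl : MvPolynomial (Option (Fin m)) ℝ},
    NwD c j K G H q p a e b₀ → Dx.totalDegree ≤ Kd → Dl.totalDegree ≤ Kd → 0 < M →
    (∀ b, NBx c G q a (b₀ none) (j + 1) b → |eval b Dx| ≤ M) →
    (∀ b, NBx c G q a (b₀ none) (j + 1) b → |eval b Dx - eval b Dl| ≤ M / 2 ^ h) →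
    (∀ k ≤ Kd, |eval b₀ ((pderiv (some (c j)))^[k] Dx)| ≤ M / 2 ^ h' * (2 ^ q j) ^ k) →
    h' ≤ h → q j + h' ≤ p j →
    (∀ k, ∀ b, NBx c G q a (b₀ none) j b →
      |eval b (cof (some (c j)) (1 / 2 ^ q j) (G j) Dx k)| ≤ 2 ^ κ * M) ∧
    (∀ k, ∀ b, NBx c G q a (b₀ none) j b →
      |eval b (cof (some (c j)) (1 / 2 ^ q j) (G j) Dx k) -
        eval b (cof (some (c j)) (1 / 2 ^ q j) (H j) Dl k)| ≤ 2 ^ κ * M / 2 ^ h') ∧
    (∀ k, |eval b₀ (cof (some (c j)) (1 / 2 ^ q j) (G j) Dx k)| ≤ 2 ^ κ * M / 2 ^ h') := by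
  obtain ⟨C₁, hC₁, h₁⟩ := ntop Kd
  obtain ⟨C₂, hC₂, h₂⟩ := utay Kd
  obtain ⟨κ, hκ⟩ := pow_unbounded_of_one_lt (3 * (C₁ * C₂)) (one_lt_two (α := ℝ))
  have hC1κ : C₁ ≤ C₁ * C₂ := le_mul_of_one_le_right (by linarith) hC₂
  have hC2κ : C₂ ≤ C₁ * C₂ := le_mul_of_one_le_left (by linarith) hC₁
  have hC3 : 3 * C₁ ≤ 2 ^ κ := by linarith
  have hC1 : C₁ ≤ 2 ^ κ := by linarith
  have hC2 : C₂ ≤ 2 ^ κ := by nlinarith
  refine ⟨κ, ?_⟩
  intro m j c K G H q p a e h h' b₀ M Dx Dl hD hdx hdl hM hup htwo hown hh hp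
  obtain ⟨s, hs⟩ : ∃ s : ℝ, s = 1 / 2 ^ q j := ⟨_, rfl⟩
  have h2q : (0 : ℝ) < 2 ^ q j := by positivity
  have hs0 : 0 < s := by rw [hs]; positivity
  have hsq : s * 2 ^ q j = 1 := by rw [hs]; field_simp
  have hsk : ∀ k : ℕ, s ^ k * (2 ^ q j) ^ k = 1 := fun k => by rw [← mul_pow, hsq, one_pow]
  rw [← hs]
  refine ⟨fun k b hb => ?_, fun k b hb => ?_, fun k => ?_⟩
  · rw [cof_eval]
    refine (abs_fac s _ hs0.le k).trans ?_
    have h3 := h₁ hD.inj hD.depG hdx hup _ (nbx_graph hD.inj hD.depG hb) k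
    calc s ^ k * |eval (Function.update b (some (c j)) (eval b (G j)))
          ((pderiv (some (c j)))^[k] Dx)| ≤ s ^ k * (C₁ * M * (2 ^ q j) ^ k) :=
          mul_le_mul_of_nonneg_left h3 (by positivity)
      _ = C₁ * M * (s ^ k * (2 ^ q j) ^ k) := by ring
      _ = C₁ * M := by rw [hsk, mul_one]
      _ ≤ 2 ^ κ * M := mul_le_mul_of_nonneg_right hC1 hM.le
  · -- two sides
    have h3 := h₁ (Q := Dx - Dl) (M := M / 2 ^ h) hD.inj hD.depG
      ((totalDegree_sub _ _).trans (max_le hdx hdl))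
      (fun b hb => by rw [map_sub]; exact htwo b hb) _ (nbx_graph hD.inj hD.depG hb) k
    have hit : (pderiv (some (c j)))^[k] (Dx - Dl) = (pderiv (some (c j)))^[k] Dx -
        (pderiv (some (c j)))^[k] Dl := by
      induction k with
      | zero => rfl
      | succ k ih =>
        rw [Function.iterate_succ_apply', Function.iterate_succ_apply',
          Function.iterate_succ_apply', ← map_sub]
        congr 1
        exact ih (h₁ (Q := Dx - Dl) (M := M / 2 ^ h) hD.inj hD.depG
          ((totalDegree_sub _ _).trans (max_le hdx hdl))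
          (fun b hb => by rw [map_sub]; exact htwo b hb) _ (nbx_graph hD.inj hD.depG hb) k)
    rw [hit, map_sub] at h3
    -- the line side
    have hlup : ∀ b, NBx c G q a (b₀ none) (j + 1) b → |eval b Dl| ≤ 2 * M := by
      intro b hb
      have h4 := hup b hb
      have h5 := htwo b hb
      have h6 : M / 2 ^ h ≤ M := div_le_self hM.le (one_le_pow₀ (by norm_num))
      rw [abs_le] at h4 h5 ⊢
      constructor <;> linarith only [h4.1, h4.2, h5.1, h5.2, h6]
    have hagr := hD.agr j le_rfl b hb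
    have hps : (1 : ℝ) / 2 ^ p j ≤ s / 2 ^ h' := by
      rw [hs, div_div, ← pow_add]
      exact p2le hp
    have hps1 : s / 2 ^ h' ≤ s := div_le_self hs0.le (one_le_pow₀ (by norm_num))
    have h4 := umv (p := slc (some (c j)) b ((pderiv (some (c j)))^[k] Dl))
      (S := C₁ * (2 * M) * (2 ^ q j) ^ (k + 1)) (x := eval b (H j)) (y := eval b (G j)) (by
        intro z hz
        rw [slc_der, slc_eval, ← Function.iterate_succ_apply' (f := pderiv (some (c j)))]
        refine h₁ hD.inj hD.depG hdl hlup _ (nbx_upd hD.inj hD.depG hb ?_) (k + 1)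
        have h5 : |z - eval b (G j)| ≤ |eval b (G j) - eval b (H j)| := by
          rcases Set.mem_uIcc.1 hz with h6 | h6
          · rw [abs_sub_comm z, abs_of_nonneg (by linarith only [h6.2] : 0 ≤ eval b (G j) - z)]
            refine le_trans ?_ (le_abs_self _)
            linarith only [h6.1]
          · rw [abs_of_nonneg (by linarith only [h6.1] : 0 ≤ z - eval b (G j)), abs_sub_comm]
            refine le_trans ?_ (le_abs_self _)
            linarith only [h6.2]
        refine (h5.trans hagr).trans ?_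
        rw [← hs]
        exact hps.trans hps1)
    rw [slc_eval, slc_eval] at h4
    have h5 : C₁ * (2 * M) * (2 ^ q j) ^ (k + 1) * |eval b (G j) - eval b (H j)| ≤
        C₁ * (2 * M) * (2 ^ q j) ^ (k + 1) * (s / 2 ^ h') :=
      mul_le_mul_of_nonneg_left (hagr.trans hps) (by positivity)
    have h6 := h4.trans h5
    rw [cof_eval, cof_eval, ← mul_sub]
    refine (abs_fac s _ hs0.le k).trans ?_
    have e1 : eval (Function.update b (some (c j)) (eval b (G j)))
          ((pderiv (some (c j)))^[k] Dx) -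
        eval (Function.update b (some (c j)) (eval b (H j))) ((pderiv (some (c j)))^[k] Dl) =
        (eval (Function.update b (some (c j)) (eval b (G j))) ((pderiv (some (c j)))^[k] Dx) -
          eval (Function.update b (some (c j)) (eval b (G j))) ((pderiv (some (c j)))^[k] Dl)) +
        (eval (Function.update b (some (c j)) (eval b (G j))) ((pderiv (some (c j)))^[k] Dl) -
          eval (Function.update b (some (c j)) (eval b (H j)))
            ((pderiv (some (c j)))^[k] Dl)) := by ring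
    rw [e1]
    have h7 : M / 2 ^ h ≤ M / 2 ^ h' :=
      div_le_div_of_nonneg_left hM.le (by positivity) (pow_le_pow_right₀ (by norm_num) hh)
    calc s ^ k * |(eval (Function.update b (some (c j)) (eval b (G j)))
            ((pderiv (some (c j)))^[k] Dx) -
          eval (Function.update b (some (c j)) (eval b (G j))) ((pderiv (some (c j)))^[k] Dl)) +
        (eval (Function.update b (some (c j)) (eval b (G j))) ((pderiv (some (c j)))^[k] Dl) -
          eval (Function.update b (some (c j)) (eval b (H j)))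
            ((pderiv (some (c j)))^[k] Dl))|
        ≤ s ^ k * (C₁ * (M / 2 ^ h) * (2 ^ q j) ^ k +
            C₁ * (2 * M) * (2 ^ q j) ^ (k + 1) * (s / 2 ^ h')) :=
          mul_le_mul_of_nonneg_left ((abs_add_le _ _).trans (add_le_add h3 h6)) (by positivity)
      _ = C₁ * (M / 2 ^ h) * (s ^ k * (2 ^ q j) ^ k) +
            C₁ * (2 * M) * (s ^ k * (2 ^ q j) ^ k) * (s * 2 ^ q j) / 2 ^ h' := by ring
      _ = C₁ * (M / 2 ^ h) + 2 * C₁ * M / 2 ^ h' := by rw [hsk, hsq]; ring
      _ ≤ C₁ * (M / 2 ^ h') + 2 * C₁ * M / 2 ^ h' := by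
          have := mul_le_mul_of_nonneg_left h7 (by linarith : 0 ≤ C₁)
          linarith only [this]
      _ = 3 * C₁ * M / 2 ^ h' := by ring
      _ ≤ 2 ^ κ * M / 2 ^ h' := by
          refine div_le_div_of_nonneg_right ?_ (by positivity)
          exact mul_le_mul_of_nonneg_right hC3 hM.le
  · rw [cof_eval]
    refine (abs_fac s _ hs0.le k).trans ?_
    obtain ⟨φ, hφ⟩ : ∃ φ : Polynomial ℝ, φ = (slc (some (c j)) b₀ Dx).comp
        (Polynomial.C (b₀ (some (c j))) + Polynomial.C s * Polynomial.X) := ⟨_, rfl⟩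
    have hφk : ∀ (k : ℕ) (x : ℝ), (Polynomial.derivative^[k] φ).eval x = s ^ k *
        eval (Function.update b₀ (some (c j)) (b₀ (some (c j)) + s * x))
          ((pderiv (some (c j)))^[k] Dx) := by
      intro k x
      rw [hφ, iter_comp, Polynomial.eval_mul, Polynomial.eval_C, comp_lin_eval, slc_iter,
        slc_eval]
    have hφd : φ.natDegree ≤ Kd := by
      rw [hφ]
      exact comp_lin_deg (slc_deg _ _ hdx) _ _
    have h3 := h₂ φ (M / 2 ^ h') 0 hφd (fun k => by
      rcases Nat.lt_or_ge Kd k with hk | hk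
      · rw [Polynomial.iterate_derivative_eq_zero (lt_of_le_of_lt hφd hk), Polynomial.eval_zero,
          abs_zero]
        positivity
      · rw [hφk, mul_zero, add_zero, Function.update_eq_self, abs_mul,
          abs_of_pos (pow_pos hs0 k)]
        calc s ^ k * |eval b₀ ((pderiv (some (c j)))^[k] Dx)| ≤
              s ^ k * (M / 2 ^ h' * (2 ^ q j) ^ k) :=
              mul_le_mul_of_nonneg_left (hown k hk) (by positivity)
          _ = M / 2 ^ h' * (s ^ k * (2 ^ q j) ^ k) := by ring
          _ = M / 2 ^ h' := by rw [hsk, mul_one]) k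
      ((eval b₀ (G j) - b₀ (some (c j))) / s) (by
        rw [sub_zero, abs_div, abs_of_pos hs0, div_le_one hs0, abs_sub_comm]
        refine (hD.pos j le_rfl).trans ?_
        rw [hs]
        exact p2le (by omega))
    rw [hφk, mul_div_cancel₀ _ hs0.ne', add_sub_cancel, abs_mul,
      abs_of_pos (pow_pos hs0 k)] at h3
    refine h3.trans ?_
    calc C₂ * (M / 2 ^ h') = C₂ * M / 2 ^ h' := by ring
      _ ≤ 2 ^ κ * M / 2 ^ h' := by
          refine div_le_div_of_nonneg_right ?_ (by positivity)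
          exact mul_le_mul_of_nonneg_right hC2 hM.le

end Pool.RLV
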