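import Pool.Agent.H95.GN.UniT
import Pool.Agent.H54.GN.Lb

/-!
# One germ per line, for closed labels

`uni_dep`: the tube form for polynomials in the time and in the coordinates in `I`.

`uni_lb`: two closed labels of the coordinate `k` over the coordinates in `I` agree on the tube
around the line during the window, for most samples, if the coordinates in `I` are full given the
two labels and their own cells.
-/

set_option autoImplicit false

namespace Pool.UNJ

open Finset Real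
open Pool.Agent.H49.Ent Pool.Agent.H32.Dense Pool.STK Pool.BFL Pool.KA Pool.KSAT Pool.PB Pool.GEN

variable {m J : ℕ}

/-- Substitution of affine functions does not increase the degree. -/
theorem deg_affg {ι : Type} [Fintype ι] {n : ℕ} {f : ι → Pl n}
    (hf : ∀ i, (f i).totalDegree ≤ 1) (P : MvPolynomial ι ℝ) :
    (MvPolynomial.aeval f P).totalDegree ≤ P.totalDegree := by
  rw [MvPolynomial.aeval_def, MvPolynomial.eval₂_eq']
  refine MvPolynomial.totalDegree_finsetSum_le fun d hd => ?_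
  refine (MvPolynomial.totalDegree_mul _ _).trans ?_
  have h0 : (algebraMap ℝ (MvPolynomial (Fin n) ℝ) (MvPolynomial.coeff d P)).totalDegree = 0 := by
    rw [MvPolynomial.algebraMap_eq, MvPolynomial.totalDegree_C]
  rw [h0, zero_add]
  refine (MvPolynomial.totalDegree_finsetProd _ _).trans ?_
  have h1 : ∀ i ∈ (Finset.univ : Finset ι), ((f i) ^ d i).totalDegree ≤ d i := by
    intro i _
    refine (MvPolynomial.totalDegree_pow _ _).trans ?_
    calc d i * _ ≤ d i * 1 := Nat.mul_le_mul_left _ (hf i)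
      _ = d i := Nat.mul_one _
  refine (Finset.sum_le_sum h1).trans ?_
  have h3 : ∑ i, d i = d.sum fun _ e => e := by
    rw [Finsupp.sum_fintype _ _ fun _ => rfl]
  rw [h3]
  exact MvPolynomial.le_totalDegree hd

theorem eval_affg {ι : Type} [Fintype ι] {n : ℕ} (f : ι → Pl n) (P : MvPolynomial ι ℝ)
    (z : Fin n → ℝ) : MvPolynomial.eval z (MvPolynomial.aeval f P) =
      MvPolynomial.eval (fun i => MvPolynomial.eval z (f i)) P := by
  rw [MvPolynomial.aeval_def, MvPolynomial.eval₂_eq', map_sum, MvPolynomial.eval_eq']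
  refine Finset.sum_congr rfl fun d _ => ?_
  rw [map_mul, map_prod, MvPolynomial.algebraMap_eq, MvPolynomial.eval_C]
  congr 1
  refine Finset.prod_congr rfl fun i _ => ?_
  rw [map_pow]

/-- The cells of the coordinates in `I`, with the sides `2 ^ (-a i)`. -/
noncomputable def ceI (I : Finset (Fin m)) (a : Fin m → ℕ) (x : Fin m → ℝ) : Fin m → ℤ :=
  fun i => if i ∈ I then ⌊(2 : ℝ) ^ a i * x i⌋ else 0

/-- The tube around the line: the coordinates in `I` within `R / 2 ^ a i` of the line, the time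
within `R / 2 ^ w` of the own time. -/
def Tub (F : Fam m J) (I : Finset (Fin m)) (a : Fin m → ℕ) (w : ℕ) (R : ℝ) (ω : F.Ω)
    (b : Option (Fin m) → ℝ) : Prop :=
  |b none - F.t ω| ≤ R / 2 ^ w ∧
    ∀ i ∈ I, |b (some i) - (F.u ω i + b none * F.d ω i)| ≤ R / 2 ^ a i

/-- **One germ per line**, for polynomials in the time and the coordinates in `I`. -/
theorem uni_dep (m K : ℕ) (R : ℝ) (hR : 1 ≤ R) : ∃ C : ℝ, 1 ≤ C ∧
    ∀ (J : ℕ) (F : Fam m J) (q : F.Ω → ℝ) (I : Finset (Fin m)) (a : Fin m → ℕ) (w X : ℕ)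
      (Γ : Type) (c : F.Ω → Γ) (D : Γ → MvPolynomial (Option (Fin m)) ℝ) (Gd : F.Ω → Prop)
      (τ : Γ → ℝ) (θ e η : ℝ), IsLaw q →
      (J : ℝ) * Real.log 2 - e ≤ CH q F.T (fun ω => (F.l ω, F.Z ω)) → w + X ≤ J →
      Det q (slam F w) c → (∀ x, (D x).totalDegree ≤ K) →
      (∀ x, ∀ b b' : Option (Fin m) → ℝ, b none = b' none →
        (∀ i ∈ I, b (some i) = b' (some i)) →
        MvPolynomial.eval b (D x) = MvPolynomial.eval b' (D x)) →
      0 ≤ θ → 0 ≤ e → 0 < η → η ≤ 1 → (∀ x, 0 < τ x) →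
      I.card * (X * Real.log 2) - θ ≤ CH q (fun ω => ceI I (fun i => a i + X) (F.x ω))
        (fun ω => (ceI I a (F.x ω), c ω, F.W ω)) →
      Pb q (fun ω => ¬ Gd ω) ≤ η / C → C * (θ + e + 1) / η ≤ X * Real.log 2 →
      (∀ ω, Gd ω → |MvPolynomial.eval (bt F ω) (D (c ω))| ≤ τ (c ω)) →
      Pb q (fun ω => ¬ ∀ b, Tub F I a w R ω b →
        |MvPolynomial.eval b (D (c ω))| ≤ Real.exp (C * (θ + e + 1) / η) * τ (c ω)) ≤ η := by
  classical
  choose C hC hU using fun n : ℕ => uni_tube n K R hR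
  obtain ⟨C', hC'⟩ : ∃ C' : ℝ, C' = ∑ n ∈ Finset.range (m + 1), C n := ⟨_, rfl⟩
  have hCn : ∀ n, n ≤ m → C n ≤ C' := by
    intro n hn
    rw [hC']
    exact Finset.single_le_sum (f := C) (fun i _ => by linarith [hC i])
      (Finset.mem_range.2 (Nat.lt_succ_of_le hn))
  refine ⟨C', (hC 0).trans (hCn 0 (Nat.zero_le _)), ?_⟩
  intro J F q I a w X Γ c D Gd τ θ e η hq he hwX hc hD hdep hθ he0 hη hη1 hτ hV hGd hX hsm
  have h0 := hq.nonneg
  have hcard : I.card ≤ m := by
    have := Finset.card_le_univ I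
    rwa [Fintype.card_fin] at this
  obtain ⟨n, hn⟩ : ∃ n, n = I.card := ⟨_, rfl⟩
  rw [← hn] at hV hcard
  obtain ⟨σ, hσ⟩ : ∃ σ : Fin n → Fin m, ∀ i, i ∈ I ↔ ∃ j, σ j = i := by
    obtain ⟨E⟩ : Nonempty (Fin n ≃ {i // i ∈ I}) := ⟨(I.equivFinOfCardEq hn.symm).symm⟩
    refine ⟨fun j => E j, ?_⟩
    intro i
    constructor
    · intro hi
      refine ⟨E.symm ⟨i, hi⟩, ?_⟩
      change ((E (E.symm ⟨i, hi⟩) : {i // i ∈ I}) : Fin m) = i
      rw [Equiv.apply_symm_apply]
    · rintro ⟨j, rfl⟩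
      exact (E j).2
  obtain ⟨f, hf⟩ : ∃ f : Option (Fin m) → Pl (n + 1), f = fun o => match o with
    | none => MvPolynomial.X 0
    | some i => if h : ∃ j, σ j = i then MvPolynomial.X (Fin.succ h.choose) else 0 := ⟨_, rfl⟩
  have hfd : ∀ o, (f o).totalDegree ≤ 1 := by
    intro o
    rw [hf]
    rcases o with - | i
    · exact (MvPolynomial.totalDegree_X _).le
    · simp only
      split_ifs
      · exact (MvPolynomial.totalDegree_X _).le
      · rw [MvPolynomial.totalDegree_zero]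
        exact Nat.zero_le _
  have hev : ∀ (x : Γ) (b : Option (Fin m) → ℝ),
      MvPolynomial.eval (Fin.cons (b none) (fun j => b (some (σ j))) : Fin (n + 1) → ℝ)
        (MvPolynomial.aeval f (D x)) = MvPolynomial.eval b (D x) := by
    intro x b
    rw [eval_affg]
    refine hdep x _ _ ?_ ?_
    · simp only [hf, MvPolynomial.eval_X, Fin.cons_zero]
    · intro i hi
      obtain ⟨j, hj⟩ := (hσ i).1 hi
      have hex : ∃ j, σ j = i := ⟨j, hj⟩
      simp only [hf]
      rw [dif_pos hex, MvPolynomial.eval_X, Fin.cons_succ, hex.choose_spec]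
  have hcelI : ∀ (a : Fin m → ℕ) (ω ω' : F.Ω), ceI I a (F.x ω) = ceI I a (F.x ω') ↔
      cel (fun j => a (σ j)) (fun j => F.x ω (σ j)) =
        cel (fun j => a (σ j)) (fun j => F.x ω' (σ j)) := by
    intro a ω ω'
    constructor
    · intro h
      funext j
      have h1 := congrFun h (σ j)
      unfold ceI at h1
      have h2 : σ j ∈ I := (hσ _).2 ⟨j, rfl⟩
      rw [if_pos h2, if_pos h2] at h1
      exact h1
    · intro h
      funext i
      unfold ceI
      by_cases hi : i ∈ I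
      · rw [if_pos hi, if_pos hi]
        obtain ⟨j, hj⟩ := (hσ i).1 hi
        have h1 := congrFun h j
        unfold cel at h1
        simp only [hj] at h1
        exact h1
      · rw [if_neg hi, if_neg hi]
  have hV' : n * (X * Real.log 2) - θ ≤
      CH q (fun ω => cel (fun j => a (σ j) + X) (fun j => F.x ω (σ j)))
        (fun ω => (cel (fun j => a (σ j)) (fun j => F.x ω (σ j)), c ω, F.W ω)) := by
    refine hV.trans (le_of_eq (CH_congr h0 ?_ ?_ ?_ ?_))
    · intro ω ω' _ _ h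
      exact (hcelI (fun i => a i + X) ω ω').1 (Prod.ext_iff.mp h).1
    · intro ω ω' _ _ h
      exact (hcelI (fun i => a i + X) ω ω').2 (Prod.ext_iff.mp h).1
    · intro ω ω' _ _ h
      exact Prod.ext ((hcelI a ω ω').1 (Prod.ext_iff.mp h).1) (Prod.ext_iff.mp h).2
    · intro ω ω' _ _ h
      exact Prod.ext ((hcelI a ω ω').2 (Prod.ext_iff.mp h).1) (Prod.ext_iff.mp h).2
  have hXn : C n * (θ + e + 1) / η ≤ C' * (θ + e + 1) / η := by
    refine div_le_div_of_nonneg_right ?_ hη.le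
    exact mul_le_mul_of_nonneg_right (hCn n hcard) (by linarith)
  have key := hU n m J F q w X Γ c (fun j => a (σ j)) σ (fun x => MvPolynomial.aeval f (D x)) Gd τ
    θ e η hq he hwX hc (fun x => (deg_affg hfd _).trans (hD x)) hθ he0 hη hη1 hτ hV'
    (hGd.trans (div_le_div_of_nonneg_left hη.le (by linarith [hC n]) (hCn n hcard)))
    (hXn.trans hX) (by
      intro ω hω
      have h1 := hev (c ω) (bt F ω)
      have h2 : (Fin.cons (bt F ω none) (fun j => bt F ω (some (σ j))) : Fin (n + 1) → ℝ) =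
          Fin.cons (F.t ω) (fun j => F.x ω (σ j)) := rfl
      rw [h2] at h1
      rw [h1]
      exact hsm ω hω)
  refine le_trans (Pb_mono' h0 fun ω hω => ?_) key
  intro hall
  apply hω
  intro b hb
  have h1 := hall (b none) hb.1 (fun j => b (some (σ j)))
    (fun j => hb.2 (σ j) ((hσ _).2 ⟨j, rfl⟩))
  rw [hev] at h1
  refine h1.trans (mul_le_mul_of_nonneg_right (Real.exp_le_exp.2 hXn) (hτ _).le)

/-- **Two closed labels of one line agree on the tube.** -/
theorem uni_lb (m K : ℕ) (R : ℝ) (hR : 1 ≤ R) : ∃ C : ℝ, 1 ≤ C ∧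
    ∀ (J : ℕ) (F : Fam m J) (q : F.Ω → ℝ) (I : Finset (Fin m)) (k : Fin m) (a : Fin m → ℕ)
      (w X : ℕ) (A : F.Ω → Prop) (e₁ r₁ ρ₁ P₁ e₂ r₂ ρ₂ P₂ : ℕ) (V₁ V₂ : Type)
      (z₁ : PtT F → V₁) (z₁' : LnT F → V₁) (G₁ : V₁ → MvPolynomial (Option (Fin m)) ℝ)
      (z₂ : PtT F → V₂) (z₂' : LnT F → V₂) (G₂ : V₂ → MvPolynomial (Option (Fin m)) ℝ)
      (θ e η : ℝ), IsLaw q → (∀ ω, 0 < q ω → A ω) →
      (J : ℝ) * Real.log 2 - e ≤ CH q F.T (fun ω => (F.l ω, F.Z ω)) → w + X ≤ J →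
      LbOK F I k K e₁ r₁ w ρ₁ P₁ A z₁ z₁' G₁ → LbOK F I k K e₂ r₂ w ρ₂ P₂ A z₂ z₂' G₂ →
      0 ≤ θ → 0 ≤ e → 0 < η → η ≤ 1 →
      I.card * (X * Real.log 2) - θ ≤ CH q (fun ω => ceI I (fun i => a i + X) (F.x ω))
        (fun ω => (ceI I a (F.x ω), (z₁' (slam F w ω), z₂' (slam F w ω)), F.W ω)) →
      C * (θ + e + 1) / η ≤ X * Real.log 2 →
      Pb q (fun ω => ¬ ∀ b, Tub F I a w R ω b →
        |MvPolynomial.eval b (G₁ (z₁' (slam F w ω))) - MvPolynomial.eval b (G₂ (z₂' (slam F w ω)))| ≤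
          Real.exp (C * (θ + e + 1) / η) * (1 / 2 ^ P₁ + 1 / 2 ^ P₂)) ≤ η := by
  classical
  obtain ⟨C, hC, hU⟩ := uni_dep m K R hR
  refine ⟨C, hC, ?_⟩
  intro J F q I k a w X A e₁ r₁ ρ₁ P₁ e₂ r₂ ρ₂ P₂ V₁ V₂ z₁ z₁' G₁ z₂ z₂' G₂ θ e η hq hA he hwX
    h₁ h₂ hθ he0 hη hη1 hV hX
  have h0 := hq.nonneg
  have key := hU J F q I a w X (V₁ × V₂) (fun ω => (z₁' (slam F w ω), z₂' (slam F w ω)))
    (fun x => G₁ x.1 - G₂ x.2) A (fun _ => 1 / 2 ^ P₁ + 1 / 2 ^ P₂) θ e η hq he hwX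
    (fun ω ω' _ _ h => by simp only [h])
    (fun x => (MvPolynomial.totalDegree_sub _ _).trans (max_le (h₁.deg _) (h₂.deg _)))
    (fun x b b' hb hb' => by
      rw [map_sub, map_sub, h₁.dep _ b b' hb hb', h₂.dep _ b b' hb hb']) hθ he0 hη hη1
    (fun _ => by positivity) hV ?_ hX ?_
  · refine le_trans (Pb_mono' h0 fun ω hω => ?_) key
    intro hall
    apply hω
    intro b hb
    have h1 := hall b hb
    rw [map_sub] at h1
    exact h1
  · have h1 : Pb q (fun ω => ¬ A ω) = 0 := by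
      unfold Pb
      refine Finset.sum_eq_zero fun ω _ => ?_
      by_cases hω : A ω
      · rw [if_neg (not_not.2 hω)]
      · rw [if_pos hω]
        by_contra hne
        exact hω (hA ω (lt_of_le_of_ne (h0 ω) (Ne.symm hne)))
    rw [h1]
    positivity
  · intro ω hω
    simp only
    rw [map_sub]
    have h1 := h₁.pos ω hω
    have h2 := h₂.pos ω hω
    have e1 : MvPolynomial.eval (bt F ω) (G₁ (z₁' (slam F w ω))) -
        MvPolynomial.eval (bt F ω) (G₂ (z₂' (slam F w ω))) =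
        (F.x ω k - MvPolynomial.eval (bt F ω) (G₂ (z₂' (slam F w ω)))) -
        (F.x ω k - MvPolynomial.eval (bt F ω) (G₁ (z₁' (slam F w ω)))) := by ring
    rw [e1]
    have h3 := abs_sub (F.x ω k - MvPolynomial.eval (bt F ω) (G₂ (z₂' (slam F w ω))))
      (F.x ω k - MvPolynomial.eval (bt F ω) (G₁ (z₁' (slam F w ω))))
    linarith

end Pool.UNJ
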