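import Pool.Agent.H95.GN.Rld

/-!
# Relations in a family: chains of two-sided labels

`relv_fam`: over a chain of two-sided labels, a two-sided polynomial which is small at the samples
and not small on the natural boxes is impossible, if there are no better labels: the sides of the
natural boxes are enlarged, and `rel_core` is applied.
-/

set_option autoImplicit false

namespace Pool.RLV

open Finset Real MvPolynomial
open Pool.Agent.H49.Ent Pool.Agent.H32.Dense Pool.STK Pool.KA Pool.KSAT Pool.K2S Pool.PB Pool.S6C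
open Pool.GEN
open Pool.CHT (dgp gls nbx_grow)

/-- **From a chain to a chain on coarse boxes.** -/
theorem cbx_of (r : ℕ) (K : ℕ → ℕ) : ∃ c₀ : ℕ, ∀ {m J : ℕ} {F : Fam m J} {c : ℕ → Fin m}
    {a w e e₁ : ℕ} {g q p : ℕ → ℕ} {A : F.Ω → Prop}
    {G : PtT F → ℕ → MvPolynomial (Option (Fin m)) ℝ}
    {H : LnT F → ℕ → MvPolynomial (Option (Fin m)) ℝ}, Set.InjOn c (Set.Iio r) →
    ChOK F c r K a w e g A G H → (∀ l < r, q l ≤ g l) → (∀ l < r, p l + c₀ + gls K g q l ≤ g l) →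
    (∀ l < r, ∀ l' < l, e + nlp g l' l + c₀ + gls K g q l ≤ e₁) →
    CBx F c r K a w e₁ q p A G H := by
  obtain ⟨D, hD⟩ : ∃ D, D = ∑ i ∈ range r, ∑ j ∈ range i, K i * dgp K j i := ⟨_, rfl⟩
  obtain ⟨C, hC, h⟩ := nbx_grow D r
  obtain ⟨c₀, hc₀⟩ := pow_unbounded_of_one_lt C (one_lt_two (α := ℝ))
  refine ⟨c₀, ?_⟩
  intro m J F c a w e e₁ g q p A G H hc hch hq hp he
  have hDi : ∀ i < r, ∀ j < i, K i * dgp K j i ≤ D := by
    intro i hi j hj
    rw [hD]
    calc K i * dgp K j i ≤ ∑ j ∈ range i, K i * dgp K j i :=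
          Finset.single_le_sum (f := fun j => K i * dgp K j i) (fun _ _ => Nat.zero_le _)
            (mem_range.2 hj)
      _ ≤ _ := Finset.single_le_sum (f := fun i => ∑ j ∈ range i, K i * dgp K j i)
            (fun _ _ => Nat.zero_le _) (mem_range.2 hi)
  have key : ∀ (y : PtT F) (t : ℝ) (i : ℕ) (Q : MvPolynomial (Option (Fin m)) ℝ) (M : ℝ), i < r →
      DepC c i Q → Q.totalDegree ≤ K i → (∀ b, NBx c (G y) g a t i b → |eval b Q| ≤ M) →
      0 ≤ M → ∀ b, NBx c (G y) q a t i b → |eval b Q| ≤ 2 ^ (c₀ + gls K g q i) * M := by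
    intro y t i Q M hi hQ hQd hM hM0 b hb
    have h3 := h (K := K) hi.le (hc.mono fun x hx => lt_trans hx hi) (hch.degG y) (hch.depG y)
      hQ hQd (hDi i hi) (fun j hj => hq j (hj.trans hi)) hM b hb
    refine h3.trans ?_
    refine mul_le_mul_of_nonneg_right ?_ hM0
    rw [pow_add]
    exact mul_le_mul_of_nonneg_right hc₀.le (by positivity)
  refine ⟨hc, hch.degG, hch.degH, hch.depG, hch.depH, fun ω hω i hi =>
    (hch.pos ω hω i hi).trans (p2le ?_), fun ω hω i hi b hb => ?_, fun ω hω i hi b hb l hl => ?_⟩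
  · have := hp i hi
    omega
  · have h3 := key (ptr F J ω) (F.t ω) i (G (ptr F J ω) i - H (slam F w ω) i) (1 / 2 ^ g i) hi
      (dep_sub (hch.depG _ i) (hch.depH _ i))
      ((totalDegree_sub _ _).trans (max_le (hch.degG _ i) (hch.degH _ i)))
      (fun b hb => by rw [map_sub]; exact hch.agr ω hω i hi b hb) (by positivity) b hb
    rw [map_sub] at h3
    refine h3.trans ?_
    rw [mul_one_div, div_le_div_iff₀ (by positivity) (by positivity), one_mul, ← pow_add]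
    refine pow_le_pow_right₀ (by norm_num) ?_
    have := hp i hi
    omega
  · have h3 := key (ptr F J ω) (F.t ω) i (pderiv (some (c l)) (G (ptr F J ω) i))
      (2 ^ (e + nlp g l i)) hi
      (DepC.pderiv (hch.depG _ i) l) (totalDegree_pdσ (hch.degG _ i) _)
      (fun b hb => hch.lip ω hω i hi b hb l hl) (by positivity) b hb
    rw [← pow_add] at h3
    refine h3.trans (pow_le_pow_right₀ (by norm_num) ?_)
    have := he i hi l hl
    omega

/-- **No relations** over chains of two-sided labels, if there are no better labels. `E 0` bounds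
the defect of the time, `E (l + 1)` is the distance between the precision and the coarse side of
`c l`, `E (i + 1)` is the depth of the relation. -/
theorem relv_fam (V D i : ℕ) (K : ℕ → ℕ) : ∃ κ N Kn : ℕ, 1 ≤ κ ∧ ∀ {m J : ℕ} {F : Fam m J}
    {c : ℕ → Fin m} {a w e e₁ e' e₀ y N₀ : ℕ} {g q E : ℕ → ℕ} {A : F.Ω → Prop}
    {G : PtT F → ℕ → MvPolynomial (Option (Fin m)) ℝ}
    {H : LnT F → ℕ → MvPolynomial (Option (Fin m)) ℝ}
    {Dx : PtT F → MvPolynomial (Option (Fin m)) ℝ}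
    {Dl : LnT F → MvPolynomial (Option (Fin m)) ℝ},
    0 < Pe F.p A → w ≤ a → Set.InjOn c (Set.Iio i) → ChOK F c i K a w e g A G H →
    (∀ y, (Dx y).totalDegree ≤ D) → (∀ s, (Dl s).totalDegree ≤ D) →
    (∀ y, DepC c i (Dx y)) → (∀ s, DepC c i (Dl s)) →
    (∀ ω, A ω → |eval (bt F ω) (Dx (ptr F J ω))| ≤ 1 / 2 ^ N₀) →
    (∀ ω, A ω → ∀ b, NBx c (G (ptr F J ω)) g a (F.t ω) i b →
      |eval b (Dx (ptr F J ω)) - eval b (Dl (slam F w ω))| ≤ 1 / 2 ^ N₀) →
    (∀ ω, A ω → ∃ b, NBx c (G (ptr F J ω)) g a (F.t ω) i b ∧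
      2 ^ y / 2 ^ N₀ ≤ |eval b (Dx (ptr F J ω))|) →
    TmN F N e₀ A → e₀ + 1 ≤ E 0 → (∀ l ≤ i, κ * E 0 ≤ E (l + 1)) →
    (∀ l < i, (V + 4) ^ (D * dgp K l i + 1) * E (l + 1) ≤ E (l + 2)) →
    (∀ l < i, q l ≤ g l) → (∀ l < i, q l + E (l + 1) + κ + gls K g q l ≤ g l) →
    (E (i + 1) + κ + ∑ j ∈ range i, (g j - q j) * (D * dgp K j i) ≤ y) →
    (∀ l < i, ∀ l' < l, e + nlp g l' l + κ + gls K g q l ≤ e₁) →
    (∀ l < i, ∀ l' ≤ l, q l' + e₁ + E (i + 1) ≤ q l + e') →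
    (∀ l < i, q l + e₁ + 7 * E (i + 1) ≤ J) → w + 4 * E (i + 1) ≤ J →
    (∀ l < i, ∀ μ, E (l + 1) ≤ μ → μ ≤ E (i + 1) → ∀ B : F.Ω → Prop, Sub B A →
      Pe F.p A ≤ N * Pe F.p B → ¬ ChN F c (l + 1) (fun _ => Kn) (a + 4 * μ) (w + 4 * μ) e'
        (fun l' => if l' < l then q l' + 4 * μ else q l + E (l + 1) + V * μ) B) → False := by
  classical
  obtain ⟨κ₁, N, Kn, hκ₁, hcore⟩ := rel_core V K i D 0
  obtain ⟨κ₂, hcbx⟩ := cbx_of i K
  obtain ⟨Dg, hDg⟩ : ∃ Dg, Dg = ∑ j ∈ range i, D * dgp K j i := ⟨_, rfl⟩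
  obtain ⟨C₃, hC₃, hgrow⟩ := nbx_grow Dg i
  obtain ⟨κ₃, hκ₃⟩ := pow_unbounded_of_one_lt C₃ (one_lt_two (α := ℝ))
  refine ⟨κ₁ + κ₂ + κ₃, N, Kn, by omega, ?_⟩
  intro m J F c a w e e₁ e' e₀ y N₀ g q E A G H Dx Dl hA hwa hc hch hdx hdl hpx hpl hown htwo
    hlow hT hE0 hEt hE hq hp hy he1 he' hJ hwJ hno
  have hsum : ∀ j < i, D * dgp K j i ≤ Dg := fun j hj => by
    rw [hDg]
    exact Finset.single_le_sum (f := fun j => D * dgp K j i) (fun _ _ => Nat.zero_le _)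
      (mem_range.2 hj)
  -- the maxima
  have hmax : ∀ ω, ∃ b, NBx c (G (ptr F J ω)) q a (F.t ω) i b ∧
      ∀ b', NBx c (G (ptr F J ω)) q a (F.t ω) i b' →
        |eval b' (Dx (ptr F J ω))| ≤ |eval b (Dx (ptr F J ω))| := fun ω =>
    nmax hc (hch.depG _) (hpx _)
  choose bm hbm hbm' using hmax
  obtain ⟨M, hM⟩ : ∃ M : F.Ω → ℝ, M = fun ω => |eval (bm ω) (Dx (ptr F J ω))| := ⟨_, rfl⟩
  have hMlow : ∀ ω, A ω → 2 ^ y / 2 ^ N₀ ≤ M ω := by
    intro ω hω
    obtain ⟨b, hb, hbl⟩ := hlow ω hω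
    rw [hM]
    refine hbl.trans (hbm' ω b ⟨hb.1, fun l hl => (hb.2 l hl).trans (p2le (hq l hl))⟩)
  have hbase : ∀ ω, A ω → 2 ^ (κ₃ + ∑ j ∈ range i, (g j - q j) * (D * dgp K j i)) *
      (1 / 2 ^ N₀) ≤ M ω / 2 ^ E (i + 1) := by
    intro ω hω
    rw [le_div_iff₀ (by positivity)]
    refine le_trans ?_ (hMlow ω hω)
    rw [mul_one_div, div_mul_eq_mul_div, ← pow_add]
    refine div_le_div_of_nonneg_right (pow_le_pow_right₀ (by norm_num) ?_) (by positivity)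
    omega
  refine hcore (e := e₁) (e' := e') (q := q) (p := fun l => q l + E (l + 1)) (E := E)
    (Dx := Dx) (Dl := Dl) (M := M) hA hwa
    (hcbx hc hch hq (fun l hl => ?_) fun l hl l' hl' => ?_)
    ⟨hdx, hdl, hpx, hpl, fun ω hω => ?_, fun ω hω => ?_, fun ω hω b hb => ?_,
      fun ω hω b hb => ?_, fun ω hω => ?_⟩ hT hE0 (fun l _ => rfl)
    (fun l hl => (Nat.mul_le_mul_right _ (by omega)).trans (hEt l hl)) hE hJ hwJ he' hno
  · have := hp l hl
    show q l + E (l + 1) + κ₂ + gls K g q l ≤ g l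
    omega
  · have := he1 l hl l' hl'
    omega
  · exact lt_of_lt_of_le (by positivity) (hMlow ω hω)
  · refine (hown ω hω).trans (le_trans ?_ (hbase ω hω))
    exact le_mul_of_one_le_left (by positivity) (one_le_pow₀ (by norm_num))
  · have h1 := hgrow (K := K) (G := G (ptr F J ω)) (Q := Dx (ptr F J ω) - Dl (slam F w ω))
      (g := g) (g' := q) (a := a) (D₀ := D) (t := F.t ω) (M := 1 / 2 ^ N₀) le_rfl hc (hch.degG _)
      (hch.depG _) (dep_sub (hpx _) (hpl _))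
      ((totalDegree_sub _ _).trans (max_le (hdx _) (hdl _))) hsum hq
      (fun b hb => by rw [map_sub]; exact htwo ω hω b hb) b hb
    rw [map_sub] at h1
    refine h1.trans (le_trans ?_ (hbase ω hω))
    refine mul_le_mul_of_nonneg_right ?_ (by positivity)
    rw [pow_add]
    exact mul_le_mul_of_nonneg_right hκ₃.le (by positivity)
  · rw [hM]
    exact hbm' ω b hb
  · refine ⟨bm ω, hbm ω, ?_⟩
    rw [pow_zero, one_mul, hM]

end Pool.RLV
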