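import Pool.Agent.H33.BFL.REN
import Pool.Agent.H4.BFL.JTE
import Pool.Agent.H7.KSAT.SL
import Pool.Agent.H99.FLF.SUP

/-!
# One germ per point

`uni_core`: a polynomial of bounded degree, which is a function of the context, is small at the
base point; the base point is full given the context and its cell. Then the polynomial is small on
the whole box around the base point. The sides of the box may be different.

`uni_two`: two polynomials which are functions of the context up to small errors and which have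
the same values at the base points agree on the box.
-/

set_option autoImplicit false

namespace Pool.UNJ

open Finset Real
open Pool.Agent.H49.Ent Pool.Agent.H32.Dense Pool.STK Pool.BFL

/-- Substitution of affine functions does not increase the degree. -/
theorem deg_aff {k n : ℕ} {f : Fin k → MvPolynomial (Fin n) ℝ}
    (hf : ∀ i, (f i).totalDegree ≤ 1) (P : MvPolynomial (Fin k) ℝ) :
    (MvPolynomial.aeval f P).totalDegree ≤ P.totalDegree := by
  rw [MvPolynomial.aeval_def, MvPolynomial.eval₂_eq']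
  refine MvPolynomial.totalDegree_finsetSum_le fun d hd => ?_
  refine (MvPolynomial.totalDegree_mul _ _).trans ?_
  have h0 : (algebraMap ℝ (MvPolynomial (Fin n) ℝ) (MvPolynomial.coeff d P)).totalDegree = 0 := by
    rw [MvPolynomial.algebraMap_eq, MvPolynomial.totalDegree_C]
  rw [h0, zero_add]
  refine (MvPolynomial.totalDegree_finsetProd _ _).trans ?_
  have h1 : ∀ i ∈ (Finset.univ : Finset (Fin k)), ((f i) ^ d i).totalDegree ≤ d i := by
    intro i _
    refine (MvPolynomial.totalDegree_pow _ _).trans ?_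
    calc d i * _ ≤ d i * 1 := Nat.mul_le_mul_left _ (hf i)
      _ = d i := Nat.mul_one _
  refine (Finset.sum_le_sum h1).trans ?_
  have h3 : ∑ i, d i = d.sum fun _ e => e := by
    rw [Finsupp.sum_fintype _ _ fun _ => rfl]
  rw [h3]
  exact MvPolynomial.le_totalDegree hd

/-- The polynomial in the coordinates of the cell with the sides `2 ^ (-a i)`. -/
noncomputable def rsc {n : ℕ} (a : Fin n → ℕ) (x : Fin n → ℤ) (P : Pl n) : Pl n :=
  MvPolynomial.aeval (fun i => MvPolynomial.C (1 / 2 ^ a i) * MvPolynomial.X i +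
    MvPolynomial.C ((x i : ℝ) / 2 ^ a i)) P

theorem eval_rsc {n : ℕ} (a : Fin n → ℕ) (x : Fin n → ℤ) (P : Pl n) (z : Fin n → ℝ) :
    MvPolynomial.eval z (rsc a x P) =
      MvPolynomial.eval (fun i => (z i + x i) / 2 ^ a i) P := by
  unfold rsc
  rw [MvPolynomial.aeval_def, MvPolynomial.eval₂_eq', map_sum, MvPolynomial.eval_eq']
  refine Finset.sum_congr rfl fun d _ => ?_
  rw [map_mul, map_prod, MvPolynomial.algebraMap_eq, MvPolynomial.eval_C]
  congr 1
  refine Finset.prod_congr rfl fun i _ => ?_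
  rw [map_pow]
  congr 1
  rw [map_add, map_mul, MvPolynomial.eval_C, MvPolynomial.eval_C, MvPolynomial.eval_X]
  ring

theorem deg_rsc {n : ℕ} (a : Fin n → ℕ) (x : Fin n → ℤ) (P : Pl n) :
    (rsc a x P).totalDegree ≤ P.totalDegree := by
  refine deg_aff (fun i => ?_) P
  refine (MvPolynomial.totalDegree_add _ _).trans (max_le ?_ ?_)
  · refine (MvPolynomial.totalDegree_mul _ _).trans ?_
    rw [MvPolynomial.totalDegree_C, zero_add]
    exact (MvPolynomial.totalDegree_X _).le
  · rw [MvPolynomial.totalDegree_C]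
    exact Nat.zero_le _

/-- The cells with the sides `2 ^ (-a i)`. -/
noncomputable def cel {n : ℕ} (a : Fin n → ℕ) (v : Fin n → ℝ) : Fin n → ℤ :=
  fun i => ⌊(2 : ℝ) ^ a i * v i⌋

theorem cel_div {n : ℕ} (a : Fin n → ℕ) (L : ℕ) (v : Fin n → ℝ) (i : Fin n) :
    cel a v i = cel (fun i => a i + L) v i / 2 ^ L := by
  have h1 : (2 : ℝ) ^ a i * v i = (2 ^ (a i + L) * v i) / ((2 ^ L : ℕ) : ℝ) := by
    push_cast
    rw [pow_add]
    field_simp
  unfold cel
  rw [h1, Int.floor_div_natCast]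
  push_cast
  rfl

theorem Pb_mono' {Ω : Type} [Fintype Ω] {p : Ω → ℝ} (hp : ∀ ω, 0 ≤ p ω) {A B : Ω → Prop}
    (h : ∀ ω, A ω → B ω) : Pb p A ≤ Pb p B := by
  classical
  unfold Pb
  refine Finset.sum_le_sum fun ω _ => ?_
  by_cases hA : A ω
  · rw [if_pos hA, if_pos (h ω hA)]
  · rw [if_neg hA]
    split_ifs
    · exact hp ω
    · exact le_rfl

/-- **One germ per point**, pure form. -/
theorem uni_core (n K : ℕ) (R : ℝ) (hR : 1 ≤ R) : ∃ C : ℝ, 1 ≤ C ∧
    ∀ (Ω Γ : Type) [Fintype Ω] (p : Ω → ℝ) (L : ℕ) (a : Fin n → ℕ) (B : Ω → Fin n → ℝ)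
      (c : Ω → Γ) (D : Γ → Pl n) (Gd : Ω → Prop) (τ : Γ → ℝ) (θ η : ℝ),
      IsLaw p → (∀ x, (D x).totalDegree ≤ K) → 0 ≤ θ → 0 < η → η ≤ 1 → (∀ x, 0 < τ x) →
      n * (L * Real.log 2) - θ ≤
        CH p (fun ω => cel (fun i => a i + L) (B ω)) (fun ω => (cel a (B ω), c ω)) →
      Pb p (fun ω => ¬ Gd ω) ≤ η / 4 → C * (θ + 1) / η ≤ L * Real.log 2 →
      (∀ ω, Gd ω → |MvPolynomial.eval (B ω) (D (c ω))| ≤ τ (c ω)) →
      Pb p (fun ω => ¬ ∀ b : Fin n → ℝ, (∀ i, |b i - B ω i| ≤ R / 2 ^ a i) →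
        |MvPolynomial.eval b (D (c ω))| ≤ Real.exp (C * (θ + 1) / η) * τ (c ω)) ≤ η := by
  obtain ⟨C, hC, hren⟩ := Pool.Agent.H33.BFL.ren_thm n K (R + 1) (by linarith)
  refine ⟨C, hC, ?_⟩
  intro Ω Γ _ p L a B c D Gd τ θ η hp hD hθ hη hη1 hτ hH hGd hL hsm
  have h0 := hp.nonneg
  set Y : Ω → Fin n → ℕ := fun ω i =>
    (cel (fun i => a i + L) (B ω) i - 2 ^ L * cel a (B ω) i).toNat with hY
  have hmod : ∀ ω i, cel (fun i => a i + L) (B ω) i - 2 ^ L * cel a (B ω) i =
      cel (fun i => a i + L) (B ω) i % 2 ^ L := by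
    intro ω i
    rw [cel_div a L (B ω) i]
    have := Int.emod_add_mul_ediv (cel (fun i => a i + L) (B ω) i) (2 ^ L)
    linarith
  have hpos : (0 : ℤ) < 2 ^ L := by positivity
  have hY0 : ∀ ω i, (Y ω i : ℤ) = cel (fun i => a i + L) (B ω) i - 2 ^ L * cel a (B ω) i := by
    intro ω i
    rw [hY]
    simp only
    rw [Int.toNat_of_nonneg]
    rw [hmod]
    exact Int.emod_nonneg _ hpos.ne'
  have hY1 : ∀ ω i, Y ω i < 2 ^ L := by
    intro ω i
    have h1 : (Y ω i : ℤ) < 2 ^ L := by
      rw [hY0, hmod]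
      exact Int.emod_lt_of_pos _ hpos
    exact_mod_cast h1
  have key := hren Ω ((Fin n → ℤ) × Γ) p L Y (fun ω => (cel a (B ω), c ω))
    (fun x => rsc a x.1 (D x.2)) Gd (fun x => τ x.2) θ η hp hY1
    (fun x => (deg_rsc _ _ _).trans (hD _)) hθ hη hη1 ?_ hGd (fun x => hτ _) hL ?_
  · refine le_trans (Pb_mono' h0 fun ω hω => ?_) key
    intro hall
    apply hω
    intro b hb
    have h1 := hall (fun i => 2 ^ a i * b i - cel a (B ω) i) (fun i => by
      have e1 : (2 : ℝ) ^ a i * b i - cel a (B ω) i =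
          2 ^ a i * (b i - B ω i) + (2 ^ a i * B ω i - cel a (B ω) i) := by ring
      have h2 := Int.floor_le ((2 : ℝ) ^ a i * B ω i)
      have h3 := Int.lt_floor_add_one ((2 : ℝ) ^ a i * B ω i)
      have h4 : |(2 : ℝ) ^ a i * B ω i - cel a (B ω) i| ≤ 1 := by
        unfold cel
        rw [abs_le]
        constructor <;> linarith
      have h5 : |(2 : ℝ) ^ a i * (b i - B ω i)| ≤ R := by
        rw [abs_mul, abs_of_pos (by positivity : (0 : ℝ) < 2 ^ a i)]
        have h6 := mul_le_mul_of_nonneg_left (hb i) (by positivity : (0 : ℝ) ≤ 2 ^ a i)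
        have h7 : (2 : ℝ) ^ a i * (R / 2 ^ a i) = R := by field_simp
        rwa [h7] at h6
      rw [e1]
      exact (abs_add_le _ _).trans (add_le_add h5 h4))
    rw [eval_rsc] at h1
    have h2 : (fun i => ((2 ^ a i * b i - cel a (B ω) i) + ((cel a (B ω) i : ℤ) : ℝ)) /
        2 ^ a i) = b := by
      funext i
      field_simp
      ring
    rw [h2] at h1
    exact h1
  · refine hH.trans (le_of_eq ?_)
    refine CH_congr h0 ?_ ?_ (fun _ _ _ _ h => h) (fun _ _ _ _ h => h)
    · intro ω ω' _ _ h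
      simp only [Prod.mk.injEq] at h
      obtain ⟨h1, h2, -⟩ := h
      funext i
      have e1 := hY0 ω i
      have e2 := hY0 ω' i
      rw [congrFun h1 i, congrFun h2 i] at e1
      have : (Y ω i : ℤ) = Y ω' i := by rw [e1, e2]
      exact_mod_cast this
    · intro ω ω' _ _ h
      simp only [Prod.mk.injEq] at h
      obtain ⟨h1, h2, -⟩ := h
      funext i
      have e1 := hY0 ω i
      have e2 := hY0 ω' i
      rw [congrFun h1 i, congrFun h2 i] at e1
      change cel (fun i => a i + L) (B ω) i = cel (fun i => a i + L) (B ω') i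
      linarith
  · intro ω hω
    refine ⟨fun i => 2 ^ a i * B ω i - cel a (B ω) i, fun i => ?_, ?_⟩
    · have h2 := Int.floor_le ((2 : ℝ) ^ (a i + L) * B ω i)
      have h3 := Int.lt_floor_add_one ((2 : ℝ) ^ (a i + L) * B ω i)
      have h4 : ((Y ω i : ℕ) : ℝ) = (cel (fun i => a i + L) (B ω) i : ℝ) -
          2 ^ L * (cel a (B ω) i : ℝ) := by
        have := hY0 ω i
        have h5 : ((Y ω i : ℤ) : ℝ) = ((cel (fun i => a i + L) (B ω) i -
          2 ^ L * cel a (B ω) i : ℤ) : ℝ) := by rw [this]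
        push_cast at h5
        exact h5
      have h6 : (2 : ℝ) ^ a i * B ω i - cel a (B ω) i - (Y ω i : ℝ) / 2 ^ L =
          (2 ^ (a i + L) * B ω i - cel (fun i => a i + L) (B ω) i) / 2 ^ L := by
        rw [h4, pow_add]
        field_simp
        ring
      rw [h6, abs_div, abs_of_pos (by positivity : (0 : ℝ) < 2 ^ L)]
      refine div_le_div_of_nonneg_right ?_ (by positivity)
      have h7 : |(2 : ℝ) ^ (a i + L) * B ω i - cel (fun i => a i + L) (B ω) i| ≤ 1 := by
        unfold cel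
        rw [abs_le]
        constructor <;> linarith
      linarith
    · rw [eval_rsc]
      have h1 : (fun i => ((2 ^ a i * B ω i - cel a (B ω) i) + ((cel a (B ω) i : ℤ) : ℝ)) /
          2 ^ a i) = B ω := by
        funext i
        field_simp
        ring
      rw [h1]
      exact hsm ω hω

end Pool.UNJ
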