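import Pool.Agent.H95.GN.Fat

/-!
# Fat labels, by induction over the targets

`relvF_pre`: no relation for the first coordinates. `fat_iter`: the fat label of the target, without
fat labels of the contact coordinates in the hypotheses.
-/

set_option autoImplicit false

namespace Pool.VFD

open Finset Real MvPolynomial
open Pool.Agent.H49.Ent Pool.Agent.H32.Dense Pool.STK Pool.KA Pool.KSAT Pool.K2S Pool.PB Pool.S6C
open Pool.GEN Pool.CHT Pool.ISO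

variable {m J : ℕ}

/-- The first coordinates. -/
theorem relvF_pre {F : Fam m J} {c : ℕ → Fin m} {i l a w : ℕ} {g : ℕ → ℕ} {D h : ℕ} {κ : ℝ}
    {B₀ : F.Ω → Prop} {G : PtT F → ℕ → MvPolynomial (Option (Fin m)) ℝ}
    (hR : RelvF F c i a w g D h κ B₀ G) (hc : Set.InjOn c (Set.Iio i))
    (hG : ∀ y l, DepC c l (G y l)) (hl : l ≤ i) : RelvF F c l a w g D h κ B₀ G := by
  intro B' hB hP Dx Dl M h1 h2 h3 h4 hM h5 h6
  obtain ⟨B'', k1, k2, k3⟩ := hR B' hB hP Dx Dl M h1 h2 (fun y => (h3 y).mono hl)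
    (fun s => (h4 s).mono hl) hM h5 (fun ω hω b hb => h6 ω hω b (hb.mono le_rfl hl))
  exact ⟨B'', k1, k2, fun ω hω => nbx_ext hc (hG _) (h3 _) hl (k3 ω hω)⟩

section cf

variable {F : Fam m J} {c : ℕ → Fin m} {ct : ℕ → Prop} {i D D' a w o e h : ℕ} {κ : ℝ}
  {g gT gB g₀ gc gc₁ : ℕ → ℕ} {B₀ : F.Ω → Prop}
  {Φ Γ T B Γ₁ T₁ : PtT F → ℕ → MvPolynomial (Option (Fin m)) ℝ}
  {Ψ ΓH TH BH Γ₁H T₁H : LnT F → ℕ → MvPolynomial (Option (Fin m)) ℝ}

/-- The first coordinates. -/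
theorem Cf.pre (hF : Cf F c ct i D D' a w o e h κ g gT gB g₀ gc gc₁ B₀ Φ Γ T B Γ₁ T₁ Ψ ΓH TH BH
    Γ₁H T₁H) {l : ℕ} (hl : l ≤ i) :
    Cf F c ct l D D' a w o e h κ g gT gB g₀ gc gc₁ B₀ Φ Γ T B Γ₁ T₁ Ψ ΓH TH BH Γ₁H T₁H where
  inj := hF.inj.mono fun _ hy => lt_of_lt_of_le hy hl
  deg := hF.deg
  wo := hF.wo
  oJ := hF.oJ
  phi := hF.phi.mono (by omega) (fun _ => le_rfl) le_rfl le_rfl
  clo := fun ω hω l' hl' => hF.clo ω hω l' (by omega)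
  gam := hF.gam.mono (by omega) (fun _ => le_rfl) le_rfl le_rfl
  gmt := fun ω hω l' hl' => hF.gmt ω hω l' (by omega)
  thn := hF.thn.mono hl (fun _ => le_rfl) le_rfl le_rfl
  thr := fun ω hω l' hl' => hF.thr ω hω l' (by omega)
  grr := fun l' hl' => hF.grr l' (by omega)
  rv := relvF_pre hF.rv hF.inj hF.thn.depG hl
  bal := hF.bal.mono (by omega) (fun _ => le_rfl) le_rfl le_rfl
  rvB := relvF_pre hF.rvB hF.inj hF.bal.depG hl
  gm₁ := hF.gm₁.mono (by omega) (fun _ => le_rfl) le_rfl le_rfl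
  gmt₁ := fun ω hω l' hl' => hF.gmt₁ ω hω l' (by omega)
  th₁ := hF.th₁.mono hl (fun _ => le_rfl) le_rfl le_rfl
  thr₁ := fun ω hω l' hl' => hF.thr₁ ω hω l' (by omega)
  rv₁ := relvF_pre hF.rv₁ hF.inj hF.th₁.depG hl

/-- Larger degrees, parts of the event. -/
theorem Cf.sub (hF : Cf F c ct i D D' a w o e h κ g gT gB g₀ gc gc₁ B₀ Φ Γ T B Γ₁ T₁ Ψ ΓH TH BH
    Γ₁H T₁H) {D₂ n : ℕ} {A : F.Ω → Prop} (hD : D ≤ D₂) (hD' : D₂ ≤ D') (hκ : 0 ≤ κ)
    (hA : Lg F B₀ A n) :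
    Cf F c ct i D₂ D' a w o e h (κ * 2 ^ n) g gT gB g₀ gc gc₁ A Φ Γ T B Γ₁ T₁ Ψ ΓH TH BH
      Γ₁H T₁H := by
  have hκ2 : 0 ≤ κ * 2 ^ n := by positivity
  have hκ3 : κ ≤ κ * 2 ^ n * (1 / 2 ^ n) := le_of_eq (by field_simp)
  have hP : 1 / 2 ^ n * Pe F.p B₀ ≤ Pe F.p A := by
    have := hA.2
    calc 1 / 2 ^ n * Pe F.p B₀ = Pe F.p B₀ / 2 ^ n := by ring
      _ ≤ _ := this
  exact {
    inj := hF.inj
    deg := hD'
    wo := hF.wo
    oJ := hF.oJ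
    phi := (hF.phi.mono le_rfl (fun _ => hD) le_rfl le_rfl).sub hA.1
    clo := fun ω hω => hF.clo ω (hA.1 ω hω)
    gam := (hF.gam.mono le_rfl (fun _ => hD) le_rfl le_rfl).sub hA.1
    gmt := fun ω hω => hF.gmt ω (hA.1 ω hω)
    thn := (hF.thn.mono le_rfl (fun _ => hD) le_rfl le_rfl).sub hA.1
    thr := fun ω hω => hF.thr ω (hA.1 ω hω)
    grr := hF.grr
    rv := hF.rv.sub hA.1 hP hκ2 hκ3
    bal := (hF.bal.mono le_rfl (fun _ => hD) le_rfl le_rfl).sub hA.1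
    rvB := hF.rvB.sub hA.1 hP hκ2 hκ3
    gm₁ := (hF.gm₁.mono le_rfl (fun _ => hD) le_rfl le_rfl).sub hA.1
    gmt₁ := fun ω hω => hF.gmt₁ ω (hA.1 ω hω)
    th₁ := (hF.th₁.mono le_rfl (fun _ => hD) le_rfl le_rfl).sub hA.1
    thr₁ := fun ω hω => hF.thr₁ ω (hA.1 ω hω)
    rv₁ := hF.rv₁.sub hA.1 hP hκ2 hκ3 }

end cf

theorem FtL.sub {F : Fam m J} {c : ℕ → Fin m} {ct : ℕ → Prop} {l D D₂ a w : ℕ} {gc : ℕ → ℕ}
    {p : ℕ} {E E₂ : ℝ} {B₀ A : F.Ω → Prop} {Γ : PtT F → ℕ → MvPolynomial (Option (Fin m)) ℝ}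
    {f : PtT F → MvPolynomial (Option (Fin m)) ℝ} {fH : LnT F → MvPolynomial (Option (Fin m)) ℝ}
    (hf : FtL F c ct l D a w gc p E B₀ Γ f fH) (hA : Sub A B₀) (hD : D ≤ D₂) (hE : E ≤ E₂) :
    FtL F c ct l D₂ a w gc p E₂ A Γ f fH :=
  ⟨fun y => (hf.degG y).trans hD, fun s => (hf.degH s).trans hD, hf.depG, hf.depH,
    fun ω hω => hf.pos ω (hA ω hω), fun ω hω => hf.agr ω (hA ω hω), fun ω hω b h1 h2 =>
      (hf.nat ω (hA ω hω) b h1 h2).trans (div_le_div_of_nonneg_right hE (by positivity))⟩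

/-- The constants of the steps. -/
def itD (r : ℕ) (C : ℕ → ℕ → ℕ) (D : ℕ) : ℕ → ℕ × ℕ
  | 0 => (D, 0)
  | k + 1 => ((itD r C D k).1 * ((itD r C D k).1 + 1) ^ r,
      max (itD r C D k).2 (C (itD r C D k).1 (itD r C D k).2))

/-- **Fat labels, by induction over the targets.** -/
theorem fat_iter (D r : ℕ) (hD : 1 ≤ D) : ∃ C D₂ : ℕ, D ≤ D₂ ∧ ∀ {m J : ℕ} {F : Fam m J}
    {c : ℕ → Fin m} {ct : ℕ → Prop} {i D' a w e h N : ℕ} {o v s lam p pf : ℕ → ℕ} {κ : ℝ}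
    {g g₀ gc : ℕ → ℕ} {gT gB gc₁ : ℕ → ℕ → ℕ} {B₀ : F.Ω → Prop}
    {Φ Γ T : PtT F → ℕ → MvPolynomial (Option (Fin m)) ℝ}
    {B Γ₁ T₁ : ℕ → PtT F → ℕ → MvPolynomial (Option (Fin m)) ℝ}
    {Ψ ΓH TH : LnT F → ℕ → MvPolynomial (Option (Fin m)) ℝ}
    {BH Γ₁H T₁H : ℕ → LnT F → ℕ → MvPolynomial (Option (Fin m)) ℝ}
    {Gt : PtT F → MvPolynomial (Option (Fin m)) ℝ} {Ht : LnT F → MvPolynomial (Option (Fin m)) ℝ},
    i < r → (∀ k ≤ i, (k = i ∨ (ct k ∧ ∃ j, j < k ∧ ct j)) →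
      Cf F c ct k D D' a w (o k) e h κ g (gT k) (gB k) g₀ gc (gc₁ k) B₀ Φ Γ T (B k) (Γ₁ k)
        (T₁ k) Ψ ΓH TH (BH k) (Γ₁H k) (T₁H k) ∧
      (∀ l ≤ k, g₀ l ≤ gB k l) ∧ (∀ l < k, gB k l ≤ g₀ l + s k ∧ gB k l ≤ gc l) ∧
      g₀ k + v k = p k ∧ gc k ≤ p k ∧ p k ≤ gc₁ k k ∧
      (∀ l < k, ct l → g l ≤ gT k l + h ∧ gT k l ≤ g l + lam k ∧
        gB k l + (v k + (k - l) * s k) ≤ gT k l) ∧
      (∀ j l, j < l → l < k → ct j → ct l → gB k l + (v k + (k - l) * s k) ≤ pf l) ∧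
      (k < i → p k ≤ g k) ∧ pf k + C * (h + 1) + r * lam k ≤ p k) →
    (r + 1) * D₂ ≤ D' → 0 ≤ κ → κ * 2 ^ N ≤ 1 → (r + 1) * (9 * r + 4) ≤ N →
    (∀ y, (Gt y).totalDegree ≤ D) → (∀ s, (Ht s).totalDegree ≤ D) → (∀ y, DepC c i (Gt y)) →
    (∀ s, DepC c i (Ht s)) →
    (∀ ω, B₀ ω → |F.x ω (c i) - eval (bt F ω) (Gt (ptr F J ω))| ≤ 1 / 2 ^ p i) →
    (∀ ω, B₀ ω → ∀ b, NBx c (T (ptr F J ω)) g a (F.t ω) i b →
      |eval b (Gt (ptr F J ω)) - eval b (Ht (slam F w ω))| ≤ 1 / 2 ^ p i) →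
    (∀ l l', l ≤ i → l' ≤ i → gc l' + g₀ l ≤ gc l + g₀ l' + h) →
    ∃ (B₂ : F.Ω → Prop) (f : PtT F → MvPolynomial (Option (Fin m)) ℝ)
      (fH : LnT F → MvPolynomial (Option (Fin m)) ℝ), Lg F B₀ B₂ ((r + 1) * (9 * r + 4)) ∧
      FtL F c ct i D₂ a w gc (pf i) (2 ^ (C * (h + 1))) B₂ Γ f fH := by
  classical
  have hch : ∀ D q : ℕ, 1 ≤ D → _ := fun D q hD => fat_main D r q hD
  obtain ⟨C, hC⟩ : ∃ C : ℕ → ℕ → ℕ, ∀ D q (hD : 1 ≤ D), C D q = Classical.choose (hch D q hD) := by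
    refine ⟨fun D q => if hD : 1 ≤ D then Classical.choose (hch D q hD) else 0,
      fun D q hD => dif_pos hD⟩
  have hfm := fun (D q : ℕ) (hD : 1 ≤ D) => @Classical.choose_spec _ _ (hch D q hD)
  obtain ⟨DD, hDD⟩ : ∃ DD : ℕ → ℕ, DD = fun k => (itD r C D k).1 := ⟨_, rfl⟩
  obtain ⟨qq, hqq⟩ : ∃ qq : ℕ → ℕ, qq = fun k => (itD r C D k).2 := ⟨_, rfl⟩
  have hD0 : DD 0 = D := by rw [hDD]; rfl
  have hDs : ∀ k, DD (k + 1) = DD k * (DD k + 1) ^ r := by intro k; rw [hDD]; rfl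
  have hqs : ∀ k, qq (k + 1) = max (qq k) (C (DD k) (qq k)) := by intro k; rw [hqq, hDD]; rfl
  have hDm : ∀ k, DD k ≤ DD (k + 1) := by
    intro k
    rw [hDs]
    exact Nat.le_mul_of_pos_right _ (by positivity)
  have hDmm : ∀ k k', k ≤ k' → DD k ≤ DD k' := fun k k' h => monotone_nat_of_le_succ hDm h
  have hD1 : ∀ k, 1 ≤ DD k := fun k => by
    have := hDmm 0 k (Nat.zero_le k)
    omega
  have hqm : ∀ k, qq k ≤ qq (k + 1) := by
    intro k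
    rw [hqs]
    exact le_max_left _ _
  have hqmm : ∀ k k', k ≤ k' → qq k ≤ qq k' := fun k k' h => monotone_nat_of_le_succ hqm h
  have hCq : ∀ k, C (DD k) (qq k) ≤ qq (k + 1) := fun k => by
    rw [hqs]
    exact le_max_right _ _
  refine ⟨qq (r + 1) + 1, DD (r + 1), by rw [← hD0]; exact hDmm _ _ (Nat.zero_le _), ?_⟩
  intro m J F c ct i D' a w e h N o v s lam p pf κ g g₀ gc gT gB gc₁ B₀ Φ Γ T B Γ₁ T₁ Ψ ΓH TH BH
    Γ₁H T₁H Gt Ht hi hk hDD' hκ0 hκ hN dG dH cG cH pos agr n1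
  have hpf : ∀ k ≤ i, (k = i ∨ (ct k ∧ ∃ j, j < k ∧ ct j)) → pf k ≤ p k := by
    intro k h1 h2
    obtain ⟨_, _, _, _, _, _, _, _, _, h3⟩ := hk k h1 h2
    omega
  -- one step
  have step : ∀ k ≤ i, (k = i ∨ (ct k ∧ ∃ j, j < k ∧ ct j)) → ∀ Bk : F.Ω → Prop,
      Lg F B₀ Bk (k * (9 * r + 4)) →
      (∀ l < k, ct l → (∃ j, j < l ∧ ct j) → ∃ (f : PtT F → MvPolynomial (Option (Fin m)) ℝ)
        (fH : LnT F → MvPolynomial (Option (Fin m)) ℝ),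
        FtL F c ct l (DD k) a w gc (pf l) (2 ^ (qq k * (h + 1))) Bk Γ f fH) →
      ∀ (G' : PtT F → MvPolynomial (Option (Fin m)) ℝ)
        (H' : LnT F → MvPolynomial (Option (Fin m)) ℝ),
      (∀ y, (G' y).totalDegree ≤ D) → (∀ s, (H' s).totalDegree ≤ D) → (∀ y, DepC c k (G' y)) →
      (∀ s, DepC c k (H' s)) →
      (∀ ω, B₀ ω → |F.x ω (c k) - eval (bt F ω) (G' (ptr F J ω))| ≤ 1 / 2 ^ p k) →
      (∀ ω, B₀ ω → ∀ b, NBx c (T (ptr F J ω)) g a (F.t ω) k b →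
        |eval b (G' (ptr F J ω)) - eval b (H' (slam F w ω))| ≤ 1 / 2 ^ p k) →
      ∃ (B₂ : F.Ω → Prop) (f : PtT F → MvPolynomial (Option (Fin m)) ℝ)
        (fH : LnT F → MvPolynomial (Option (Fin m)) ℝ), Sub B₂ Bk ∧
        Lg F B₀ B₂ ((k + 1) * (9 * r + 4)) ∧
        FtL F c ct k (DD (k + 1)) a w gc (pf k) (2 ^ (qq (k + 1) * (h + 1))) B₂ Γ f fH := by
    intro k hki hrl Bk hBk hfk G' H' dG' dH' cG' cH' pos' agr'
    obtain ⟨x1, x2, x3, x4, x5, x6, x7, x8, x9, x10⟩ := hk k hki hrl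
    choose! f fH hf using hfk
    have hkr : k < r := by omega
    have hDk : DD k ≤ D' := by
      have h1 := hDmm k (r + 1) (by omega)
      have h2 : DD (r + 1) ≤ (r + 1) * DD (r + 1) := Nat.le_mul_of_pos_left _ (by omega)
      omega
    have hDk' : (r + 1) * DD k ≤ D' := by
      have h1 := hDmm k (r + 1) (by omega)
      have h2 : (r + 1) * DD k ≤ (r + 1) * DD (r + 1) := Nat.mul_le_mul_left _ h1
      omega
    have hDle : D ≤ DD k := by rw [← hD0]; exact hDmm _ _ (Nat.zero_le _)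
    have hle : ∀ l < k, ct l → (∃ j, j < l ∧ ct j) → pf l + h ≤ g l := by
      intro l hl h1 h2
      obtain ⟨_, _, _, _, _, _, _, _, h4, h3⟩ := hk l (by omega) (Or.inr ⟨h1, h2⟩)
      have h5 := h4 (by omega)
      have h6 : 1 * (h + 1) ≤ (qq (r + 1) + 1) * (h + 1) := Nat.mul_le_mul_right _ (by omega)
      omega
    have hCle : C (DD k) (qq k) ≤ qq (r + 1) + 1 :=
      (hCq k).trans ((hqmm _ _ (by omega)).trans (Nat.le_succ _))
    obtain ⟨B₂, y1, y2⟩ := hfm (DD k) (qq k) (hD1 k) (i := k) (Φ := Φ) (Ψ := Ψ) (TH := TH)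
      (f := fun y l => f l y) (fH := fun s l => fH l s)
      (gf := fun l => if ∃ j, j < l ∧ ct j then pf l else 0) (Gt := G') (Ht := H')
      (N := 9 * r + 4) (v := v k) (s := s k) (lam := lam k) hkr
      (x1.sub hDle hDk hκ0 hBk) hDk' (by
        refine le_trans ?_ hκ
        rw [mul_assoc, ← pow_add]
        refine mul_le_mul_of_nonneg_left (pow_le_pow_right₀ (by norm_num) (le_trans ?_ hN)) hκ0
        calc k * (9 * r + 4) + (9 * r + 4) = (k + 1) * (9 * r + 4) := by ring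
          _ ≤ _ := Nat.mul_le_mul_right _ (by omega)) le_rfl
      (fun y => (dG' y).trans hDle) (fun s => (dH' s).trans hDle) cG' cH'
      (fun ω hω => pos' ω (hBk.1 ω hω)) (fun ω hω => agr' ω (hBk.1 ω hω))
      (fun j l hjl hl hcj hcl => by
        have h3 := hf l hl hcl ⟨j, hjl, hcj⟩
        show FtL F c ct l (DD k) a w gc (if ∃ j, j < l ∧ ct j then pf l else 0) _ Bk Γ _ _
        rw [if_pos ⟨j, hjl, hcj⟩]
        exact h3)
      (fun l l' hl hl' => n1 l l' (by omega) (by omega)) x2 x3 x4 x5 x6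
      (fun l hl hcl => ⟨(x7 l hl hcl).1, (x7 l hl hcl).2.1, by
        show (if ∃ j, j < l ∧ ct j then pf l else 0) ≤ _
        split_ifs with h4
        · have h5 := hle l hl hcl h4
          have h6 := (x7 l hl hcl).1
          omega
        · exact Nat.zero_le _, (x7 l hl hcl).2.2⟩)
      (fun j l hjl hl hcj hcl => by
        show _ ≤ (if ∃ j, j < l ∧ ct j then pf l else 0)
        rw [if_pos ⟨j, hjl, hcj⟩]
        exact x8 j l hjl hl hcj hcl) (pf k) (by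
        rw [← hC (DD k) (qq k) (hD1 k)]
        have := Nat.mul_le_mul_right (h + 1) hCle
        omega)
    refine ⟨B₂, _, _, y1.1, ?_, y2.sub (fun _ h => h) (by rw [hDs]) ?_⟩
    · have h3 := hBk.step y1.1 y1.2
      refine h3.mono (le_of_eq (by ring))
    · refine pow_le_pow_right₀ (by norm_num) (Nat.mul_le_mul_right _ ?_)
      rw [← hC (DD k) (qq k) (hD1 k)]
      exact hCq k
  -- the loop
  have loop : ∀ k ≤ i, ∃ Bk : F.Ω → Prop, Lg F B₀ Bk (k * (9 * r + 4)) ∧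
      ∀ l < k, ct l → (∃ j, j < l ∧ ct j) → ∃ (f : PtT F → MvPolynomial (Option (Fin m)) ℝ)
        (fH : LnT F → MvPolynomial (Option (Fin m)) ℝ),
        FtL F c ct l (DD k) a w gc (pf l) (2 ^ (qq k * (h + 1))) Bk Γ f fH := by
    intro k
    induction k with
    | zero => exact fun _ => ⟨B₀, by rw [Nat.zero_mul]; exact Lg.refl F B₀, fun l hl =>
        absurd hl (Nat.not_lt_zero l)⟩
    | succ k ih =>
      intro hki
      obtain ⟨Bk, z1, z2⟩ := ih (by omega)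
      have hq2 : (2 : ℝ) ^ (qq k * (h + 1)) ≤ 2 ^ (qq (k + 1) * (h + 1)) :=
        pow_le_pow_right₀ (by norm_num) (Nat.mul_le_mul_right _ (hqm k))
      by_cases hrl : ct k ∧ ∃ j, j < k ∧ ct j
      · obtain ⟨x1, _, _, _, _, _, _, _, x9, _⟩ := hk k (by omega) (Or.inr hrl)
        obtain ⟨x1', _, _, _, _, _, _, _, _, _⟩ := hk i le_rfl (Or.inl rfl)
        have hpg := x9 (by omega)
        obtain ⟨B₂, f, fH, y1, y2, y3⟩ := step k (by omega) (Or.inr hrl) Bk z1 z2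
          (fun y => T y k) (fun s => TH s k) (fun y => x1.thn.degG y k)
          (fun s => x1.thn.degH s k) (fun y => x1.thn.depG y k) (fun s => x1.thn.depH s k)
          (fun ω hω => (x1'.thn.pos ω hω k (by omega)).trans (inv_mono hpg))
          (fun ω hω b hb => (x1'.thn.agr ω hω k (by omega) b hb).trans (inv_mono hpg))
        refine ⟨B₂, y2, fun l hl hcl hjl => ?_⟩
        rcases Nat.lt_or_ge l k with h4 | h4
        · obtain ⟨f', fH', h5⟩ := z2 l h4 hcl hjl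
          exact ⟨f', fH', h5.sub y1 (hDm k) hq2⟩
        · have : l = k := by omega
          subst this
          exact ⟨f, fH, y3⟩
      · refine ⟨Bk, z1.mono (Nat.mul_le_mul_right _ (by omega)), fun l hl hcl hjl => ?_⟩
        rcases Nat.lt_or_ge l k with h4 | h4
        · obtain ⟨f', fH', h5⟩ := z2 l h4 hcl hjl
          exact ⟨f', fH', h5.sub (fun _ h => h) (hDm k) hq2⟩
        · have : l = k := by omega
          subst this
          exact absurd ⟨hcl, hjl⟩ hrl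
  obtain ⟨Bi, z1, z2⟩ := loop i le_rfl
  obtain ⟨B₂, f, fH, y1, y2, y3⟩ := step i le_rfl (Or.inl rfl) Bi z1 z2 Gt Ht dG dH cG cH pos agr
  refine ⟨B₂, f, fH, y2.mono (Nat.mul_le_mul_right _ (by omega)), y3.sub (fun _ h => h)
    (hDmm _ _ (by omega)) (pow_le_pow_right₀ (by norm_num) (Nat.mul_le_mul_right _
      ((hqmm _ _ (by omega)).trans (Nat.le_succ _))))⟩

end Pool.VFD
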