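import Pool.Agent.H95.GN.Nwn

/-!
# Newton's iteration on natural boxes

The pure part: at one sample, for a triangular system `G` with its line side `H`.
-/

set_option autoImplicit false

namespace Pool.RLV

open Finset Real MvPolynomial
open Pool.GEN

variable {m : ℕ}

theorem p2 (n : ℕ) : (0 : ℝ) < 1 / 2 ^ n := by positivity

theorem p2le {n n' : ℕ} (h : n ≤ n') : (1 : ℝ) / 2 ^ n' ≤ 1 / 2 ^ n :=
  one_div_le_one_div_of_le (by positivity) (pow_le_pow_right₀ (by norm_num) h)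

theorem p2half (n : ℕ) : (1 : ℝ) / 2 ^ (n + 1) = 1 / 2 / 2 ^ n := by
  rw [pow_succ, div_div, mul_comm]

theorem p2two (n : ℕ) : (1 : ℝ) / 2 ^ (n + 1) + 1 / 2 ^ (n + 1) = 1 / 2 ^ n := by
  rw [p2half]
  ring

/-- A polynomial in the time. -/
noncomputable def toN (m : ℕ) (p : Polynomial ℝ) : MvPolynomial (Option (Fin m)) ℝ :=
  Polynomial.aeval (X none) p

theorem toN_eval (p : Polynomial ℝ) (b : Option (Fin m) → ℝ) :
    eval b (toN m p) = p.eval (b none) := by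
  unfold toN
  rw [Polynomial.aeval_def, Polynomial.hom_eval₂, eval_X]
  have : (eval b).comp (algebraMap ℝ (MvPolynomial (Option (Fin m)) ℝ)) = RingHom.id ℝ := by
    ext x
    simp [MvPolynomial.algebraMap_eq]
  rw [this, Polynomial.eval₂_id]

theorem toN_deg {p : Polynomial ℝ} {D : ℕ} (h : p.natDegree ≤ D) :
    (toN m p).totalDegree ≤ D := by
  unfold toN
  rw [Polynomial.aeval_eq_sum_range]
  refine totalDegree_finsetSum_le fun i hi => ?_
  refine (totalDegree_smul_le _ _).trans ?_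
  rw [totalDegree_X_pow]
  exact (Nat.lt_succ_iff.1 (mem_range.1 hi)).trans h

theorem toN_pd (p : Polynomial ℝ) (k : Fin m) : pderiv (some k) (toN m p) = 0 := by
  unfold toN
  rw [Polynomial.aeval_eq_sum_range, map_sum]
  refine Finset.sum_eq_zero fun i _ => ?_
  rw [smul_eq_C_mul, pderiv_C_mul, pderiv_pow, pderiv_X_of_ne (by simp)]
  simp

theorem toN_dep (c : ℕ → Fin m) (i : ℕ) (p : Polynomial ℝ) : DepC c i (toN m p) := by
  intro b b' h0 _
  rw [toN_eval, toN_eval, h0]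

theorem dep_add {c : ℕ → Fin m} {i : ℕ} {P Q : MvPolynomial (Option (Fin m)) ℝ}
    (hP : DepC c i P) (hQ : DepC c i Q) : DepC c i (P + Q) := by
  intro b b' h0 h
  rw [map_add, map_add, hP b b' h0 h, hQ b b' h0 h]

theorem dep_sub {c : ℕ → Fin m} {i : ℕ} {P Q : MvPolynomial (Option (Fin m)) ℝ}
    (hP : DepC c i P) (hQ : DepC c i Q) : DepC c i (P - Q) := by
  intro b b' h0 h
  rw [map_sub, map_sub, hP b b' h0 h, hQ b b' h0 h]

theorem dep_C {c : ℕ → Fin m} {i : ℕ} (x : ℝ) :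
    DepC c i (C x : MvPolynomial (Option (Fin m)) ℝ) := by
  intro b b' _ _
  rw [eval_C, eval_C]

theorem dep_mul {c : ℕ → Fin m} {i : ℕ} {P Q : MvPolynomial (Option (Fin m)) ℝ}
    (hP : DepC c i P) (hQ : DepC c i Q) : DepC c i (P * Q) := by
  intro b b' h0 h
  rw [map_mul, map_mul, hP b b' h0 h, hQ b b' h0 h]

/-- **A system of labels with its line side**, at one sample. -/
structure NwD (c : ℕ → Fin m) (j : ℕ) (K : ℕ → ℕ)
    (G H : ℕ → MvPolynomial (Option (Fin m)) ℝ) (q p : ℕ → ℕ) (a e : ℕ)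
    (b₀ : Option (Fin m) → ℝ) : Prop where
  inj : Set.InjOn c (Set.Iio (j + 1))
  degG : ∀ l, (G l).totalDegree ≤ K l
  degH : ∀ l, (H l).totalDegree ≤ K l
  depG : ∀ l, DepC c l (G l)
  depH : ∀ l, DepC c l (H l)
  pos : ∀ l ≤ j, |b₀ (some (c l)) - eval b₀ (G l)| ≤ 1 / 2 ^ p l
  agr : ∀ l ≤ j, ∀ b, NBx c G q a (b₀ none) l b → |eval b (G l) - eval b (H l)| ≤ 1 / 2 ^ p l
  lip : ∀ l ≤ j, ∀ b, NBx c G q a (b₀ none) l b → ∀ l' < l,
    |eval b (pderiv (some (c l')) (G l))| ≤ 2 ^ e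

/-- **Offsets**: numbers for the points, polynomials in the time for the lines. -/
structure Ofs (c : ℕ → Fin m) (j : ℕ) (G H : ℕ → MvPolynomial (Option (Fin m)) ℝ) (q : ℕ → ℕ)
    (a o : ℕ) (b₀ : Option (Fin m) → ℝ) (ox : ℕ → ℝ) (ol : ℕ → Polynomial ℝ) : Prop where
  x : ∀ l ≤ j, |ox l - (b₀ (some (c l)) - eval b₀ (G l))| ≤ 1 / 2 ^ (q l + o + 2)
  l0 : ∀ l ≤ j, (ol l).eval (b₀ none) = b₀ (some (c l)) - eval b₀ (H l)
  lv : ∀ l ≤ j, ∀ t' : ℝ, |t' - b₀ none| ≤ 1 / 2 ^ (a + o) →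
    |(ol l).eval t' - (ol l).eval (b₀ none)| ≤ 1 / 2 ^ (q l + o + 2)

section
variable {c : ℕ → Fin m} {j : ℕ} {K : ℕ → ℕ} {G H : ℕ → MvPolynomial (Option (Fin m)) ℝ}
  {q p : ℕ → ℕ} {a e o : ℕ} {b₀ : Option (Fin m) → ℝ} {ox : ℕ → ℝ} {ol : ℕ → Polynomial ℝ}

/-- The new box lies in the old one. -/
theorem NwD.box (hD : NwD c j K G H q p a e b₀) (hO : Ofs c j G H q a o b₀ ox ol)
    (hgap : ∀ l ≤ j, q l + 2 ≤ p l) (ho : 3 ≤ o) {i : ℕ} (hi : i ≤ j + 1)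
    {G' : ℕ → MvPolynomial (Option (Fin m)) ℝ} {g' : ℕ → ℕ}
    (hG' : ∀ l < i, G' l = G l + C (ox l)) (hg' : ∀ l < i, q l + o ≤ g' l)
    {b : Option (Fin m) → ℝ} (hb : NBx c G' g' (a + o) (b₀ none) i b) :
    |b none - b₀ none| ≤ 1 / 2 ^ o / 2 ^ a ∧
    (∀ l < i, |b (some (c l)) - eval b (G l)| ≤ 1 / 2 / 2 ^ q l) ∧
    (∀ l < i, |b₀ (some (c l)) - eval b₀ (G l)| ≤ 1 / 2 / 2 ^ q l) ∧
    (∀ l < i, |b (some (c l)) - eval b (G l) - (b₀ (some (c l)) - eval b₀ (G l))| ≤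
      2 / 2 ^ o / 2 ^ q l) := by
  have hown : ∀ l < i, |b₀ (some (c l)) - eval b₀ (G l)| ≤ 1 / 4 / 2 ^ q l := by
    intro l hl
    refine (hD.pos l (by omega)).trans ((p2le (hgap l (by omega))).trans (le_of_eq ?_))
    rw [pow_add, div_div]
    norm_num
    ring
  have hdif : ∀ l < i, |b (some (c l)) - eval b (G l) - (b₀ (some (c l)) - eval b₀ (G l))| ≤
      2 / 2 ^ o / 2 ^ q l := by
    intro l hl
    have h1 := hb.2 l hl
    rw [hG' l hl, map_add, eval_C] at h1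
    have h2 := hO.x l (by omega)
    have h3 : (1 : ℝ) / 2 ^ g' l ≤ 1 / 2 ^ (q l + o) := p2le (hg' l hl)
    have h4 : (1 : ℝ) / 2 ^ (q l + o + 2) ≤ 1 / 2 ^ (q l + o) := p2le (by omega)
    have e1 : b (some (c l)) - eval b (G l) - (b₀ (some (c l)) - eval b₀ (G l)) =
        (b (some (c l)) - (eval b (G l) + ox l)) +
          (ox l - (b₀ (some (c l)) - eval b₀ (G l))) := by ring
    rw [e1]
    refine (abs_add_le _ _).trans ((add_le_add (h1.trans h3) (h2.trans h4)).trans (le_of_eq ?_))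
    rw [pow_add]
    field_simp
    ring
  refine ⟨?_, fun l hl => ?_, fun l hl => (hown l hl).trans ?_, hdif⟩
  · refine hb.1.trans (le_of_eq ?_)
    rw [pow_add]
    field_simp
  · have h1 := hdif l hl
    have h2 := hown l hl
    have h3 : (2 : ℝ) / 2 ^ o ≤ 1 / 4 := by
      rw [div_le_div_iff₀ (by positivity) (by norm_num)]
      calc (2 : ℝ) * 4 = 2 ^ 3 := by norm_num
        _ ≤ 2 ^ o := pow_le_pow_right₀ (by norm_num) ho
        _ = 1 * 2 ^ o := (one_mul _).symm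
    have h4 : (2 : ℝ) / 2 ^ o / 2 ^ q l ≤ 1 / 4 / 2 ^ q l :=
      div_le_div_of_nonneg_right h3 (by positivity)
    have e1 : b (some (c l)) - eval b (G l) =
        (b (some (c l)) - eval b (G l) - (b₀ (some (c l)) - eval b₀ (G l))) +
          (b₀ (some (c l)) - eval b₀ (G l)) := by ring
    rw [e1]
    refine (abs_add_le _ _).trans ((add_le_add (h1.trans h4) h2).trans (le_of_eq ?_))
    ring
  · exact div_le_div_of_nonneg_right (by norm_num) (by positivity)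

/-- Near the own point, in the natural coordinates. -/
def Nrb (c : ℕ → Fin m) (G : ℕ → MvPolynomial (Option (Fin m)) ℝ) (q : ℕ → ℕ) (a i : ℕ)
    (b₀ : Option (Fin m) → ℝ) (δ : ℝ) (b : Option (Fin m) → ℝ) : Prop :=
  |b none - b₀ none| ≤ δ / 2 ^ a ∧ ∀ l < i,
    |b (some (c l)) - eval b (G l) - (b₀ (some (c l)) - eval b₀ (G l))| ≤ δ / 2 ^ q l

theorem NwD.own (hD : NwD c j K G H q p a e b₀) (hgap : ∀ l ≤ j, q l + 2 ≤ p l) :
    ∀ l ≤ j, |b₀ (some (c l)) - eval b₀ (G l)| ≤ 1 / 4 / 2 ^ q l := by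
  intro l hl
  refine (hD.pos l hl).trans ((p2le (hgap l hl)).trans (le_of_eq ?_))
  rw [pow_add, div_div]
  norm_num
  ring

theorem Nrb.half {i : ℕ} {δ : ℝ} {b : Option (Fin m) → ℝ} (h : Nrb c G q a i b₀ δ b)
    (hδ : δ ≤ 1 / 4) (hown : ∀ l < i, |b₀ (some (c l)) - eval b₀ (G l)| ≤ 1 / 4 / 2 ^ q l) :
    |b none - b₀ none| ≤ 1 / 2 / 2 ^ a ∧
      ∀ l < i, |b (some (c l)) - eval b (G l)| ≤ 1 / 2 / 2 ^ q l := by
  refine ⟨h.1.trans (div_le_div_of_nonneg_right (by linarith) (by positivity)), fun l hl => ?_⟩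
  have h1 := h.2 l hl
  have h2 := hown l hl
  have h4 : δ / 2 ^ q l ≤ 1 / 4 / 2 ^ q l := div_le_div_of_nonneg_right hδ (by positivity)
  have e1 : b (some (c l)) - eval b (G l) =
      (b (some (c l)) - eval b (G l) - (b₀ (some (c l)) - eval b₀ (G l))) +
        (b₀ (some (c l)) - eval b₀ (G l)) := by ring
  rw [e1]
  refine (abs_add_le _ _).trans ((add_le_add (h1.trans h4) h2).trans (le_of_eq ?_))
  ring

theorem half_box {i : ℕ} {b : Option (Fin m) → ℝ} {t : ℝ}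
    (h : |b none - t| ≤ 1 / 2 / 2 ^ a ∧
      ∀ l < i, |b (some (c l)) - eval b (G l)| ≤ 1 / 2 / 2 ^ q l) : NBx c G q a t i b := by
  have half : ∀ n : ℕ, (1 : ℝ) / 2 / 2 ^ n ≤ 1 / 2 ^ n := fun n =>
    div_le_div_of_nonneg_right (by norm_num) (by positivity)
  exact ⟨h.1.trans (half a), fun l hl => (h.2 l hl).trans (half _)⟩

/-- **The variation near the own point.** -/
theorem var_own (D : ℕ) : ∃ C : ℝ, 1 ≤ C ∧ ∀ {m : ℕ} {c : ℕ → Fin m} {i : ℕ} {K : ℕ → ℕ}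
    {G : ℕ → MvPolynomial (Option (Fin m)) ℝ} {Q : MvPolynomial (Option (Fin m)) ℝ}
    {q : ℕ → ℕ} {a D₀ : ℕ} {M δ : ℝ} {b b₀ : Option (Fin m) → ℝ}, Set.InjOn c (Set.Iio i) →
    (∀ l, (G l).totalDegree ≤ K l) → (∀ l, DepC c l (G l)) → DepC c i Q → Q.totalDegree ≤ D₀ →
    D₀ * dg K i ≤ D → (∀ b, NBx c G q a (b₀ none) i b → |eval b Q| ≤ M) → 0 < δ → δ ≤ 1 / 4 →
    (∀ l < i, |b₀ (some (c l)) - eval b₀ (G l)| ≤ 1 / 4 / 2 ^ q l) → Nrb c G q a i b₀ δ b →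
    |eval b Q - eval b₀ Q| ≤ C * M * δ := by
  obtain ⟨C, hC, h⟩ := nvar D
  refine ⟨C, hC, ?_⟩
  intro m c i K G Q q a D₀ M δ b b₀ hc hdeg hdep hQ hQd hD hM hδ hδ' hown hb
  have h1 := hb.half hδ' hown
  have h14 : ∀ n : ℕ, (1 : ℝ) / 4 / 2 ^ n ≤ 1 / 2 / 2 ^ n := fun n =>
    div_le_div_of_nonneg_right (by norm_num) (by positivity)
  refine h hc hdeg hdep hQ hQd hD hM hδ h1.1 ?_ hb.1 h1.2
    (fun l hl => (hown l hl).trans (h14 _)) hb.2
  rw [sub_self, abs_zero]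
  positivity

/-- Moves of the last coordinate. -/
theorem Nrb.upd {δ : ℝ} {b : Option (Fin m) → ℝ} (hc : Set.InjOn c (Set.Iio (j + 1)))
    (hdep : ∀ l, DepC c l (G l)) (h : Nrb c G q a j b₀ δ b) {y : ℝ}
    (hy : |y - eval b (G j) - (b₀ (some (c j)) - eval b₀ (G j))| ≤ δ / 2 ^ q j) :
    Nrb c G q a (j + 1) b₀ δ (Function.update b (some (c j)) y) := by
  refine ⟨?_, fun l hl => ?_⟩
  · rw [Function.update_of_ne (by simp)]
    exact h.1
  · rw [dep_upd hc (Nat.lt_succ_iff.1 hl) (Nat.lt_succ_self j) (hdep l)]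
    rcases Nat.lt_or_ge l j with h1 | h1
    · rw [Function.update_of_ne]
      · exact h.2 l h1
      · intro he
        have := hc (Set.mem_Iio.2 hl) (Set.mem_Iio.2 (Nat.lt_succ_self j))
          (Option.some_injective _ he)
        omega
    · have : l = j := by omega
      subst this
      rw [Function.update_self]
      exact hy

end

end Pool.RLV
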