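import Pool.Agent.H95.GN.Cht2
import Pool.Agent.H35.ZCL.Core

/-!
# Change of the chart of a label of codimension one

A closed label with all but one free coordinates is a polynomial label of codimension one, with
slopes at most `2 m`, in the best chart, on slightly shorter windows.
-/

set_option autoImplicit false

namespace Pool.GEN.Cht

open Finset Real MvPolynomial
open Pool.Agent.H49.Ent Pool.Agent.H32.Dense Pool.STK Pool.KA Pool.KSAT Pool.K2S Pool.PB

variable {m J : ℕ}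

/-- The rounded point. -/
noncomputable def qp (m J r : ℕ) {ζ : Type} (y : (Fin m → ℤ) × (ℕ × ζ)) : Option (Fin m) → ℝ
  | none => (y.2.1 : ℝ) / 2 ^ J
  | some j => (y.1 j : ℝ) / 2 ^ r

/-- The position at the beginning of the window. -/
noncomputable def ql (m w : ℕ) {ζ : Type} (s : ((Fin m → ℝ) × (Fin m → ℝ)) × ζ × ℕ) :
    Option (Fin m) → ℝ
  | none => (s.2.2 : ℝ) / 2 ^ w
  | some j => s.1.1 j + (s.2.2 : ℝ) / 2 ^ w * s.1.2 j

/-- The polynomial in the chart `i₁`. -/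
noncomputable def pl (i₀ i₁ : Fin m) (N : ℕ) (G : MvPolynomial (Option (Fin m)) ℝ)
    (q : Option (Fin m) → ℝ) : MvPolynomial (Fin m) ℝ :=
  if i₁ = i₀ then aeval (sbs i₀ (C (q (some i₀)))) G
  else nwt i₀ i₁ (eval q (pderiv (some i₁) G)) (q (some i₁)) G N

theorem deg_pl {i₀ i₁ : Fin m} {N K : ℕ} {G : MvPolynomial (Option (Fin m)) ℝ}
    (hG : G.totalDegree ≤ K) (q : Option (Fin m) → ℝ) :
    (pl i₀ i₁ N G q).totalDegree ≤ K + (K + 1) ^ N := by
  unfold pl
  split_ifs with h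
  · have := deg_sub (i₁ := i₀) (S := (C (q (some i₀)) : MvPolynomial (Fin m) ℝ)) hG le_rfl (by
      rw [totalDegree_C]
      exact Nat.zero_le _)
    omega
  · have := deg_nwt (i₀ := i₀) (i₁ := i₁) (s₀ := eval q (pderiv (some i₁) G))
      (c := q (some i₁)) hG N
    omega

theorem qp_near (F : Fam m J) {r w : ℕ} (hr : w ≤ r) (ω : F.Ω) (o : Option (Fin m)) :
    |qp m J r (ptr F r ω) o - bt F ω o| ≤ 1 / 2 ^ w := by
  rcases o with _ | j
  · change |(F.T ω : ℝ) / 2 ^ J - F.t ω| ≤ _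
    unfold Fam.t
    rw [sub_self, abs_zero]
    positivity
  · change |((⌊(2 : ℝ) ^ r * F.x ω j⌋ : ℤ) : ℝ) / 2 ^ r - F.x ω j| ≤ _
    have h1 := Int.floor_le ((2 : ℝ) ^ r * F.x ω j)
    have h2 := Int.lt_floor_add_one ((2 : ℝ) ^ r * F.x ω j)
    have h0 : (0 : ℝ) < 2 ^ r := by positivity
    have e : ((⌊(2 : ℝ) ^ r * F.x ω j⌋ : ℤ) : ℝ) / 2 ^ r - F.x ω j =
        (((⌊(2 : ℝ) ^ r * F.x ω j⌋ : ℤ) : ℝ) - 2 ^ r * F.x ω j) / 2 ^ r := by
      field_simp
    rw [e, abs_div, abs_of_pos h0]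
    refine (div_le_div_of_nonneg_right (c := (2 : ℝ) ^ r) (b := 1) ?_ h0.le).trans (inv_mono hr)
    rw [abs_le]
    constructor <;> linarith

theorem ql_near (F : Fam m J) {w : ℕ} (hw : w ≤ J) (ω : F.Ω) (o : Option (Fin m)) :
    |ql m w (slam F w ω) o - bt F ω o| ≤ 1 / 2 ^ w := by
  have hw0 : (0 : ℝ) < 2 ^ w := by positivity
  have b1 := T1_real F hw ω
  have b2 : |(2 ^ w * F.t ω - F.T1 w ω) / 2 ^ w| ≤ 1 / 2 ^ w := by
    rw [abs_div, abs_of_pos hw0]
    refine div_le_div_of_nonneg_right ?_ hw0.le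
    rw [abs_le]
    constructor <;> linarith [b1.1, b1.2]
  rcases o with _ | j
  · change |(F.T1 w ω : ℝ) / 2 ^ w - F.t ω| ≤ _
    have e : (F.T1 w ω : ℝ) / 2 ^ w - F.t ω = -((2 ^ w * F.t ω - F.T1 w ω) / 2 ^ w) := by
      field_simp
      ring
    rw [e, abs_neg]
    exact b2
  · change |F.u ω j + (F.T1 w ω : ℝ) / 2 ^ w * F.d ω j - (F.u ω j + F.t ω * F.d ω j)| ≤ _
    have e : F.u ω j + (F.T1 w ω : ℝ) / 2 ^ w * F.d ω j - (F.u ω j + F.t ω * F.d ω j) =
        -((2 ^ w * F.t ω - F.T1 w ω) / 2 ^ w * F.d ω j) := by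
      field_simp
      ring
    rw [e, abs_neg, abs_mul]
    calc _ ≤ 1 / 2 ^ w * 1 := mul_le_mul b2 (F.dir ω j) (abs_nonneg _) (by positivity)
      _ = _ := mul_one _

/-- The time slope of a label. -/
theorem tslope {F : Fam m J} {I : Finset (Fin m)} {K r w P : ℕ} {A : F.Ω → Prop} {V : Type}
    {z : PtT F → V} {z' : LnT F → V} {G : V → Fin m → MvPolynomial (Option (Fin m)) ℝ}
    (h : LabOK F I K r w P A z z' G) {i₀ : Fin m} (hi₀ : i₀ ∉ I) (hP : w + 4 ≤ P) {ω : F.Ω}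
    (hω : A ω) {g : ℝ} (hg1 : 1 ≤ g)
    (hg : ∀ j, |eval (bt F ω) (pderiv (some j) (G (z' (slam F w ω)) i₀))| ≤ g) :
    |eval (bt F ω) (pderiv none (G (z' (slam F w ω)) i₀))| ≤ m * g + 1 / 16 := by
  classical
  have h1 := h.vel ω hω i₀
  rw [Fintype.sum_option] at h1
  have h2 : (2 : ℝ) ^ w / 2 ^ P ≤ 1 / 16 := by
    rw [div_le_div_iff₀ (by positivity) (by norm_num)]
    have : (2 : ℝ) ^ P = 2 ^ (P - (w + 4)) * (2 ^ w * 16) := by
      rw [show (16 : ℝ) = 2 ^ 4 by norm_num, ← pow_add, ← pow_add]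
      congr 1
      omega
    rw [this, one_mul]
    exact le_mul_of_one_le_left (by positivity) (one_le_pow₀ one_le_two)
  have h3 : bd F ω none = 1 := rfl
  rw [h3, one_mul] at h1
  obtain ⟨s, hs⟩ : ∃ s, s = ∑ j : Fin m, bd F ω (some j) *
    eval (bt F ω) (pderiv (some j) (G (z' (slam F w ω)) i₀)) := ⟨_, rfl⟩
  rw [← hs] at h1
  have h4 : |s| ≤ (m - 1) * g := by
    rw [hs, ← Finset.add_sum_erase _ _ (Finset.mem_univ i₀), h.pd _ _ _ hi₀, mul_zero, zero_add]
    refine (Finset.abs_sum_le_sum_abs _ _).trans ?_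
    calc ∑ j ∈ univ.erase i₀, |bd F ω (some j) *
          eval (bt F ω) (pderiv (some j) (G (z' (slam F w ω)) i₀))| ≤
          ∑ _j ∈ univ.erase i₀, g := by
            refine Finset.sum_le_sum fun j _ => ?_
            rw [abs_mul]
            have := mul_le_mul (F.dir ω j) (hg j) (abs_nonneg _) zero_le_one
            rw [one_mul] at this
            exact this
      _ = (m - 1) * g := by
            rw [Finset.sum_const, nsmul_eq_mul, Finset.card_erase_of_mem (Finset.mem_univ _),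
              Finset.card_univ, Fintype.card_fin, Nat.cast_sub (by
                have := i₀.2
                omega)]
            push_cast
            ring
  have h5 := F.dir ω i₀
  obtain ⟨e, he⟩ : ∃ e, e = F.d ω i₀ -
    (eval (bt F ω) (pderiv none (G (z' (slam F w ω)) i₀)) + s) := ⟨_, rfl⟩
  rw [← he] at h1
  have h6 : eval (bt F ω) (pderiv none (G (z' (slam F w ω)) i₀)) = F.d ω i₀ - s - e := by
    rw [he]
    ring
  rw [h6]
  have h7 := abs_sub (F.d ω i₀ - s) e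
  have h8 := abs_sub (F.d ω i₀) s
  linarith

/-- **Change of the chart.** -/
theorem glab_lab (m K N : ℕ) : ∃ K' c d₀ : ℕ, ∀ (J : ℕ) (F : Fam m J) (I : Finset (Fin m))
    (r w dl P : ℕ) (A : F.Ω → Prop), d₀ ≤ dl → w + dl ≤ r → w + dl ≤ J → w + c ≤ P →
    P ≤ N * dl + w → I.card + 1 = m → GLab F I K r w P A →
    ∃ (i₁ : Fin m) (B : F.Ω → Prop), Sub B A ∧ Pe F.p A ≤ m * Pe F.p B ∧
      Lab F i₁ r K' (w + dl) (w + dl) (P - c) B := by
  classical
  obtain ⟨C, η, hC, hη, hη1, hdet⟩ := cht_det m K N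
  obtain ⟨C₁, hC₁, hball⟩ := ball_lipσ K
  obtain ⟨C', hC'⟩ : ∃ C' : ℝ, C' = C * (C ^ N + 1) + 1 := ⟨_, rfl⟩
  obtain ⟨c₁, hc₁⟩ := pow_unbounded_of_one_lt C' (one_lt_two)
  obtain ⟨d₁, hd₁⟩ := pow_unbounded_of_one_lt (1 / η) (one_lt_two)
  obtain ⟨d₂, hd₂⟩ := pow_unbounded_of_one_lt (16 * C₁ * (K + 1)) (one_lt_two)
  refine ⟨K + (K + 1) ^ N, c₁ + 4, d₁ + d₂, ?_⟩
  rintro J F I r w dl P A hdl hr hJ hP hPN hI ⟨V, z, z', G, hlab⟩
  -- the dependent coordinate
  obtain ⟨i₀, hi₀⟩ : ∃ i₀, i₀ ∉ I := by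
    by_contra hcon
    push Not at hcon
    have h1 : I = Finset.univ := Finset.eq_univ_iff_forall.2 hcon
    rw [h1, Finset.card_univ, Fintype.card_fin] at hI
    omega
  have hIi : ∀ j, j ≠ i₀ → j ∈ I := by
    intro j hj
    by_contra hcon
    have h1 : I ⊆ (Finset.univ.erase i₀).erase j := by
      intro l hl
      refine Finset.mem_erase.2 ⟨fun h => hcon (h ▸ hl), Finset.mem_erase.2
        ⟨fun h => hi₀ (h ▸ hl), Finset.mem_univ _⟩⟩
    have h2 := Finset.card_le_card h1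
    rw [Finset.card_erase_of_mem (Finset.mem_erase.2 ⟨hj, Finset.mem_univ _⟩),
      Finset.card_erase_of_mem (Finset.mem_univ _), Finset.card_univ, Fintype.card_fin] at h2
    have := i₀.2
    omega
  have hm1 : 1 ≤ m := by
    have := i₀.2
    omega
  have hm1r : (1 : ℝ) ≤ m := by exact_mod_cast hm1
  have hp := F.isLaw
  by_cases hPw : P - (c₁ + 4) + 1 ≤ w + dl
  · refine ⟨i₀, A, fun ω hω => hω, ?_, Lab.trivial hPw (hPw.trans hr) hJ⟩
    exact le_mul_of_one_le_left (Pe_nonneg hp A) hm1r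
  push Not at hPw
  -- the chart
  have hch : ∀ ω, ∃ i₁ : Fin m, (i₁ = i₀ ∧
      ∀ j : Fin m, |eval (bt F ω) (pderiv (some j) (G (z' (slam F w ω)) i₀))| ≤ 1) ∨
      (i₁ ≠ i₀ ∧ 1 ≤ |eval (bt F ω) (pderiv (some i₁) (G (z' (slam F w ω)) i₀))| ∧
        ∀ j : Fin m, |eval (bt F ω) (pderiv (some j) (G (z' (slam F w ω)) i₀))| ≤
          |eval (bt F ω) (pderiv (some i₁) (G (z' (slam F w ω)) i₀))|) := by
    intro ω
    by_cases h : ∀ j : Fin m,
        |eval (bt F ω) (pderiv (some j) (G (z' (slam F w ω)) i₀))| ≤ 1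
    · exact ⟨i₀, Or.inl ⟨rfl, h⟩⟩
    · push Not at h
      obtain ⟨j, hj⟩ := h
      obtain ⟨i₁, -, hi₁⟩ := Finset.exists_max_image Finset.univ
        (fun j : Fin m => |eval (bt F ω) (pderiv (some j) (G (z' (slam F w ω)) i₀))|)
        ⟨j, Finset.mem_univ j⟩
      have h1 : 1 < |eval (bt F ω) (pderiv (some i₁) (G (z' (slam F w ω)) i₀))| :=
        hj.trans_le (hi₁ j (Finset.mem_univ j))
      refine ⟨i₁, Or.inr ⟨?_, h1.le, fun j => hi₁ j (Finset.mem_univ j)⟩⟩
      intro he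
      rw [he, hlab.pd _ _ _ hi₀, abs_zero] at h1
      linarith
  choose ch hch using hch
  obtain ⟨hm0, i₁, hi₁⟩ := Pool.ZCL.Pe_pigeon hp ch A
  refine ⟨i₁, fun ω => ch ω = i₁ ∧ A ω, fun ω hω => hω.2, ?_, ?_⟩
  · rw [div_le_iff₀ (by linarith)] at hi₁
    linarith
  -- the label
  refine ⟨fun y => pl i₀ i₁ N (G (z y) i₀) (qp m J r y),
    fun s => pl i₀ i₁ N (G (z' (s.1, s.2.1, s.2.2 / 2 ^ dl)) i₀) (ql m (w + dl) s),
    fun y => deg_pl (hlab.deg _ _) _, fun s => deg_pl (hlab.deg _ _) _, ?_⟩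
  rintro ω ⟨hcω, hω⟩
  have hcl := hch ω
  rw [hcω] at hcl
  have hz := hlab.cls ω hω
  have hz' : z' ((slam F (w + dl) ω).1, (slam F (w + dl) ω).2.1,
      (slam F (w + dl) ω).2.2 / 2 ^ dl) = z' (slam F w ω) := by
    rw [slam_coarse F (Nat.le_add_right w dl) hJ ω, Nat.add_sub_cancel_left]
  have hpos := hlab.pos ω hω i₀
  have hlip := hlab.lip ω hω
  have hts : ∀ g : ℝ, 1 ≤ g →
      (∀ j, |eval (bt F ω) (pderiv (some j) (G (z' (slam F w ω)) i₀))| ≤ g) →
      |eval (bt F ω) (pderiv none (G (z' (slam F w ω)) i₀))| ≤ m * g + 1 / 16 :=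
    fun g hg1 hg => tslope hlab hi₀ (by omega) hω hg1 hg
  have hdeg := hlab.deg (z' (slam F w ω)) i₀
  have hpd := fun q => hlab.pd (z' (slam F w ω)) i₀ i₀ hi₀ q
  have hdep := fun b b' => hlab.dep (z' (slam F w ω)) i₀ b b'
  simp only [hz, hz']
  obtain ⟨Gv, hGv⟩ : ∃ Gv, Gv = G (z' (slam F w ω)) i₀ := ⟨_, rfl⟩
  simp only [← hGv] at hcl hpos hts hdeg hpd hdep ⊢
  have hlip' : ∀ q : Option (Fin m) → ℝ, (∀ o, |q o - bt F ω o| ≤ 1 / 2 ^ w) → ∀ o,
      |eval q (pderiv o Gv)| ≤ K := by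
    intro q hq o
    rw [hGv]
    exact hlip q hq i₀ o
  have hq1 := qp_near F hr ω
  have hq2 := ql_near F hJ ω
  obtain ⟨U, hU⟩ : ∃ U : ℝ, U = 1 / 2 ^ (w + dl) := ⟨_, rfl⟩
  obtain ⟨W, hW⟩ : ∃ W : ℝ, W = 1 / 2 ^ w := ⟨_, rfl⟩
  rw [← hU] at hq1 hq2 ⊢
  rw [← hW] at hlip'
  have hU0 : 0 < U := by rw [hU]; positivity
  have hW0 : 0 < W := by rw [hW]; positivity
  have hUW : U / W = 1 / 2 ^ dl := by
    rw [hU, hW, pow_add]
    field_simp
  have hPP : (1 : ℝ) / 2 ^ P ≤ 1 / 2 ^ (P - (c₁ + 4)) := inv_mono (by omega)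
  have hb0 : ∀ j, j ≠ i₁ → bp F i₁ ω j = F.x ω j := fun j hj => by
    unfold bp
    rw [Function.update_of_ne hj]
  have hb1 : bp F i₁ ω i₁ = F.t ω := by
    unfold bp
    rw [Function.update_self]
  rcases hcl with ⟨hii, hg⟩ | ⟨hii, hg1, hg⟩
  · -- the old chart
    have hpl : ∀ q, pl i₀ i₁ N Gv q = aeval (sbs i₀ (MvPolynomial.C (q (some i₀)))) Gv := by
      intro q
      unfold pl
      rw [if_pos hii]
    simp only [hpl]
    have hdl2 : C₁ * K * (U / W) ≤ 1 / 16 := by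
      rw [hUW, mul_one_div, div_le_iff₀ (by positivity)]
      have h1 : (2 : ℝ) ^ d₂ ≤ 2 ^ dl := pow_le_pow_right₀ (by norm_num) (by omega)
      have h2 : (0 : ℝ) ≤ C₁ := by linarith
      nlinarith
    refine ⟨?_, fun b hb => ⟨fun j => ?_, ?_⟩⟩
    · rw [eval_sub]
      have h1 : eval (hat i₀ (bp F i₁ ω) (eval (bp F i₁ ω)
          (MvPolynomial.C (qp m J r (ptr F r ω) (some i₀))))) Gv = eval (bt F ω) Gv := by
        refine hdep _ _ ?_ fun k hk => ?_
        · change bp F i₁ ω i₀ = F.t ω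
          rw [← hii]
          exact hb1
        · have hki : k ≠ i₀ := fun h => hi₀ (h ▸ hk)
          change (if k = i₀ then _ else bp F i₁ ω k) = F.x ω k
          rw [if_neg hki, hb0 k (by rw [hii]; exact hki)]
      rw [h1, hii]
      exact hpos.trans hPP
    · rw [pd_sub, pderiv_C, map_zero, mul_zero, zero_add, eval_C]
      have hnear : ∀ o, |hat i₀ b (qp m J r (ptr F r ω) (some i₀)) o - bt F ω o| ≤ U := by
        intro o
        rcases o with _ | k
        · change |b i₀ - F.t ω| ≤ U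
          rw [← hb1, ← hii]
          exact hb i₁
        · change |(if k = i₀ then _ else b k) - F.x ω k| ≤ U
          by_cases hk : k = i₀
          · rw [if_pos hk, hk]
            exact hq1 (some i₀)
          · rw [if_neg hk, ← hb0 k (by rw [hii]; exact hk)]
            exact hb k
      have hgr : ∀ o, |eval (hat i₀ b (qp m J r (ptr F r ω) (some i₀))) (pderiv o Gv) -
          eval (bt F ω) (pderiv o Gv)| ≤ 1 / 16 := by
        intro o
        have hUW' : U ≤ W := by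
          rw [hU, hW]
          exact inv_mono (by omega)
        exact (hball (Option (Fin m)) inferInstance (pderiv o Gv) (bt F ω) _ W U K
          (totalDegree_pdσ hdeg o) hU0 hUW' (fun y hy => hlip' y hy o) hnear).trans hdl2
      split_ifs with hj
      · have h1 := hgr none
        have h2 := hts 1 le_rfl hg
        have h3 := abs_add_le (eval (hat i₀ b (qp m J r (ptr F r ω) (some i₀)))
          (pderiv none Gv) - eval (bt F ω) (pderiv none Gv)) (eval (bt F ω) (pderiv none Gv))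
        rw [sub_add_cancel] at h3
        linarith
      · have h1 := hgr (some j)
        have h2 := hg j
        have h3 := abs_add_le (eval (hat i₀ b (qp m J r (ptr F r ω) (some i₀)))
          (pderiv (some j) Gv) - eval (bt F ω) (pderiv (some j) Gv))
          (eval (bt F ω) (pderiv (some j) Gv))
        rw [sub_add_cancel] at h3
        linarith
    · rw [eval_sub, eval_sub, eval_C, eval_C]
      have h1 : eval (hat i₀ b (qp m J r (ptr F r ω) (some i₀))) Gv =
          eval (hat i₀ b (ql m (w + dl) (slam F (w + dl) ω) (some i₀))) Gv := by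
        refine hdep _ _ rfl fun k hk => ?_
        have hki : k ≠ i₀ := fun h => hi₀ (h ▸ hk)
        change (if k = i₀ then _ else b k) = (if k = i₀ then _ else b k)
        rw [if_neg hki, if_neg hki]
      rw [h1, sub_self, abs_zero]
      positivity
  · -- the new chart
    have hpl : ∀ q, pl i₀ i₁ N Gv q =
        nwt i₀ i₁ (eval q (pderiv (some i₁) Gv)) (q (some i₁)) Gv N := by
      intro q
      unfold pl
      rw [if_neg hii]
    simp only [hpl]
    have hUη : U ≤ η * W := by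
      have h1 : (2 : ℝ) ^ d₁ ≤ 2 ^ dl := pow_le_pow_right₀ (by norm_num) (by omega)
      have h2 : U = 1 / 2 ^ dl * W := by
        rw [← hUW]
        field_simp
      rw [h2]
      refine mul_le_mul_of_nonneg_right ?_ hW0.le
      rw [div_le_iff₀ (by positivity)]
      rw [div_lt_iff₀ hη] at hd₁
      nlinarith
    have hεU : (1 : ℝ) / 2 ^ P ≤ U := by
      rw [hU]
      exact inv_mono (by omega)
    obtain ⟨h1, h2⟩ := hdet Gv (bt F ω) i₀ i₁ U W (1 / 2 ^ P) (bp F i₁ ω) hdeg hU0 hUη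
      (by positivity) hεU hii hlip' hpd hpos hg1 hg (hts _ hg1 hg) hb1 hb0
      (qp m J r (ptr F r ω)) hq1
    have hnum : C * ((C * U / W) ^ N * U + 1 / 2 ^ P) ≤ 1 / 2 ^ (P - (c₁ + 4)) := by
      have e1 : (C * U / W) ^ N * U ≤ C ^ N * (1 / 2 ^ P) := by
        have e2 : C * U / W = C * (1 / 2 ^ dl) := by rw [← hUW]; ring
        rw [e2, mul_pow, mul_assoc]
        refine mul_le_mul_of_nonneg_left ?_ (by positivity)
        rw [hU, div_pow, one_pow, ← pow_mul, div_mul_div_comm, one_mul, ← pow_add]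
        refine inv_mono ?_
        have : dl * N = N * dl := Nat.mul_comm _ _
        omega
      have e3 : C * ((C * U / W) ^ N * U + 1 / 2 ^ P) ≤ C' * (1 / 2 ^ P) := by
        have e4 := mul_le_mul_of_nonneg_left (add_le_add e1 (le_refl ((1 : ℝ) / 2 ^ P)))
          (by linarith : 0 ≤ C)
        have e5 : (0 : ℝ) < 1 / 2 ^ P := by positivity
        rw [hC']
        nlinarith
      refine e3.trans ?_
      rw [mul_one_div, div_le_div_iff₀ (by positivity) (by positivity), one_mul]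
      have e6 : (2 : ℝ) ^ P = 2 ^ (c₁ + 4) * 2 ^ (P - (c₁ + 4)) := by
        rw [← pow_add]
        congr 1
        omega
      rw [e6]
      refine mul_le_mul_of_nonneg_right ?_ (by positivity)
      refine hc₁.le.trans ?_
      exact pow_le_pow_right₀ (by norm_num) (by omega)
    refine ⟨h1.trans hnum, fun b hb => ?_⟩
    obtain ⟨h3, h4⟩ := h2 b hb
    refine ⟨h3, (h4 _ hq2).trans (le_trans ?_ hnum)⟩
    refine mul_le_mul_of_nonneg_left ?_ (by linarith)
    have : (0 : ℝ) ≤ 1 / 2 ^ P := by positivity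
    linarith

end Pool.GEN.Cht
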