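import Pool.Agent.H71.GEN.Poly

/-!
# Change of the chart of a label of codimension one (pure part)

A hypersurface `x i₀ = G (t, x)` on which the slope in the direction `i₁` is at least one is given
by `x i₁ = S (t, x)`, up to a small error, where `S` is a polynomial: the iterates of the Newton
method with a fixed slope. The slopes of `S` are bounded.
-/

set_option autoImplicit false

namespace Pool.GEN.Cht

open Finset Real MvPolynomial

variable {m : ℕ}

/-- The point with the time in the slot `i₁` and with the coordinate `i₁` equal to `s`. -/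
def hat (i₁ : Fin m) (b : Fin m → ℝ) (s : ℝ) : Option (Fin m) → ℝ
  | none => b i₁
  | some j => if j = i₁ then s else b j

/-- The substitution. -/
noncomputable def sbs (i₁ : Fin m) (S : MvPolynomial (Fin m) ℝ) :
    Option (Fin m) → MvPolynomial (Fin m) ℝ
  | none => X i₁
  | some j => if j = i₁ then S else X j

theorem eval_sbs (i₁ : Fin m) (S : MvPolynomial (Fin m) ℝ) (b : Fin m → ℝ)
    (o : Option (Fin m)) : eval b (sbs i₁ S o) = hat i₁ b (eval b S) o := by
  rcases o with _ | j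
  · simp [sbs, hat]
  · by_cases h : j = i₁
    · simp [sbs, hat, h]
    · simp [sbs, hat, h]

theorem eval_sub (i₁ : Fin m) (S : MvPolynomial (Fin m) ℝ)
    (G : MvPolynomial (Option (Fin m)) ℝ) (b : Fin m → ℝ) :
    eval b (aeval (sbs i₁ S) G) = eval (hat i₁ b (eval b S)) G := by
  rw [eval_aevalσ]
  have : (fun i => eval b (sbs i₁ S i)) = hat i₁ b (eval b S) := funext fun o => eval_sbs _ _ _ _
  rw [this]

theorem pd_sub (i₁ j : Fin m) (S : MvPolynomial (Fin m) ℝ)
    (G : MvPolynomial (Option (Fin m)) ℝ) (b : Fin m → ℝ) :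
    eval b (pderiv j (aeval (sbs i₁ S) G)) =
      eval (hat i₁ b (eval b S)) (pderiv (some i₁) G) * eval b (pderiv j S) +
        (if j = i₁ then eval (hat i₁ b (eval b S)) (pderiv none G) else
          eval (hat i₁ b (eval b S)) (pderiv (some j) G)) := by
  classical
  rw [pd_aeval, map_sum, Fintype.sum_option]
  simp only [map_mul, eval_sub]
  have h1 : eval b (pderiv j (sbs i₁ S none)) = if j = i₁ then 1 else 0 := by
    change eval b (pderiv j (X i₁)) = _
    rw [pderiv_X]
    by_cases h : j = i₁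
    · rw [if_pos h, h, Pi.single_eq_same, map_one]
    · rw [if_neg h, Pi.single_eq_of_ne (Ne.symm h), map_zero]
  have h2 : ∀ l : Fin m, eval b (pderiv j (sbs i₁ S (some l))) =
      if l = i₁ then eval b (pderiv j S) else if j = l then 1 else 0 := by
    intro l
    change eval b (pderiv j (if l = i₁ then S else X l)) = _
    by_cases h : l = i₁
    · rw [if_pos h, if_pos h]
    · rw [if_neg h, if_neg h, pderiv_X]
      by_cases h3 : j = l
      · rw [if_pos h3, h3, Pi.single_eq_same, map_one]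
      · rw [if_neg h3, Pi.single_eq_of_ne (Ne.symm h3), map_zero]
  rw [h1]
  simp only [h2]
  rw [← Finset.add_sum_erase _ _ (Finset.mem_univ i₁), if_pos rfl]
  by_cases h : j = i₁
  · rw [if_pos h, if_pos h, mul_one]
    have h3 : ∑ l ∈ univ.erase i₁, eval (hat i₁ b (eval b S)) (pderiv (some l) G) *
        (if l = i₁ then eval b (pderiv j S) else if j = l then 1 else 0) = 0 := by
      refine Finset.sum_eq_zero fun l hl => ?_
      have hl1 := Finset.ne_of_mem_erase hl
      rw [if_neg hl1, if_neg (by rw [h]; exact Ne.symm hl1), mul_zero]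
    rw [h3]
    ring
  · rw [if_neg h, if_neg h, mul_zero, zero_add]
    congr 1
    rw [Finset.sum_eq_single j]
    · rw [if_neg h, if_pos rfl, mul_one]
    · intro l hl hlj
      rw [if_neg (Finset.ne_of_mem_erase hl), if_neg (Ne.symm hlj), mul_zero]
    · intro hj
      exact absurd (Finset.mem_erase.2 ⟨h, Finset.mem_univ _⟩) hj

/-- The Newton iteration. -/
noncomputable def nwt (i₀ i₁ : Fin m) (s₀ c : ℝ) (G : MvPolynomial (Option (Fin m)) ℝ) :
    ℕ → MvPolynomial (Fin m) ℝ
  | 0 => C c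
  | k + 1 => nwt i₀ i₁ s₀ c G k +
      C (1 / s₀) * (X i₀ - aeval (sbs i₁ (nwt i₀ i₁ s₀ c G k)) G)

theorem deg_sub {i₁ : Fin m} {S : MvPolynomial (Fin m) ℝ} {G : MvPolynomial (Option (Fin m)) ℝ}
    {K d : ℕ} (hG : G.totalDegree ≤ K) (hd : 1 ≤ d) (hS : S.totalDegree ≤ d) :
    (aeval (sbs i₁ S) G).totalDegree ≤ d * K := by
  refine totalDegree_aevalσ (fun o => ?_) hG
  rcases o with _ | j
  · exact (totalDegree_X _).le.trans hd
  · change (if j = i₁ then S else X j).totalDegree ≤ d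
    by_cases h : j = i₁
    · rw [if_pos h]
      exact hS
    · rw [if_neg h]
      exact (totalDegree_X _).le.trans hd

theorem deg_nwt {i₀ i₁ : Fin m} {s₀ c : ℝ} {G : MvPolynomial (Option (Fin m)) ℝ} {K : ℕ}
    (hG : G.totalDegree ≤ K) (k : ℕ) : (nwt i₀ i₁ s₀ c G k).totalDegree ≤ (K + 1) ^ k := by
  induction k with
  | zero =>
    change (C c : MvPolynomial (Fin m) ℝ).totalDegree ≤ _
    rw [totalDegree_C]
    exact Nat.zero_le _
  | succ k ih =>
    have h1 : 1 ≤ (K + 1) ^ k := Nat.one_le_pow _ _ (Nat.succ_pos K)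
    have h2 : (K + 1) ^ k ≤ (K + 1) ^ (k + 1) := Nat.pow_le_pow_right (Nat.succ_pos K) (by omega)
    change (nwt i₀ i₁ s₀ c G k +
      C (1 / s₀) * (X i₀ - aeval (sbs i₁ (nwt i₀ i₁ s₀ c G k)) G)).totalDegree ≤ _
    refine (totalDegree_add _ _).trans (max_le (ih.trans h2) ?_)
    refine (totalDegree_mul _ _).trans ?_
    rw [totalDegree_C, zero_add]
    refine (totalDegree_sub _ _).trans (max_le ?_ ?_)
    · exact (totalDegree_X _).le.trans (h1.trans h2)
    · refine (deg_sub hG h1 ih).trans ?_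
      rw [pow_succ]
      exact Nat.mul_le_mul_left _ (by omega)

section

variable {i₀ i₁ : Fin m} {G : MvPolynomial (Option (Fin m)) ℝ} {b : Fin m → ℝ} {c₀ R g ρ : ℝ}

/-- The variation of the height. -/
theorem phi_mv (hg : ∀ s, |s - c₀| ≤ R → |eval (hat i₁ b s) (pderiv (some i₁) G) - g| ≤ ρ)
    {s s' : ℝ} (h : |s - c₀| + |s' - s| ≤ R) :
    |eval (hat i₁ b s') G - eval (hat i₁ b s) G - g * (s' - s)| ≤ ρ * |s' - s| := by
  classical
  obtain ⟨f, hf⟩ : ∃ f : Option (Fin m) → MvPolynomial Unit ℝ, f = fun o => match o with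
    | none => C (b i₁)
    | some j => if j = i₁ then X () else C (b j) := ⟨_, rfl⟩
  have hfe : ∀ (Q : MvPolynomial (Option (Fin m)) ℝ) (y : Unit → ℝ),
      eval y (aeval f Q) = eval (hat i₁ b (y ())) Q := by
    intro Q y
    rw [eval_aevalσ]
    have : (fun i => eval y (f i)) = hat i₁ b (y ()) := by
      funext o
      rw [hf]
      rcases o with _ | j
      · simp [hat]
      · by_cases hj : j = i₁
        · simp [hat, hj]
        · simp [hat, hj]
    rw [this]
  have hpd : ∀ y : Unit → ℝ, eval y (pderiv () (aeval f G)) =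
      eval (hat i₁ b (y ())) (pderiv (some i₁) G) := by
    intro y
    rw [pd_aeval, map_sum, Finset.sum_eq_single (some i₁)]
    · rw [map_mul, hfe]
      have : pderiv () (f (some i₁)) = 1 := by
        rw [hf]
        simp only [if_true]
        rw [pderiv_X, Pi.single_eq_same]
      rw [this, map_one, mul_one]
    · intro o _ ho
      have : pderiv () (f o) = 0 := by
        rw [hf]
        rcases o with _ | j
        · simp only
          rw [pderiv_C]
        · have hj : j ≠ i₁ := fun he => ho (by rw [he])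
          simp only [if_neg hj]
          rw [pderiv_C]
      rw [this, mul_zero, map_zero]
    · intro hh
      exact absurd (Finset.mem_univ _) hh
  have h1 := mvσ (aeval f G - C g * X ()) (fun _ => s) (fun _ => s') ρ (by
    intro y hy i
    have hi : i = () := rfl
    subst hi
    rw [map_sub, map_sub, hpd]
    have h2 : eval y (pderiv () (C g * X () : MvPolynomial Unit ℝ)) = g := by
      rw [pderiv_C_mul, pderiv_X, Pi.single_eq_same]
      simp
    rw [h2]
    refine hg _ ?_
    have h3 := hy ()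
    have h4 : y () - c₀ = (y () - s) + (s - c₀) := by ring
    rw [h4]
    refine (abs_add_le _ _).trans ?_
    linarith)
  rw [map_sub, map_sub, hfe, hfe] at h1
  simp only [map_mul, eval_C, eval_X, Finset.univ_unique, Finset.sum_const,
    Finset.card_singleton, one_smul] at h1
  have h5 : eval (hat i₁ b s') G - eval (hat i₁ b s) G - g * (s' - s) =
      eval (hat i₁ b s') G - g * s' - (eval (hat i₁ b s) G - g * s) := by ring
  rw [h5]
  exact h1

theorem phi_inj (hg : ∀ s, |s - c₀| ≤ R → |eval (hat i₁ b s) (pderiv (some i₁) G) - g| ≤ ρ)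
    (hg1 : 1 ≤ |g|) (hρ : ρ ≤ 1 / 16) {s s' : ℝ} (h : |s - c₀| + |s' - s| ≤ R) :
    |s' - s| ≤ 16 / 15 * |eval (hat i₁ b s') G - eval (hat i₁ b s) G| := by
  have h1 := phi_mv hg h
  have h2 : |g * (s' - s)| ≤ |eval (hat i₁ b s') G - eval (hat i₁ b s) G| + ρ * |s' - s| := by
    have h3 : g * (s' - s) = (eval (hat i₁ b s') G - eval (hat i₁ b s) G) -
        (eval (hat i₁ b s') G - eval (hat i₁ b s) G - g * (s' - s)) := by ring
    rw [h3]
    exact (abs_sub _ _).trans (add_le_add le_rfl h1)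
  rw [abs_mul] at h2
  have h4 : 1 * |s' - s| ≤ |g| * |s' - s| := mul_le_mul_of_nonneg_right hg1 (abs_nonneg _)
  have h5 : ρ * |s' - s| ≤ 1 / 16 * |s' - s| := mul_le_mul_of_nonneg_right hρ (abs_nonneg _)
  linarith

/-- **The Newton iteration** converges. -/
theorem nwt_res (hg : ∀ s, |s - c₀| ≤ R → |eval (hat i₁ b s) (pderiv (some i₁) G) - g| ≤ ρ)
    (hg1 : 1 ≤ |g|) (hρ0 : 0 ≤ ρ) (hρ : ρ ≤ 1 / 16) {s₀ c E : ℝ} (hs : |s₀ - g| ≤ ρ)
    (hE : |b i₀ - eval (hat i₁ b c) G| ≤ E) (hR : |c - c₀| + 4 * E ≤ R) (k : ℕ) :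
    |b i₀ - eval (hat i₁ b (eval b (nwt i₀ i₁ s₀ c G k))) G| ≤ (4 * ρ) ^ k * E ∧
      |eval b (nwt i₀ i₁ s₀ c G k) - c| ≤ 2 * E * (1 - (1 / 4) ^ k) := by
  have hE0 : 0 ≤ E := (abs_nonneg _).trans hE
  have hs0 : 15 / 16 ≤ |s₀| := by
    have h1 : |g| ≤ |g - s₀| + |s₀| := by
      have := abs_add_le (g - s₀) s₀
      rwa [sub_add_cancel] at this
    rw [abs_sub_comm] at h1
    linarith
  have hs1 : 0 < |s₀| := by linarith
  have hs2 : s₀ ≠ 0 := abs_pos.1 hs1
  induction k with
  | zero =>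
    constructor
    · change |b i₀ - eval (hat i₁ b (eval b (C c))) G| ≤ _
      rw [eval_C, pow_zero, one_mul]
      exact hE
    · change |eval b (C c) - c| ≤ _
      rw [eval_C, sub_self, abs_zero, pow_zero, sub_self, mul_zero]
  | succ k ih =>
    obtain ⟨ih1, ih2⟩ := ih
    obtain ⟨S, hS⟩ : ∃ S, S = nwt i₀ i₁ s₀ c G k := ⟨_, rfl⟩
    obtain ⟨s, hse⟩ : ∃ s, s = eval b S := ⟨_, rfl⟩
    obtain ⟨e, he⟩ : ∃ e, e = b i₀ - eval (hat i₁ b s) G := ⟨_, rfl⟩
    rw [← hS, ← hse] at ih1 ih2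
    rw [← he] at ih1
    have hn : eval b (nwt i₀ i₁ s₀ c G (k + 1)) = s + e / s₀ := by
      change eval b (nwt i₀ i₁ s₀ c G k +
        C (1 / s₀) * (X i₀ - aeval (sbs i₁ (nwt i₀ i₁ s₀ c G k)) G)) = _
      rw [← hS, map_add, map_mul, map_sub, eval_C, eval_X, eval_sub, ← hse, he]
      ring
    rw [hn]
    have hρk : (4 * ρ) ^ k ≤ (1 / 4) ^ k := pow_le_pow_left₀ (by linarith) (by linarith) k
    have hk0 : (0 : ℝ) ≤ (1 / 4) ^ k := by positivity
    have hk1 : ((1 : ℝ) / 4) ^ k ≤ 1 := pow_le_one₀ (by norm_num) (by norm_num)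
    have he1 : |e| ≤ (1 / 4) ^ k * E := ih1.trans (mul_le_mul_of_nonneg_right hρk hE0)
    have hstep : |e / s₀| ≤ 16 / 15 * |e| := by
      rw [abs_div, div_le_iff₀ hs1]
      have := mul_le_mul_of_nonneg_left hs0 (abs_nonneg e)
      nlinarith [abs_nonneg e]
    have hd : s + e / s₀ - s = e / s₀ := by ring
    constructor
    · have h1 := phi_mv hg (s := s) (s' := s + e / s₀) (by
        rw [hd]
        have h2 : |s - c₀| ≤ |s - c| + |c - c₀| := by
          have := abs_add_le (s - c) (c - c₀)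
          rwa [show s - c + (c - c₀) = s - c₀ by ring] at this
        have h3 : (1 / 4) ^ k * E ≤ 1 * E := mul_le_mul_of_nonneg_right hk1 hE0
        have h4 : 2 * E * (1 - (1 / 4) ^ k) ≤ 2 * E * 1 :=
          mul_le_mul_of_nonneg_left (by linarith) (by linarith)
        linarith)
      rw [hd] at h1
      obtain ⟨u, hu⟩ : ∃ u, u = eval (hat i₁ b (s + e / s₀)) G - eval (hat i₁ b s) G -
        g * (e / s₀) := ⟨_, rfl⟩
      rw [← hu] at h1
      have h2 : b i₀ - eval (hat i₁ b (s + e / s₀)) G = e * (s₀ - g) / s₀ - u := by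
        rw [hu, he]
        field_simp
        ring
      rw [h2]
      have h3 : |e * (s₀ - g) / s₀| ≤ ρ * |e / s₀| := by
        have : e * (s₀ - g) / s₀ = (s₀ - g) * (e / s₀) := by ring
        rw [this, abs_mul]
        exact mul_le_mul_of_nonneg_right hs (abs_nonneg _)
      have h4 : ρ * |e / s₀| ≤ ρ * (16 / 15 * |e|) := mul_le_mul_of_nonneg_left hstep hρ0
      have h5 := abs_sub (e * (s₀ - g) / s₀) u
      have h6 : (4 * ρ) ^ (k + 1) * E = 4 * ρ * ((4 * ρ) ^ k * E) := by
        rw [pow_succ]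
        ring
      rw [h6]
      have h7 : 4 * ρ * |e| ≤ 4 * ρ * ((4 * ρ) ^ k * E) :=
        mul_le_mul_of_nonneg_left ih1 (by linarith)
      have h8 : 0 ≤ ρ * |e| := mul_nonneg hρ0 (abs_nonneg _)
      linarith
    · have h1 : s + e / s₀ - c = (s - c) + e / s₀ := by ring
      rw [h1]
      have h2 := abs_add_le (s - c) (e / s₀)
      have h3 : 2 * E * (1 - (1 / 4) ^ (k + 1)) =
          2 * E * (1 - (1 / 4) ^ k) + 3 / 2 * ((1 / 4) ^ k * E) := by
        rw [pow_succ]
        ring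
      rw [h3]
      have h4 : 0 ≤ (1 / 4) ^ k * E := mul_nonneg hk0 hE0
      linarith

/-- The slopes of the iterates. -/
theorem nwt_pd (hg : ∀ s, |s - c₀| ≤ R → |eval (hat i₁ b s) (pderiv (some i₁) G) - g| ≤ ρ)
    (hg1 : 1 ≤ |g|) (hρ0 : 0 ≤ ρ) (hρ : ρ ≤ 1 / 16) {s₀ c E M : ℝ} (hs : |s₀ - g| ≤ ρ)
    (hE : |b i₀ - eval (hat i₁ b c) G| ≤ E) (hR : |c - c₀| + 4 * E ≤ R) (hM : 0 ≤ M)
    (j : Fin m) (hj : ∀ s, |s - c₀| ≤ R → |(if j = i₀ then (1 : ℝ) else 0) -
      (if j = i₁ then eval (hat i₁ b s) (pderiv none G) else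
        eval (hat i₁ b s) (pderiv (some j) G))| ≤ M * |s₀|) (k : ℕ) :
    |eval b (pderiv j (nwt i₀ i₁ s₀ c G k))| ≤ 6 / 5 * M := by
  classical
  have hE0 : 0 ≤ E := (abs_nonneg _).trans hE
  have hs0 : 15 / 16 ≤ |s₀| := by
    have h1 : |g| ≤ |g - s₀| + |s₀| := by
      have := abs_add_le (g - s₀) s₀
      rwa [sub_add_cancel] at this
    rw [abs_sub_comm] at h1
    linarith
  have hs1 : 0 < |s₀| := by linarith
  have hs2 : s₀ ≠ 0 := abs_pos.1 hs1
  induction k with
  | zero =>
    change |eval b (pderiv j (C c))| ≤ _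
    rw [pderiv_C, map_zero, abs_zero]
    linarith
  | succ k ih =>
    obtain ⟨-, hr⟩ := nwt_res hg hg1 hρ0 hρ hs hE hR k
    obtain ⟨S, hS⟩ : ∃ S, S = nwt i₀ i₁ s₀ c G k := ⟨_, rfl⟩
    obtain ⟨s, hse⟩ : ∃ s, s = eval b S := ⟨_, rfl⟩
    rw [← hS, ← hse] at hr
    rw [← hS] at ih
    have hk1 : (0 : ℝ) ≤ (1 / 4) ^ k := by positivity
    have hsR : |s - c₀| ≤ R := by
      have h2 : |s - c₀| ≤ |s - c| + |c - c₀| := by
        have := abs_add_le (s - c) (c - c₀)
        rwa [show s - c + (c - c₀) = s - c₀ by ring] at this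
      have h4 : 2 * E * (1 - (1 / 4) ^ k) ≤ 2 * E * 1 :=
        mul_le_mul_of_nonneg_left (by linarith) (by linarith)
      linarith
    have h1 : eval b (pderiv j (nwt i₀ i₁ s₀ c G (k + 1))) =
        eval b (pderiv j S) * ((s₀ - eval (hat i₁ b s) (pderiv (some i₁) G)) / s₀) +
        ((if j = i₀ then (1 : ℝ) else 0) -
          (if j = i₁ then eval (hat i₁ b s) (pderiv none G) else
            eval (hat i₁ b s) (pderiv (some j) G))) / s₀ := by
      change eval b (pderiv j (nwt i₀ i₁ s₀ c G k +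
        C (1 / s₀) * (X i₀ - aeval (sbs i₁ (nwt i₀ i₁ s₀ c G k)) G))) = _
      rw [← hS, map_add, map_add, pderiv_C_mul, map_sub, map_mul, eval_C, map_sub, pd_sub,
        ← hse]
      have h2 : eval b (pderiv j (X i₀ : MvPolynomial (Fin m) ℝ)) = if j = i₀ then 1 else 0 := by
        rw [pderiv_X]
        by_cases h : j = i₀
        · rw [if_pos h, h, Pi.single_eq_same, map_one]
        · rw [if_neg h, Pi.single_eq_of_ne (Ne.symm h), map_zero]
      rw [h2]
      field_simp
      ring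
    rw [h1]
    refine (abs_add_le _ _).trans ?_
    rw [abs_mul, abs_div, abs_div]
    have h3 := hg s hsR
    have h4 : |s₀ - eval (hat i₁ b s) (pderiv (some i₁) G)| ≤ 2 * ρ := by
      have h5 : s₀ - eval (hat i₁ b s) (pderiv (some i₁) G) =
          (s₀ - g) - (eval (hat i₁ b s) (pderiv (some i₁) G) - g) := by ring
      rw [h5]
      refine (abs_sub _ _).trans ?_
      linarith
    have h6 : |s₀ - eval (hat i₁ b s) (pderiv (some i₁) G)| / |s₀| ≤ 2 / 15 := by
      rw [div_le_iff₀ hs1]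
      linarith
    have h7 : |(if j = i₀ then (1 : ℝ) else 0) -
        (if j = i₁ then eval (hat i₁ b s) (pderiv none G) else
          eval (hat i₁ b s) (pderiv (some j) G))| / |s₀| ≤ M := by
      rw [div_le_iff₀ hs1]
      exact hj s hsR
    have h8 : |eval b (pderiv j S)| *
        (|s₀ - eval (hat i₁ b s) (pderiv (some i₁) G)| / |s₀|) ≤ 6 / 5 * M * (2 / 15) :=
      mul_le_mul ih h6 (by positivity) (by positivity)
    linarith

end

end Pool.GEN.Cht
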