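import Pool.Agent.H95.GN.Cht1

/-!
# Change of the chart of a label of codimension one (one hypersurface)
-/

set_option autoImplicit false

namespace Pool.GEN.Cht

open Finset Real MvPolynomial

/-- **Change of the chart of one hypersurface.** -/
theorem cht_det (m K N : ℕ) : ∃ C η : ℝ, 1 ≤ C ∧ 0 < η ∧ η ≤ 1 ∧
    ∀ (G : MvPolynomial (Option (Fin m)) ℝ) (p : Option (Fin m) → ℝ) (i₀ i₁ : Fin m)
      (U W ε : ℝ) (b₀ : Fin m → ℝ), G.totalDegree ≤ K → 0 < U → U ≤ η * W → 0 ≤ ε → ε ≤ U →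
      i₁ ≠ i₀ →
      (∀ q : Option (Fin m) → ℝ, (∀ o, |q o - p o| ≤ W) → ∀ o, |eval q (pderiv o G)| ≤ K) →
      (∀ q : Option (Fin m) → ℝ, eval q (pderiv (some i₀) G) = 0) →
      |p (some i₀) - eval p G| ≤ ε → 1 ≤ |eval p (pderiv (some i₁) G)| →
      (∀ j : Fin m, |eval p (pderiv (some j) G)| ≤ |eval p (pderiv (some i₁) G)|) →
      |eval p (pderiv none G)| ≤ m * |eval p (pderiv (some i₁) G)| + 1 / 16 →
      b₀ i₁ = p none → (∀ j, j ≠ i₁ → b₀ j = p (some j)) →
      ∀ q : Option (Fin m) → ℝ, (∀ o, |q o - p o| ≤ U) →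
        |p (some i₁) - eval b₀ (nwt i₀ i₁ (eval q (pderiv (some i₁) G)) (q (some i₁)) G N)| ≤
          C * ((C * U / W) ^ N * U + ε) ∧
        ∀ b : Fin m → ℝ, (∀ j, |b j - b₀ j| ≤ U) →
          (∀ j, |eval b (pderiv j
            (nwt i₀ i₁ (eval q (pderiv (some i₁) G)) (q (some i₁)) G N))| ≤ 2 * m) ∧
          ∀ q' : Option (Fin m) → ℝ, (∀ o, |q' o - p o| ≤ U) →
            |eval b (nwt i₀ i₁ (eval q (pderiv (some i₁) G)) (q (some i₁)) G N) -
              eval b (nwt i₀ i₁ (eval q' (pderiv (some i₁) G)) (q' (some i₁)) G N)| ≤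
              C * ((C * U / W) ^ N * U) := by
  classical
  obtain ⟨C₁, hC₁, hball⟩ := ball_lipσ K
  obtain ⟨E₀, hE₀⟩ : ∃ E₀ : ℝ, E₀ = 2 + K * (m + 1) := ⟨_, rfl⟩
  obtain ⟨A, hA⟩ : ∃ A : ℝ, A = 3 + 6 * E₀ := ⟨_, rfl⟩
  have hK0 : (0 : ℝ) ≤ K := Nat.cast_nonneg K
  have hm0 : (0 : ℝ) ≤ m := Nat.cast_nonneg m
  have hKm : (0 : ℝ) ≤ K * (m + 1) := by positivity
  have hE₀2 : 2 ≤ E₀ := by rw [hE₀]; linarith
  have hA1 : 1 ≤ A := by rw [hA]; linarith
  have hC₁0 : 0 < C₁ := by linarith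
  obtain ⟨D, hD⟩ : ∃ D : ℝ, D = C₁ * (K + 1) * A := ⟨_, rfl⟩
  have hD1 : A ≤ D := by
    rw [hD]
    have h1 : 1 ≤ C₁ * (K + 1) := by nlinarith
    nlinarith
  have hD0 : 0 < D := by linarith
  refine ⟨4 * D + 3 * E₀ + 2, 1 / (16 * D), by linarith, by positivity, ?_, ?_⟩
  · rw [div_le_one (by positivity)]
    linarith
  intro G p i₀ i₁ U W ε b₀ hG hU hUW hε hεU hi hlip hdep hres hg1 hgj hgt hb1 hbj
  have hW : 0 < W := by
    by_contra hc
    push Not at hc
    have : 1 / (16 * D) * W ≤ 0 := mul_nonpos_of_nonneg_of_nonpos (by positivity) hc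
    linarith
  have hUW1 : D * U / W ≤ 1 / 16 := by
    rw [div_le_iff₀ hW]
    have h1 := mul_le_mul_of_nonneg_left hUW hD0.le
    have h2 : D * (1 / (16 * D) * W) = 1 / 16 * W := by field_simp
    linarith
  have hAU : A * U ≤ W := by
    have h1 : A * U ≤ D * U := mul_le_mul_of_nonneg_right hD1 hU.le
    have h2 : D * U ≤ 1 / 16 * W := by rwa [div_le_iff₀ hW] at hUW1
    linarith
  have hUA : U ≤ A * U := le_mul_of_one_le_left hU.le hA1
  have hUW2 : U ≤ W := hUA.trans hAU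
  obtain ⟨ρ, hρ⟩ : ∃ ρ : ℝ, ρ = C₁ * K * (A * U / W) := ⟨_, rfl⟩
  have hρ0 : 0 ≤ ρ := by rw [hρ]; positivity
  have hρD : ρ ≤ D * U / W := by
    rw [hρ, hD]
    have h1 : C₁ * K * (A * U / W) = C₁ * K * A * U / W := by ring
    rw [h1]
    refine div_le_div_of_nonneg_right ?_ hW.le
    refine mul_le_mul_of_nonneg_right ?_ hU.le
    refine mul_le_mul_of_nonneg_right ?_ (by linarith)
    exact mul_le_mul_of_nonneg_left (by linarith) hC₁0.le
  have hρ1 : ρ ≤ 1 / 16 := hρD.trans hUW1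
  -- the gradient in the region
  have hgrad : ∀ q : Option (Fin m) → ℝ, (∀ o, |q o - p o| ≤ A * U) → ∀ o,
      |eval q (pderiv o G) - eval p (pderiv o G)| ≤ ρ := by
    intro q hq o
    have h1 := hball (Option (Fin m)) inferInstance (pderiv o G) p q W (A * U) K
      (totalDegree_pdσ hG o) (by positivity) hAU (fun y hy => hlip y hy o) hq
    rw [hρ]
    exact h1
  obtain ⟨g, hg⟩ : ∃ g, g = eval p (pderiv (some i₁) G) := ⟨_, rfl⟩
  rw [← hg] at hg1 hgt
  simp only [← hg] at hgj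
  obtain ⟨c₀, hc₀⟩ : ∃ c₀, c₀ = p (some i₁) := ⟨_, rfl⟩
  -- the points of the chart
  have hhat : ∀ b : Fin m → ℝ, (∀ j, |b j - b₀ j| ≤ U) → ∀ (s B : ℝ), U ≤ B →
      |s - c₀| ≤ B → ∀ o, |hat i₁ b s o - p o| ≤ B := by
    intro b hb s B hUB hs o
    rcases o with _ | j
    · change |b i₁ - p none| ≤ _
      rw [← hb1]
      exact (hb i₁).trans hUB
    · change |(if j = i₁ then s else b j) - p (some j)| ≤ _
      by_cases hj : j = i₁
      · rw [if_pos hj, hj, ← hc₀]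
        exact hs
      · rw [if_neg hj, ← hbj j hj]
        exact (hb j).trans hUB
  have hgR : ∀ b : Fin m → ℝ, (∀ j, |b j - b₀ j| ≤ U) → ∀ s, |s - c₀| ≤ A * U →
      |eval (hat i₁ b s) (pderiv (some i₁) G) - g| ≤ ρ := by
    intro b hb s hs
    rw [hg]
    exact hgrad _ (hhat b hb s _ hUA hs) _
  -- the residual of the center
  have hE : ∀ b : Fin m → ℝ, (∀ j, |b j - b₀ j| ≤ U) → ∀ c, |c - c₀| ≤ U →
      |b i₀ - eval (hat i₁ b c) G| ≤ E₀ * U := by
    intro b hb c hc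
    have h1 : |b i₀ - p (some i₀)| ≤ U := by
      rw [← hbj i₀ (Ne.symm hi)]
      exact hb i₀
    have h2 := mvσ G p (hat i₁ b c) K (fun y hy o =>
      hlip y (fun o => ((hy o).trans (hhat b hb c U le_rfl hc o)).trans hUW2) o)
    have h3 : ∑ o, |hat i₁ b c o - p o| ≤ (m + 1) * U := by
      calc ∑ o, |hat i₁ b c o - p o| ≤ ∑ _o : Option (Fin m), U :=
            Finset.sum_le_sum fun o _ => hhat b hb c U le_rfl hc o
        _ = (m + 1) * U := by
            rw [Finset.sum_const, Finset.card_univ, Fintype.card_option, Fintype.card_fin,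
              nsmul_eq_mul]
            push_cast
            ring
    have h4 := h2.trans (mul_le_mul_of_nonneg_left h3 hK0)
    have h5 : b i₀ - eval (hat i₁ b c) G = (b i₀ - p (some i₀)) + (p (some i₀) - eval p G) -
        (eval (hat i₁ b c) G - eval p G) := by ring
    rw [h5]
    refine (abs_sub _ _).trans ?_
    have h6 := abs_add_le (b i₀ - p (some i₀)) (p (some i₀) - eval p G)
    have h7 : E₀ * U = U + U + K * ((m + 1) * U) := by rw [hE₀]; ring
    rw [h7]
    linarith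
  have hRc : ∀ c, |c - c₀| ≤ U → |c - c₀| + 4 * (E₀ * U) ≤ A * U := by
    intro c hc
    have : A * U = 3 * U + 6 * (E₀ * U) := by rw [hA]; ring
    have h2 : 0 ≤ E₀ * U := by positivity
    linarith
  have hE₀U : 0 ≤ E₀ * U := by positivity
  have hpow : (4 * ρ) ^ N ≤ ((4 * D + 3 * E₀ + 2) * U / W) ^ N := by
    refine pow_le_pow_left₀ (by positivity) ?_ N
    have h1 : (4 * D + 3 * E₀ + 2) * U / W = 4 * (D * U / W) + (3 * E₀ + 2) * U / W := by ring
    rw [h1]
    have h2 : 0 ≤ (3 * E₀ + 2) * U / W := by positivity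
    linarith
  obtain ⟨Q, hQ⟩ : ∃ Q : ℝ, Q = ((4 * D + 3 * E₀ + 2) * U / W) ^ N * U := ⟨_, rfl⟩
  have hQ0 : 0 ≤ Q := by rw [hQ]; positivity
  have hQ1 : (4 * ρ) ^ N * (E₀ * U) ≤ E₀ * Q := by
    rw [hQ]
    have h1 : (4 * ρ) ^ N * (E₀ * U) = E₀ * ((4 * ρ) ^ N * U) := by ring
    rw [h1]
    refine mul_le_mul_of_nonneg_left ?_ (by linarith)
    exact mul_le_mul_of_nonneg_right hpow hU.le
  -- the iterates
  have hit : ∀ b : Fin m → ℝ, (∀ j, |b j - b₀ j| ≤ U) → ∀ q : Option (Fin m) → ℝ,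
      (∀ o, |q o - p o| ≤ U) →
      |b i₀ - eval (hat i₁ b
        (eval b (nwt i₀ i₁ (eval q (pderiv (some i₁) G)) (q (some i₁)) G N))) G| ≤ E₀ * Q ∧
      |eval b (nwt i₀ i₁ (eval q (pderiv (some i₁) G)) (q (some i₁)) G N) - c₀| ≤
        (2 * E₀ + 1) * U := by
    intro b hb q hq
    have hs : |eval q (pderiv (some i₁) G) - g| ≤ ρ := by
      rw [hg]
      exact hgrad q (fun o => (hq o).trans hUA) _
    have hc : |q (some i₁) - c₀| ≤ U := by
      rw [hc₀]
      exact hq _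
    obtain ⟨h1, h2⟩ := nwt_res (hgR b hb) hg1 hρ0 hρ1 hs (hE b hb _ hc) (hRc _ hc) N
    refine ⟨h1.trans hQ1, ?_⟩
    have h3 : 2 * (E₀ * U) * (1 - (1 / 4) ^ N) ≤ 2 * (E₀ * U) * 1 :=
      mul_le_mul_of_nonneg_left (by
        have : (0 : ℝ) ≤ (1 / 4) ^ N := by positivity
        linarith) (by linarith)
    have h4 := abs_add_le (eval b (nwt i₀ i₁ (eval q (pderiv (some i₁) G)) (q (some i₁)) G N) -
      q (some i₁)) (q (some i₁) - c₀)
    rw [sub_add_sub_cancel] at h4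
    have h5 : (2 * E₀ + 1) * U = 2 * (E₀ * U) + U := by ring
    rw [h5]
    linarith
  intro q hq
  have hs : |eval q (pderiv (some i₁) G) - g| ≤ ρ := by
    rw [hg]
    exact hgrad q (fun o => (hq o).trans hUA) _
  have hc : |q (some i₁) - c₀| ≤ U := by
    rw [hc₀]
    exact hq _
  have hAUe : A * U = 3 * ((2 * E₀ + 1) * U) := by rw [hA]; ring
  have h21 : 0 ≤ (2 * E₀ + 1) * U := by positivity
  rw [← hQ]
  refine ⟨?_, fun b hb => ⟨fun j => ?_, fun q' hq' => ?_⟩⟩
  · obtain ⟨h1, h2⟩ := hit b₀ (fun j => by rw [sub_self, abs_zero]; exact hU.le) q hq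
    have hhp : hat i₁ b₀ c₀ = p := by
      funext o
      rcases o with _ | j
      · exact hb1
      · change (if j = i₁ then c₀ else b₀ j) = _
        by_cases hj : j = i₁
        · rw [if_pos hj, hc₀, hj]
        · rw [if_neg hj, hbj j hj]
    obtain ⟨s, hse⟩ : ∃ s, s = eval b₀
      (nwt i₀ i₁ (eval q (pderiv (some i₁) G)) (q (some i₁)) G N) := ⟨_, rfl⟩
    rw [← hse] at h1 h2 ⊢
    have h3 := phi_inj (hgR b₀ (fun j => by rw [sub_self, abs_zero]; exact hU.le)) hg1 hρ1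
      (s := c₀) (s' := s) (by
        rw [sub_self, abs_zero, zero_add]
        linarith)
    rw [hhp] at h3
    have h4 : |eval (hat i₁ b₀ s) G - eval p G| ≤ E₀ * Q + ε := by
      have h5 : eval (hat i₁ b₀ s) G - eval p G = (b₀ i₀ - eval p G) -
          (b₀ i₀ - eval (hat i₁ b₀ s) G) := by ring
      rw [h5]
      refine (abs_sub _ _).trans ?_
      rw [hbj i₀ (Ne.symm hi)] at h1 ⊢
      linarith
    rw [← hc₀, abs_sub_comm]
    have h6 : 0 ≤ E₀ * Q := by positivity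
    have h7 : 16 / 15 * (E₀ * Q + ε) ≤ 2 * (E₀ * Q) + 2 * ε := by linarith
    have h8 : (4 * D + 3 * E₀ + 2) * (Q + ε) = 2 * (E₀ * Q) + 2 * ε +
        ((4 * D + E₀ + 2) * Q + (4 * D + 3 * E₀) * ε) := by ring
    have h9 : 0 ≤ (4 * D + E₀ + 2) * Q + (4 * D + 3 * E₀) * ε := by positivity
    linarith
  · have hm1 : (1 : ℝ) ≤ m := by
      have : 0 < m := by
        have := j.2
        omega
      exact_mod_cast this
    obtain ⟨s₀, hs₀⟩ : ∃ s₀, s₀ = eval q (pderiv (some i₁) G) := ⟨_, rfl⟩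
    rw [← hs₀] at hs ⊢
    have hgs : |g| ≤ 16 / 15 * |s₀| := by
      have h1 : |g| ≤ |g - s₀| + |s₀| := by
        have := abs_add_le (g - s₀) s₀
        rwa [sub_add_cancel] at this
      rw [abs_sub_comm] at h1
      linarith
    have h1 := nwt_pd (hgR b hb) hg1 hρ0 hρ1 hs (hE b hb _ hc) (hRc _ hc)
      (M := 5 / 3 * m) (by positivity) j (fun s hs' => ?_) N
    · refine h1.trans (le_of_eq ?_)
      ring
    · have hp := hhat b hb s _ hUA hs'
      have hms : |s₀| ≤ m * |s₀| := le_mul_of_one_le_left (abs_nonneg _) hm1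
      have hmg : |g| ≤ m * |g| := le_mul_of_one_le_left (abs_nonneg _) hm1
      have hmgs : m * |g| ≤ 16 / 15 * (m * |s₀|) := by
        have := mul_le_mul_of_nonneg_left hgs hm0
        linarith
      by_cases hj : j = i₁
      · rw [if_pos hj, if_neg (by rw [hj]; exact hi), zero_sub, abs_neg]
        have h2 := hgrad _ hp none
        have h3 := abs_add_le (eval (hat i₁ b s) (pderiv none G) - eval p (pderiv none G))
          (eval p (pderiv none G))
        rw [sub_add_cancel] at h3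
        linarith
      · rw [if_neg hj]
        by_cases hj0 : j = i₀
        · rw [if_pos hj0, hj0, hdep, sub_zero, abs_one]
          linarith
        · rw [if_neg hj0, zero_sub, abs_neg]
          have h2 := hgrad _ hp (some j)
          have h3 := abs_add_le (eval (hat i₁ b s) (pderiv (some j) G) -
            eval p (pderiv (some j) G)) (eval p (pderiv (some j) G))
          rw [sub_add_cancel] at h3
          have h4 := hgj j
          linarith
  · obtain ⟨h1, h2⟩ := hit b hb q hq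
    obtain ⟨h3, h4⟩ := hit b hb q' hq'
    obtain ⟨s, hse⟩ : ∃ s, s = eval b
      (nwt i₀ i₁ (eval q (pderiv (some i₁) G)) (q (some i₁)) G N) := ⟨_, rfl⟩
    obtain ⟨s', hse'⟩ : ∃ s', s' = eval b
      (nwt i₀ i₁ (eval q' (pderiv (some i₁) G)) (q' (some i₁)) G N) := ⟨_, rfl⟩
    rw [← hse] at h1 h2 ⊢
    rw [← hse'] at h3 h4 ⊢
    have h5 : |s' - s| ≤ 2 * ((2 * E₀ + 1) * U) := by
      have h6 : s' - s = (s' - c₀) - (s - c₀) := by ring
      rw [h6]
      refine (abs_sub _ _).trans ?_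
      linarith
    have h7 := phi_inj (hgR b hb) hg1 hρ1 (s := s) (s' := s') (by linarith)
    have h8 : |eval (hat i₁ b s') G - eval (hat i₁ b s) G| ≤ 2 * (E₀ * Q) := by
      have h9 : eval (hat i₁ b s') G - eval (hat i₁ b s) G =
          (b i₀ - eval (hat i₁ b s) G) - (b i₀ - eval (hat i₁ b s') G) := by ring
      rw [h9]
      refine (abs_sub _ _).trans ?_
      linarith
    rw [abs_sub_comm]
    have h10 : 0 ≤ E₀ * Q := by positivity
    have h11 : (4 * D + 3 * E₀ + 2) * Q = 3 * (E₀ * Q) + (4 * D + 2) * Q := by ring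
    have h12 : 0 ≤ (4 * D + 2) * Q := by positivity
    rw [h11]
    linarith

end Pool.GEN.Cht
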