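import Pool.Agent.H95.GN.Tau

/-!
# Comparison of the labels at three windows

`Cf`: the closed ball chart at `(w, w)`, its re-centred chart and the thin chain at `(a, w)`, the
ball chart at `(o, o)`, its re-centred chart and the thin chain at `(a, o)`, `w ≤ o`.
`fat_cmp`: the comparisons.
-/

set_option autoImplicit false

namespace Pool.VFD

open Finset Real MvPolynomial
open Pool.Agent.H49.Ent Pool.Agent.H32.Dense Pool.STK Pool.KA Pool.KSAT Pool.K2S Pool.PB Pool.S6C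
open Pool.GEN Pool.CHT Pool.ISO

variable {m J : ℕ}

/-- A large part of the event. -/
def Lg (F : Fam m J) (B₀ B : F.Ω → Prop) (n : ℕ) : Prop :=
  Sub B B₀ ∧ Pe F.p B₀ / 2 ^ n ≤ Pe F.p B

theorem Lg.refl (F : Fam m J) (B₀ : F.Ω → Prop) : Lg F B₀ B₀ 0 :=
  ⟨fun _ h => h, by rw [pow_zero, div_one]⟩

theorem Lg.step {F : Fam m J} {B₀ B B' : F.Ω → Prop} {n k : ℕ} (h : Lg F B₀ B n)
    (hs : Sub B' B) (hP : Pe F.p B / 2 ^ k ≤ Pe F.p B') : Lg F B₀ B' (n + k) := by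
  refine ⟨fun ω hω => h.1 ω (hs ω hω), le_trans (le_of_eq ?_)
    ((div_le_div_of_nonneg_right h.2 (by positivity)).trans hP)⟩
  rw [pow_add]
  field_simp

theorem Lg.mono {F : Fam m J} {B₀ B : F.Ω → Prop} {n n' : ℕ} (h : Lg F B₀ B n) (hn : n ≤ n') :
    Lg F B₀ B n' :=
  ⟨h.1, (div_le_div_of_nonneg_left (Pe_nonneg F.isLaw B₀) (by positivity)
    (pow_le_pow_right₀ (by norm_num) hn)).trans h.2⟩

theorem Lg.kap {F : Fam m J} {B₀ B : F.Ω → Prop} {n N : ℕ} {κ : ℝ} (h : Lg F B₀ B n)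
    (hκ : κ * 2 ^ N ≤ 1) (hn : n ≤ N) : κ * Pe F.p B₀ ≤ Pe F.p B := by
  refine le_trans ?_ (h.mono hn).2
  rw [le_div_iff₀ (by positivity)]
  calc κ * Pe F.p B₀ * 2 ^ N = κ * 2 ^ N * Pe F.p B₀ := by ring
    _ ≤ 1 * Pe F.p B₀ := mul_le_mul_of_nonneg_right hκ (Pe_nonneg F.isLaw B₀)
    _ = _ := one_mul _

/-- Moving a chain. -/
theorem lg_mv (D r : ℕ) (hD : 1 ≤ D) : ∃ C : ℕ, ∀ {m J : ℕ} {F : Fam m J} {c : ℕ → Fin m}
    {i a w e' h n N D' : ℕ} {g g' : ℕ → ℕ} {κ : ℝ} {B₀ B : F.Ω → Prop}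
    {G G' : PtT F → ℕ → MvPolynomial (Option (Fin m)) ℝ}
    {H' : LnT F → ℕ → MvPolynomial (Option (Fin m)) ℝ}, i < r →
    Set.InjOn c (Set.Iio i) → RelvF F c i a w g D' h κ B₀ G → D ≤ D' → κ * 2 ^ N ≤ 1 →
    n + r ≤ N → Lg F B₀ B n → ChOK F c i (fun _ => D) a w e' g' B G' H' →
    ∃ B' : F.Ω → Prop, Sub B' B ∧ Lg F B₀ B' (n + r) ∧ ∀ ω, B' ω →
      ∀ b, NBx c (G (ptr F J ω)) g a (F.t ω) i b →
        ∀ j < i, |b (some (c j)) - eval b (G' (ptr F J ω) j)| ≤ 2 ^ (C * (h + 1)) / 2 ^ g' j := by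
  obtain ⟨C, hC⟩ := move_all D r hD
  refine ⟨C, ?_⟩
  intro m J F c i a w e' h n N D' g g' κ B₀ B G G' H' hi hc hR hDD hκ hN hB hL
  have h2 : κ * 2 ^ r * 2 ^ n ≤ 1 := by
    rcases le_or_gt κ 0 with h0 | h0
    · have : κ * 2 ^ r * 2 ^ n ≤ 0 := by
        have h3 : κ * (2 ^ r * 2 ^ n) ≤ 0 := mul_nonpos_of_nonpos_of_nonneg h0 (by positivity)
        linarith only [h3]
      linarith only [this]
    · refine le_trans ?_ hκ
      rw [mul_assoc, ← pow_add]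
      exact mul_le_mul_of_nonneg_left (pow_le_pow_right₀ (by norm_num) (by omega)) h0.le
  obtain ⟨B', k1, k2, k3⟩ := hC (κ' := 1 / 2 ^ n) (e' := e') hi hc (hR.mono hDD le_rfl) hB.1 (by
    have := hB.2
    calc 1 / 2 ^ n * Pe F.p B₀ = Pe F.p B₀ / 2 ^ n := by ring
      _ ≤ _ := this) (by
    rw [le_div_iff₀ (by positivity)]
    exact h2) hL
  refine ⟨B', k1, (hB.step k1 k2).mono (by omega), k3⟩

/-- Two labels. -/
theorem lg_two {F : Fam m J} {c : ℕ → Fin m} {i a w n N : ℕ} {g : ℕ → ℕ} {D D' h : ℕ} {κ : ℝ}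
    {B₀ B : F.Ω → Prop} {G : PtT F → ℕ → MvPolynomial (Option (Fin m)) ℝ}
    (hR : RelvF F c i a w g D' h κ B₀ G) (hD : D ≤ D') (hκ : κ * 2 ^ N ≤ 1) (hn : n ≤ N)
    (hB : Lg F B₀ B n)
    {X₁ X₂ : PtT F → MvPolynomial (Option (Fin m)) ℝ}
    {Y₁ Y₂ : LnT F → MvPolynomial (Option (Fin m)) ℝ} {x : F.Ω → ℝ} {M : ℝ} (hM : 0 < M)
    (dX₁ : ∀ y, (X₁ y).totalDegree ≤ D) (dX₂ : ∀ y, (X₂ y).totalDegree ≤ D)
    (dY₁ : ∀ s, (Y₁ s).totalDegree ≤ D) (dY₂ : ∀ s, (Y₂ s).totalDegree ≤ D)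
    (cX₁ : ∀ y, DepC c i (X₁ y)) (cX₂ : ∀ y, DepC c i (X₂ y))
    (cY₁ : ∀ s, DepC c i (Y₁ s)) (cY₂ : ∀ s, DepC c i (Y₂ s))
    (p₁ : ∀ ω, B ω → |x ω - eval (bt F ω) (X₁ (ptr F J ω))| ≤ M)
    (p₂ : ∀ ω, B ω → |x ω - eval (bt F ω) (X₂ (ptr F J ω))| ≤ M)
    (t₁ : ∀ ω, B ω → ∀ b, NBx c (G (ptr F J ω)) g a (F.t ω) i b →
      |eval b (X₁ (ptr F J ω)) - eval b (Y₁ (slam F w ω))| ≤ M)
    (t₂ : ∀ ω, B ω → ∀ b, NBx c (G (ptr F J ω)) g a (F.t ω) i b →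
      |eval b (X₂ (ptr F J ω)) - eval b (Y₂ (slam F w ω))| ≤ M) :
    ∃ B' : F.Ω → Prop, Sub B' B ∧ Lg F B₀ B' (n + 1) ∧ ∀ ω, B' ω →
      ∀ b, NBx c (G (ptr F J ω)) g a (F.t ω) i b →
        |eval b (X₁ (ptr F J ω)) - eval b (X₂ (ptr F J ω))| ≤ 2 ^ (h + 1) * M := by
  obtain ⟨B', k1, k2, k3⟩ := relv_two (hR.mono hD le_rfl) hB.1 (hB.kap hκ hn) hM dX₁ dX₂ dY₁ dY₂
    cX₁ cX₂ cY₁ cY₂ p₁ p₂ t₁ t₂
  exact ⟨B', k1, hB.step k1 (by rw [pow_one]; exact k2), k3⟩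

/-- Many steps. -/
theorem lg_iter {F : Fam m J} {B₀ A : F.Ω → Prop} {N k : ℕ} {P : ℕ → F.Ω → Prop}
    (hst : ∀ l < k, ∀ B n, n ≤ N → Lg F B₀ B n → Sub B A → ∃ B' : F.Ω → Prop, Sub B' B ∧
      Lg F B₀ B' (n + 1) ∧ ∀ ω, B' ω → P l ω) {B : F.Ω → Prop} {n : ℕ} (hn : n + k ≤ N)
    (hB : Lg F B₀ B n) (hA : Sub B A) : ∃ B' : F.Ω → Prop, Sub B' B ∧ Lg F B₀ B' (n + k) ∧
      ∀ ω, B' ω → ∀ l < k, P l ω := by
  induction k with
  | zero => exact ⟨B, fun _ h => h, hB, fun ω _ l hl => absurd hl (Nat.not_lt_zero l)⟩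
  | succ k ih =>
    obtain ⟨B₁, h1, h2, h3⟩ := ih (fun l hl => hst l (by omega)) (by omega)
    obtain ⟨B₂, h4, h5, h6⟩ := hst k (Nat.lt_succ_self k) B₁ (n + k) (by omega) h2
      (fun ω hω => hA ω (h1 ω hω))
    refine ⟨B₂, fun ω hω => h1 ω (h4 ω hω), by rw [← add_assoc]; exact h5,
      fun ω hω l hl => ?_⟩
    rcases Nat.lt_or_ge l k with h7 | h7
    · exact h3 ω (h4 ω hω) l h7
    · have : l = k := by omega
      subst this
      exact h6 ω hω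

/-- **The charts at three windows.** -/
structure Cf (F : Fam m J) (c : ℕ → Fin m) (ct : ℕ → Prop) (i D D' a w o e h : ℕ) (κ : ℝ)
    (g gT gB g₀ gc gc₁ : ℕ → ℕ) (B₀ : F.Ω → Prop)
    (Φ Γ T B Γ₁ T₁ : PtT F → ℕ → MvPolynomial (Option (Fin m)) ℝ)
    (Ψ ΓH TH BH Γ₁H T₁H : LnT F → ℕ → MvPolynomial (Option (Fin m)) ℝ) : Prop where
  inj : Set.InjOn c (Set.Iio i)
  deg : D ≤ D'
  wo : w ≤ o
  oJ : o ≤ J
  phi : ChOK F c (i + 1) (fun _ => D) w w e g₀ B₀ Φ Ψ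
  clo : ∀ ω, B₀ ω → ∀ l ≤ i, Φ (ptr F J ω) l = Ψ (slam F w ω) l
  gam : ChOK F c (i + 1) (fun _ => D) a w e gc B₀ Γ ΓH
  gmt : ∀ ω, B₀ ω → ∀ l ≤ i, DepC c 0 (Γ (ptr F J ω) l - Φ (ptr F J ω) l)
  thn : ChOK F c i (fun _ => D) a w e g B₀ T TH
  thr : ∀ ω, B₀ ω → ∀ l < i, ¬ ct l → T (ptr F J ω) l = Γ (ptr F J ω) l
  grr : ∀ l < i, ¬ ct l → g l = gc l
  rv : RelvF F c i a w g D' h κ B₀ T
  bal : ChOK F c (i + 1) (fun _ => D) o o e gB B₀ B BH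
  rvB : RelvF F c i o o gB D' h κ B₀ B
  gm₁ : ChOK F c (i + 1) (fun _ => D) a o e gc₁ B₀ Γ₁ Γ₁H
  gmt₁ : ∀ ω, B₀ ω → ∀ l ≤ i, DepC c 0 (Γ₁ (ptr F J ω) l - B (ptr F J ω) l)
  th₁ : ChOK F c i (fun _ => D) a o e gT B₀ T₁ T₁H
  thr₁ : ∀ ω, B₀ ω → ∀ l < i, ¬ ct l → DepC c 0 (T₁ (ptr F J ω) l - B (ptr F J ω) l)
  rv₁ : RelvF F c i a o gT D' h κ B₀ T₁

/-- **A fat label** of the coordinate `c l`: on boxes which are not bounded in the contact
directions, with natural increments. -/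
structure FtL (F : Fam m J) (c : ℕ → Fin m) (ct : ℕ → Prop) (l D a w : ℕ) (gc : ℕ → ℕ) (p : ℕ)
    (E : ℝ) (B₀ : F.Ω → Prop) (Γ : PtT F → ℕ → MvPolynomial (Option (Fin m)) ℝ)
    (f : PtT F → MvPolynomial (Option (Fin m)) ℝ)
    (fH : LnT F → MvPolynomial (Option (Fin m)) ℝ) : Prop where
  degG : ∀ y, (f y).totalDegree ≤ D
  degH : ∀ s, (fH s).totalDegree ≤ D
  depG : ∀ y, DepC c l (f y)
  depH : ∀ s, DepC c l (fH s)
  pos : ∀ ω, B₀ ω → |F.x ω (c l) - eval (bt F ω) (f (ptr F J ω))| ≤ 1 / 2 ^ p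
  agr : ∀ ω, B₀ ω → ∀ b : Option (Fin m) → ℝ, |b none - F.t ω| ≤ 1 / 2 ^ a →
    (∀ l' < l, ¬ ct l' → |b (some (c l')) - eval b (Γ (ptr F J ω) l')| ≤ 1 / 2 ^ gc l') →
    |eval b (f (ptr F J ω)) - eval b (fH (slam F w ω))| ≤ 1 / 2 ^ p
  nat : ∀ ω, B₀ ω → ∀ b : Option (Fin m) → ℝ, |b none - F.t ω| ≤ 1 / 2 ^ a →
    (∀ l' < l, ¬ ct l' → |b (some (c l')) - eval b (Γ (ptr F J ω) l')| ≤ 1 / 2 ^ gc l') →
    |eval b (f (ptr F J ω)) - eval b (Γ (ptr F J ω) l)| ≤ E / 2 ^ gc l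

theorem le_pow_mul {n k : ℕ} {M : ℝ} (hM : 0 ≤ M) (h : n ≤ k) : (2 : ℝ) ^ n * M ≤ 2 ^ k * M :=
  mul_le_mul_of_nonneg_right (pow_le_pow_right₀ (by norm_num) h) hM

/-- **The comparisons.** -/
theorem fat_cmp (D r : ℕ) (hD : 1 ≤ D) : ∃ C : ℕ, ∀ {m J : ℕ} {F : Fam m J} {c : ℕ → Fin m}
    {ct : ℕ → Prop} {i D' a w o e h N p : ℕ} {κ E : ℝ} {g gT gB g₀ gc gc₁ gf : ℕ → ℕ}
    {B₀ : F.Ω → Prop} {Φ Γ T B Γ₁ T₁ f : PtT F → ℕ → MvPolynomial (Option (Fin m)) ℝ}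
    {Ψ ΓH TH BH Γ₁H T₁H fH : LnT F → ℕ → MvPolynomial (Option (Fin m)) ℝ}
    {Gt : PtT F → MvPolynomial (Option (Fin m)) ℝ} {Ht : LnT F → MvPolynomial (Option (Fin m)) ℝ},
    i < r → Cf F c ct i D D' a w o e h κ g gT gB g₀ gc gc₁ B₀ Φ Γ T B Γ₁ T₁ Ψ ΓH TH BH Γ₁H T₁H →
    κ * 2 ^ N ≤ 1 → 8 * r + 4 ≤ N →
    (∀ y, (Gt y).totalDegree ≤ D) → (∀ s, (Ht s).totalDegree ≤ D) → (∀ y, DepC c i (Gt y)) →
    (∀ s, DepC c i (Ht s)) →
    (∀ ω, B₀ ω → |F.x ω (c i) - eval (bt F ω) (Gt (ptr F J ω))| ≤ 1 / 2 ^ p) →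
    (∀ ω, B₀ ω → ∀ b, NBx c (T (ptr F J ω)) g a (F.t ω) i b →
      |eval b (Gt (ptr F J ω)) - eval b (Ht (slam F w ω))| ≤ 1 / 2 ^ p) →
    (∀ j l, j < l → l < i → ct j → ct l → FtL F c ct l D a w gc (gf l) E B₀ Γ (fun y => f y l)
      (fun s => fH s l)) → gc i ≤ p → p ≤ gc₁ i → (∀ l < i, ct l → g l ≤ gT l + h ∧ gf l ≤ gT l) →
    (∀ l ≤ i, g₀ l ≤ gB l) →
    ∃ B₁ : F.Ω → Prop, Lg F B₀ B₁ (8 * r + 4) ∧ ∀ ω, B₁ ω →
      (∀ b, NBx c (T₁ (ptr F J ω)) gT a (F.t ω) i b →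
        |eval b (Gt (ptr F J ω)) - eval b (Γ₁ (ptr F J ω) i)| ≤ 2 ^ (C * (h + 1)) / 2 ^ p) ∧
      (∀ l < i, ct l → ∀ b, NBx c (T₁ (ptr F J ω)) gT a (F.t ω) i b →
        |eval b (T₁ (ptr F J ω) l) - eval b (T (ptr F J ω) l)| ≤
          2 ^ (C * (h + 1)) / 2 ^ g l) ∧
      (∀ j l, j < l → l < i → ct j → ct l → ∀ b, NBx c (T₁ (ptr F J ω)) gT a (F.t ω) i b →
        |eval b (T₁ (ptr F J ω) l) - eval b (f (ptr F J ω) l)| ≤
          2 ^ (C * (h + 1)) / 2 ^ gf l) ∧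
      (∀ l ≤ i, ∀ b, NBx c (B (ptr F J ω)) gB o (F.t ω) i b →
        |eval b (B (ptr F J ω) l) - eval b (Φ (ptr F J ω) l)| ≤
          2 ^ (C * (h + 1)) / 2 ^ g₀ l) ∧
      ∀ b, NBx c (T (ptr F J ω)) g a (F.t ω) i b →
        |eval b (Gt (ptr F J ω)) - eval b (Γ (ptr F J ω) i)| ≤ 2 ^ (C * (h + 1)) / 2 ^ gc i := by
  obtain ⟨Cm, hmv⟩ := lg_mv D r hD
  obtain ⟨c₀, D₁, hD₁, hdil⟩ := nbx_dil (r + 1) (fun _ => D)
  obtain ⟨C, hC⟩ : ∃ C : ℕ, C = Cm + c₀ + Cm * D₁ + 2 := ⟨_, rfl⟩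
  refine ⟨C, ?_⟩
  intro m J F c ct i D' a w o e h N p κ E g gT gB g₀ gc gc₁ gf B₀ Φ Γ T B Γ₁ T₁ f Ψ ΓH TH BH Γ₁H
    T₁H fH Gt Ht hi hF hκ hN dG dH cG cH pos agr hf hcp hpc hgT hgB
  obtain ⟨n, hn⟩ : ∃ n, n = Cm * (h + 1) := ⟨_, rfl⟩
  have hexp : h + 1 + (c₀ + n * D₁) ≤ C * (h + 1) := by
    have h1 : C * (h + 1) = Cm * (h + 1) + c₀ * (h + 1) + Cm * (h + 1) * D₁ + 2 * (h + 1) := by
      rw [hC]
      ring
    have h2 : c₀ ≤ c₀ * (h + 1) := Nat.le_mul_of_pos_right _ (by omega)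
    rw [h1, ← hn]
    omega
  have hexp3 : h + 1 + (c₀ + n * D₁ + h) ≤ C * (h + 1) := by
    have h1 : C * (h + 1) = Cm * (h + 1) + c₀ * (h + 1) + Cm * (h + 1) * D₁ + 2 * (h + 1) := by
      rw [hC]
      ring
    have h2 : c₀ ≤ c₀ * (h + 1) := Nat.le_mul_of_pos_right _ (by omega)
    rw [h1, ← hn]
    omega
  have hexp2 : n + 1 ≤ C * (h + 1) := by
    have h1 : n ≤ n * D₁ := Nat.le_mul_of_pos_right _ hD₁
    omega
  have hfin : ∀ q : ℕ, (2 : ℝ) ^ (h + 1) * (2 ^ (c₀ + n * D₁) * (1 / 2 ^ q)) ≤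
      2 ^ (C * (h + 1)) / 2 ^ q := by
    intro q
    rw [← mul_assoc, ← pow_add, mul_one_div]
    exact div_le_div_of_nonneg_right (pow_le_pow_right₀ (by norm_num) hexp) (by positivity)
  have hfin2 : ∀ q : ℕ, (2 : ℝ) ^ (h + 1) * (2 ^ (c₀ + n * D₁ + h) * (1 / 2 ^ q)) ≤
      2 ^ (C * (h + 1)) / 2 ^ q := by
    intro q
    rw [← mul_assoc, ← pow_add, mul_one_div]
    exact div_le_div_of_nonneg_right (pow_le_pow_right₀ (by norm_num) hexp3) (by positivity)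
  have h2pos2 : ∀ q : ℕ, (0 : ℝ) < 2 ^ (c₀ + n * D₁ + h) * (1 / 2 ^ q) := fun q => by positivity
  have h1le2 : ∀ q q' : ℕ, q ≤ q' + h → (1 : ℝ) / 2 ^ q' ≤ 2 ^ (c₀ + n * D₁ + h) * (1 / 2 ^ q) := by
    intro q q' hq
    rw [mul_one_div, div_le_div_iff₀ (by positivity) (by positivity), one_mul, ← pow_add]
    exact pow_le_pow_right₀ (by norm_num) (by omega)
  have h2pos : ∀ q : ℕ, (0 : ℝ) < 2 ^ (c₀ + n * D₁) * (1 / 2 ^ q) := fun q => by positivity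
  have h1le : ∀ q q' : ℕ, q ≤ q' → (1 : ℝ) / 2 ^ q' ≤ 2 ^ (c₀ + n * D₁) * (1 / 2 ^ q) := by
    intro q q' hq
    refine (inv_mono hq).trans ?_
    exact le_mul_of_one_le_left (by positivity) (one_le_pow₀ (by norm_num))
  have hl1 : ∀ q q' : ℕ, q ≤ q' → (2 : ℝ) ^ (c₀ + n * D₁) * (1 / 2 ^ q') ≤
      2 ^ (c₀ + n * D₁) * (1 / 2 ^ q) := fun q q' hq =>
    mul_le_mul_of_nonneg_left (inv_mono hq) (by positivity)
  have hcl : ∀ l ≤ i, Set.InjOn c (Set.Iio l) := fun l hl =>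
    hF.inj.mono fun y hy => lt_of_lt_of_le hy hl
  -- the charts at the window `o`
  have thn' : ChOK F c i (fun _ => D) a o e g B₀ T (cwn w o TH) := chOK_win hF.thn hF.wo hF.oJ
  have gam' : ChOK F c (i + 1) (fun _ => D) a o e gc B₀ Γ (cwn w o ΓH) :=
    chOK_win hF.gam hF.wo hF.oJ
  have phi' : ChOK F c (i + 1) (fun _ => D) o o e g₀ B₀ Φ (cwn w o Ψ) :=
    chOK_win (hF.phi.mono le_rfl (fun _ => le_rfl) hF.wo le_rfl) hF.wo hF.oJ
  -- the boxes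
  obtain ⟨A₁, a1, a2, a3⟩ := hmv (e' := e) hi hF.inj hF.rv₁ hF.deg hκ (n := 0) (by omega)
    (Lg.refl F B₀) thn'
  obtain ⟨A₂, b1, b2, b3⟩ := hmv (e' := e) hi hF.inj hF.rv₁ hF.deg hκ (n := 0 + r) (by omega)
    a2 ((hF.gm₁.mono (Nat.le_succ i) (fun _ => le_rfl) le_rfl le_rfl).sub a1)
  obtain ⟨A₃, d1, d2, d3⟩ := hmv (e' := e) hi hF.inj hF.rv₁ hF.deg hκ (n := 0 + r + r) (by omega)
    b2 ((gam'.mono (Nat.le_succ i) (fun _ => le_rfl) le_rfl le_rfl).sub fun ω h' =>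
      a1 ω (b1 ω h'))
  have s3 : Sub A₃ B₀ := d2.1
  obtain ⟨A₄, f1, f2, f3⟩ := hmv (e' := e) hi hF.inj hF.rvB hF.deg hκ (n := 0 + r + r + r)
    (by omega) d2 ((phi'.mono (Nat.le_succ i) (fun _ => le_rfl) le_rfl le_rfl).sub s3)
  obtain ⟨A₅, g1, g2, g3⟩ := hmv (e' := e) hi hF.inj hF.rv hF.deg hκ (n := 0 + r + r + r + r)
    (by omega) f2 ((hF.gam.mono (Nat.le_succ i) (fun _ => le_rfl) le_rfl le_rfl).sub f2.1)
  rw [← hn] at a3 b3 d3 f3 g3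
  -- the target at `(a, o)`
  obtain ⟨A₆, i1, i2, i3⟩ := lg_two (X₁ := Gt) (X₂ := fun y => Γ₁ y i)
    (Y₁ := fun s => Ht (s.1, s.2.1, s.2.2 / 2 ^ (o - w))) (Y₂ := fun s => Γ₁H s i)
    (x := fun ω => F.x ω (c i)) (M := 2 ^ (c₀ + n * D₁) * (1 / 2 ^ p)) hF.rv₁ hF.deg hκ
    (n := 0 + r + r + r + r + r) (by omega) g2 (h2pos p) dG (fun y => hF.gm₁.degG y i)
    (fun s => dH _) (fun s => hF.gm₁.degH s i) cG (fun y => hF.gm₁.depG y i) (fun s => cH _)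
    (fun s => hF.gm₁.depH s i) (fun ω hω => (pos ω (g2.1 ω hω)).trans (h1le p p le_rfl))
    (fun ω hω => (hF.gm₁.pos ω (g2.1 ω hω) i (Nat.lt_succ_self i)).trans (h1le _ _ hpc))
    (fun ω hω b hb => by
      have e5 := slam_coarse F hF.wo hF.oJ ω
      have h1 := hdil (c := c) (i := i) (G := T (ptr F J ω))
        (Q := Gt (ptr F J ω) - Ht (slam F w ω)) (g := g) (a := a) (t := F.t ω)
        (M := 1 / 2 ^ p) n (by omega) hF.inj (hF.thn.degG _) (hF.thn.depG _)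
        (dep_sub (cG _) (cH _)) ((totalDegree_sub _ _).trans (max_le (dG _) (dH _)))
        (by positivity) (fun y hy => by rw [map_sub]; exact agr ω (g2.1 ω hω) y hy) b hb.1
        (a3 ω (b1 ω (d1 ω (f1 ω (g1 ω hω)))) b hb)
      rw [map_sub, e5] at h1
      exact h1)
    (fun ω hω b hb => by
      have h1 := hdil (c := c) (i := i) (G := Γ₁ (ptr F J ω))
        (Q := Γ₁ (ptr F J ω) i - Γ₁H (slam F o ω) i) (g := gc₁) (a := a) (t := F.t ω)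
        (M := 1 / 2 ^ gc₁ i) n (by omega) hF.inj (hF.gm₁.degG _) (hF.gm₁.depG _)
        (dep_sub (hF.gm₁.depG _ i) (hF.gm₁.depH _ i)) ((totalDegree_sub _ _).trans
          (max_le (hF.gm₁.degG _ i) (hF.gm₁.degH _ i)))
        (by positivity) (fun y hy => by
          rw [map_sub]; exact hF.gm₁.agr ω (g2.1 ω hω) i (Nat.lt_succ_self i) y hy) b hb.1
        (b3 ω (d1 ω (f1 ω (g1 ω hω))) b hb)
      rw [map_sub] at h1
      exact h1.trans (hl1 _ _ hpc))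
  -- the contact labels at `(a, o)`
  obtain ⟨A₇, j1, j2, j3⟩ := lg_iter (F := F) (B₀ := B₀) (A := A₆) (N := N) (k := i)
    (P := fun l ω => ct l → ∀ b, NBx c (T₁ (ptr F J ω)) gT a (F.t ω) i b →
      |eval b (T₁ (ptr F J ω) l) - eval b (T (ptr F J ω) l)| ≤ 2 ^ (C * (h + 1)) / 2 ^ g l)
    (fun l hl B' n' hn' hB' hA' => by
      by_cases hct : ct l
      · obtain ⟨B'', q1, q2, q3⟩ := lg_two (X₁ := fun y => T₁ y l) (X₂ := fun y => T y l)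
          (Y₁ := fun s => T₁H s l) (Y₂ := fun s => cwn w o TH s l)
          (x := fun ω => F.x ω (c l)) (M := 2 ^ (c₀ + n * D₁ + h) * (1 / 2 ^ g l)) hF.rv₁ hF.deg hκ
          (n := n') hn' hB' (h2pos2 _) (fun y => hF.th₁.degG y l) (fun y => hF.thn.degG y l)
          (fun s => hF.th₁.degH s l) (fun s => thn'.degH s l)
          (fun y => (hF.th₁.depG y l).mono hl.le) (fun y => (hF.thn.depG y l).mono hl.le)
          (fun s => (hF.th₁.depH s l).mono hl.le) (fun s => (thn'.depH s l).mono hl.le)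
          (fun ω hω => (hF.th₁.pos ω (hB'.1 ω hω) l hl).trans (h1le2 _ _ (hgT l hl hct).1))
          (fun ω hω => (hF.thn.pos ω (hB'.1 ω hω) l hl).trans (h1le2 _ _ (Nat.le_add_right _ _)))
          (fun ω hω b hb => (hF.th₁.agr ω (hB'.1 ω hω) l hl b (hb.mono le_rfl hl.le)).trans
            (h1le2 _ _ (hgT l hl hct).1))
          (fun ω hω b hb => by
            have hω6 := hA' ω hω
            have h1 := hdil (c := c) (i := l) (G := T (ptr F J ω))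
              (Q := T (ptr F J ω) l - cwn w o TH (slam F o ω) l) (g := g) (a := a) (t := F.t ω)
              (M := 1 / 2 ^ g l) n (by omega) (hcl l hl.le) (hF.thn.degG _) (hF.thn.depG _)
              (dep_sub (hF.thn.depG _ l) (thn'.depH _ l)) ((totalDegree_sub _ _).trans
                (max_le (hF.thn.degG _ l) (thn'.degH _ l)))
              (by positivity) (fun y hy => by
                rw [map_sub]; exact thn'.agr ω (hB'.1 ω hω) l hl y hy) b hb.1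
              (fun j hj => a3 ω (b1 ω (d1 ω (f1 ω (g1 ω (i1 ω hω6))))) b hb j (by omega))
            rw [map_sub] at h1
            exact h1.trans (mul_le_mul_of_nonneg_right (pow_le_pow_right₀ (by norm_num)
              (Nat.le_add_right _ _)) (by positivity)))
        exact ⟨B'', q1, q2, fun ω hω _ b hb => (q3 ω hω b hb).trans (hfin2 _)⟩
      · exact ⟨B', fun _ h => h, hB'.mono (Nat.le_succ _), fun ω _ h => absurd h hct⟩)
    (n := 0 + r + r + r + r + r + 1) (by omega) i2 (fun _ h => h)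
  -- the fat labels at `(a, o)`
  obtain ⟨A₈, k1, k2, k3⟩ := lg_iter (F := F) (B₀ := B₀) (A := A₇) (N := N) (k := i)
    (P := fun l ω => ct l → ∀ j, j < l → ct j → ∀ b, NBx c (T₁ (ptr F J ω)) gT a (F.t ω) i b →
      |eval b (T₁ (ptr F J ω) l) - eval b (f (ptr F J ω) l)| ≤ 2 ^ (C * (h + 1)) / 2 ^ gf l)
    (fun l hl B' n' hn' hB' hA' => by
      by_cases hct : ct l ∧ ∃ j, j < l ∧ ct j
      · obtain ⟨hct, j, hjl, hctj⟩ := hct
        have hfl := hf j l hjl hl hctj hct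
        obtain ⟨gF, hgF⟩ : ∃ gF : ℕ → ℕ, gF = fun l' =>
            open Classical in if ct l' then 0 else gc l' := ⟨_, rfl⟩
        have hgFc : ∀ l', ct l' → gF l' = 0 := fun l' h' => by
          rw [hgF]
          exact if_pos h'
        have hgFr : ∀ l', ¬ ct l' → gF l' = gc l' := fun l' h' => by
          rw [hgF]
          exact if_neg h'
        obtain ⟨B'', q1, q2, q3⟩ := lg_two (X₁ := fun y => T₁ y l) (X₂ := fun y => f y l)
          (Y₁ := fun s => T₁H s l) (Y₂ := fun s => fH (s.1, s.2.1, s.2.2 / 2 ^ (o - w)) l)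
          (x := fun ω => F.x ω (c l)) (M := 2 ^ (c₀ + n * D₁) * (1 / 2 ^ gf l)) hF.rv₁ hF.deg
          hκ (n := n') hn' hB' (h2pos _) (fun y => hF.th₁.degG y l) (fun y => hfl.degG y)
          (fun s => hF.th₁.degH s l) (fun s => hfl.degH _)
          (fun y => (hF.th₁.depG y l).mono hl.le) (fun y => (hfl.depG y).mono hl.le)
          (fun s => (hF.th₁.depH s l).mono hl.le) (fun s => (hfl.depH _).mono hl.le)
          (fun ω hω => (hF.th₁.pos ω (hB'.1 ω hω) l hl).trans (h1le _ _ (hgT l hl hct).2))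
          (fun ω hω => (hfl.pos ω (hB'.1 ω hω)).trans (h1le _ _ le_rfl))
          (fun ω hω b hb => (hF.th₁.agr ω (hB'.1 ω hω) l hl b (hb.mono le_rfl hl.le)).trans
            (h1le _ _ (hgT l hl hct).2))
          (fun ω hω b hb => by
            have hω6 := j1 ω (hA' ω hω)
            have e5 := slam_coarse F hF.wo hF.oJ ω
            have h1 := hdil (c := c) (i := l) (G := Γ (ptr F J ω))
              (Q := f (ptr F J ω) l - fH (slam F w ω) l) (g := gF) (a := a) (t := F.t ω)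
              (M := 1 / 2 ^ gf l) n (by omega) (hcl l hl.le) (hF.gam.degG _) (hF.gam.depG _)
              (dep_sub (hfl.depG _) (hfl.depH _)) ((totalDegree_sub _ _).trans
                (max_le (hfl.degG _) (hfl.degH _)))
              (by positivity) (fun y hy => by
                rw [map_sub]
                refine hfl.agr ω (hB'.1 ω hω) y hy.1 fun l' h3 h4 => ?_
                have h5 := hy.2 l' h3
                rw [hgFr l' h4] at h5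
                exact h5) b hb.1
              (fun j hj => by
                have h6 := d3 ω (f1 ω (g1 ω (i1 ω hω6))) b hb j (by omega)
                by_cases h7 : ct j
                · rw [hgFc j h7]
                  refine h6.trans (div_le_div_of_nonneg_left (by positivity) (by positivity) ?_)
                  exact pow_le_pow_right₀ (by norm_num) (Nat.zero_le _)
                · rw [hgFr j h7]
                  exact h6)
            rw [map_sub, e5] at h1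
            exact h1)
        exact ⟨B'', q1, q2, fun ω hω _ j' _ _ b hb => (q3 ω hω b hb).trans (hfin _)⟩
      · exact ⟨B', fun _ h => h, hB'.mono (Nat.le_succ _), fun ω _ h j' h' h'' =>
          absurd ⟨h, j', h', h''⟩ hct⟩)
    (n := 0 + r + r + r + r + r + 1 + i) (by omega) j2 (fun _ h => h)
  -- the ball charts of the target
  obtain ⟨A₉, l1, l2, l3⟩ := lg_two (X₁ := fun y => B y i) (X₂ := fun y => Φ y i)
    (Y₁ := fun s => BH s i) (Y₂ := fun s => cwn w o Ψ s i)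
    (x := fun ω => F.x ω (c i)) (M := 2 ^ (c₀ + n * D₁) * (1 / 2 ^ g₀ i)) hF.rvB hF.deg hκ
    (n := 0 + r + r + r + r + r + 1 + i + i) (by omega) k2 (h2pos _) (fun y => hF.bal.degG y i)
    (fun y => hF.phi.degG y i) (fun s => hF.bal.degH s i) (fun s => phi'.degH s i)
    (fun y => hF.bal.depG y i) (fun y => hF.phi.depG y i) (fun s => hF.bal.depH s i)
    (fun s => phi'.depH s i)
    (fun ω hω => (hF.bal.pos ω (k2.1 ω hω) i (Nat.lt_succ_self i)).trans (h1le _ _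
      (hgB i le_rfl)))
    (fun ω hω => (hF.phi.pos ω (k2.1 ω hω) i (Nat.lt_succ_self i)).trans (h1le _ _ le_rfl))
    (fun ω hω b hb => (hF.bal.agr ω (k2.1 ω hω) i (Nat.lt_succ_self i) b hb).trans (h1le _ _
      (hgB i le_rfl)))
    (fun ω hω b hb => by
      rw [cwn_slam hF.wo hF.oJ, ← hF.clo ω (k2.1 ω hω) i le_rfl, sub_self, abs_zero]
      exact (h2pos _).le)
  -- the target at `(a, w)`
  obtain ⟨B₁, m1, m2, m3⟩ := lg_two (X₁ := Gt) (X₂ := fun y => Γ y i)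
    (Y₁ := Ht) (Y₂ := fun s => ΓH s i)
    (x := fun ω => F.x ω (c i)) (M := 2 ^ (c₀ + n * D₁) * (1 / 2 ^ gc i)) hF.rv hF.deg hκ
    (n := 0 + r + r + r + r + r + 1 + i + i + 1) (by omega) l2 (h2pos _) dG
    (fun y => hF.gam.degG y i) dH (fun s => hF.gam.degH s i) cG (fun y => hF.gam.depG y i) cH
    (fun s => hF.gam.depH s i) (fun ω hω => (pos ω (l2.1 ω hω)).trans (h1le _ _ hcp))
    (fun ω hω => (hF.gam.pos ω (l2.1 ω hω) i (Nat.lt_succ_self i)).trans (h1le _ _ le_rfl))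
    (fun ω hω b hb => (agr ω (l2.1 ω hω) b hb).trans (h1le _ _ hcp))
    (fun ω hω b hb => by
      have h1 := hdil (c := c) (i := i) (G := Γ (ptr F J ω))
        (Q := Γ (ptr F J ω) i - ΓH (slam F w ω) i) (g := gc) (a := a) (t := F.t ω)
        (M := 1 / 2 ^ gc i) n (by omega) hF.inj (hF.gam.degG _) (hF.gam.depG _)
        (dep_sub (hF.gam.depG _ i) (hF.gam.depH _ i)) ((totalDegree_sub _ _).trans
          (max_le (hF.gam.degG _ i) (hF.gam.degH _ i)))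
        (by positivity) (fun y hy => by
          rw [map_sub]; exact hF.gam.agr ω (l2.1 ω hω) i (Nat.lt_succ_self i) y hy) b hb.1
        (g3 ω (i1 ω (j1 ω (k1 ω (l1 ω hω)))) b hb)
      rw [map_sub] at h1
      exact h1)
  refine ⟨B₁, m2.mono (by omega), fun ω hω => ⟨fun b hb => ?_, fun l hl hct b hb => ?_,
    fun j l hjl hl hcj hct b hb => ?_, fun l hl b hb => ?_, fun b hb => ?_⟩⟩
  · exact (i3 ω (j1 ω (k1 ω (l1 ω (m1 ω hω)))) b hb).trans (hfin _)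
  · exact j3 ω (k1 ω (l1 ω (m1 ω hω))) l hl hct b hb
  · exact k3 ω (l1 ω (m1 ω hω)) l hl hct j hjl hcj b hb
  · rcases Nat.lt_or_ge l i with h7 | h7
    · have hω0 := m2.1 ω hω
      have h8 := f3 ω (g1 ω (i1 ω (j1 ω (k1 ω (l1 ω (m1 ω hω)))))) b hb l h7
      have h9 := hb.2 l h7
      have h10 : (1 : ℝ) / 2 ^ gB l ≤ 2 ^ n / 2 ^ g₀ l := by
        refine (inv_mono (hgB l hl)).trans (div_le_div_of_nonneg_right ?_ (by positivity))
        exact one_le_pow₀ (by norm_num)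
      have h11 : (2 : ℝ) ^ (n + 1) / 2 ^ g₀ l = 2 ^ n / 2 ^ g₀ l + 2 ^ n / 2 ^ g₀ l := by
        rw [pow_succ]
        ring
      have h12 : |eval b (B (ptr F J ω) l) - eval b (Φ (ptr F J ω) l)| ≤
          2 ^ (n + 1) / 2 ^ g₀ l := by
        rw [h11]
        rw [abs_le] at h8 h9 ⊢
        constructor <;> linarith only [h8.1, h8.2, h9.1, h9.2, h10]
      exact h12.trans (div_le_div_of_nonneg_right (pow_le_pow_right₀ (by norm_num) hexp2)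
        (by positivity))
    · have : l = i := by omega
      subst this
      exact (l3 ω (m1 ω hω) b hb).trans (hfin _)
  · exact (m3 ω hω b hb).trans (hfin _)

end Pool.VFD
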