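import Pool.Agent.H95.GN.Vfd

/-!
# The elimination of coordinates from a label

`elm c ct Φ T`: the coordinates `c l`, `ct l`, are put on the graph of `T l`; the others keep their
distance to the graph of `Φ l`. `elm_two`, `elm_own`: the errors for a two-sided label.
-/

set_option autoImplicit false

namespace Pool.VFD

open Finset Real MvPolynomial
open Pool.Agent.H49.Ent Pool.Agent.H32.Dense Pool.STK Pool.KA Pool.KSAT Pool.K2S Pool.PB Pool.S6C
open Pool.GEN Pool.CHT

variable {m : ℕ}

/-! ### Substitution -/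

theorem eval_bd {σ τ : Type} (f : σ → MvPolynomial τ ℝ) (P : MvPolynomial σ ℝ) (b : τ → ℝ) :
    eval b (bind₁ f P) = eval (fun o => eval b (f o)) P := by
  rw [eval, eval₂Hom_bind₁]
  rfl

theorem deg_bd {σ τ : Type} (f : σ → MvPolynomial τ ℝ) {E : ℕ}
    (hf : ∀ i, (f i).totalDegree ≤ E) {P : MvPolynomial σ ℝ} {D : ℕ} (hP : P.totalDegree ≤ D) :
    (bind₁ f P).totalDegree ≤ D * E := by
  classical
  conv_lhs => rw [P.as_sum, map_sum]
  refine (totalDegree_finsetSum _ _).trans (Finset.sup_le fun s hs => ?_)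
  rw [bind₁_monomial]
  refine (totalDegree_mul _ _).trans ?_
  rw [totalDegree_C, zero_add]
  refine (totalDegree_finsetProd _ _).trans ?_
  have h1 : ∀ i ∈ s.support, (f i ^ s i).totalDegree ≤ s i * E := by
    intro i _
    exact (totalDegree_pow _ _).trans (Nat.mul_le_mul_left _ (hf i))
  refine (Finset.sum_le_sum h1).trans ?_
  rw [← Finset.sum_mul]
  refine Nat.mul_le_mul_right E (le_trans ?_ hP)
  exact le_totalDegree hs

open Classical in
/-- **The substitution.** -/
noncomputable def elm (c : ℕ → Fin m) (ct : ℕ → Prop)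
    (Φ T : ℕ → MvPolynomial (Option (Fin m)) ℝ) :
    ℕ → Option (Fin m) → MvPolynomial (Option (Fin m)) ℝ
  | 0 => fun o => X o
  | k + 1 => Function.update (elm c ct Φ T k) (some (c k))
      (if ct k then bind₁ (elm c ct Φ T k) (T k)
        else X (some (c k)) - Φ k + bind₁ (elm c ct Φ T k) (Φ k))

/-- The point after the substitution. -/
noncomputable def str (c : ℕ → Fin m) (ct : ℕ → Prop)
    (Φ T : ℕ → MvPolynomial (Option (Fin m)) ℝ) (k : ℕ) (b : Option (Fin m) → ℝ) :
    Option (Fin m) → ℝ := fun o => eval b (elm c ct Φ T k o)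

variable {c : ℕ → Fin m} {ct : ℕ → Prop} {Φ T : ℕ → MvPolynomial (Option (Fin m)) ℝ}

theorem str_none (k : ℕ) (b : Option (Fin m) → ℝ) : str c ct Φ T k b none = b none := by
  induction k with
  | zero =>
    show eval b (X none) = b none
    rw [eval_X]
  | succ k ih =>
    have e1 : elm c ct Φ T (k + 1) none = elm c ct Φ T k none := by
      rw [elm, Function.update_of_ne (by simp)]
    unfold str
    rw [e1]
    exact ih

theorem str_ne {k : ℕ} {o : Option (Fin m)} (ho : o ≠ some (c k)) (b : Option (Fin m) → ℝ) :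
    str c ct Φ T (k + 1) b o = str c ct Φ T k b o := by
  unfold str
  rw [elm, Function.update_of_ne ho]

/-- The coordinates before stay. -/
theorem str_stay {i : ℕ} (hc : Set.InjOn c (Set.Iio i)) {l k : ℕ} (hl : l < k) (hk : k ≤ i)
    (b : Option (Fin m) → ℝ) :
    str c ct Φ T k b (some (c l)) = str c ct Φ T (l + 1) b (some (c l)) := by
  induction k with
  | zero => omega
  | succ k ih =>
    rcases Nat.lt_or_ge l k with h | h
    · rw [str_ne _ b]
      · exact ih h (by omega)
      · intro hh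
        have := hc (show l ∈ Set.Iio i from (by omega : l < i)) (show k ∈ Set.Iio i from
          (by omega : k < i)) (Option.some_injective _ hh)
        omega
    · have : l = k := by omega
      subst this
      rfl

theorem str_eval {i : ℕ} (hc : Set.InjOn c (Set.Iio i)) {l k : ℕ} (hl : l ≤ k) (hk : k ≤ i)
    {P : MvPolynomial (Option (Fin m)) ℝ} (hP : DepC c l P) (b : Option (Fin m) → ℝ) :
    eval (str c ct Φ T k b) P = eval (str c ct Φ T l b) P := by
  refine hP _ _ (by rw [str_none, str_none]) fun l' hl' => ?_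
  rw [str_stay hc (show l' < k by omega) hk b, str_stay hc hl' (by omega) b]

/-- The coordinates on the graphs. -/
theorem str_ct {i : ℕ} (hc : Set.InjOn c (Set.Iio i)) (hT : ∀ l, DepC c l (T l)) {l : ℕ}
    (hl : l < i) (h : ct l) (b : Option (Fin m) → ℝ) :
    str c ct Φ T i b (some (c l)) = eval (str c ct Φ T i b) (T l) := by
  rw [str_stay hc hl le_rfl b, str_eval hc hl.le le_rfl (hT l) b]
  unfold str
  rw [elm, Function.update_self, if_pos h, eval_bd]

/-- The other coordinates. -/
theorem str_rg {i : ℕ} (hc : Set.InjOn c (Set.Iio i)) (hΦ : ∀ l, DepC c l (Φ l)) {l : ℕ}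
    (hl : l < i) (h : ¬ ct l) (b : Option (Fin m) → ℝ) :
    str c ct Φ T i b (some (c l)) - eval (str c ct Φ T i b) (Φ l) =
      b (some (c l)) - eval b (Φ l) := by
  rw [str_stay hc hl le_rfl b, str_eval hc hl.le le_rfl (hΦ l) b]
  unfold str
  rw [elm, Function.update_self, if_neg h, map_add, map_sub, eval_X, eval_bd]
  ring

/-- The heights of the point after the substitution. -/
theorem hgt_str_ct {i : ℕ} (hc : Set.InjOn c (Set.Iio i)) (hT : ∀ l, DepC c l (T l)) {l : ℕ}
    (hl : l < i) (h : ct l) (b : Option (Fin m) → ℝ) :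
    hgt c T (str c ct Φ T i b) l = 0 := by
  unfold hgt
  rw [str_ct hc hT hl h b, sub_self]

theorem hgt_str_rg {i : ℕ} (hc : Set.InjOn c (Set.Iio i)) (hΦ : ∀ l, DepC c l (Φ l))
    {G : ℕ → MvPolynomial (Option (Fin m)) ℝ} {l : ℕ} (hl : l < i) (h : ¬ ct l)
    (hG : DepC c 0 (G l - Φ l)) (b : Option (Fin m) → ℝ) :
    hgt c G (str c ct Φ T i b) l = hgt c G b l := by
  unfold hgt
  have h1 := str_rg (T := T) hc hΦ hl h b
  have h2 := hG (str c ct Φ T i b) b (str_none i b) fun l' hl' => absurd hl' (Nat.not_lt_zero l')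
  rw [map_sub, map_sub] at h2
  linarith only [h1, h2]

theorem deg_elm {D : ℕ} (hΦ : ∀ l, (Φ l).totalDegree ≤ D) (hT : ∀ l, (T l).totalDegree ≤ D)
    (k : ℕ) (o : Option (Fin m)) : (elm c ct Φ T k o).totalDegree ≤ (D + 1) ^ k := by
  classical
  induction k generalizing o with
  | zero =>
    show (X o : MvPolynomial (Option (Fin m)) ℝ).totalDegree ≤ _
    rw [totalDegree_X, pow_zero]
  | succ k ih =>
    have hle : (D + 1) ^ k ≤ (D + 1) ^ (k + 1) := Nat.pow_le_pow_right (by omega) (by omega)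
    have hb : ∀ P : MvPolynomial (Option (Fin m)) ℝ, P.totalDegree ≤ D →
        (bind₁ (elm c ct Φ T k) P).totalDegree ≤ (D + 1) ^ (k + 1) := by
      intro P hP
      refine (deg_bd _ ih hP).trans ?_
      rw [pow_succ, mul_comm]
      exact Nat.mul_le_mul_left _ (Nat.le_succ D)
    by_cases ho : o = some (c k)
    · subst ho
      rw [elm, Function.update_self]
      split_ifs
      · exact hb _ (hT k)
      · refine (totalDegree_add _ _).trans (max_le ?_ (hb _ (hΦ k)))
        refine (totalDegree_sub _ _).trans (max_le ?_ ?_)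
        · rw [totalDegree_X]
          exact Nat.one_le_pow _ _ (by omega)
        · refine (hΦ k).trans ?_
          rw [pow_succ]
          have : 1 ≤ (D + 1) ^ k := Nat.one_le_pow _ _ (by omega)
          nlinarith only [this]
    · rw [elm, Function.update_of_ne ho]
      exact (ih o).trans hle

/-- **Independence**: the point after the substitution depends on the time and on the distances of
the other coordinates only. -/
theorem str_indep {i : ℕ} (hc : Set.InjOn c (Set.Iio i)) (hΦ : ∀ l, DepC c l (Φ l))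
    (hT : ∀ l, DepC c l (T l)) {b b' : Option (Fin m) → ℝ} (hn : b none = b' none)
    (h : ∀ l < i, ¬ ct l → b (some (c l)) - eval b (Φ l) = b' (some (c l)) - eval b' (Φ l)) :
    ∀ l < i, str c ct Φ T i b (some (c l)) = str c ct Φ T i b' (some (c l)) := by
  intro l
  induction l using Nat.strong_induction_on with
  | _ l ih =>
    intro hl
    have hn' : str c ct Φ T i b none = str c ct Φ T i b' none := by
      rw [str_none, str_none, hn]
    by_cases hct : ct l
    · rw [str_ct hc hT hl hct b, str_ct hc hT hl hct b']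
      exact hT l _ _ hn' fun l' hl' => ih l' hl' (by omega)
    · have h1 := str_rg (T := T) hc hΦ hl hct b
      have h2 := str_rg (T := T) hc hΦ hl hct b'
      have h3 := hΦ l _ _ hn' fun l' hl' => ih l' hl' (by omega)
      have h4 := h l hl hct
      linarith only [h1, h2, h3, h4]

theorem str_dep {i : ℕ} (hc : Set.InjOn c (Set.Iio i)) (hΦ : ∀ l, DepC c l (Φ l))
    (hT : ∀ l, DepC c l (T l)) {W : MvPolynomial (Option (Fin m)) ℝ} (hW : DepC c i W) :
    DepC c i (bind₁ (elm c ct Φ T i) W) := by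
  intro b b' hn hb
  rw [eval_bd, eval_bd]
  refine hW _ _ ?_ ?_
  · show str c ct Φ T i b none = str c ct Φ T i b' none
    rw [str_none, str_none, hn]
  · refine str_indep hc hΦ hT hn fun l hl _ => ?_
    rw [hb l hl, hΦ l b b' hn fun l' hl' => hb l' (by omega)]

/-! ### The errors -/

/-- **The own point.** -/
theorem elm_own {i : ℕ} (hc : Set.InjOn c (Set.Iio i)) {D : ℕ}
    (dT : ∀ l, (T l).totalDegree ≤ D) (hΦ : ∀ l, DepC c l (Φ l)) (hT : ∀ l, DepC c l (T l))
    (htm : ∀ l < i, ¬ ct l → DepC c 0 (T l - Φ l)) {W : MvPolynomial (Option (Fin m)) ℝ}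
    (hW : DepC c i W) {g : ℕ → ℕ} {a : ℕ} {t : ℝ} {x : Option (Fin m) → ℝ}
    (hx : NBx c T g a t i x) {M : ℕ → ℝ} (hM0 : ∀ l, 0 ≤ M l)
    (hM : ∀ l < i, ct l → ∀ b, NBx c T g a t i b → |eval b (dvf c T l i W)| ≤ M l) :
    |eval x W - eval x (bind₁ (elm c ct Φ T i) W)| ≤ ∑ l ∈ range i, M l / 2 ^ g l := by
  classical
  have e1 : eval x (bind₁ (elm c ct Φ T i) W) = eval (str c ct Φ T i x) W := by
    rw [eval_bd]
    rfl
  rw [e1]
  have hs : ∀ l < i, hgt c T (str c ct Φ T i x) l = if ct l then 0 else hgt c T x l := by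
    intro l hl
    by_cases h : ct l
    · rw [if_pos h]
      exact hgt_str_ct hc hT hl h x
    · rw [if_neg h]
      exact hgt_str_rg hc hΦ hl h (htm l hl h) x
  have h1 := path_le (b₁ := str c ct Φ T i x) (b₂ := x) hc dT hT hW (str_none i x).symm
    (fun l => 1 / 2 ^ g l) M ct (fun l hl => by
      rw [hs l hl]
      split_ifs
      · rw [abs_zero]
        positivity
      · exact hx.2 l hl) (fun l hl => hx.2 l hl) (fun l hl h => by rw [hs l hl, if_neg h])
    (fun l hl h y hy hy2 => hM l hl h y ⟨by rw [hy, str_none]; exact hx.1, hy2⟩)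
  refine h1.trans (Finset.sum_le_sum fun l hl => ?_)
  have hl' := Finset.mem_range.1 hl
  split_ifs with h
  · rw [hs l hl', if_pos h, sub_zero]
    calc |hgt c T x l| * M l ≤ 1 / 2 ^ g l * M l :=
          mul_le_mul_of_nonneg_right (hx.2 l hl') (hM0 l)
      _ = M l / 2 ^ g l := by ring
  · exact div_nonneg (hM0 l) (by positivity)

/-- **The two sides.** -/
theorem elm_two (D r : ℕ) : ∃ N : ℕ, ∀ {m : ℕ} {c : ℕ → Fin m} {ct : ℕ → Prop} {i : ℕ}
    {Φ T TH : ℕ → MvPolynomial (Option (Fin m)) ℝ} {W WH : MvPolynomial (Option (Fin m)) ℝ}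
    {g : ℕ → ℕ} {a : ℕ} {t ε : ℝ} {M : ℕ → ℝ} {b : Option (Fin m) → ℝ}, i ≤ r →
    Set.InjOn c (Set.Iio i) → (∀ l, (T l).totalDegree ≤ D) → (∀ l, (TH l).totalDegree ≤ D) →
    W.totalDegree ≤ D → WH.totalDegree ≤ D →
    (∀ l, DepC c l (Φ l)) → (∀ l, DepC c l (T l)) → (∀ l, DepC c l (TH l)) →
    DepC c i W → DepC c i WH →
    (∀ l < i, ¬ ct l → DepC c 0 (T l - Φ l)) → 0 ≤ ε → (∀ l, 0 ≤ M l) →
    (∀ l < i, ∀ y, NBx c T g a t l y → |eval y (T l) - eval y (TH l)| ≤ 1 / 2 ^ g l) →
    (∀ y, NBx c T g a t i y → |eval y W - eval y WH| ≤ ε) →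
    (∀ l < i, ct l → ∀ y, NBx c T g a t i y → |eval y (dvf c T l i W)| ≤ M l) →
    |b none - t| ≤ 1 / 2 ^ a →
    (∀ l < i, ¬ ct l → |b (some (c l)) - eval b (T l)| ≤ 1 / 2 ^ g l) →
    |eval b (bind₁ (elm c ct Φ T i) W) - eval b (bind₁ (elm c ct Φ TH i) WH)| ≤
      2 ^ N * (ε + ∑ l ∈ range i, M l / 2 ^ g l) := by
  classical
  obtain ⟨E, hE⟩ : ∃ E, E = r * D + D := ⟨_, rfl⟩
  have hDE : D ≤ E := by omega
  obtain ⟨c₀, D₁, hD₁, hdil⟩ := nbx_dil (r + 1) (fun _ => E)
  obtain ⟨n, hn⟩ : ∃ n : ℕ → ℕ, n = fun l => lex c₀ 0 D₁ l := ⟨_, rfl⟩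
  have hnm : ∀ l k, l ≤ k → n l ≤ n k := by
    intro l k h
    rw [hn]
    exact monotone_nat_of_le_succ (f := fun l => lex c₀ 0 D₁ l) (fun j => lex_mono hD₁) h
  have hns : ∀ l, n (l + 1) = c₀ + n l * D₁ := by
    intro l
    rw [hn]
    show c₀ + 0 + lex c₀ 0 D₁ l * D₁ = _
    rw [add_zero]
  refine ⟨n (r + 1) + n (r + 2), ?_⟩
  intro m c ct i Φ T TH W WH g a t ε M b hi hc dT dTH dW dWH hΦ hT hTH hW hWH htm hε hM0 hagr
    hWW hM hb0 hb
  have e1 : eval b (bind₁ (elm c ct Φ T i) W) = eval (str c ct Φ T i b) W := by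
    rw [eval_bd]
    rfl
  have e2 : eval b (bind₁ (elm c ct Φ TH i) WH) = eval (str c ct Φ TH i b) WH := by
    rw [eval_bd]
    rfl
  obtain ⟨y, hy⟩ : ∃ y, y = str c ct Φ T i b := ⟨_, rfl⟩
  obtain ⟨z, hz⟩ : ∃ z, z = str c ct Φ TH i b := ⟨_, rfl⟩
  rw [e1, e2, ← hy, ← hz]
  have hyn : y none = b none := by rw [hy]; exact str_none i b
  have hzn : z none = b none := by rw [hz]; exact str_none i b
  have hyl : ∀ l < i, hgt c T y l = if ct l then 0 else hgt c T b l := by
    intro l hl
    rw [hy]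
    by_cases h : ct l
    · rw [if_pos h]
      exact hgt_str_ct hc hT hl h b
    · rw [if_neg h]
      exact hgt_str_rg hc hΦ hl h (htm l hl h) b
  have hzr : ∀ l < i, ¬ ct l → hgt c T z l = hgt c T b l := by
    intro l hl h
    rw [hz]
    exact hgt_str_rg hc hΦ hl h (htm l hl h) b
  have hzc : ∀ l < i, ct l → hgt c T z l = eval z (TH l) - eval z (T l) := by
    intro l hl h
    rw [hz]
    unfold hgt
    rw [str_ct hc hTH hl h b]
  have h2n : ∀ k : ℕ, (1 : ℝ) ≤ 2 ^ k := fun k => one_le_pow₀ (by norm_num)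
  -- the line point is in the dilated box
  have hzb : ∀ l ≤ i, ∀ l' < l, |hgt c T z l'| ≤ 2 ^ n l / 2 ^ g l' := by
    intro l
    induction l with
    | zero => exact fun _ l' hl' => absurd hl' (Nat.not_lt_zero l')
    | succ l ih =>
      intro hl l' hl'
      rcases Nat.lt_or_ge l' l with h | h
      · refine (ih (by omega) l' h).trans (div_le_div_of_nonneg_right ?_ (by positivity))
        exact pow_le_pow_right₀ (by norm_num) (hnm _ _ (by omega))
      · have : l' = l := by omega
        subst this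
        by_cases hct : ct l'
        · rw [hzc l' (by omega) hct, abs_sub_comm]
          have h3 := hdil (c := c) (i := l') (G := T) (Q := T l' - TH l') (g := g) (a := a)
            (t := t) (M := 1 / 2 ^ g l') (n l') (by omega)
            (hc.mono fun x hx => lt_trans hx (by omega : l' < i)) (fun l => (dT l).trans hDE) hT
            (dep_sub (hT l') (hTH l')) ((totalDegree_sub _ _).trans
              (max_le ((dT l').trans hDE) ((dTH l').trans hDE))) (by positivity)
            (fun y hy => by rw [map_sub]; exact hagr l' (by omega) y hy) z (by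
              rw [hzn]; exact hb0) (fun l₁ hl₁ => ih (by omega) l₁ hl₁)
          rw [map_sub] at h3
          rw [hns]
          calc _ ≤ 2 ^ (c₀ + n l' * D₁) * (1 / 2 ^ g l') := h3
            _ = _ := by ring
        · rw [hzr l' (by omega) hct]
          refine (hb l' (by omega) hct).trans (div_le_div_of_nonneg_right (h2n _)
            (by positivity))
  have hzi : ∀ l < i, |hgt c T z l| ≤ 2 ^ n (r + 1) / 2 ^ g l := by
    intro l hl
    refine (hzb i le_rfl l hl).trans (div_le_div_of_nonneg_right ?_ (by positivity))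
    exact pow_le_pow_right₀ (by norm_num) (hnm _ _ (by omega))
  have hyi : ∀ l < i, |hgt c T y l| ≤ 2 ^ n (r + 1) / 2 ^ g l := by
    intro l hl
    rw [hyl l hl]
    split_ifs with h
    · rw [abs_zero]
      positivity
    · exact (hb l hl h).trans (div_le_div_of_nonneg_right (h2n _) (by positivity))
  -- the dilation of the bounds
  have hdW := hdil (c := c) (i := i) (G := T) (Q := W - WH) (g := g) (a := a) (t := t) (M := ε)
    (n (r + 1)) (by omega) hc (fun l => (dT l).trans hDE) hT (dep_sub hW hWH)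
    ((totalDegree_sub _ _).trans (max_le (dW.trans hDE) (dWH.trans hDE))) hε
    (fun y hy => by rw [map_sub]; exact hWW y hy) z (by rw [hzn]; exact hb0) hzi
  rw [map_sub, ← hns] at hdW
  have hdV : ∀ l < i, ct l → ∀ u : Option (Fin m) → ℝ, u none = y none →
      (∀ l' < i, |hgt c T u l'| ≤ 2 ^ n (r + 1) / 2 ^ g l') →
      |eval u (dvf c T l i W)| ≤ 2 ^ n (r + 2) * M l := by
    intro l hl h u hu hu2
    have h3 := hdil (c := c) (i := i) (G := T) (Q := dvf c T l i W) (g := g) (a := a) (t := t)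
      (M := M l) (n (r + 1)) (by omega) hc (fun l => (dT l).trans hDE) hT (dep_dvf hT hW)
      ((deg_dvf dT dW).trans (by
        have : i * D ≤ r * D := Nat.mul_le_mul_right D hi
        omega)) (hM0 l) (fun y hy => hM l hl h y hy) u
      (by rw [hu, hyn]; exact hb0) hu2
    rw [← hns] at h3
    exact h3
  have h5 := path_le (b₁ := y) (b₂ := z) hc dT hT hW (by rw [hzn, hyn])
    (fun l => 2 ^ n (r + 1) / 2 ^ g l) (fun l => 2 ^ n (r + 2) * M l) ct hyi hzi
    (fun l hl h => by rw [hzr l hl h, hyl l hl, if_neg h]) hdV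
  have h6 : (∑ l ∈ range i, if ct l then |hgt c T z l - hgt c T y l| * (2 ^ n (r + 2) * M l)
      else 0) ≤ 2 ^ (n (r + 1) + n (r + 2)) * ∑ l ∈ range i, M l / 2 ^ g l := by
    rw [Finset.mul_sum]
    refine Finset.sum_le_sum fun l hl => ?_
    have hl' := Finset.mem_range.1 hl
    split_ifs with h
    · rw [hyl l hl', if_pos h, sub_zero]
      calc |hgt c T z l| * (2 ^ n (r + 2) * M l) ≤
            2 ^ n (r + 1) / 2 ^ g l * (2 ^ n (r + 2) * M l) :=
            mul_le_mul_of_nonneg_right (hzi l hl') (mul_nonneg (by positivity) (hM0 l))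
        _ = _ := by rw [pow_add]; ring
    · exact mul_nonneg (by positivity) (div_nonneg (hM0 l) (by positivity))
  have h7 : (2 : ℝ) ^ n (r + 1 + 1) * ε ≤ 2 ^ (n (r + 1) + n (r + 2)) * ε := by
    refine mul_le_mul_of_nonneg_right ?_ hε
    exact pow_le_pow_right₀ (by norm_num) (by
      show n (r + 2) ≤ _
      omega)
  calc |eval y W - eval z WH| = |(eval z W - eval z WH) - (eval z W - eval y W)| := by
        congr 1
        ring
    _ ≤ |eval z W - eval z WH| + |eval z W - eval y W| := abs_sub _ _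
    _ ≤ 2 ^ (n (r + 1) + n (r + 2)) * ε +
        2 ^ (n (r + 1) + n (r + 2)) * ∑ l ∈ range i, M l / 2 ^ g l :=
        add_le_add (hdW.trans h7) (h5.trans h6)
    _ = _ := by ring

end Pool.VFD
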