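import Pool.Agent.H95.GN.Evt

/-!
# The label with gain, from the slopes

`evT_con`: the event `EvT` at a window where the levels of the list and of the coordinate `c i` are
affine, the rough coordinates are rough and the contact coordinates are static, up to `ε₀ q`. The
degree depends on `m`, `r`, `S₀` only, the gain `h₀` and the shifts `U k` of the windows on the
slopes only.
-/

set_option autoImplicit false

namespace Pool.VFD

open Finset Real MvPolynomial
open Pool.Agent.H49.Ent Pool.Agent.H32.Dense Pool.STK Pool.KA Pool.KSAT Pool.K2S Pool.PB Pool.S6C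
open Pool.GEN Pool.CHT Pool.ISO
open Pool.LBT (LSys Slo Tri ThrOf)
open Pool.LEV (Law)

variable {m : ℕ}

/-- Smaller precision of the label. -/
theorem evT_mono_p {D : ℕ} {S : PCl m} {c : ℕ → Fin m} {i : ℕ} {w a p p' e : ℝ} {Dl : ℕ → ℝ}
    {τ : ℝ} (h : EvT S c i D w a p e τ Dl) (hp : p' ≤ p) : EvT S c i D w a p' e τ Dl := by
  obtain ⟨K₁, μ, b, h1, h2, h3, h4⟩ := h
  refine ⟨K₁, μ, b, h1, h2, h3, h4.mono 0 ?_⟩
  rintro J - F A hA y hy2 hy
  obtain ⟨B, g₀, G₀, H₀, Gt, Ht, k1, k2, k3, k4, k5, k6, k7, k8, k9, k10, k11, k12⟩ := hA y hy2 hy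
  have hle : (1 : ℝ) / 2 ^ ⌊p * J⌋₊ ≤ 1 / 2 ^ ⌊p' * J⌋₊ :=
    inv_mono (Nat.floor_le_floor (mul_le_mul_of_nonneg_right hp (Nat.cast_nonneg J)))
  exact ⟨B, g₀, G₀, H₀, Gt, Ht, k1, k2, k3, k4, k5, k6, k7, k8, k9,
    fun ω hω => (k10 ω hω).trans hle, fun ω hω b' hb' => (k11 ω hω b' hb').trans hle, k12⟩

/-- **The event `EvT` from the slopes.** -/
theorem evT_con (r : ℕ) (hr : 1 ≤ r) (Sb δ₁ : ℝ) (hSb : 1 ≤ Sb) (hδ₁ : 0 < δ₁) :
    ∃ (h₀ : ℝ) (U : ℕ → ℝ), 0 < h₀ ∧ (∀ k, 0 < U k ∧ U k ≤ 1 / 2) ∧ ∀ (m S₀ : ℕ), 1 ≤ S₀ →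
    ∃ D : ℕ, ∀ τ₀ : ℝ, 0 < τ₀ → ∃ ε₀ : ℝ, 0 < ε₀ ∧ ∀ {S : PCl m}
      {P : List (Fin m) × Fin m → ℝ → ℝ → ℝ} {θ : ℝ} {c : ℕ → Fin m} {Pt : ℝ → ℝ → ℝ}
      {ct : ℕ → Prop} {i : ℕ} {w q Eb e : ℝ} (Sl : ℕ → ℝ), i ≤ r → ThrOf (chsys m θ) S P → 0 < θ →
      TmH S → Set.InjOn c (Set.Iio (r + 1)) → Law Pt → 0 < q → q ≤ w →
      WinD S P θ c r Pt (w + q) w S₀ Eb (ε₀ * q) (fun l => l < i ∧ ¬ ct l) →
      (∀ k ≤ i, WinD S P θ c r Pt (w + q) (w + U k * q) S₀ Eb (ε₀ * q)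
        (fun l => l < i ∧ ¬ ct l)) →
      Eb + τ₀ * q ≤ e →
      (∀ l ≤ i, 1 ≤ Sl l ∧ Sl l ≤ Sb ∧ ∀ k ≤ i, |lvN P c r Pt l (w + U k * q) (w + U k * q) -
        lvN P c r Pt l w w - Sl l * (U k * q)| ≤ ε₀ * q) →
      (∀ l < i, ct l → 1 + δ₁ ≤ Sl l ∧
        |lvN P c r Pt l (w + q) w - lvN P c r Pt l w w - Sl l * q| ≤ ε₀ * q ∧
        ∀ k ≤ i, |lvN P c r Pt l (w + q) (w + U k * q) - lvN P c r Pt l w w - Sl l * q| ≤
          ε₀ * q) →
      1 + δ₁ ≤ Sl i → lvN P c r Pt i w w + q + δ₁ * q ≤ lvN P c r Pt i (w + q) w →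
      EvT S c i D w (w + q) (lvN P c r Pt i w w + q + h₀ * q) e (τ₀ * q)
        (fun l => lvN P c r Pt l w w) := by
  obtain ⟨δ, hδ⟩ : ∃ δ : ℝ, δ = min δ₁ 1 := ⟨_, rfl⟩
  have hδ0 : 0 < δ := by rw [hδ]; exact lt_min hδ₁ one_pos
  have hδ1 : δ ≤ 1 := by rw [hδ]; exact min_le_right _ _
  have hδδ : δ ≤ δ₁ := by rw [hδ]; exact min_le_left _ _
  -- the constants
  have hr0 : (0 : ℝ) ≤ r := Nat.cast_nonneg _
  obtain ⟨A, hA⟩ : ∃ A : ℝ, A = r + 1 + 1 := ⟨_, rfl⟩
  have hA2 : 2 ≤ A := by rw [hA]; linarith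
  obtain ⟨M, hM⟩ : ∃ M : ℝ, M = 4 * (1 + 2 * A * Sb / δ) := ⟨_, rfl⟩
  have hASb : A * Sb ≤ A * Sb / δ := by
    rw [le_div_iff₀ hδ0]
    have : 0 ≤ A * Sb := by positivity
    nlinarith
  have hM1 : 4 + 8 * (A * Sb) ≤ M := by
    have e1 : 2 * A * Sb / δ = 2 * (A * Sb / δ) := by ring
    rw [hM, e1]
    linarith
  have hASb1 : 2 * Sb ≤ A * Sb := mul_le_mul_of_nonneg_right hA2 (by linarith)
  have hM16 : 4 + 16 * Sb ≤ M := by linarith
  have hM0 : 0 < M := by linarith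
  have hMle : 1 ≤ M := by linarith
  obtain ⟨X, hX⟩ : ∃ X : ℕ → ℝ, X = fun k => δ / M / M ^ k := ⟨_, rfl⟩
  have hX0 : ∀ k, 0 < X k := fun k => by rw [hX]; positivity
  have hXs : ∀ k, X (k + 1) * M = X k := fun k => by
    rw [hX]
    show δ / M / M ^ (k + 1) * M = δ / M / M ^ k
    rw [pow_succ]
    field_simp
  have hXm : ∀ k, X (k + 1) ≤ X k := fun k => by
    rw [← hXs k]
    exact le_mul_of_one_le_right (hX0 _).le hMle
  have hXa : ∀ l k, l ≤ k → X k ≤ X l := fun l k h => antitone_nat_of_succ_le hXm h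
  have hXl : ∀ l k, l < k → X k * M ≤ X l := by
    intro l k h
    have h1 := hXs l
    have h2 := mul_le_mul_of_nonneg_right (hXa (l + 1) k h) hM0.le
    linarith
  have hX00 : ∀ k, X k * M ≤ δ := by
    intro k
    have h1 : X 0 * M = δ := by
      rw [hX]
      show δ / M / M ^ 0 * M = δ
      rw [pow_zero]
      field_simp
    have h2 := mul_le_mul_of_nonneg_right (hXa 0 k (Nat.zero_le k)) hM0.le
    linarith
  have hXδ : ∀ k, 4 * X k ≤ δ := fun k => by
    have h1 := hX00 k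
    have h2 : 4 * X k ≤ X k * M := by nlinarith [hX0 k]
    linarith
  obtain ⟨U, hU⟩ : ∃ U : ℕ → ℝ, U = fun k => 2 * X k / δ := ⟨_, rfl⟩
  have hU0 : ∀ k, 0 < U k := fun k => by
    have := hX0 k
    rw [hU]
    positivity
  have hUδ : ∀ k, δ * U k = 2 * X k := fun k => by
    rw [hU]
    show δ * (2 * X k / δ) = _
    field_simp
  have hUX : ∀ k, 2 * X k ≤ U k := fun k => by
    rw [← hUδ k]
    have h1 := mul_le_mul_of_nonneg_right hδ1 (hU0 k).le
    linarith
  have hUM : ∀ k, U k * M ≤ 2 := fun k => by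
    have h1 := hX00 k
    have h2 : δ * (U k * M) ≤ δ * 2 := by
      rw [← mul_assoc, hUδ]
      linarith
    exact le_of_mul_le_mul_left h2 hδ0
  have hUS : ∀ k, Sb * U k ≤ 1 / 8 := fun k => by
    have h1 := hUM k
    have h2 := mul_le_mul_of_nonneg_left hM16 (hU0 k).le
    have h3 := hU0 k
    linarith
  have hU2 : ∀ k, U k ≤ 1 / 2 := fun k => by
    have h1 := hUS k
    have h2 := mul_le_mul_of_nonneg_right hSb (hU0 k).le
    linarith
  -- the sum with the constant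
  have hXM : ∀ k, X k + A * (Sb * U k) ≤ X k * M / 4 := fun k => by
    have e1 : X k * M / 4 = X k + A * (Sb * (2 * X k / δ)) := by
      rw [hM]
      ring
    rw [e1, hU]
  obtain ⟨h₀, hh₀⟩ : ∃ h₀ : ℝ, h₀ = X r / 2 := ⟨_, rfl⟩
  have hXr := hX0 r
  refine ⟨h₀, U, by rw [hh₀]; linarith, fun k => ⟨hU0 k, hU2 k⟩, fun m S₀ hS₀ => ?_⟩
  obtain ⟨D, C, hC, hnum⟩ := evT_num m r S₀ hr hS₀
  refine ⟨D, fun τ₀ hτ₀ => ?_⟩
  obtain ⟨y, hy⟩ : ∃ y : ℝ, y = min (X r / (8 * (C + A))) (τ₀ / (2 * C)) := ⟨_, rfl⟩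
  have hC0 : 0 < C := by linarith
  have hCA : 0 < C + A := by linarith
  have hy0 : 0 < y := by rw [hy]; exact lt_min (by positivity) (by positivity)
  have hyX : (C + A) * y ≤ X r / 8 := by
    have h1 : y ≤ X r / (8 * (C + A)) := by rw [hy]; exact min_le_left _ _
    rw [le_div_iff₀ (by positivity)] at h1
    linarith
  have hyτ : 2 * (C * y) ≤ τ₀ := by
    have h1 : y ≤ τ₀ / (2 * C) := by rw [hy]; exact min_le_right _ _
    rw [le_div_iff₀ (by positivity)] at h1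
    linarith
  have hCy : y ≤ C * y := le_mul_of_one_le_left hy0.le hC
  have hAy : 2 * y ≤ A * y := mul_le_mul_of_nonneg_right hA2 hy0.le
  obtain ⟨ε₀, hε₀⟩ : ∃ ε₀ : ℝ, ε₀ = y / (2 * (C + A)) := ⟨_, rfl⟩
  have hε0 : 0 < ε₀ := by rw [hε₀]; positivity
  have hεy : 2 * (C + A) * ε₀ = y := by
    rw [hε₀]
    field_simp
  have hCε0 : ε₀ ≤ C * ε₀ := le_mul_of_one_le_left hε0.le hC
  have hAε0 : 2 * ε₀ ≤ A * ε₀ := mul_le_mul_of_nonneg_right hA2 hε0.le
  have hAε1 : (r + 1) * ε₀ = A * ε₀ - ε₀ := by rw [hA]; ring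
  have hASU : ∀ k, (r + 1) * (Sb * U k) = A * (Sb * U k) - Sb * U k := fun k => by rw [hA]; ring
  refine ⟨ε₀, hε0, ?_⟩
  intro S P θ c Pt ct i w q Eb e Sl hi hP hθ hS hinj hPt hq hqw hW hWk he hSl hct hSi hgain
  have hq0 := hq.le
  have hmq : ∀ {s t : ℝ}, s ≤ t → s * q ≤ t * q := fun h => mul_le_mul_of_nonneg_right h hq0
  have hXi : X r ≤ X i := hXa i r hi
  have hXk : ∀ k ≤ i, X r ≤ X k := fun k hk => hXa k r (hk.trans hi)
  have hX1 : X r ≤ 1 / 4 := by linarith [hXδ r]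
  have hev := hnum (i := i) (w := w) (q := q) (Eb := Eb) (e := e) (ε := ε₀ * q) (η := y * q)
    (τ := τ₀ * q) (u := fun k => U k * q) (sb := fun k => (Sb * U k + ε₀) * q)
    (lm := fun _ => 2 * ε₀ * q) (x := fun k => X k * q) (xf := fun k => X k / 2 * q) (ct := ct) hi
    hP hθ hS hinj hPt hW hWk (by
      have h1 : C * ε₀ * q < y * q := mul_lt_mul_of_pos_right (by linarith) hq
      linarith) (by
      have h1 : y ≤ 1 := by linarith
      have h2 := hmq h1
      linarith) (by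
      have h1 : 2 * y ≤ τ₀ := by linarith
      have h2 := hmq h1
      linarith) (by
      have h1 : C * y ≤ τ₀ := by linarith
      have h2 := hmq h1
      linarith) ?_
  · exact evT_mono_p hev (by
      have h1 : h₀ ≤ X i / 2 := by rw [hh₀]; linarith
      have h2 := hmq h1
      linarith)
  · have hcS : ∀ k, Rel ct i k → k ≤ i → 1 + δ ≤ Sl k := by
      intro k hk hki
      rcases hk with h | h
      · rw [h]
        linarith
      · rcases Nat.lt_or_ge k i with h1 | h1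
        · have := (hct k h1 h.1).1
          linarith
        · have : k = i := by omega
          rw [this]
          linarith
    have hd : ∀ l ≤ i, ∀ k ≤ i, lvN P c r Pt l w w + (Sl l * U k - ε₀) * q ≤
        lvN P c r Pt l (w + U k * q) (w + U k * q) ∧
        lvN P c r Pt l (w + U k * q) (w + U k * q) ≤
          lvN P c r Pt l w w + (Sl l * U k + ε₀) * q := by
      intro l hl k hk
      have h1 := abs_le.1 ((hSl l hl).2.2 k hk)
      constructor <;> linarith [h1.1, h1.2]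
    have ht : ∀ l < i, ct l → lvN P c r Pt l w w + (Sl l - ε₀) * q ≤
        lvN P c r Pt l (w + q) w ∧ lvN P c r Pt l (w + q) w ≤
          lvN P c r Pt l w w + (Sl l + ε₀) * q := by
      intro l hl hcl
      have h1 := abs_le.1 (hct l hl hcl).2.1
      constructor <;> linarith [h1.1, h1.2]
    have htk : ∀ l < i, ct l → ∀ k ≤ i, lvN P c r Pt l w w + (Sl l - ε₀) * q ≤
        lvN P c r Pt l (w + q) (w + U k * q) ∧ lvN P c r Pt l (w + q) (w + U k * q) ≤
          lvN P c r Pt l w w + (Sl l + ε₀) * q := by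
      intro l hl hcl k hk
      have h1 := abs_le.1 ((hct l hl hcl).2.2 k hk)
      constructor <;> linarith [h1.1, h1.2]
    have hSU : ∀ l ≤ i, ∀ k, U k ≤ Sl l * U k ∧ Sl l * U k ≤ Sb * U k := fun l hl k =>
      ⟨le_mul_of_one_le_left (hU0 k).le (hSl l hl).1,
        mul_le_mul_of_nonneg_right (hSl l hl).2.1 (hU0 k).le⟩
    have hε2 : 2 * ε₀ ≤ y := by linarith
    refine ⟨fun k hk => ⟨mul_nonneg (hU0 k).le hq0, mul_nonneg (by
      have := mul_nonneg (show 0 ≤ Sb by linarith) (hU0 k).le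
      linarith) hq0, by positivity⟩, fun k hk _ l hl => ?_, fun k hk _ l hl => ⟨?_, ?_⟩,
      fun k hk hrk => ⟨?_, ?_⟩, fun k hk _ l hl hcl => ⟨?_, ?_, ?_⟩,
      fun k hk _ j l hjl hl hcj hcl => ?_, fun k hk hrk => ?_, fun k hk hrk => ⟨?_, ?_⟩, ?_⟩
    · have h1 := (hd l (by omega) k hk).1
      have h2 := (hSU l (by omega) k).1
      have h3 := hmq (show y ≤ Sl l * U k - ε₀ by linarith [hUX k, hXk k hk])
      linarith
    · have h1 := (hd l (by omega) k hk).2
      have h2 := hmq (show Sl l * U k + ε₀ ≤ Sb * U k + ε₀ by linarith [(hSU l (by omega) k).2])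
      linarith
    · have h1 := (hd l (by omega) k hk).2
      have h2 := hmq (show Sl l * U k + ε₀ + 2 * y ≤ 1 by
        linarith [(hSU l (by omega) k).2, hUS k])
      linarith
    · have h1 := hmq (show 2 * y ≤ X k by linarith [hXk k hk])
      linarith
    · have h1 := (hd k hk k hk).1
      have h2 : δ * U k ≤ (Sl k - 1) * U k :=
        mul_le_mul_of_nonneg_right (by linarith [hcS k hrk hk]) (hU0 k).le
      rw [hUδ] at h2
      have h3 := hmq (show X k + U k + 2 * y ≤ Sl k * U k - ε₀ by linarith [hXk k hk])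
      linarith
    · have h1 := (hd l (by omega) k hk).2
      have h2 := (htk l (by omega) hcl k hk).1
      have h3 := (hct l (by omega) hcl).1
      have h4 := hXM k
      have h5 := hX00 k
      have h6 := hmq (show Sl l * U k + ε₀ + 1 + X k + ((r + 1) * (Sb * U k + ε₀) + C * y) ≤
        Sl l - ε₀ by
          linarith [(hSU l (by omega) k).2, hXδ r, hASU k])
      linarith
    · have h1 := (ht l (by omega) hcl).2
      have h2 := (htk l (by omega) hcl k hk).1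
      have h3 := hmq hε2
      linarith
    · have h1 := (ht l (by omega) hcl).1
      have h2 := (htk l (by omega) hcl k hk).2
      linarith
    · have h1 := (hd l (by omega) k hk).2
      have h4 := hXM k
      have h5 := hXl l k hl
      have h6 := hmq (show Sl l * U k + ε₀ + X k + ((r + 1) * (Sb * U k + ε₀) + C * y) ≤
        X l / 2 by
          linarith [(hSU l (by omega) k).2, hXk l (by omega), hASU k])
      linarith
    · have hck : ct k := by
        rcases hrk with h | h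
        · omega
        · exact h.1
      have h1 := (ht k hk hck).1
      have h3 := (hct k hk hck).1
      have h6 := hmq (show 1 + X k + y ≤ Sl k - ε₀ by linarith [hXδ k, hXδ r])
      linarith
    · have := hX0 k
      positivity
    · have h6 := hmq (show X k / 2 + C * (y + 2 * ε₀) ≤ X k by linarith [hXk k hk])
      linarith
    · have h6 := hmq (show X i + y ≤ δ by linarith [hXδ i, hXδ r])
      have h7 := hmq hδδ
      linarith

end Pool.VFD
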