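import Pool.Agent.H95.GN.Fit
import Pool.Agent.H2.GEN.EvS

/-!
# The label with gain over a re-centred ball, in a class with contact coordinates

`EvT` (the same words as `Pool.TRM.EvT`): charts of the ball at the window `w`, re-centred at three
radii, and a label of the coordinate `c i` with the precision `p` over the re-centred ball of the
radius `a`, with natural increments. `evT_num`: it follows from the charts at the windows `w` and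
`w + u k`, from the numbers `Nmb`.
-/

set_option autoImplicit false

namespace Pool.VFD

open Finset Real MvPolynomial
open Pool.Agent.H49.Ent Pool.Agent.H32.Dense Pool.STK Pool.KA Pool.KSAT Pool.K2S Pool.PB Pool.S6C
open Pool.GEN Pool.CHT Pool.ISO
open Pool.LBT (LSys Slo Tri ThrOf)
open Pool.LEV (Law)

variable {m : ℕ}

/-- **The event with a fixed loss**: re-centred charts of the ball of the window `w` at the radii
`w + y k`, and a label with the precision `p` over the one with the radius `a`, with natural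
increments. -/
def EvT (S : PCl m) (c : ℕ → Fin m) (i D : ℕ) (w a p e τ : ℝ) (Dl : ℕ → ℝ) : Prop :=
  ∃ (K₁ μ : ℝ) (b : ℕ → ℝ), 0 < K₁ ∧ 0 < μ ∧ (∀ l ≤ i, Dl l - τ < b l ∧ b l < Dl l - μ) ∧
    Bas S (fun J F A => ∀ y : ℕ → ℕ, y 2 = ⌊a * J⌋₊ - ⌊w * J⌋₊ →
      (∀ k ≤ 2, τ * J ≤ y k ∧ y k ≤ y 2) →
      ∃ (B : F.Ω → Prop) (g₀ : ℕ → ℕ) (G₀ : PtT F → ℕ → MvPolynomial (Option (Fin m)) ℝ)
        (H₀ : LnT F → ℕ → MvPolynomial (Option (Fin m)) ℝ)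
        (Gt : PtT F → MvPolynomial (Option (Fin m)) ℝ)
        (Ht : LnT F → MvPolynomial (Option (Fin m)) ℝ), Sub B A ∧
        Pe F.p A ≤ K₁ * Pe F.p B ∧
        (∀ l ≤ i, (Dl l - τ) * J ≤ g₀ l ∧ (g₀ l : ℝ) ≤ Dl l * J) ∧
        ChOK F c (i + 1) (fun _ => D) ⌊w * J⌋₊ ⌊w * J⌋₊ ⌊e * J⌋₊ g₀ B G₀ H₀ ∧
        (∀ k ≤ 2, ChOK F c (i + 1) (fun _ => D) (⌊w * J⌋₊ + y k) ⌊w * J⌋₊ ⌊e * J⌋₊
          (fun l => ⌊b l * J⌋₊ + y k) B (fun y l => Gno (c l) J J (fun y => G₀ y l) y)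
          (fun s l => Hno (c l) (fun s => H₀ s l) s)) ∧
        (∀ y, (Gt y).totalDegree ≤ D) ∧ (∀ s, (Ht s).totalDegree ≤ D) ∧
        (∀ y, DepC c i (Gt y)) ∧ (∀ s, DepC c i (Ht s)) ∧
        (∀ ω, B ω → |F.x ω (c i) - eval (bt F ω) (Gt (ptr F J ω))| ≤ 1 / 2 ^ ⌊p * J⌋₊) ∧
        (∀ ω, B ω → ∀ b', NBx c (fun l => Gno (c l) J J (fun y => G₀ y l) (ptr F J ω))
          (fun l => ⌊b l * J⌋₊ + y 2) (⌊w * J⌋₊ + y 2) (F.t ω) i b' →
          |eval b' (Gt (ptr F J ω)) - eval b' (Ht (slam F ⌊w * J⌋₊ ω))| ≤ 1 / 2 ^ ⌊p * J⌋₊) ∧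
        (∀ ω, B ω → ∀ b', NBx c (fun l => Gno (c l) J J (fun y => G₀ y l) (ptr F J ω))
          (fun l => ⌊b l * J⌋₊ + y 2) (⌊w * J⌋₊ + y 2) (F.t ω) i b' →
          |eval b' (Gt (ptr F J ω)) - eval b' (Gno (c i) J J (fun y => G₀ y i) (ptr F J ω))| ≤
            2 ^ ⌊τ * J⌋₊ / 2 ^ (⌊b i * J⌋₊ + y 2)))


/-- **The charts at three windows**, from the events of two windows. -/
theorem cf_of_evs {J : ℕ} {F : Fam m J} {c : ℕ → Fin m} {ct : ℕ → Prop}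
    {r k D Dr A w' o v v' M M' e h : ℕ} {z z' : ℕ → ℕ} {p p' : ℕ} {R : ℕ → Prop}
    {g gc gT g₀ g' gc' gT' g₀' : ℕ → ℕ} {κ : ℝ} {B : F.Ω → Prop}
    {G₀ T G₀' T' : PtT F → ℕ → MvPolynomial (Option (Fin m)) ℝ}
    {H₀ TH H₀' TH' : LnT F → ℕ → MvPolynomial (Option (Fin m)) ℝ}
    {Gt Gt' : PtT F → MvPolynomial (Option (Fin m)) ℝ}
    {Ht Ht' : LnT F → MvPolynomial (Option (Fin m)) ℝ} (hk : k ≤ r)
    (hc : Set.InjOn c (Set.Iio (r + 1))) (hD : D ≤ Dr) (hwo : w' ≤ o) (hoJ : o ≤ J)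
    (hA : w' + v = A) (hA' : o + v' = A) (hR : ∀ l < k, ¬ ct l → R l)
    (H : EvS F c r D Dr w' v M z e h p R g gc gT g₀ κ B G₀ H₀ T TH Gt Ht)
    (H' : EvS F c r D Dr o v' M' z' e h p' R g' gc' gT' g₀' κ B G₀' H₀' T' TH' Gt' Ht') :
    Cf F c ct k D Dr A w' o e h κ gT gT' g₀' g₀ gc gc' B G₀
      (fun y l => Gno (c l) J J (fun y => G₀ y l) y) T G₀'
      (fun y l => Gno (c l) J J (fun y => G₀' y l) y) T' H₀
      (fun s l => Hno (c l) (fun s => H₀ s l) s) TH H₀'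
      (fun s l => Hno (c l) (fun s => H₀' s l) s) TH' := by
  subst hA
  have hc' : Set.InjOn c (Set.Iio r) := hc.mono fun x hx => lt_trans hx (Nat.lt_succ_self r)
  have hGn : ∀ (k : Fin m) (P : PtT F → MvPolynomial (Option (Fin m)) ℝ) (y : PtT F),
      DepC c 0 (Gno k J J P y - P y) := by
    intro k P y b b' _ _
    unfold Gno
    simp only [map_sub, map_add, eval_C]
    ring
  have ht := H'.thin
  have ht2 := H'.top
  rw [hA'] at ht ht2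
  refine {
    inj := hc.mono fun x (hx : x < k) => (show x < r + 1 by omega)
    deg := hD
    wo := hwo
    oJ := hoJ
    phi := H.ball.mono (by omega) (fun _ => le_rfl) le_rfl le_rfl
    clo := fun ω hω l hl => H.cls ω hω l (by omega)
    gam := H.top.mono (by omega) (fun _ => le_rfl) le_rfl le_rfl
    gmt := fun ω _ l _ => hGn _ _ _
    thn := H.thin.mono hk (fun _ => le_rfl) le_rfl le_rfl
    thr := fun ω _ l hl hct => (H.rgh l (by omega) (hR l hl hct)).2.1 _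
    grr := fun l hl hct => (H.rgh l (by omega) (hR l hl hct)).1
    rv := relvF_pre H.relt hc' H.thin.depG hk
    bal := H'.ball.mono (by omega) (fun _ => le_rfl) le_rfl le_rfl
    rvB := relvF_pre H'.relb hc' H'.ball.depG hk
    gm₁ := ht2.mono (by omega) (fun _ => le_rfl) le_rfl le_rfl
    gmt₁ := fun ω _ l _ => hGn _ _ _
    th₁ := ht.mono hk (fun _ => le_rfl) le_rfl le_rfl
    thr₁ := fun ω _ l hl hct => ?_
    rv₁ := ?_ }
  · rw [(H'.rgh l (by omega) (hR l hl hct)).2.1]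
    exact hGn _ _ _
  · have h1 := relvF_pre H'.relt hc' H'.thin.depG hk
    rw [hA'] at h1
    exact h1

/-- The relevant targets. -/
def Rel (ct : ℕ → Prop) (i k : ℕ) : Prop := k = i ∨ (ct k ∧ ∃ j, j < k ∧ ct j)

/-- **The numbers.** `u k`: the shift of the window of the target `k`; `x k`: the gain of its
label, `xf k`: the gain of its fat label; `sb k`, `lm k`: bounds of the increments. -/
structure Nmb (P : List (Fin m) × Fin m → ℝ → ℝ → ℝ) (c : ℕ → Fin m) (r : ℕ)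
    (Pt : ℝ → ℝ → ℝ) (ct : ℕ → Prop) (i : ℕ) (w q C η : ℝ) (u sb lm x xf : ℕ → ℝ) : Prop where
  a0 : ∀ k ≤ i, 0 ≤ u k ∧ 0 ≤ sb k ∧ 0 ≤ lm k
  a1 : ∀ k ≤ i, Rel ct i k → ∀ l ≤ k, lvN P c r Pt l w w + η ≤ lvN P c r Pt l (w + u k) (w + u k)
  a2 : ∀ k ≤ i, Rel ct i k → ∀ l < k,
    lvN P c r Pt l (w + u k) (w + u k) ≤ lvN P c r Pt l w w + sb k ∧
    lvN P c r Pt l (w + u k) (w + u k) + 2 * η ≤ lvN P c r Pt l w w + q
  a3 : ∀ k ≤ i, Rel ct i k → 2 * η ≤ x k ∧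
    lvN P c r Pt k w w + x k + u k + 2 * η ≤ lvN P c r Pt k (w + u k) (w + u k)
  a4 : ∀ k ≤ i, Rel ct i k → ∀ l < k, ct l →
    lvN P c r Pt l (w + u k) (w + u k) + q + x k + ((r + 1) * sb k + C * η) ≤
      lvN P c r Pt l (w + q) (w + u k) ∧
    lvN P c r Pt l (w + q) w ≤ lvN P c r Pt l (w + q) (w + u k) + η ∧
    lvN P c r Pt l (w + q) (w + u k) ≤ lvN P c r Pt l (w + q) w + lm k
  a5 : ∀ k ≤ i, Rel ct i k → ∀ j l, j < l → l < k → ct j → ct l →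
    lvN P c r Pt l (w + u k) (w + u k) + x k + ((r + 1) * sb k + C * η) ≤
      lvN P c r Pt l w w + xf l
  a6 : ∀ k < i, Rel ct i k → lvN P c r Pt k w w + q + x k + η ≤ lvN P c r Pt k (w + q) w
  a7 : ∀ k ≤ i, Rel ct i k → 0 ≤ xf k ∧ xf k + C * (η + lm k) ≤ x k
  a9 : lvN P c r Pt i w w + q + x i + η ≤ lvN P c r Pt i (w + q) w

/-- **The event `EvT` from the numbers.** -/
theorem evT_num (m r S₀ : ℕ) (hr : 1 ≤ r) (hS₀ : 1 ≤ S₀) : ∃ (D : ℕ) (C : ℝ), 1 ≤ C ∧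
    ∀ {S : PCl m} {P : List (Fin m) × Fin m → ℝ → ℝ → ℝ} {θ : ℝ} {c : ℕ → Fin m}
    {Pt : ℝ → ℝ → ℝ} {ct : ℕ → Prop} {i : ℕ} {w q Eb e ε η τ : ℝ} {u sb lm x xf : ℕ → ℝ},
    i ≤ r → ThrOf (chsys m θ) S P → 0 < θ → TmH S → Set.InjOn c (Set.Iio (r + 1)) → Law Pt →
    WinD S P θ c r Pt (w + q) w S₀ Eb ε (fun l => l < i ∧ ¬ ct l) →
    (∀ k ≤ i, WinD S P θ c r Pt (w + q) (w + u k) S₀ Eb ε (fun l => l < i ∧ ¬ ct l)) →
    C * ε < η → η ≤ w → Eb + 2 * η ≤ e → C * η ≤ τ →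
    Nmb P c r Pt ct i w q C η u sb lm x xf →
    EvT S c i D w (w + q) (lvN P c r Pt i w w + q + xf i) e τ (fun l => lvN P c r Pt l w w) := by
  obtain ⟨D₁, hD₁, hcon⟩ := ev_con m r S₀ hr hS₀
  obtain ⟨Kf, D, hDD, hfat⟩ := fat_iter D₁ (r + 1) hD₁
  obtain ⟨C₁, hC₁, hcon⟩ := hcon ((r + 1 + 1) * D)
  have hKf0 : (0 : ℝ) ≤ Kf := Nat.cast_nonneg _
  have hr0 : (0 : ℝ) ≤ r := Nat.cast_nonneg _
  refine ⟨D, C₁ + 4 * Kf + 2 * r + 8, by linarith, ?_⟩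
  intro S P θ c Pt ct i w q Eb e ε η τ u sb lm x xf hi hP hθ hS hinj hPt hwW hkW hCε hηw hEe
    hητ hN
  have hε0 : 0 ≤ ε := hwW.ε0
  have hC1ε : C₁ * ε < η := by
    have h1 : 0 ≤ (4 * (Kf : ℝ) + 2 * r + 8) * ε := by positivity
    linarith
  have hη0 : 0 < η := by
    have h1 : 0 ≤ C₁ * ε := by positivity
    linarith
  obtain ⟨C, hC⟩ : ∃ C : ℝ, C = C₁ + 4 * Kf + 2 * r + 8 := ⟨_, rfl⟩
  rw [← hC] at hητ hN
  have hC8 : 4 * (Kf : ℝ) + 2 * r + 9 ≤ C := by rw [hC]; linarith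
  obtain ⟨R, hR⟩ : ∃ R : ℕ → Prop, R = fun l => l < i ∧ ¬ ct l := ⟨_, rfl⟩
  rw [← hR] at hwW hkW
  have hw0 : 0 < w := by linarith
  have hlowP : ∀ w', WinD S P θ c r Pt (w + q) w' S₀ Eb ε R → w + q ≤ Pt (w + q) w' := by
    intro w' h
    obtain ⟨ρ, vs, e, e₀, E, sg, Q, d1, -⟩ := h.da
    have h1 := d1.low hP r
    rwa [show lvN P c r Pt r (w + q) w' = Pt (w + q) w' from if_neg (lt_irrefl r)] at h1
  have hq0 : 0 < q := by linarith [hwW.lt]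
  have hlow : ∀ l, w ≤ lvN P c r Pt l w w := by
    intro l
    obtain ⟨ρ, vs, e, e₀, E, sg, Q, d1, -⟩ := hwW.dw
    exact d1.low hP l
  have hwq1 : w + q < 1 := by
    obtain ⟨ρ, vs, e, e₀, E, sg, Q, d1, -⟩ := hwW.da
    exact d1.a1
  -- the windows
  obtain ⟨o, ho0, hos⟩ : ∃ o : ℕ → ℝ, o 0 = w ∧ ∀ k, o (k + 1) = w + u k :=
    ⟨fun k => Nat.casesOn k w (fun j => w + u j), rfl, fun _ => rfl⟩
  have hWin : ∀ k ≤ i + 1, WinD S P θ c r Pt (w + q) (o k) S₀ Eb ε R := by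
    intro k hk
    rcases k with _ | k
    · rw [ho0]
      exact hwW
    · rw [hos]
      exact hkW k (by omega)
  have how : ∀ k ≤ i + 1, w ≤ o k := by
    intro k hk
    rcases k with _ | k
    · rw [ho0]
    · rw [hos]
      linarith [(hN.a0 k (by omega)).1]
  obtain ⟨P₁, hP₁⟩ : ∃ P₁ : ℝ, P₁ = lvN P c r Pt i w w + q + x i := ⟨_, rfl⟩
  have hxi : 2 * η ≤ x i := (hN.a3 i le_rfl (Or.inl rfl)).1
  have hP₁0 : 0 ≤ P₁ := by
    rw [hP₁]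
    linarith [hlow i]
  obtain ⟨p', hp0, hps⟩ : ∃ p' : ℕ → ℝ, p' 0 = (if i = r then P₁ else 0) ∧ ∀ k, p' (k + 1) = 0 :=
    ⟨fun k => Nat.casesOn k (if i = r then P₁ else 0) (fun _ => 0), rfl, fun _ => rfl⟩
  have hp' : ∀ k ≤ i + 1, 0 ≤ p' k ∧ p' k + C₁ * ε < Pt (w + q) (o k) := by
    intro k hk
    have h1 := hlowP _ (hWin k hk)
    rcases k with _ | k
    · rw [hp0]
      split_ifs with h2
      · refine ⟨hP₁0, ?_⟩
        have h3 := hN.a9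
        rw [h2, show lvN P c r Pt r (w + q) w = Pt (w + q) w from if_neg (lt_irrefl r)] at h3
        rw [ho0, hP₁, h2]
        linarith
      · exact ⟨le_rfl, by linarith⟩
    · rw [hps]
      exact ⟨le_rfl, by linarith⟩
  obtain ⟨r₀, hr0', hrs⟩ : ∃ r₀ : ℕ → ℝ, r₀ 0 = τ ∧ ∀ k, r₀ (k + 1) = (q - u k) / 2 :=
    ⟨fun k => Nat.casesOn k τ (fun j => (q - u j) / 2), rfl, fun _ => rfl⟩
  have hτ0 : η ≤ τ := by nlinarith
  have huq : ∀ k ≤ i, 0 < (q - u k) / 2 := fun k hk => by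
    have := (hkW k hk).lt
    linarith
  obtain ⟨K₁, μ, b, hK₁, hb, hbas⟩ := hcon (R := R) (a := w + q) (Eb := Eb) (o := o)
    (ε := fun _ => ε) (p' := p') (η := fun _ => η) (σ := fun _ => η) (r₀ := r₀) (i + 1) 2 hP hθ hS
    hinj hPt hWin (fun k hk => ⟨by linarith [how k hk], hC1ε⟩) hp' (fun k hk => ⟨hη0, by
      rcases k with _ | k
      · rw [hr0']
        linarith
      · rw [hrs]
        exact huq k (by omega)⟩)
  obtain ⟨Nn, hNn⟩ : ∃ Nn : ℕ, Nn = (r + 1 + 1) * (9 * (r + 1) + 4) := ⟨_, rfl⟩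
  have hb0 := hb 0 (Nat.zero_le _)
  rw [ho0] at hb0
  obtain ⟨μ₂, hμ₂, hμ₂l⟩ := fin_pos (i + 1) (f := fun k => (q - u k) / 2)
    fun k hk => huq k (by omega)
  obtain ⟨J₁, hJ₁⟩ := Pool.CHT.big (4 : ℝ) hη0
  obtain ⟨J₂, hJ₂⟩ := Pool.CHT.big (1 : ℝ) hμ₂
  refine ⟨K₁ * 2 ^ Nn, μ 0, b 0, by positivity, hb0.1, fun l hl =>
    ⟨by linarith [(hb0.2 l (by omega)).1], (hb0.2 l (by omega)).2⟩, ?_⟩
  refine Bas.mono (max J₁ J₂) (hbas (1 / 2 ^ Nn) (by positivity)) ?_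
  rintro J hJ F A hA y hy2 hy
  have hJ1 : 4 ≤ η * J := hJ₁ J (by omega)
  have hJ2 : 1 ≤ μ₂ * J := hJ₂ J (by omega)
  have hJ0 : (0 : ℝ) ≤ J := Nat.cast_nonneg J
  have hmJ : ∀ {s t : ℝ}, s ≤ t → s * J ≤ t * J := fun h => mul_le_mul_of_nonneg_right h hJ0
  have fl : ∀ {s : ℝ}, 0 ≤ s → ((⌊s * J⌋₊ : ℕ) : ℝ) ≤ s * J ∧ s * J - 1 ≤ (⌊s * J⌋₊ : ℕ) :=
    fun hs => ⟨Nat.floor_le (mul_nonneg hs hJ0), (Nat.sub_one_lt_floor _).le⟩
  -- the radii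
  have hO : ∀ k ≤ i, ⌊w * J⌋₊ ≤ ⌊(w + u k) * J⌋₊ ∧ ⌊(w + u k) * J⌋₊ ≤ ⌊(w + q) * J⌋₊ ∧
      ⌊(w + u k) * J⌋₊ ≤ J := by
    intro k hk
    have h1 := (hN.a0 k hk).1
    have h2 := huq k hk
    refine ⟨Nat.floor_le_floor (hmJ (by linarith)), Nat.floor_le_floor (hmJ (by linarith)), ?_⟩
    have h3 := (fl (show 0 ≤ w + u k by linarith)).1
    have h4 := hmJ (show w + u k ≤ 1 by linarith)
    rw [one_mul] at h4
    exact_mod_cast h3.trans h4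
  have hWA : ⌊w * J⌋₊ ≤ ⌊(w + q) * J⌋₊ := Nat.floor_le_floor (hmJ (by linarith))
  obtain ⟨z, hz0, hzs⟩ : ∃ z : ℕ → ℕ → ℕ, z 0 = y ∧
      ∀ k, z (k + 1) = fun _ => ⌊(w + q) * J⌋₊ - ⌊(w + u k) * J⌋₊ :=
    ⟨fun k => Nat.casesOn k y (fun j => fun _ => ⌊(w + q) * J⌋₊ - ⌊(w + u j) * J⌋₊), rfl,
      fun _ => rfl⟩
  obtain ⟨B, hBA, hPB, hX⟩ := hA z (by
    intro k hk j hj
    rcases k with _ | k
    · rw [hz0, hr0', ho0, ← hy2]
      exact hy j hj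
    · have hki : k ≤ i := by omega
      rw [hzs, hrs, hos]
      refine ⟨?_, le_rfl⟩
      rw [Nat.cast_sub (hO k hki).2.1]
      have h1 := (fl (show 0 ≤ w + q by linarith)).2
      have h2 := (fl (show 0 ≤ w + u k by linarith [(hN.a0 k hki).1])).1
      have h3 := hmJ (hμ₂l k (by omega))
      linarith only [h1, h2, h3, hJ2])
  have hX0 : ∃ (gc gT g₀ : ℕ → ℕ)
      (G₀ : PtT F → ℕ → MvPolynomial (Option (Fin m)) ℝ)
      (H₀ : LnT F → ℕ → MvPolynomial (Option (Fin m)) ℝ)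
      (T : PtT F → ℕ → MvPolynomial (Option (Fin m)) ℝ)
      (TH : LnT F → ℕ → MvPolynomial (Option (Fin m)) ℝ)
      (Gt : PtT F → MvPolynomial (Option (Fin m)) ℝ)
      (Ht : LnT F → MvPolynomial (Option (Fin m)) ℝ),
      Sds r J (⌊(w + q) * J⌋₊ - ⌊w * J⌋₊) R
        (fun l => lvN P c r Pt l w w) (fun l => bet P c l (w + q) w) η ε η gc gT g₀ ∧
      EvS F c r D₁ ((r + 1 + 1) * D) ⌊w * J⌋₊ (⌊(w + q) * J⌋₊ - ⌊w * J⌋₊) 2 y
        ⌊(Eb + η + η) * J⌋₊ ⌊η * J⌋₊ ⌊p' 0 * J⌋₊ R (fun l => ⌊b 0 l * J⌋₊) gc gT g₀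
        (1 / 2 ^ Nn) B G₀ H₀ T TH Gt Ht := by
    have h1 := hX 0 (Nat.zero_le _)
    rw [ho0, hz0] at h1
    exact h1
  obtain ⟨gc, gT, g₀, G₀, H₀, T, TH, Gt, Ht, hS0, hE0⟩ := hX0
  have hX' : ∀ k ≤ i, ∃ (gc gT g₀ : ℕ → ℕ)
      (G₀ : PtT F → ℕ → MvPolynomial (Option (Fin m)) ℝ)
      (H₀ : LnT F → ℕ → MvPolynomial (Option (Fin m)) ℝ)
      (T : PtT F → ℕ → MvPolynomial (Option (Fin m)) ℝ)
      (TH : LnT F → ℕ → MvPolynomial (Option (Fin m)) ℝ)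
      (Gt : PtT F → MvPolynomial (Option (Fin m)) ℝ)
      (Ht : LnT F → MvPolynomial (Option (Fin m)) ℝ),
      Sds r J (⌊(w + q) * J⌋₊ - ⌊(w + u k) * J⌋₊) R
        (fun l => lvN P c r Pt l (w + u k) (w + u k)) (fun l => bet P c l (w + q) (w + u k)) η ε η
        gc gT g₀ ∧
      EvS F c r D₁ ((r + 1 + 1) * D) ⌊(w + u k) * J⌋₊ (⌊(w + q) * J⌋₊ - ⌊(w + u k) * J⌋₊) 2
        (z (k + 1)) ⌊(Eb + η + η) * J⌋₊ ⌊η * J⌋₊ ⌊p' (k + 1) * J⌋₊ R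
        (fun l => ⌊b (k + 1) l * J⌋₊) gc gT g₀ (1 / 2 ^ Nn) B G₀ H₀ T TH Gt Ht := by
    intro k hk
    have h1 := hX (k + 1) (by omega)
    rw [hos] at h1
    exact h1
  choose! gc₁ gT₁ gB Bc BH T₁ T₁H Gx Hx hSk hEk using hX'
  -- the natural numbers
  obtain ⟨W, hW⟩ : ∃ W : ℕ, W = ⌊w * J⌋₊ := ⟨_, rfl⟩
  obtain ⟨A', hA'⟩ : ∃ A' : ℕ, A' = ⌊(w + q) * J⌋₊ := ⟨_, rfl⟩
  obtain ⟨O, hOd⟩ : ∃ O : ℕ → ℕ, O = fun k => ⌊(w + u k) * J⌋₊ := ⟨_, rfl⟩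
  have hOk : ∀ k, ⌊(w + u k) * J⌋₊ = O k := fun k => by rw [hOd]
  simp only [← hW, ← hA', hOk] at hO hWA hy2 hS0 hE0 hSk hEk ⊢
  obtain ⟨hh, hhd⟩ : ∃ hh : ℕ, hh = ⌊3 * η * J⌋₊ := ⟨_, rfl⟩
  obtain ⟨pk, hpk⟩ : ∃ pk : ℕ → ℕ, pk = fun k => ⌊(lvN P c r Pt k w w + q + x k) * J⌋₊ := ⟨_, rfl⟩
  obtain ⟨pf, hpf⟩ : ∃ pf : ℕ → ℕ, pf = fun k => ⌊(lvN P c r Pt k w w + q + xf k) * J⌋₊ := ⟨_, rfl⟩
  obtain ⟨sN, hsN⟩ : ∃ sN : ℕ → ℕ, sN = fun k => ⌊(sb k + 2 * η) * J⌋₊ := ⟨_, rfl⟩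
  obtain ⟨lN, hlN⟩ : ∃ lN : ℕ → ℕ, lN = fun k => ⌊(lm k + 2 * η) * J⌋₊ := ⟨_, rfl⟩
  have hh1 : (hh : ℝ) ≤ 3 * (η * J) ∧ 3 * (η * J) - 1 ≤ hh := by
    rw [hhd]
    have h1 := fl (show 0 ≤ 3 * η by linarith)
    rw [mul_assoc] at h1
    rwa [mul_assoc]
  have hW1 := fl hw0.le
  rw [← hW] at hW1
  have hA1 := fl (show 0 ≤ w + q by linarith)
  rw [← hA'] at hA1
  have hO1 : ∀ k ≤ i, ((O k : ℕ) : ℝ) ≤ (w + u k) * J ∧ (w + u k) * J - 1 ≤ O k := by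
    intro k hk
    rw [← hOk]
    exact fl (by linarith [(hN.a0 k hk).1])
  have hrl : ∀ k ≤ i, Rel ct i k → 0 ≤ x k ∧ 0 ≤ xf k := fun k hk h => by
    have h1 := (hN.a3 k hk h).1
    exact ⟨by linarith, (hN.a7 k hk h).1⟩
  have hpk1 : ∀ k ≤ i, Rel ct i k → (pk k : ℝ) ≤ (lvN P c r Pt k w w + q + x k) * J ∧
      (lvN P c r Pt k w w + q + x k) * J - 1 ≤ pk k := by
    intro k hk h
    rw [hpk]
    exact fl (by linarith [hlow k, (hrl k hk h).1])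
  have hpf1 : ∀ k ≤ i, Rel ct i k → (pf k : ℝ) ≤ (lvN P c r Pt k w w + q + xf k) * J ∧
      (lvN P c r Pt k w w + q + xf k) * J - 1 ≤ pf k := by
    intro k hk h
    rw [hpf]
    exact fl (by linarith [hlow k, (hrl k hk h).2])
  have hsN1 : ∀ k ≤ i, (sN k : ℝ) ≤ (sb k + 2 * η) * J ∧ (sb k + 2 * η) * J - 1 ≤ sN k := by
    intro k hk
    rw [hsN]
    exact fl (by linarith [(hN.a0 k hk).2.1])
  have hlN1 : ∀ k ≤ i, (lN k : ℝ) ≤ (lm k + 2 * η) * J ∧ (lm k + 2 * η) * J - 1 ≤ lN k := by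
    intro k hk
    rw [hlN]
    exact fl (by linarith [(hN.a0 k hk).2.2])
  obtain ⟨v, hv⟩ : ∃ v : ℕ, v = A' - W := ⟨_, rfl⟩
  rw [← hv] at hy2 hS0 hE0
  have hv' : W + v = A' := by omega
  have hvR : (v : ℝ) = A' - W := by rw [hv, Nat.cast_sub hWA]
  have hvk : ∀ k ≤ i, (((A' - O k : ℕ)) : ℝ) = A' - O k := fun k hk =>
    Nat.cast_sub (hO k hk).2.1
  have hεJ : 0 ≤ ε * J := mul_nonneg hε0 hJ0
  have hlv : ∀ l < r, ∀ a w, lvN P c r Pt l a w = bet P c l a w := fun l hl a w => if_pos hl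
  have hnR : ∀ l, ct l → ¬ R l := fun l h h' => by
    rw [hR] at h'
    exact h'.2 h
  have g1 : ∀ l ≤ r, (lvN P c r Pt l w w - η) * J ≤ g₀ l ∧ (g₀ l : ℝ) ≤ lvN P c r Pt l w w * J :=
    fun l hl => ⟨hS0.b1 l hl, hS0.b2 l hl⟩
  have gc1 : ∀ l ≤ r, (lvN P c r Pt l w w - η) * J + v ≤ gc l ∧
      (gc l : ℝ) ≤ (lvN P c r Pt l w w - ε) * J + v := fun l hl => ⟨hS0.c1 l hl, hS0.c2 l hl⟩
  have gt1 : ∀ l < r, ct l → (lvN P c r Pt l (w + q) w - η) * J ≤ gT l ∧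
      (gT l : ℝ) ≤ (lvN P c r Pt l (w + q) w - ε) * J := by
    intro l hl hcl
    rw [hlv l hl]
    exact ⟨hS0.t1 l hl (hnR l hcl), hS0.t2 l hl (hnR l hcl)⟩
  have gB1 : ∀ k ≤ i, ∀ l ≤ r, (lvN P c r Pt l (w + u k) (w + u k) - η) * J ≤ gB k l ∧
      (gB k l : ℝ) ≤ lvN P c r Pt l (w + u k) (w + u k) * J :=
    fun k hk l hl => ⟨(hSk k hk).b1 l hl, (hSk k hk).b2 l hl⟩
  have gcc1 : ∀ k ≤ i, ∀ l ≤ r, (lvN P c r Pt l (w + u k) (w + u k) - η) * J + (A' - O k) ≤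
      gc₁ k l := by
    intro k hk l hl
    have h1 := (hSk k hk).c1 l hl
    rw [hvk k hk] at h1
    exact h1
  have gtt1 : ∀ k ≤ i, ∀ l < r, ct l →
      (lvN P c r Pt l (w + q) (w + u k) - η) * J ≤ gT₁ k l ∧
      (gT₁ k l : ℝ) ≤ (lvN P c r Pt l (w + q) (w + u k) - ε) * J := by
    intro k hk l hl hcl
    rw [hlv l hl]
    exact ⟨(hSk k hk).t1 l hl (hnR l hcl), (hSk k hk).t2 l hl (hnR l hcl)⟩
  have hDr : D₁ ≤ (r + 1 + 1) * D := by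
    have h1 : 1 * D ≤ (r + 1 + 1) * D := Nat.mul_le_mul_right _ (by omega)
    omega
  have hhη : ⌊η * J⌋₊ ≤ hh := by
    rw [hhd]
    exact Nat.floor_le_floor (hmJ (by linarith))
  have hcast : ∀ {s t : ℕ}, (s : ℝ) ≤ t → s ≤ t := fun h => by exact_mod_cast h
  -- one target
  have hstep : ∀ k ≤ i, Rel ct i k →
      Cf F c ct k D₁ ((r + 1 + 1) * D) A' W (O k) ⌊(Eb + η + η) * J⌋₊ hh (1 / 2 ^ Nn) gT (gT₁ k)
        (gB k) g₀ gc (gc₁ k) B G₀ (fun y l => Gno (c l) J J (fun y => G₀ y l) y) T (Bc k)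
        (fun y l => Gno (c l) J J (fun y => Bc k y l) y) (T₁ k) H₀
        (fun s l => Hno (c l) (fun s => H₀ s l) s) TH (BH k)
        (fun s l => Hno (c l) (fun s => BH k s l) s) (T₁H k) ∧
      (∀ l ≤ k, g₀ l ≤ gB k l) ∧ (∀ l < k, gB k l ≤ g₀ l + sN k ∧ gB k l ≤ gc l) ∧
      g₀ k + (pk k - g₀ k) = pk k ∧ gc k ≤ pk k ∧ pk k ≤ gc₁ k k ∧
      (∀ l < k, ct l → gT l ≤ gT₁ k l + hh ∧ gT₁ k l ≤ gT l + lN k ∧
        gB k l + (pk k - g₀ k + (k - l) * sN k) ≤ gT₁ k l) ∧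
      (∀ j l, j < l → l < k → ct j → ct l →
        gB k l + (pk k - g₀ k + (k - l) * sN k) ≤ pf l) ∧
      (k < i → pk k ≤ gT k) ∧ pf k + Kf * (hh + 1) + (r + 1) * lN k ≤ pk k := by
    intro k hk hrk
    have hkr : k ≤ r := hk.trans hi
    have q1 := hpk1 k hk hrk
    have q3 := hmJ (hN.a3 k hk hrk).1
    have q4 := hmJ (hN.a3 k hk hrk).2
    have q5 := hO1 k hk
    have q6 := g1 k hkr
    have q7 := hsN1 k hk
    have q8 := hlN1 k hk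
    obtain ⟨q9, q10, q11⟩ := hN.a0 k hk
    have hgp : g₀ k ≤ pk k := by
      refine hcast ?_
      have h1 : 0 ≤ q * J := mul_nonneg hq0.le hJ0
      linarith only [q1.2, q3, q6.2, hJ1, h1]
    have hvR' : ((pk k - g₀ k : ℕ) : ℝ) ≤ (q + x k + η) * J := by
      rw [Nat.cast_sub hgp]
      linarith only [q1.1, q6.1]
    have hks : ∀ l, (((k - l) * sN k : ℕ) : ℝ) ≤ r * ((sb k + 2 * η) * J) := by
      intro l
      push_cast
      refine mul_le_mul (by exact_mod_cast (show k - l ≤ r by omega)) q7.1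
        (Nat.cast_nonneg _) hr0
    have hCs : (r * (sb k + 2 * η) + 2 * η) * J ≤ ((r + 1) * sb k + C * η) * J := by
      refine hmJ ?_
      have h2 : 0 ≤ (C - 2 * r - 2) * η := mul_nonneg (by linarith only [hC8, hKf0]) hη0.le
      linarith only [q10, h2]
    have hsum : ∀ l, ((gB k l + (pk k - g₀ k + (k - l) * sN k) : ℕ) : ℝ) ≤
        gB k l + (q + x k + η) * J + r * ((sb k + 2 * η) * J) := by
      intro l
      have h1 := hks l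
      push_cast at h1 ⊢
      linarith only [h1, hvR']
    refine ⟨cf_of_evs hkr hinj hDr (hO k hk).1 (hO k hk).2.2 hv' (by
        have := (hO k hk).2.1
        omega) (fun l hl hcl => by rw [hR]; exact ⟨by omega, hcl⟩)
        (hE0.mono le_rfl hhη le_rfl) ((hEk k hk).mono le_rfl hhη le_rfl), fun l hl => ?_,
      fun l hl => ⟨?_, ?_⟩, by omega, ?_, ?_, fun l hl hcl => ⟨?_, ?_, ?_⟩,
      fun j l hjl hl hcj hcl => ?_, fun hki => ?_, ?_⟩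
    · refine hcast ?_
      have h1 := hmJ (hN.a1 k hk hrk l hl)
      linarith only [h1, (g1 l (by omega)).2, (gB1 k hk l (by omega)).1]
    · refine hcast ?_
      have h1 := hmJ (hN.a2 k hk hrk l hl).1
      push_cast
      linarith only [h1, (g1 l (by omega)).1, (gB1 k hk l (by omega)).2, q7.2, hJ1]
    · refine hcast ?_
      have h1 := hmJ (hN.a2 k hk hrk l hl).2
      linarith only [h1, (gc1 l (by omega)).1, (gB1 k hk l (by omega)).2, hvR, hA1.2, hW1.1, hJ1]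
    · refine hcast ?_
      linarith only [q1.2, q3, (gc1 k hkr).2, hvR, hA1.1, hW1.2, hJ1, hεJ]
    · refine hcast ?_
      linarith only [q1.1, q4, gcc1 k hk k hkr, q5.1, hA1.2, hJ1]
    · refine hcast ?_
      have h1 := hmJ (hN.a4 k hk hrk l hl hcl).2.1
      push_cast
      linarith only [h1, (gt1 l (by omega) hcl).2, (gtt1 k hk l (by omega) hcl).1, hh1.2, hεJ, hJ1]
    · refine hcast ?_
      have h1 := hmJ (hN.a4 k hk hrk l hl hcl).2.2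
      push_cast
      linarith only [h1, (gt1 l (by omega) hcl).1, (gtt1 k hk l (by omega) hcl).2, q8.2, hεJ, hJ1]
    · refine hcast ((hsum l).trans ?_)
      have h1 := hmJ (hN.a4 k hk hrk l hl hcl).1
      linarith only [h1, (gB1 k hk l (by omega)).2, (gtt1 k hk l (by omega) hcl).1, hCs]
    · refine hcast ((hsum l).trans ?_)
      have h1 := hmJ (hN.a5 k hk hrk j l hjl hl hcj hcl)
      have h2 := hpf1 l (by omega) (Or.inr ⟨hcl, j, hjl, hcj⟩)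
      linarith only [h1, h2.2, (gB1 k hk l (by omega)).2, hCs, hJ1]
    · refine hcast ?_
      have hck : ct k := by
        rcases hrk with h | h
        · omega
        · exact h.1
      have h1 := hmJ (hN.a6 k hki hrk)
      linarith only [h1, q1.1, (gt1 k (by omega) hck).1]
    · refine hcast ?_
      have h1 := hmJ (hN.a7 k hk hrk).2
      have h2 := (hpf1 k hk hrk).1
      have h3 : (Kf : ℝ) * (hh + 1) ≤ Kf * (4 * (η * J)) :=
        mul_le_mul_of_nonneg_left (by linarith only [hh1.1, hJ1]) hKf0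
      have h4 : ((r : ℝ) + 1) * lN k ≤ (r + 1) * ((lm k + 2 * η) * J) :=
        mul_le_mul_of_nonneg_left q8.1 (by linarith only [hr0])
      have h5 : 0 ≤ (C - (4 * Kf + 2 * r + 3)) * (η * J) :=
        mul_nonneg (by linarith only [hC8]) (by linarith only [hJ1])
      have h6 : 0 ≤ (C - (r + 1)) * (lm k * J) :=
        mul_nonneg (by linarith only [hC8, hKf0, hr0]) (mul_nonneg q11 hJ0)
      push_cast
      linarith only [h1, h2, h3, h4, h5, h6, q1.2, hJ1]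
  -- the label of the target
  obtain ⟨Gt', Ht', t1, t2, t3, t4, t5, t6⟩ : ∃ (Gt' : PtT F → MvPolynomial (Option (Fin m)) ℝ)
      (Ht' : LnT F → MvPolynomial (Option (Fin m)) ℝ), (∀ y, (Gt' y).totalDegree ≤ D₁) ∧
      (∀ s, (Ht' s).totalDegree ≤ D₁) ∧ (∀ y, DepC c i (Gt' y)) ∧ (∀ s, DepC c i (Ht' s)) ∧
      (∀ ω, B ω → |F.x ω (c i) - eval (bt F ω) (Gt' (ptr F J ω))| ≤ 1 / 2 ^ pk i) ∧
      (∀ ω, B ω → ∀ b, NBx c (T (ptr F J ω)) gT A' (F.t ω) i b →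
        |eval b (Gt' (ptr F J ω)) - eval b (Ht' (slam F W ω))| ≤ 1 / 2 ^ pk i) := by
    rcases Nat.lt_or_ge i r with hir | hir
    · have h1 : pk i ≤ gT i := by
        refine hcast ?_
        have h2 := (hpk1 i le_rfl (Or.inl rfl)).1
        have h3 := hmJ hN.a9
        have h4 := hS0.t1 i hir (by rw [hR]; exact fun h => lt_irrefl i h.1)
        rw [← hlv i hir] at h4
        linarith only [h2, h3, h4]
      refine ⟨fun y => T y i, fun s => TH s i, fun y => hE0.thin.degG y i,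
        fun s => hE0.thin.degH s i, fun y => hE0.thin.depG y i, fun s => hE0.thin.depH s i,
        fun ω hω => (hE0.thin.pos ω hω i hir).trans (inv_mono h1), fun ω hω b' hb' => ?_⟩
      rw [← hv'] at hb'
      exact (hE0.thin.agr ω hω i hir b' hb').trans (inv_mono h1)
    · have hir' : i = r := by omega
      subst hir'
      have h1 : ⌊p' 0 * J⌋₊ = pk i := by
        rw [hp0, if_pos rfl, hP₁, hpk]
      have h2 := hE0.pos
      have h3 := hE0.agr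
      rw [h1] at h2 h3
      rw [hv'] at h3
      exact ⟨Gt, Ht, hE0.dG, hE0.dH, hE0.pG, hE0.pH, h2, h3⟩
  have hκ1 : (1 : ℝ) / 2 ^ Nn * 2 ^ Nn ≤ 1 := by
    rw [one_div, inv_mul_cancel₀ (by positivity)]
  obtain ⟨B₂, f, fH, hLg, hFt⟩ := hfat (i := i) (v := fun k => pk k - g₀ k) (s := sN) (lam := lN)
    (p := pk) (pf := pf) (κ := 1 / 2 ^ Nn) (N := Nn) (by omega) hstep le_rfl (by positivity) hκ1
    (by rw [hNn]) t1 t2 t3 t4 t5 t6 (fun l l' hl hl' => by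
      refine hcast ?_
      push_cast
      have h1 := gc1 l (by omega)
      have h2 := gc1 l' (by omega)
      have h3 := g1 l (by omega)
      have h4 := g1 l' (by omega)
      linarith only [h1.1, h2.2, h3.2, h4.1, hh1.2, hεJ, hJ1])
  rw [← hNn] at hLg
  have hsub := hLg.1
  have hee : ⌊(Eb + η + η) * J⌋₊ ≤ ⌊e * J⌋₊ := Nat.floor_le_floor (hmJ (by linarith))
  have hnb : ∀ ω, ∀ b', NBx c (fun l => Gno (c l) J J (fun y => G₀ y l) (ptr F J ω))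
      (fun l => ⌊b 0 l * J⌋₊ + y 2) (W + y 2) (F.t ω) i b' → |b' none - F.t ω| ≤ 1 / 2 ^ A' ∧
      ∀ l' < i, ¬ ct l' → |b' (some (c l')) - eval b' (Gno (c l') J J (fun y => G₀ y l')
        (ptr F J ω))| ≤ 1 / 2 ^ gc l' := by
    intro ω b' hb'
    rw [hy2, hv'] at hb'
    exact ⟨hb'.1, fun l' hl' _ => (hb'.2 l' hl').trans (inv_mono (hE0.gle l' (by omega)))⟩
  have hττ : Kf * (hh + 1) + (⌊b 0 i * J⌋₊ + v) ≤ ⌊τ * J⌋₊ + gc i := by
    refine hcast ?_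
    have h1 := (hb0.2 i hi).2
    have h2 : 0 ≤ b 0 i := by
      have := (hb0.2 i hi).1
      linarith only [this, hlow i, hηw]
    have h3 := (fl h2).1
    have h4 := (fl (show 0 ≤ τ by linarith)).2
    have h5 := (gc1 i hi).1
    have h6 := hmJ (show b 0 i ≤ lvN P c r Pt i w w by linarith only [h1, hb0.1])
    have h7 : (Kf : ℝ) * (hh + 1) ≤ Kf * (4 * (η * J)) :=
      mul_le_mul_of_nonneg_left (by linarith only [hh1.1, hJ1]) hKf0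
    have h8 := hmJ hητ
    have h9 : 0 ≤ (C - (4 * Kf + 2 * r + 9)) * (η * J) :=
      mul_nonneg (by linarith only [hC8]) (by linarith only [hJ1])
    have h10 : 0 ≤ (r : ℝ) * (η * J) := mul_nonneg hr0 (by linarith only [hJ1])
    push_cast
    linarith only [h3, h4, h5, h6, h7, h8, h9, h10, hJ1]
  refine ⟨B₂, g₀, G₀, H₀, f, fH, fun ω hω => hBA ω (hsub ω hω), ?_, fun l hl => ⟨?_, ?_⟩,
    (hE0.ball.mono (by omega) (fun _ => hDD) le_rfl hee).sub hsub, fun k hk =>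
    ((hE0.rad k hk).mono (by omega) (fun _ => hDD) le_rfl hee).sub hsub, hFt.degG, hFt.degH,
    hFt.depG, hFt.depH, fun ω hω => ?_, fun ω hω b' hb' => ?_, fun ω hω b' hb' => ?_⟩
  · have h1 := hLg.2
    rw [div_le_iff₀ (by positivity)] at h1
    calc Pe F.p A ≤ K₁ * Pe F.p B := hPB
      _ ≤ K₁ * (Pe F.p B₂ * 2 ^ Nn) := mul_le_mul_of_nonneg_left h1 hK₁.le
      _ = _ := by ring
  · exact (hmJ (by linarith)).trans (g1 l (by omega)).1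
  · exact (g1 l (by omega)).2
  · have h1 := hFt.pos ω hω
    rw [hpf] at h1
    exact h1
  · have h1 := hFt.agr ω hω b' (hnb ω b' hb').1 (hnb ω b' hb').2
    rw [hpf] at h1
    exact h1
  · have h1 := hFt.nat ω hω b' (hnb ω b' hb').1 (hnb ω b' hb').2
    refine h1.trans ?_
    rw [hy2, div_le_div_iff₀ (by positivity) (by positivity), ← pow_add, ← pow_add]
    exact pow_le_pow_right₀ (by norm_num) hττ

end Pool.VFD
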