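import Pool.Agent.H95.GN.Cmp

/-!
# Fat labels from thin labels

`fat_main`: a label of the target on the thin boxes of a chain with contact coordinates, of
precision less than the precision of the re-centred ball chart at a later window, gives a label of
almost the same precision on boxes which are not bounded in the contact directions, with natural
increments.
-/

set_option autoImplicit false

namespace Pool.VFD

open Finset Real MvPolynomial
open Pool.Agent.H49.Ent Pool.Agent.H32.Dense Pool.STK Pool.KA Pool.KSAT Pool.K2S Pool.PB Pool.S6C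
open Pool.GEN Pool.CHT Pool.ISO

variable {m J : ℕ}

theorem elm_congr {c : ℕ → Fin m} {ct : ℕ → Prop} {Φ Φ' T : ℕ → MvPolynomial (Option (Fin m)) ℝ}
    {k : ℕ} (h : ∀ l < k, Φ l = Φ' l) : elm c ct Φ T k = elm c ct Φ' T k := by
  induction k with
  | zero => rfl
  | succ k ih =>
    rw [elm, elm, ih fun l hl => h l (by omega), h k (Nat.lt_succ_self k)]

/-- The geometric sum. -/
theorem geo_sum {X : ℝ} (hX : 2 ≤ X) {i : ℕ} (n : ℕ) (j : ℕ) (hj : j + 1 + n = i) :
    1 + ∑ l ∈ Ico (j + 1) i, X ^ (i - l) ≤ 2 * X ^ n := by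
  induction n generalizing j with
  | zero =>
    have : Ico (j + 1) i = ∅ := Finset.Ico_eq_empty (by omega)
    rw [this, Finset.sum_empty, add_zero, pow_zero]
    norm_num
  | succ n ih =>
    rw [Finset.sum_eq_sum_Ico_succ_bot (by omega)]
    have h1 := ih (j + 1) (by omega)
    have e1 : i - (j + 1) = n + 1 := by omega
    rw [e1]
    have h2 : 2 * X ^ n ≤ X ^ (n + 1) := by
      rw [pow_succ]
      have : (0 : ℝ) ≤ X ^ n := by positivity
      nlinarith only [this, hX]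
    linarith only [h1, h2]

/-- **Fat labels from thin labels.** -/
theorem fat_main (D r q : ℕ) (hD : 1 ≤ D) : ∃ C : ℕ, ∀ {m J : ℕ} {F : Fam m J} {c : ℕ → Fin m}
    {ct : ℕ → Prop} {i D' a w o e h N p v s lam : ℕ} {κ : ℝ} {g gT gB g₀ gc gc₁ gf : ℕ → ℕ}
    {B₀ : F.Ω → Prop} {Φ Γ T B Γ₁ T₁ f : PtT F → ℕ → MvPolynomial (Option (Fin m)) ℝ}
    {Ψ ΓH TH BH Γ₁H T₁H fH : LnT F → ℕ → MvPolynomial (Option (Fin m)) ℝ}
    {Gt : PtT F → MvPolynomial (Option (Fin m)) ℝ} {Ht : LnT F → MvPolynomial (Option (Fin m)) ℝ},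
    i < r → Cf F c ct i D D' a w o e h κ g gT gB g₀ gc gc₁ B₀ Φ Γ T B Γ₁ T₁ Ψ ΓH TH BH Γ₁H T₁H →
    (r + 1) * D ≤ D' → κ * 2 ^ N ≤ 1 → 9 * r + 4 ≤ N →
    (∀ y, (Gt y).totalDegree ≤ D) → (∀ s, (Ht s).totalDegree ≤ D) → (∀ y, DepC c i (Gt y)) →
    (∀ s, DepC c i (Ht s)) →
    (∀ ω, B₀ ω → |F.x ω (c i) - eval (bt F ω) (Gt (ptr F J ω))| ≤ 1 / 2 ^ p) →
    (∀ ω, B₀ ω → ∀ b, NBx c (T (ptr F J ω)) g a (F.t ω) i b →
      |eval b (Gt (ptr F J ω)) - eval b (Ht (slam F w ω))| ≤ 1 / 2 ^ p) →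
    (∀ j l, j < l → l < i → ct j → ct l → FtL F c ct l D a w gc (gf l) (2 ^ (q * (h + 1))) B₀ Γ
      (fun y => f y l) (fun s => fH s l)) →
    (∀ l l', l ≤ i → l' ≤ i → gc l' + g₀ l ≤ gc l + g₀ l' + h) → (∀ l ≤ i, g₀ l ≤ gB l) →
    (∀ l < i, gB l ≤ g₀ l + s ∧ gB l ≤ gc l) → g₀ i + v = p → gc i ≤ p → p ≤ gc₁ i →
    (∀ l < i, ct l → g l ≤ gT l + h ∧ gT l ≤ g l + lam ∧ gf l ≤ gT l ∧
      gB l + (v + (i - l) * s) ≤ gT l) →
    (∀ j l, j < l → l < i → ct j → ct l → gB l + (v + (i - l) * s) ≤ gf l) →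
    ∀ p' : ℕ, p' + C * (h + 1) + r * lam ≤ p →
    ∃ B₂ : F.Ω → Prop, Lg F B₀ B₂ (9 * r + 4) ∧
      FtL F c ct i (D * (D + 1) ^ r) a w gc p' (2 ^ (C * (h + 1))) B₂ Γ
        (fun y => Φ y i + bind₁ (elm c ct (Φ y) (T y) i) (Gt y - Φ y i))
        (fun s => Ψ s i + bind₁ (elm c ct (Ψ s) (TH s) i) (Ht s - Ψ s i)) := by
  classical
  obtain ⟨Cc, hcmp⟩ := fat_cmp D r hD
  obtain ⟨Cτ, hCτ, htau⟩ := own_tau D r
  obtain ⟨Co, hCo, hown⟩ := own_val D r
  obtain ⟨C₁, hC₁, hmk⟩ := dvf_mk D r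
  obtain ⟨N', htwo⟩ := elm_two D r
  obtain ⟨t₁, ht₁⟩ := pow_unbounded_of_one_lt Cτ (one_lt_two (α := ℝ))
  obtain ⟨t₂, ht₂⟩ := pow_unbounded_of_one_lt Co (one_lt_two (α := ℝ))
  obtain ⟨t₃, ht₃⟩ := pow_unbounded_of_one_lt C₁ (one_lt_two (α := ℝ))
  obtain ⟨e₁, he₁⟩ : ∃ e₁, e₁ = Cc + q := ⟨_, rfl⟩
  obtain ⟨e₂, he₂⟩ : ∃ e₂, e₂ = (t₁ + 2 * e₁ + 1) * (r + 1) := ⟨_, rfl⟩
  obtain ⟨e₃, he₃⟩ : ∃ e₃, e₃ = t₂ + 3 * e₂ + 1 + t₃ := ⟨_, rfl⟩
  refine ⟨N' + r + 1 + r * (e₃ + 2) + Cc, ?_⟩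
  intro m J F c ct i D' a w o e h N p v s lam κ g gT gB g₀ gc gc₁ gf B₀ Φ Γ T B Γ₁ T₁ f Ψ ΓH TH
    BH Γ₁H T₁H fH Gt Ht hi hF hDD hκ hN dG dH cG cH pos agr hf n1 n2 n3 hpv hcp hpc n5 n6 p' hp'
  obtain ⟨B₁, h1, h2⟩ := hcmp hi hF hκ (by omega) dG dH cG cH pos agr hf hcp hpc
    (fun l hl hct => ⟨(n5 l hl hct).1, (n5 l hl hct).2.2.1⟩) n2
  -- numbers
  obtain ⟨E₁, hE₁⟩ : ∃ E₁ : ℝ, E₁ = 2 ^ (e₁ * (h + 1)) := ⟨_, rfl⟩
  obtain ⟨E₂, hE₂⟩ : ∃ E₂ : ℝ, E₂ = 2 ^ (e₂ * (h + 1)) := ⟨_, rfl⟩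
  obtain ⟨Y₂, hY₂⟩ : ∃ Y₂ : ℝ, Y₂ = 2 ^ (e₃ * (h + 1) + lam) := ⟨_, rfl⟩
  obtain ⟨Y, hY⟩ : ∃ Y : ℝ, Y = 2 ^ (h + 1) * Y₂ := ⟨_, rfl⟩
  have p2 : ∀ n : ℕ, (1 : ℝ) ≤ 2 ^ n := fun n => one_le_pow₀ (by norm_num)
  have hE11 : 1 ≤ E₁ := by rw [hE₁]; exact p2 _
  have hE21 : 1 ≤ E₂ := by rw [hE₂]; exact p2 _
  have hY21 : 1 ≤ Y₂ := by rw [hY₂]; exact p2 _
  have hY1 : 1 ≤ Y := by rw [hY]; exact one_le_mul_of_one_le_of_one_le (p2 _) hY21
  have hCc : (2 : ℝ) ^ (Cc * (h + 1)) ≤ E₁ := by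
    rw [hE₁, he₁]
    exact pow_le_pow_right₀ (by norm_num) (Nat.mul_le_mul_right _ (Nat.le_add_right _ _))
  have hqE : (2 : ℝ) ^ (q * (h + 1)) ≤ E₁ := by
    rw [hE₁, he₁]
    exact pow_le_pow_right₀ (by norm_num) (Nat.mul_le_mul_right _ (Nat.le_add_left _ _))
  have hbase : Cτ * E₁ ^ 2 * 2 ^ h ≤ 2 ^ ((t₁ + 2 * e₁ + 1) * (h + 1)) := by
    calc Cτ * E₁ ^ 2 * 2 ^ h ≤ 2 ^ t₁ * E₁ ^ 2 * 2 ^ h := by
          refine mul_le_mul_of_nonneg_right (mul_le_mul_of_nonneg_right ht₁.le (by positivity))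
            (by positivity)
      _ = 2 ^ (t₁ + e₁ * (h + 1) * 2 + h) := by
          rw [hE₁, ← pow_mul, pow_add, pow_add]
      _ ≤ _ := by
          refine pow_le_pow_right₀ (by norm_num) ?_
          have : t₁ ≤ t₁ * (h + 1) := Nat.le_mul_of_pos_right _ (by omega)
          nlinarith only [this]
  have hbase1 : 1 ≤ Cτ * E₁ ^ 2 * 2 ^ h :=
    one_le_mul_of_one_le_of_one_le (one_le_mul_of_one_le_of_one_le hCτ
      (one_le_pow₀ hE11)) (p2 h)
  have hτE : ∀ l < i, (Cτ * E₁ ^ 2 * 2 ^ h) ^ (l + 1) ≤ E₂ := by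
    intro l hl
    calc (Cτ * E₁ ^ 2 * 2 ^ h) ^ (l + 1) ≤ (Cτ * E₁ ^ 2 * 2 ^ h) ^ (r + 1) :=
          pow_le_pow_right₀ hbase1 (by omega)
      _ ≤ (2 ^ ((t₁ + 2 * e₁ + 1) * (h + 1))) ^ (r + 1) :=
          pow_le_pow_left₀ (by linarith only [hbase1]) hbase _
      _ = E₂ := by
          rw [hE₂, he₂, ← pow_mul]
          congr 1
          ring
  have hE12 : E₁ ≤ E₂ := by
    rw [hE₁, hE₂]
    refine pow_le_pow_right₀ (by norm_num) (Nat.mul_le_mul_right _ ?_)
    rw [he₂]
    nlinarith only [Nat.zero_le t₁, Nat.zero_le (t₁ * r), Nat.zero_le (e₁ * r)]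
  have hYo : Co * E₂ ^ 3 * 2 ^ h * C₁ * 2 ^ lam ≤ Y₂ := by
    calc Co * E₂ ^ 3 * 2 ^ h * C₁ * 2 ^ lam ≤ 2 ^ t₂ * E₂ ^ 3 * 2 ^ h * 2 ^ t₃ * 2 ^ lam := by
          refine mul_le_mul_of_nonneg_right ?_ (by positivity)
          refine mul_le_mul ?_ ht₃.le (by linarith only [hC₁]) (by positivity)
          exact mul_le_mul_of_nonneg_right (mul_le_mul_of_nonneg_right ht₂.le (by positivity))
            (by positivity)
      _ = 2 ^ (t₂ + e₂ * (h + 1) * 3 + h + t₃ + lam) := by
          rw [hE₂, ← pow_mul, pow_add, pow_add, pow_add, pow_add]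
      _ ≤ _ := by
          rw [hY₂, he₃]
          refine pow_le_pow_right₀ (by norm_num) ?_
          have h3 : t₂ ≤ t₂ * (h + 1) := Nat.le_mul_of_pos_right _ (by omega)
          have h4 : t₃ ≤ t₃ * (h + 1) := Nat.le_mul_of_pos_right _ (by omega)
          nlinarith only [h3, h4]
  have hC₁Y : C₁ ≤ Y₂ := by
    refine le_trans ?_ hYo
    calc C₁ = 1 * 1 * 1 * C₁ * 1 := by ring
      _ ≤ Co * E₂ ^ 3 * 2 ^ h * C₁ * 2 ^ lam := by
        have hCo0 : (0 : ℝ) ≤ Co := by linarith only [hCo]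
        have hC10 : (0 : ℝ) ≤ C₁ := by linarith only [hC₁]
        refine mul_le_mul (mul_le_mul_of_nonneg_right ?_ hC10) (p2 _) (by norm_num)
          (by positivity)
        refine mul_le_mul (mul_le_mul hCo (one_le_pow₀ hE21) (by norm_num) hCo0) (p2 _)
          (by norm_num) (by positivity)
  -- the fields of the line
  obtain ⟨Hl, hHl⟩ : ∃ Hl : LnT F → ℕ → MvPolynomial (Option (Fin m)) ℝ, Hl = fun s l =>
      if ct l then TH s l else Ψ s l := ⟨_, rfl⟩
  have hHlc : ∀ s l, ct l → Hl s l = TH s l := fun s l h => by rw [hHl]; exact if_pos h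
  have hHlr : ∀ s l, ¬ ct l → Hl s l = Ψ s l := fun s l h => by rw [hHl]; exact if_neg h
  have dHl : ∀ s l, (Hl s l).totalDegree ≤ D := by
    intro s l
    by_cases h : ct l
    · rw [hHlc s l h]
      exact hF.thn.degH s l
    · rw [hHlr s l h]
      exact hF.phi.degH s l
  have cHl : ∀ s l, DepC c l (Hl s l) := by
    intro s l
    by_cases h : ct l
    · rw [hHlc s l h]
      exact hF.thn.depH s l
    · rw [hHlr s l h]
      exact hF.phi.depH s l
  obtain ⟨Nn, hNn⟩ : ∃ Nn : ℕ → ℝ, Nn = fun l => (2 * Y) ^ (i - l) := ⟨_, rfl⟩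
  have hNn0 : ∀ l, 0 ≤ Nn l := by
    intro l
    rw [hNn]
    show 0 ≤ (2 * Y) ^ (i - l)
    have : 0 ≤ 2 * Y := by linarith only [hY1]
    positivity
  obtain ⟨W, hW⟩ : ∃ W : PtT F → MvPolynomial (Option (Fin m)) ℝ, W = fun y => Gt y - Φ y i :=
    ⟨_, rfl⟩
  obtain ⟨WH, hWH⟩ : ∃ WH : LnT F → MvPolynomial (Option (Fin m)) ℝ, WH = fun s =>
    Ht s - Ψ s i := ⟨_, rfl⟩
  have dW : ∀ y, (W y).totalDegree ≤ D := fun y => by
    rw [hW]
    exact (totalDegree_sub _ _).trans (max_le (dG y) (hF.phi.degG y i))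
  have dWH : ∀ s, (WH s).totalDegree ≤ D := fun s => by
    rw [hWH]
    exact (totalDegree_sub _ _).trans (max_le (dH s) (hF.phi.degH s i))
  have cW : ∀ y, DepC c i (W y) := fun y => by
    rw [hW]
    exact dep_sub (cG y) (hF.phi.depG y i)
  have cWH : ∀ s, DepC c i (WH s) := fun s => by
    rw [hWH]
    exact dep_sub (cH s) (hF.phi.depH s i)
  have hWW : ∀ ω, B₀ ω → ∀ b, NBx c (T (ptr F J ω)) g a (F.t ω) i b →
      |eval b (W (ptr F J ω)) - eval b (WH (slam F w ω))| ≤ 1 / 2 ^ p := by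
    intro ω hω b hb
    have h3 := agr ω hω b hb
    rw [hW, hWH]
    show |eval b (Gt (ptr F J ω) - Φ (ptr F J ω) i) - eval b (Ht (slam F w ω) -
      Ψ (slam F w ω) i)| ≤ _
    rw [map_sub, map_sub, hF.clo ω hω i le_rfl]
    have e1 : eval b (Gt (ptr F J ω)) - eval b (Ψ (slam F w ω) i) -
        (eval b (Ht (slam F w ω)) - eval b (Ψ (slam F w ω) i)) =
        eval b (Gt (ptr F J ω)) - eval b (Ht (slam F w ω)) := by ring
    rw [e1]
    exact h3
  have htm : ∀ ω, B₀ ω → ∀ l < i, ¬ ct l → DepC c 0 (T (ptr F J ω) l - Φ (ptr F J ω) l) := by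
    intro ω hω l hl hct
    rw [hF.thr ω hω l hl hct]
    exact hF.gmt ω hω l hl.le
  -- the loop
  have loop : ∀ k ≤ i, ∃ Bk : F.Ω → Prop, Sub Bk B₁ ∧ Lg F B₀ Bk (8 * r + 4 + k) ∧
      ∀ ω, Bk ω → ∀ l < i, i ≤ l + k → ct l → ∀ b, NBx c (T (ptr F J ω)) g a (F.t ω) i b →
        |eval b (dvf c (T (ptr F J ω)) l i (W (ptr F J ω)))| ≤ Nn l * 2 ^ g l / 2 ^ p ∧
        |eval b (dvf c (Hl (slam F w ω)) l i (WH (slam F w ω)))| ≤
          Nn l * 2 ^ g l / 2 ^ p := by
    intro k
    induction k with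
    | zero => exact fun _ => ⟨B₁, fun _ h => h, h1, fun ω _ l hl h3 => by omega⟩
    | succ k ih =>
      intro hk
      obtain ⟨Bk, b1, b2, b3⟩ := ih (by omega)
      obtain ⟨j, hj⟩ : ∃ j, j = i - (k + 1) := ⟨_, rfl⟩
      have hji : j < i := by omega
      by_cases hct : ct j
      · obtain ⟨S, hS⟩ : ∃ S, S = 1 + ∑ l ∈ Ico (j + 1) i, Nn l := ⟨_, rfl⟩
        have hSS0 : 0 ≤ ∑ l ∈ Ico (j + 1) i, Nn l := Finset.sum_nonneg fun l _ => hNn0 l
        have hS1 : 1 ≤ S := by rw [hS]; linarith only [hSS0]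
        obtain ⟨M, hM⟩ : ∃ M : ℝ, M = Y₂ * S * 2 ^ g j / 2 ^ p := ⟨_, rfl⟩
        have hM0 : 0 < M := by
          rw [hM]
          have : 0 < Y₂ * S := by nlinarith only [hY21, hS1]
          positivity
        -- the own value
        have own : ∀ ω, Bk ω → |eval (bt F ω) (dvf c (T (ptr F J ω)) j i (W (ptr F J ω)))| ≤
            M := by
          intro ω hω
          have hω1 := b1 ω hω
          have hω0 := b2.1 ω hω
          obtain ⟨q1, q2, q3, q4, q5⟩ := h2 ω hω1
          have hx : NBx c (T (ptr F J ω)) g a (F.t ω) i (bt F ω) := hF.thn.self hω0 le_rfl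
          have hx₁ : NBx c (T₁ (ptr F J ω)) gT a (F.t ω) i (bt F ω) :=
            hF.th₁.self hω0 le_rfl
          have hxB : NBx c (B (ptr F J ω)) gB o (F.t ω) i (bt F ω) :=
            hF.bal.self hω0 (Nat.le_succ i)
          have hxΓ : NBx c (Γ (ptr F J ω)) gc a (F.t ω) i (bt F ω) :=
            hF.gam.self hω0 (Nat.le_succ i)
          have hdiv : ∀ n : ℕ, (2 : ℝ) ^ (Cc * (h + 1)) / 2 ^ n ≤ E₁ / 2 ^ n := fun n =>
            div_le_div_of_nonneg_right hCc (by positivity)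
          have hdv2 : ∀ n : ℕ, E₁ / 2 ^ n ≤ E₂ / 2 ^ n := fun n =>
            div_le_div_of_nonneg_right hE12 (by positivity)
          have tilt := htau (c := c) (ct := ct) (i := i) (Φ := Φ (ptr F J ω))
            (Γ := Γ (ptr F J ω)) (T₁ := T₁ (ptr F J ω)) (B := B (ptr F J ω))
            (f := f (ptr F J ω)) (gT := gT) (gB := gB) (g₀ := g₀) (gc := gc) (gf := gf)
            (a := a) (w := o) (v := v) (s := s) (h := h) (t := F.t ω) (E := E₁)
            (x := bt F ω) (j := j) hi.le hF.inj (hF.phi.degG _) (hF.gam.degG _)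
            (hF.th₁.degG _) (hF.bal.degG _)
            (fun l h3 h4 h5 => ⟨(hf j l h3 h4 hct h5).degG _, (hf j l h3 h4 hct h5).depG _⟩)
            (hF.phi.depG _) (hF.gam.depG _) (hF.th₁.depG _) (hF.bal.depG _) hE11 hji hct
            (hF.thr₁ ω hω0) (fun l hl => hF.gmt ω hω0 l hl.le) hx₁ hxB hxΓ
            (fun l _ h4 b hb => (q4 l h4.le b hb).trans (hdiv _))
            (fun l h3 h4 h5 b hb => (q3 j l h3 h4 hct h5 b hb).trans (hdiv _))
            (fun l h3 h4 h5 b hb1 hb2 => ((hf j l h3 h4 hct h5).nat ω hω0 b hb1 hb2).trans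
              (div_le_div_of_nonneg_right hqE (by positivity)))
            (n5 j hji hct).2.2.2 (fun l _ h4 => (n3 l h4).1)
            (fun l h3 h4 h5 => ⟨n6 j l h3 h4 hct h5, (n3 l h4).2, fun l' _ h7 _ =>
              n1 l l' h4.le (by omega)⟩)
          have h3 := hown (c := c) (ct := ct) (i := i) (Φ := Φ (ptr F J ω))
            (T := T (ptr F J ω)) (T₁ := T₁ (ptr F J ω)) (B := B (ptr F J ω))
            (Gt := Gt (ptr F J ω)) (Γ := Γ (ptr F J ω) i) (Γ₁ := Γ₁ (ptr F J ω) i) (g := g)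
            (gT := gT) (gB := gB) (g₀ := g₀) (a := a) (w := o) (gc := gc i) (p := p) (v := v)
            (h := h) (t := F.t ω) (E := E₂) (L := Nn) (x := bt F ω) (j := j) hi.le hF.inj
            (hF.phi.degG _) (hF.thn.degG _) (hF.th₁.degG _) (hF.bal.degG _) (dG _)
            (hF.gam.degG _ i) (hF.gm₁.degG _ i) (hF.phi.depG _) (hF.thn.depG _)
            (hF.th₁.depG _) (hF.bal.depG _) hE21 hNn0 hji (htm ω hω0) (hF.thr₁ ω hω0)
            (hF.gmt ω hω0 i le_rfl) (hF.gmt₁ ω hω0 i le_rfl) hx hx₁ hxB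
            (fun b hb => (q1 b hb).trans ((hdiv _).trans (hdv2 _)))
            (fun l _ h4 b hb => (q4 l h4 b hb).trans ((hdiv _).trans (hdv2 _)))
            (fun l _ h4 h5 b hb => (q2 l h4 h5 b hb).trans ((hdiv _).trans (hdv2 _)))
            (fun b hb => (q5 b hb).trans ((hdiv _).trans (hdv2 _)))
            (fun l h3 h4 h5 => by
              have h6 := (b3 ω hω l h4 (by omega) h5 _ hx).1
              rw [hW] at h6
              exact h6)
            (fun l h3 h4 h5 => by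
              refine (tilt l h3 h4 h5).trans ?_
              refine div_le_div₀ (by positivity) (mul_le_mul_of_nonneg_right (hτE l h4)
                (by positivity)) (by positivity) (pow_le_pow_right₀ (by norm_num) ?_)
              omega)
            hpv (by have := (n5 j hji hct).2.2.2; omega)
            (fun l _ h4 h5 => by
              rw [hF.grr l h4 h5]
              have := n1 i l le_rfl h4.le
              omega)
          rw [← hS] at h3
          have e1 : dvf c (T (ptr F J ω)) j i (W (ptr F J ω)) =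
              dvf c (T (ptr F J ω)) j i (Gt (ptr F J ω) - Φ (ptr F J ω) i) := by rw [hW]
          rw [e1]
          refine h3.trans ?_
          rw [hM]
          refine div_le_div_of_nonneg_right ?_ (by positivity)
          have hg : (2 : ℝ) ^ gT j ≤ 2 ^ g j * 2 ^ lam := by
            rw [← pow_add]
            exact pow_le_pow_right₀ (by norm_num) (n5 j hji hct).2.1
          have hCo0 : (0 : ℝ) ≤ Co := by linarith only [hCo]
          have hS0 : (0 : ℝ) ≤ S := by linarith only [hS1]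
          have hE20 : (0 : ℝ) ≤ E₂ := by linarith only [hE21]
          calc Co * E₂ ^ 3 * 2 ^ h * S * 2 ^ gT j ≤
                Co * E₂ ^ 3 * 2 ^ h * S * (2 ^ g j * 2 ^ lam) :=
                mul_le_mul_of_nonneg_left hg (by positivity)
            _ = (Co * E₂ ^ 3 * 2 ^ h * 1 * 2 ^ lam) * S * 2 ^ g j := by ring
            _ ≤ (Co * E₂ ^ 3 * 2 ^ h * C₁ * 2 ^ lam) * S * 2 ^ g j := by
                refine mul_le_mul_of_nonneg_right (mul_le_mul_of_nonneg_right
                  (mul_le_mul_of_nonneg_right ?_ (by positivity)) hS0) (by positivity)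
                exact mul_le_mul_of_nonneg_left hC₁ (by positivity)
            _ ≤ Y₂ * S * 2 ^ g j :=
                mul_le_mul_of_nonneg_right (mul_le_mul_of_nonneg_right hYo hS0) (by positivity)
        -- the two sides
        have two : ∀ ω, Bk ω → ∀ b, NBx c (T (ptr F J ω)) g a (F.t ω) i b →
            |eval b (dvf c (T (ptr F J ω)) j i (W (ptr F J ω))) -
              eval b (dvf c (Hl (slam F w ω)) j i (WH (slam F w ω)))| ≤ M := by
          intro ω hω b hb
          have hω0 := b2.1 ω hω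
          have h3 : |eval b (dvf c (T (ptr F J ω)) j i (W (ptr F J ω) - WH (slam F w ω)))| ≤
              C₁ * (1 / 2 ^ p) * 2 ^ g j :=
            hmk hi.le hF.inj (hF.thn.degG _) (hF.thn.depG _) ((totalDegree_sub _ _).trans
              (max_le (dW _) (dWH _))) (fun b hb => by rw [map_sub]; exact hWW ω hω0 b hb)
              hb hji
          have h4 : ∀ l ∈ Ico (j + 1) i, |eval b (dvf c (T (ptr F J ω)) j l
              (T (ptr F J ω) l - Hl (slam F w ω) l) *
              dvf c (Hl (slam F w ω)) l i (WH (slam F w ω)))| ≤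
                C₁ * Nn l * 2 ^ g j / 2 ^ p := by
            intro l hl
            rw [Finset.mem_Ico] at hl
            rw [map_mul, abs_mul]
            by_cases hcl : ct l
            · have h5 : |eval b (dvf c (T (ptr F J ω)) j l
                  (T (ptr F J ω) l - Hl (slam F w ω) l))| ≤ C₁ * (1 / 2 ^ g l) * 2 ^ g j := by
                rw [hHlc _ _ hcl]
                refine hmk (by omega : l ≤ r) (hF.inj.mono fun y hy => lt_trans hy hl.2)
                  (hF.thn.degG _) (hF.thn.depG _) ((totalDegree_sub _ _).trans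
                  (max_le (hF.thn.degG _ l) (hF.thn.degH _ l))) (fun b hb => ?_)
                  (hb.mono le_rfl hl.2.le) (by omega)
                rw [map_sub]
                exact hF.thn.agr ω hω0 l hl.2 b hb
              have h6 := (b3 ω hω l hl.2 (by omega) hcl b hb).2
              have hC10 : (0 : ℝ) ≤ C₁ := by linarith only [hC₁]
              calc _ ≤ C₁ * (1 / 2 ^ g l) * 2 ^ g j * (Nn l * 2 ^ g l / 2 ^ p) :=
                    mul_le_mul h5 h6 (abs_nonneg _) (by positivity)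
                _ = _ := by field_simp
            · rw [hHlr _ _ hcl]
              have h5 : DepC c 0 (T (ptr F J ω) l - Ψ (slam F w ω) l) := by
                rw [← hF.clo ω hω0 l hl.2.le]
                exact htm ω hω0 l hl.2 hcl
              rw [dvf_time l h5, map_zero, abs_zero, zero_mul]
              have hC10 : (0 : ℝ) ≤ C₁ := by linarith only [hC₁]
              have := hNn0 l
              positivity
          have e1 : eval b (dvf c (T (ptr F J ω)) j i (W (ptr F J ω))) -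
              eval b (dvf c (Hl (slam F w ω)) j i (WH (slam F w ω))) =
              eval b (dvf c (T (ptr F J ω)) j i (W (ptr F J ω) - WH (slam F w ω))) +
              ∑ l ∈ Ico (j + 1) i, eval b (dvf c (T (ptr F J ω)) j l
                (T (ptr F J ω) l - Hl (slam F w ω) l) *
                dvf c (Hl (slam F w ω)) l i (WH (slam F w ω))) := by
            have e2 := dvf_chg (c := c) (G := T (ptr F J ω)) (G' := Hl (slam F w ω)) (j := j) i
              (WH (slam F w ω))
            rw [dvf_sub, map_sub, e2, map_add, map_sum]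
            ring
          rw [e1]
          calc _ ≤ C₁ * (1 / 2 ^ p) * 2 ^ g j +
                ∑ l ∈ Ico (j + 1) i, C₁ * Nn l * 2 ^ g j / 2 ^ p :=
                (abs_add_le _ _).trans (add_le_add h3 ((Finset.abs_sum_le_sum_abs _ _).trans
                  (Finset.sum_le_sum h4)))
            _ = C₁ * S * 2 ^ g j / 2 ^ p := by
                rw [hS, ← Finset.sum_div, ← Finset.sum_mul, ← Finset.mul_sum]
                ring
            _ ≤ M := by
                rw [hM]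
                refine div_le_div_of_nonneg_right ?_ (by positivity)
                refine mul_le_mul_of_nonneg_right ?_ (by positivity)
                exact mul_le_mul_of_nonneg_right hC₁Y (by linarith only [hS1])
        -- no relation
        have dgb : i * D + D ≤ D' := by
          have h3 : i * D + D ≤ r * D + D := Nat.add_le_add_right (Nat.mul_le_mul_right D hi.le) D
          have h4 : (r + 1) * D = r * D + D := by ring
          omega
        obtain ⟨Bn, k1, k2, k3⟩ := hF.rv Bk b2.1 (b2.kap hκ (by omega))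
          (fun y => dvf c (T y) j i (W y)) (fun s => dvf c (Hl s) j i (WH s)) M
          (fun y => (deg_dvf (hF.thn.degG y) (dW y)).trans dgb)
          (fun s => (deg_dvf (dHl s) (dWH s)).trans dgb)
          (fun y => dep_dvf (hF.thn.depG y) (cW y)) (fun s => dep_dvf (cHl s) (cWH s)) hM0 own
          two
        have hYS : Y * S ≤ Nn j := by
          rw [hS, hNn]
          have h3 := geo_sum (X := 2 * Y) (by linarith only [hY1]) (i := i) (i - (j + 1)) j
            (by omega)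
          calc Y * (1 + ∑ l ∈ Ico (j + 1) i, (2 * Y) ^ (i - l)) ≤
                Y * (2 * (2 * Y) ^ (i - (j + 1))) :=
                mul_le_mul_of_nonneg_left h3 (by linarith only [hY1])
            _ = (2 * Y) ^ (i - (j + 1) + 1) := by rw [pow_succ]; ring
            _ = (2 * Y) ^ (i - j) := by
                congr 1
                omega
        have hMN : 2 ^ (h + 1) * M ≤ Nn j * 2 ^ g j / 2 ^ p := by
          calc 2 ^ (h + 1) * M = Y * S * 2 ^ g j / 2 ^ p := by
                rw [hM, hY]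
                ring
            _ ≤ _ := div_le_div_of_nonneg_right (mul_le_mul_of_nonneg_right hYS
                (by positivity)) (by positivity)
        refine ⟨Bn, fun ω hω => b1 ω (k1 ω hω), ?_, fun ω hω l hl h3 h4 b hb => ?_⟩
        · have h3 := b2.step (k := 1) k1 (by rw [pow_one]; exact k2)
          exact h3.mono (by omega)
        · rcases Nat.lt_or_ge j l with h5 | h5
          · exact b3 ω (k1 ω hω) l hl (by omega) h4 b hb
          · have : l = j := by omega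
            subst this
            have h6 := k3 ω hω b hb
            have h7 := two ω (k1 ω hω) b hb
            have h8 : 2 ^ h * M + M ≤ 2 ^ (h + 1) * M := by
              have := p2 h
              rw [pow_succ]
              nlinarith only [this, hM0]
            refine ⟨h6.trans (le_trans ?_ hMN), le_trans ?_ hMN⟩
            · linarith only [h8, hM0]
            · refine le_trans ?_ h8
              rw [abs_le] at h6 h7 ⊢
              constructor <;> linarith only [h6.1, h6.2, h7.1, h7.2]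
      · refine ⟨Bk, b1, b2.mono (by omega), fun ω hω l hl h3 h4 => ?_⟩
        have : l ≠ j := fun h => hct (h ▸ h4)
        exact b3 ω hω l hl (by omega) h4
  obtain ⟨B₂, b1, b2, b3⟩ := loop i le_rfl
  have hp2 : (0 : ℝ) < 2 ^ p := by positivity
  -- the final number
  obtain ⟨C, hC⟩ : ∃ C, C = N' + r + 1 + r * (e₃ + 2) + Cc := ⟨_, rfl⟩
  rw [← hC] at hp' ⊢
  obtain ⟨R, hR⟩ : ∃ R : ℝ, R = 1 / 2 ^ p + ∑ l ∈ range i, Nn l * 2 ^ g l / 2 ^ p / 2 ^ g l :=
    ⟨_, rfl⟩
  have hNnr : ∀ l, Nn l ≤ 2 ^ (r * (e₃ + 2) * (h + 1) + r * lam) := by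
    intro l
    rw [hNn]
    show (2 * Y) ^ (i - l) ≤ _
    calc (2 * Y) ^ (i - l) ≤ (2 * Y) ^ r :=
          pow_le_pow_right₀ (by linarith only [hY1]) (by omega)
      _ = (2 ^ (1 + (h + 1) + (e₃ * (h + 1) + lam))) ^ r := by
          rw [hY, hY₂, pow_add, pow_add]
          ring
      _ ≤ (2 ^ ((e₃ + 2) * (h + 1) + lam)) ^ r := by
          refine pow_le_pow_left₀ (by positivity) (pow_le_pow_right₀ (by norm_num) ?_) r
          nlinarith only [Nat.zero_le h]
      _ = _ := by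
          rw [← pow_mul]
          congr 1
          ring
  have hRle : 2 ^ N' * R ≤ 1 / 2 ^ p' := by
    have h3 : ∀ l ∈ range i, Nn l * 2 ^ g l / 2 ^ p / 2 ^ g l ≤
        2 ^ (r * (e₃ + 2) * (h + 1) + r * lam) / 2 ^ p := by
      intro l _
      have e1 : Nn l * 2 ^ g l / 2 ^ p / 2 ^ g l = Nn l / 2 ^ p := by field_simp
      rw [e1]
      exact div_le_div_of_nonneg_right (hNnr l) hp2.le
    have h4 : R ≤ (1 + i) * (2 ^ (r * (e₃ + 2) * (h + 1) + r * lam) / 2 ^ p) := by
      have h5 := Finset.sum_le_sum h3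
      rw [Finset.sum_const, Finset.card_range, nsmul_eq_mul] at h5
      have h6 : (1 : ℝ) / 2 ^ p ≤ 2 ^ (r * (e₃ + 2) * (h + 1) + r * lam) / 2 ^ p :=
        div_le_div_of_nonneg_right (p2 _) hp2.le
      rw [hR]
      linarith only [h5, h6]
    have h5 : (1 : ℝ) + i ≤ 2 ^ r := by
      have h6 : ∀ n : ℕ, (n : ℝ) + 1 ≤ 2 ^ n := by
        intro n
        have := Nat.lt_two_pow_self (n := n)
        exact_mod_cast this
      have h7 := h6 r
      have h8 : (i : ℝ) ≤ r := by exact_mod_cast hi.le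
      linarith only [h7, h8]
    calc 2 ^ N' * R ≤ 2 ^ N' * ((1 + i) * (2 ^ (r * (e₃ + 2) * (h + 1) + r * lam) / 2 ^ p)) :=
          mul_le_mul_of_nonneg_left h4 (by positivity)
      _ ≤ 2 ^ N' * (2 ^ r * (2 ^ (r * (e₃ + 2) * (h + 1) + r * lam) / 2 ^ p)) := by
          refine mul_le_mul_of_nonneg_left ?_ (by positivity)
          exact mul_le_mul_of_nonneg_right h5 (by positivity)
      _ = 2 ^ (N' + r + (r * (e₃ + 2) * (h + 1) + r * lam)) / 2 ^ p := by
          rw [pow_add, pow_add]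
          ring
      _ ≤ 1 / 2 ^ p' := by
          rw [div_le_div_iff₀ hp2 (by positivity), one_mul, ← pow_add]
          refine pow_le_pow_right₀ (by norm_num) (le_trans ?_ hp')
          have h6 : C * (h + 1) = (N' + r + 1) * (h + 1) + r * (e₃ + 2) * (h + 1) +
              Cc * (h + 1) := by
            rw [hC]
            ring
          have h7 : N' + r + 1 ≤ (N' + r + 1) * (h + 1) :=
            Nat.le_mul_of_pos_right _ (by omega)
          rw [h6]
          have h8 := Nat.zero_le (Cc * (h + 1))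
          omega
  have hR0 : R ≤ 2 ^ N' * R := by
    have h3 : 0 ≤ R := by
      rw [hR]
      refine add_nonneg (by positivity) (Finset.sum_nonneg fun l _ => ?_)
      have := hNn0 l
      positivity
    exact le_mul_of_one_le_left h3 (p2 N')
  have hMn : ∀ l, 0 ≤ Nn l * 2 ^ g l / 2 ^ p := fun l => by
    have := hNn0 l
    positivity
  have hpt : ∀ ω, B₂ ω → ∀ b : Option (Fin m) → ℝ, (∀ l < i, ¬ ct l →
      |b (some (c l)) - eval b (Γ (ptr F J ω) l)| ≤ 1 / 2 ^ gc l) → ∀ l < i, ¬ ct l →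
      |b (some (c l)) - eval b (T (ptr F J ω) l)| ≤ 1 / 2 ^ g l := by
    intro ω hω b hb l hl hct
    rw [hF.thr ω (b2.1 ω hω) l hl hct, hF.grr l hl hct]
    exact hb l hl hct
  refine ⟨B₂, b2.mono (by omega), ?_⟩
  have hdeg : ∀ {P Q : ℕ → MvPolynomial (Option (Fin m)) ℝ} {X Z : MvPolynomial (Option (Fin m)) ℝ},
      (∀ l, (P l).totalDegree ≤ D) → (∀ l, (Q l).totalDegree ≤ D) → X.totalDegree ≤ D →
      Z.totalDegree ≤ D → (Z + bind₁ (elm c ct P Q i) X).totalDegree ≤ D * (D + 1) ^ r := by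
    intro P Q X Z hP hQ hX hZ
    have h3 : (D + 1) ^ i ≤ (D + 1) ^ r := Nat.pow_le_pow_right (by omega) hi.le
    refine (totalDegree_add _ _).trans (max_le (hZ.trans ?_) ?_)
    · exact Nat.le_mul_of_pos_right _ (by positivity)
    · exact (deg_bd _ (fun o => (deg_elm hP hQ i o).trans h3) hX)
  refine ⟨fun y => hdeg (hF.phi.degG y) (hF.thn.degG y) ((totalDegree_sub _ _).trans
      (max_le (dG y) (hF.phi.degG y i))) (hF.phi.degG y i),
    fun s => hdeg (hF.phi.degH s) (hF.thn.degH s) ((totalDegree_sub _ _).trans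
      (max_le (dH s) (hF.phi.degH s i))) (hF.phi.degH s i),
    fun y => dep_add (hF.phi.depG y i) (str_dep hF.inj (hF.phi.depG y) (hF.thn.depG y)
      (dep_sub (cG y) (hF.phi.depG y i))),
    fun s => dep_add (hF.phi.depH s i) (str_dep hF.inj (hF.phi.depH s) (hF.thn.depH s)
      (dep_sub (cH s) (hF.phi.depH s i))), fun ω hω => ?_, fun ω hω b hb0 hb => ?_,
    fun ω hω b hb0 hb => ?_⟩
  · -- the own value
    have hω0 := b2.1 ω hω
    have h3 := elm_own (ct := ct) (Φ := Φ (ptr F J ω)) hF.inj (hF.thn.degG (ptr F J ω))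
      (hF.phi.depG _) (hF.thn.depG _) (htm ω hω0) (cW (ptr F J ω)) (g := g) (a := a)
      (t := F.t ω) (x := bt F ω) (hF.thn.self hω0 le_rfl) hMn
      (fun l hl hct b hb => (b3 ω hω l hl (by omega) hct b hb).1)
    have h4 := pos ω hω0
    have e1 : W (ptr F J ω) = Gt (ptr F J ω) - Φ (ptr F J ω) i := by rw [hW]
    rw [e1, map_sub] at h3
    show |F.x ω (c i) - eval (bt F ω) (Φ (ptr F J ω) i + bind₁ (elm c ct (Φ (ptr F J ω))
      (T (ptr F J ω)) i) (Gt (ptr F J ω) - Φ (ptr F J ω) i))| ≤ _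
    rw [map_add]
    refine le_trans ?_ (hR0.trans hRle)
    rw [hR]
    rw [abs_le] at h3 h4 ⊢
    constructor <;> linarith only [h3.1, h3.2, h4.1, h4.2]
  · -- the two sides
    have hω0 := b2.1 ω hω
    have e3 : elm c ct (Ψ (slam F w ω)) (TH (slam F w ω)) i =
        elm c ct (Φ (ptr F J ω)) (TH (slam F w ω)) i :=
      elm_congr fun l hl => (hF.clo ω hω0 l hl.le).symm
    have h3 := htwo (c := c) (ct := ct) (i := i) (Φ := Φ (ptr F J ω)) (T := T (ptr F J ω))
      (TH := TH (slam F w ω)) (W := W (ptr F J ω)) (WH := WH (slam F w ω)) (g := g) (a := a)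
      (t := F.t ω) (ε := 1 / 2 ^ p) (M := fun l => Nn l * 2 ^ g l / 2 ^ p) (b := b) hi.le
      hF.inj (hF.thn.degG _) (hF.thn.degH _) (dW _) (dWH _) (hF.phi.depG _) (hF.thn.depG _)
      (hF.thn.depH _) (cW _) (cWH _) (htm ω hω0) (by positivity) hMn
      (fun l hl y hy => hF.thn.agr ω hω0 l hl y hy) (hWW ω hω0)
      (fun l hl hct y hy => (b3 ω hω l hl (by omega) hct y hy).1) hb0 (hpt ω hω b hb)
    rw [← hR] at h3
    have e1 : W (ptr F J ω) = Gt (ptr F J ω) - Φ (ptr F J ω) i := by rw [hW]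
    have e2 : WH (slam F w ω) = Ht (slam F w ω) - Ψ (slam F w ω) i := by rw [hWH]
    rw [e1, e2] at h3
    show |eval b (Φ (ptr F J ω) i + bind₁ (elm c ct (Φ (ptr F J ω)) (T (ptr F J ω)) i)
      (Gt (ptr F J ω) - Φ (ptr F J ω) i)) - eval b (Ψ (slam F w ω) i +
      bind₁ (elm c ct (Ψ (slam F w ω)) (TH (slam F w ω)) i)
        (Ht (slam F w ω) - Ψ (slam F w ω) i))| ≤ _
    rw [map_add, map_add, e3, hF.clo ω hω0 i le_rfl, add_sub_add_left_eq_sub]
    rw [hF.clo ω hω0 i le_rfl] at h3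
    exact h3.trans hRle
  · -- the increments
    have hω0 := b2.1 ω hω
    obtain ⟨_, _, _, _, q5⟩ := h2 ω (b1 ω hω)
    obtain ⟨y, hy⟩ : ∃ y, y = str c ct (Φ (ptr F J ω)) (T (ptr F J ω)) i b := ⟨_, rfl⟩
    have hyn : y none = b none := by rw [hy]; exact str_none i b
    have hyb : NBx c (T (ptr F J ω)) g a (F.t ω) i y := by
      refine ⟨by rw [hyn]; exact hb0, fun l hl => ?_⟩
      by_cases hct : ct l
      · have h3 := hgt_str_ct (Φ := Φ (ptr F J ω)) hF.inj (hF.thn.depG (ptr F J ω)) hl hct b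
        rw [← hy] at h3
        unfold hgt at h3
        rw [h3, abs_zero]
        positivity
      · have h3 := hgt_str_rg (T := T (ptr F J ω)) hF.inj (hF.phi.depG (ptr F J ω)) hl hct
          (htm ω hω0 l hl hct) b
        rw [← hy] at h3
        unfold hgt at h3
        rw [h3]
        exact hpt ω hω b hb l hl hct
    have h3 := q5 y hyb
    have h4 := hF.gmt ω hω0 i le_rfl y b hyn fun l hl => absurd hl (Nat.not_lt_zero l)
    rw [map_sub, map_sub] at h4
    have e1 : eval b (Φ (ptr F J ω) i + bind₁ (elm c ct (Φ (ptr F J ω)) (T (ptr F J ω)) i)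
        (Gt (ptr F J ω) - Φ (ptr F J ω) i)) - eval b (Γ (ptr F J ω) i) =
        eval y (Gt (ptr F J ω)) - eval y (Γ (ptr F J ω) i) := by
      have e2 : eval b (bind₁ (elm c ct (Φ (ptr F J ω)) (T (ptr F J ω)) i)
          (Gt (ptr F J ω) - Φ (ptr F J ω) i)) =
          eval y (Gt (ptr F J ω) - Φ (ptr F J ω) i) := by
        rw [eval_bd, hy]
        rfl
      rw [map_add, e2, map_sub]
      linarith only [h4]
    show |eval b (Φ (ptr F J ω) i + bind₁ (elm c ct (Φ (ptr F J ω)) (T (ptr F J ω)) i)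
      (Gt (ptr F J ω) - Φ (ptr F J ω) i)) - eval b (Γ (ptr F J ω) i)| ≤ _
    rw [e1]
    refine h3.trans (div_le_div_of_nonneg_right ?_ (by positivity))
    refine pow_le_pow_right₀ (by norm_num) (Nat.mul_le_mul_right _ ?_)
    omega

end Pool.VFD
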