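import Pool.Agent.H95.GN.Nbv

/-!
# Derivatives of polynomials on natural boxes

`ntop`: the derivatives in the direction of the last coordinate of the box; `nslp`: the partial
derivatives in the direction of any coordinate, when the gradients of the labels are bounded.
-/

set_option autoImplicit false

namespace Pool.RLV

open Finset Real MvPolynomial
open Pool.GEN

variable {m : ℕ}

theorem iter_comp (p : Polynomial ℝ) (α s : ℝ) (k : ℕ) :
    Polynomial.derivative^[k] (p.comp (Polynomial.C α + Polynomial.C s * Polynomial.X)) =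
      Polynomial.C (s ^ k) *
        (Polynomial.derivative^[k] p).comp (Polynomial.C α + Polynomial.C s * Polynomial.X) := by
  induction k with
  | zero => simp
  | succ k ih =>
    rw [Function.iterate_succ_apply', ih, Function.iterate_succ_apply',
      Polynomial.derivative_C_mul, Polynomial.derivative_comp]
    simp only [Polynomial.derivative_add, Polynomial.derivative_C, zero_add,
      Polynomial.derivative_mul, Polynomial.derivative_X, zero_mul, mul_one, pow_succ, map_mul]
    ring

theorem lin_deg (α s : ℝ) : (Polynomial.C α + Polynomial.C s * Polynomial.X).natDegree ≤ 1 := by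
  refine (Polynomial.natDegree_add_le _ _).trans (max_le ?_ ?_)
  · rw [Polynomial.natDegree_C]
    exact Nat.zero_le _
  · exact (Polynomial.natDegree_C_mul_le _ _).trans Polynomial.natDegree_X_le

theorem comp_lin_deg {p : Polynomial ℝ} {D : ℕ} (h : p.natDegree ≤ D) (α s : ℝ) :
    (p.comp (Polynomial.C α + Polynomial.C s * Polynomial.X)).natDegree ≤ D := by
  refine Polynomial.natDegree_comp_le.trans ?_
  calc p.natDegree * (Polynomial.C α + Polynomial.C s * Polynomial.X).natDegree ≤ D * 1 :=
        Nat.mul_le_mul h (lin_deg α s)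
    _ = D := Nat.mul_one D

theorem comp_lin_eval (p : Polynomial ℝ) (α s x : ℝ) :
    (p.comp (Polynomial.C α + Polynomial.C s * Polynomial.X)).eval x = p.eval (α + s * x) := by
  simp [Polynomial.eval_comp]

/-- The labels do not see the later coordinates. -/
theorem dep_upd {c : ℕ → Fin m} {i : ℕ} (hc : Set.InjOn c (Set.Iio i)) {l l' : ℕ} (hl : l ≤ l')
    (hl' : l' < i) {P : MvPolynomial (Option (Fin m)) ℝ} (hP : DepC c l P)
    (b : Option (Fin m) → ℝ) (y : ℝ) :
    eval (Function.update b (some (c l')) y) P = eval b P := by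
  refine hP _ _ (Function.update_of_ne (by simp) _ _) fun k hk => Function.update_of_ne ?_ _ _
  intro he
  have := hc (Set.mem_Iio.2 (by omega)) (Set.mem_Iio.2 hl') (Option.some_injective _ he)
  omega

/-- Moves of the last coordinate of a natural box. -/
theorem nbx_upd {c : ℕ → Fin m} {i : ℕ} (hc : Set.InjOn c (Set.Iio (i + 1)))
    {G : ℕ → MvPolynomial (Option (Fin m)) ℝ} (hdep : ∀ l, DepC c l (G l)) {q : ℕ → ℕ} {a : ℕ}
    {t : ℝ} {b : Option (Fin m) → ℝ} (hb : NBx c G q a t i b) {y : ℝ}
    (hy : |y - eval b (G i)| ≤ 1 / 2 ^ q i) :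
    NBx c G q a t (i + 1) (Function.update b (some (c i)) y) := by
  refine ⟨?_, fun l hl => ?_⟩
  · rw [Function.update_of_ne (by simp)]
    exact hb.1
  · rw [dep_upd hc (Nat.lt_succ_iff.1 hl) (Nat.lt_succ_self i) (hdep l)]
    rcases Nat.lt_or_ge l i with h | h
    · rw [Function.update_of_ne]
      · exact hb.2 l h
      · intro he
        have := hc (Set.mem_Iio.2 hl) (Set.mem_Iio.2 (Nat.lt_succ_self i))
          (Option.some_injective _ he)
        omega
    · have : l = i := by omega
      subst this
      rw [Function.update_self]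
      exact hy

/-- **The derivatives in the direction of the last coordinate.** -/
theorem ntop (D : ℕ) : ∃ C : ℝ, 1 ≤ C ∧ ∀ {m : ℕ} {c : ℕ → Fin m} {i : ℕ}
    {G : ℕ → MvPolynomial (Option (Fin m)) ℝ} {Q : MvPolynomial (Option (Fin m)) ℝ}
    {q : ℕ → ℕ} {a : ℕ} {t M : ℝ}, Set.InjOn c (Set.Iio (i + 1)) → (∀ l, DepC c l (G l)) →
    Q.totalDegree ≤ D → (∀ b, NBx c G q a t (i + 1) b → |eval b Q| ≤ M) →
    ∀ b, NBx c G q a t (i + 1) b → ∀ k : ℕ,
      |eval b ((pderiv (some (c i)))^[k] Q)| ≤ C * M * (2 ^ q i) ^ k := by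
  obtain ⟨C, hC, h⟩ := umark D
  refine ⟨C, hC, ?_⟩
  intro m c i G Q q a t M hc hdep hQ hM b hb k
  have h2q : (0 : ℝ) < 2 ^ q i := by positivity
  obtain ⟨s, hs⟩ : ∃ s : ℝ, s = 1 / 2 ^ q i := ⟨_, rfl⟩
  have hs0 : 0 < s := by rw [hs]; positivity
  have h1 := (h ((slc (some (c i)) b Q).comp (Polynomial.C (eval b (G i)) +
    Polynomial.C s * Polynomial.X)) M (comp_lin_deg (slc_deg _ _ hQ) _ _) fun x hx => by
      rw [comp_lin_eval, slc_eval]
      refine hM _ (nbx_upd hc hdep ⟨hb.1, fun l hl => hb.2 l (by omega)⟩ ?_)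
      rw [add_sub_cancel_left, abs_mul, abs_of_pos hs0]
      calc s * |x| ≤ s * 1 := mul_le_mul_of_nonneg_left hx hs0.le
        _ = 1 / 2 ^ q i := by rw [mul_one, hs]).1 k
          ((b (some (c i)) - eval b (G i)) / s) (by
        rw [abs_div, abs_of_pos hs0, div_le_one hs0, hs]
        exact hb.2 i (Nat.lt_succ_self i))
  rw [iter_comp, Polynomial.eval_mul, Polynomial.eval_C, comp_lin_eval, slc_iter, slc_eval,
    mul_div_cancel₀ _ hs0.ne', add_sub_cancel, Function.update_eq_self, abs_mul,
    abs_of_pos (pow_pos hs0 k)] at h1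
  have h3 : s ^ k * (2 ^ q i) ^ k = 1 := by
    rw [← mul_pow, hs, one_div_mul_cancel h2q.ne', one_pow]
  have h4 : 0 < ((2 : ℝ) ^ q i) ^ k := by positivity
  calc |eval b ((pderiv (some (c i)))^[k] Q)|
      = (s ^ k * |eval b ((pderiv (some (c i)))^[k] Q)|) * (2 ^ q i) ^ k := by
        rw [mul_right_comm, h3, one_mul]
    _ ≤ C * M * (2 ^ q i) ^ k := mul_le_mul_of_nonneg_right h1 h4.le

/-- **The partial derivatives.** -/
theorem nslp (D : ℕ) : ∃ C : ℝ, 1 ≤ C ∧ ∀ {m : ℕ} {c : ℕ → Fin m} {i : ℕ}
    {G : ℕ → MvPolynomial (Option (Fin m)) ℝ} {Q : MvPolynomial (Option (Fin m)) ℝ}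
    {q : ℕ → ℕ} {a e W l : ℕ} {t M : ℝ}, Set.InjOn c (Set.Iio i) → (∀ l, DepC c l (G l)) →
    Q.totalDegree ≤ D → (∀ b, NBx c G q a t i b → |eval b Q| ≤ M) → l < i →
    (∀ l', l < l' → l' < i → ∀ b, NBx c G q a t l' b →
      |eval b (pderiv (some (c l)) (G l'))| ≤ 2 ^ e) →
    q l + 1 ≤ W → (∀ l', l < l' → l' < i → q l' + e + 1 ≤ W) →
    ∀ b : Option (Fin m) → ℝ, |b none - t| ≤ 1 / 2 ^ a →
    (∀ l' < i, |b (some (c l')) - eval b (G l')| ≤ 1 / 2 / 2 ^ q l') →
      |eval b (pderiv (some (c l)) Q)| ≤ C * M * 2 ^ W := by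
  obtain ⟨C, hC, h⟩ := umark D
  refine ⟨C, hC, ?_⟩
  intro m c i G Q q a e W l t M hc hdep hQ hM hl hlip hW1 hW2 b hb0 hb
  have h2W : (0 : ℝ) < 2 ^ W := by positivity
  obtain ⟨s, hs⟩ : ∃ s : ℝ, s = 1 / 2 ^ W := ⟨_, rfl⟩
  have hs0 : 0 < s := by rw [hs]; positivity
  have hsq : ∀ n e' : ℕ, n + e' + 1 ≤ W → 2 ^ e' * s ≤ 1 / 2 / 2 ^ n := by
    intro n e' hn
    rw [hs, mul_one_div, div_div, div_le_div_iff₀ h2W (by positivity), one_mul]
    calc (2 : ℝ) ^ e' * (2 * 2 ^ n) = 2 ^ (n + e' + 1) := by ring
      _ ≤ 2 ^ W := pow_le_pow_right₀ (by norm_num) hn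
  have key : ∀ i' ≤ i, ∀ x : ℝ, |x| ≤ s →
      NBx c G q a t i' (Function.update b (some (c l)) (b (some (c l)) + x)) := by
    intro i'
    induction i' with
    | zero =>
      intro _ x _
      refine ⟨?_, fun l' hl' => by omega⟩
      rw [Function.update_of_ne (by simp)]
      exact hb0
    | succ i' ih =>
      intro hi' x hx
      have ih' := ih (by omega)
      refine ⟨(ih' x hx).1, fun l' hl' => ?_⟩
      rcases Nat.lt_or_ge l' i' with h1 | h1
      · exact (ih' x hx).2 l' h1
      · have : l' = i' := by omega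
        subst this
        have h5 : (1 : ℝ) / 2 ^ q l' = 1 / 2 / 2 ^ q l' + 1 / 2 / 2 ^ q l' := by ring
        rcases Nat.lt_trichotomy l' l with h2 | h2 | h2
        · rw [dep_upd hc h2.le hl (hdep l'), Function.update_of_ne]
          · refine (hb l' (by omega)).trans ?_
            rw [h5]
            have : (0 : ℝ) < 1 / 2 / 2 ^ q l' := by positivity
            linarith
          · intro he
            have := hc (Set.mem_Iio.2 (by omega)) (Set.mem_Iio.2 hl) (Option.some_injective _ he)
            omega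
        · subst h2
          rw [dep_upd hc le_rfl hl (hdep l'), Function.update_self]
          have e1 : b (some (c l')) + x - eval b (G l') =
              (b (some (c l')) - eval b (G l')) + x := by ring
          rw [e1, h5]
          refine (abs_add_le _ _).trans (add_le_add (hb l' hl) (hx.trans ?_))
          have := hsq (q l') 0 (by omega)
          simpa using this
        · rw [Function.update_of_ne (by
            intro he
            have := hc (Set.mem_Iio.2 (by omega)) (Set.mem_Iio.2 hl) (Option.some_injective _ he)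
            omega)]
          have h3 : |(slc (some (c l)) b (G l')).eval (b (some (c l)) + x) -
              (slc (some (c l)) b (G l')).eval (b (some (c l)))| ≤
              2 ^ e * |b (some (c l)) + x - b (some (c l))| := by
            refine umv fun z hz => ?_
            rw [slc_der, slc_eval]
            have hz' : |z - b (some (c l))| ≤ s := by
              have h4 := Set.mem_uIcc.1 hz
              rw [abs_le] at hx ⊢
              rcases h4 with h4 | h4 <;> constructor <;> linarith [h4.1, h4.2, hx.1, hx.2]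
            have h6 := hlip l' h2 (by omega) _ (ih' _ hz')
            rwa [add_sub_cancel] at h6
          rw [slc_eval, slc_eval, Function.update_eq_self, add_sub_cancel_left] at h3
          have h7 : 2 ^ e * |x| ≤ 1 / 2 / 2 ^ q l' :=
            (mul_le_mul_of_nonneg_left hx (by positivity)).trans (hsq (q l') e (hW2 l' h2 (by omega)))
          have e1 : b (some (c l')) -
              eval (Function.update b (some (c l)) (b (some (c l)) + x)) (G l') =
              (b (some (c l')) - eval b (G l')) -
                (eval (Function.update b (some (c l)) (b (some (c l)) + x)) (G l') -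
                  eval b (G l')) := by ring
          rw [e1, h5]
          exact (abs_sub _ _).trans (add_le_add (hb l' (by omega)) (h3.trans h7))
  have h1 := (h ((slc (some (c l)) b Q).comp (Polynomial.C (b (some (c l))) +
    Polynomial.C s * Polynomial.X)) M (comp_lin_deg (slc_deg _ _ hQ) _ _) fun x hx => by
      rw [comp_lin_eval, slc_eval]
      refine hM _ (key i le_rfl _ ?_)
      rw [abs_mul, abs_of_pos hs0]
      calc s * |x| ≤ s * 1 := mul_le_mul_of_nonneg_left hx hs0.le
        _ = s := mul_one s).1 1 0 (by simp)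
  rw [iter_comp, Polynomial.eval_mul, Polynomial.eval_C, comp_lin_eval, slc_iter, slc_eval,
    mul_zero, add_zero, Function.update_eq_self, pow_one, abs_mul, abs_of_pos hs0,
    Function.iterate_one] at h1
  have h3 : s * 2 ^ W = 1 := by
    rw [hs, one_div_mul_cancel h2W.ne']
  calc |eval b (pderiv (some (c l)) Q)|
      = (s * |eval b (pderiv (some (c l)) Q)|) * 2 ^ W := by rw [mul_right_comm, h3, one_mul]
    _ ≤ C * M * 2 ^ W := mul_le_mul_of_nonneg_right h1 h2W.le

end Pool.RLV
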