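import Pool.Agent.H95.GN.Unv

/-!
# Polynomials on natural boxes

Bounds for the variation and for the derivatives of a polynomial which is bounded on a natural box.
-/

set_option autoImplicit false

namespace Pool.RLV

open Finset Real MvPolynomial
open Pool.GEN

variable {m : ℕ}

/-! ### Natural curves -/

/-- **The natural curve**: the time is `B`, and the coordinate `c l` is the label `G l` plus
`A l`. -/
noncomputable def ncv (c : ℕ → Fin m) (G : ℕ → MvPolynomial (Option (Fin m)) ℝ)
    (B : Polynomial ℝ) (A : ℕ → Polynomial ℝ) (b₀ : Option (Fin m) → ℝ) :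
    ℕ → Option (Fin m) → Polynomial ℝ
  | 0 => fun o => match o with
    | none => B
    | some k => Polynomial.C (b₀ (some k))
  | k + 1 => Function.update (ncv c G B A b₀ k) (some (c k))
      (MvPolynomial.aeval (ncv c G B A b₀ k) (G k) + A k)

/-- The product of the degrees. -/
def dg (K : ℕ → ℕ) (k : ℕ) : ℕ := ∏ l ∈ range k, max (K l) 1

theorem one_le_dg (K : ℕ → ℕ) (k : ℕ) : 1 ≤ dg K k :=
  Finset.one_le_prod'' fun _ => le_max_right _ _

theorem dg_succ (K : ℕ → ℕ) (k : ℕ) : dg K (k + 1) = dg K k * max (K k) 1 := by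
  unfold dg
  rw [Finset.prod_range_succ]

theorem dg_mono (K : ℕ → ℕ) {k k' : ℕ} (h : k ≤ k') : dg K k ≤ dg K k' := by
  unfold dg
  exact Finset.prod_le_prod_of_subset_of_one_le' (Finset.range_subset_range.2 h)
    fun _ _ _ => le_max_right _ _

section
variable {c : ℕ → Fin m} {G : ℕ → MvPolynomial (Option (Fin m)) ℝ}
    {B : Polynomial ℝ} {A : ℕ → Polynomial ℝ} {b₀ : Option (Fin m) → ℝ} {i : ℕ}

theorem ncv_none (k : ℕ) : ncv c G B A b₀ k none = B := by
  induction k with
  | zero => rfl
  | succ k ih =>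
    rw [ncv, Function.update_of_ne (by simp)]
    exact ih

theorem ncv_lt (hc : Set.InjOn c (Set.Iio i)) {l k : ℕ} (hl : l < k) (hk : k ≤ i) :
    ncv c G B A b₀ k (some (c l)) = MvPolynomial.aeval (ncv c G B A b₀ l) (G l) + A l := by
  induction k with
  | zero => omega
  | succ k ih =>
    rw [ncv]
    rcases Nat.lt_or_ge l k with h | h
    · have hne : (some (c l) : Option (Fin m)) ≠ some (c k) := by
        intro he
        have := hc (Set.mem_Iio.2 (by omega)) (Set.mem_Iio.2 (by omega)) (Option.some_injective _ he)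
        omega
      rw [Function.update_of_ne hne]
      exact ih h (by omega)
    · have : l = k := by omega
      subst this
      rw [Function.update_self]

theorem ncv_eval (hc : Set.InjOn c (Set.Iio i)) (hdep : ∀ l, DepC c l (G l)) {l : ℕ} (hl : l < i)
    (s : ℝ) : (ncv c G B A b₀ i (some (c l))).eval s =
      eval (fun o => (ncv c G B A b₀ i o).eval s) (G l) + (A l).eval s := by
  rw [ncv_lt hc hl le_rfl, Polynomial.eval_add, Pool.KBX.eval_aeval_poly]
  congr 1
  refine hdep l _ _ ?_ fun l' hl' => ?_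
  · rw [ncv_none, ncv_none]
  · rw [ncv_lt hc hl' hl.le, ncv_lt hc (hl'.trans hl) le_rfl]

theorem ncv_deg {K : ℕ → ℕ} (hdeg : ∀ l, (G l).totalDegree ≤ K l) (hB : B.natDegree ≤ 1)
    (hA : ∀ l, (A l).natDegree ≤ 1) (k : ℕ) (o : Option (Fin m)) :
    (ncv c G B A b₀ k o).natDegree ≤ dg K k := by
  induction k generalizing o with
  | zero =>
    rcases o with _ | k
    · exact hB
    · change (Polynomial.C (b₀ (some k))).natDegree ≤ _
      rw [Polynomial.natDegree_C]
      exact Nat.zero_le _
  | succ k ih =>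
    rw [ncv]
    by_cases h : o = some (c k)
    · subst h
      rw [Function.update_self]
      refine (Polynomial.natDegree_add_le _ _).trans (max_le ?_ ?_)
      · refine (Pool.CHT.natDegree_aeval_mul (G k) _ ih (hdeg k)).trans ?_
        rw [dg_succ, mul_comm]
        exact Nat.mul_le_mul_left _ (le_max_left _ _)
      · exact (hA k).trans (one_le_dg K _)
    · rw [Function.update_of_ne h]
      exact (ih o).trans (dg_mono K (Nat.le_succ k))

end

/-- The natural coordinates determine the point. -/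
theorem nbu {c : ℕ → Fin m} {G : ℕ → MvPolynomial (Option (Fin m)) ℝ} {i : ℕ}
    (hdep : ∀ l, DepC c l (G l)) {b b' : Option (Fin m) → ℝ} (h0 : b none = b' none)
    (h : ∀ l < i, b (some (c l)) - eval b (G l) = b' (some (c l)) - eval b' (G l)) :
    ∀ l < i, b (some (c l)) = b' (some (c l)) := by
  intro l
  induction l using Nat.strong_induction_on with
  | _ l ih =>
    intro hl
    have h1 : eval b (G l) = eval b' (G l) := hdep l b b' h0 fun l' hl' => ih l' hl' (hl'.trans hl)
    have h2 := h l hl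
    rw [h1] at h2
    linarith

/-! ### The variation -/

/-- **The variation** of a polynomial on a natural box. -/
theorem nvar (D : ℕ) : ∃ C : ℝ, 1 ≤ C ∧ ∀ {m : ℕ} {c : ℕ → Fin m} {i : ℕ} {K : ℕ → ℕ}
    {G : ℕ → MvPolynomial (Option (Fin m)) ℝ} {Q : MvPolynomial (Option (Fin m)) ℝ}
    {q : ℕ → ℕ} {a D₀ : ℕ} {t M δ : ℝ} {b b' : Option (Fin m) → ℝ}, Set.InjOn c (Set.Iio i) →
    (∀ l, (G l).totalDegree ≤ K l) → (∀ l, DepC c l (G l)) → DepC c i Q → Q.totalDegree ≤ D₀ →
    D₀ * dg K i ≤ D → (∀ b, NBx c G q a t i b → |eval b Q| ≤ M) → 0 < δ →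
    |b none - t| ≤ 1 / 2 / 2 ^ a → |b' none - t| ≤ 1 / 2 / 2 ^ a →
    |b none - b' none| ≤ δ / 2 ^ a →
    (∀ l < i, |b (some (c l)) - eval b (G l)| ≤ 1 / 2 / 2 ^ q l) →
    (∀ l < i, |b' (some (c l)) - eval b' (G l)| ≤ 1 / 2 / 2 ^ q l) →
    (∀ l < i, |b (some (c l)) - eval b (G l) - (b' (some (c l)) - eval b' (G l))| ≤
      δ / 2 ^ q l) → |eval b Q - eval b' Q| ≤ C * M * δ := by
  obtain ⟨C, hC, h⟩ := umark D
  refine ⟨4 * C, by linarith, ?_⟩
  intro m c i K G Q q a D₀ t M δ b b' hc hdeg hdep hQ hQd hD hM hδ hb0 hb0' hbb hb hb' hbv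
  have half : ∀ n : ℕ, (1 : ℝ) / 2 / 2 ^ n ≤ 1 / 2 ^ n := fun n =>
    div_le_div_of_nonneg_right (by norm_num) (by positivity)
  have hbN : NBx c G q a t i b := ⟨hb0.trans (half a), fun l hl => (hb l hl).trans (half _)⟩
  have hbN' : NBx c G q a t i b' := ⟨hb0'.trans (half a), fun l hl => (hb' l hl).trans (half _)⟩
  have hM0 : 0 ≤ M := (abs_nonneg _).trans (hM b hbN)
  rcases le_or_gt (1 / 2) δ with hd | hd
  · have h1 := hM b hbN
    have h2 := hM b' hbN'
    have h3 : |eval b Q - eval b' Q| ≤ 2 * M := (abs_sub _ _).trans (by linarith)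
    have h4 : 2 * M ≤ 4 * M * δ := by nlinarith
    have h5 : 4 * M * δ ≤ 4 * C * M * δ := by
      have : M * δ ≤ C * (M * δ) := by nlinarith [mul_nonneg hM0 hδ.le]
      linarith
    linarith
  · obtain ⟨B, hB⟩ : ∃ B : Polynomial ℝ, B = Polynomial.C (b none) +
      Polynomial.C ((b' none - b none) / (2 * δ)) * Polynomial.X := ⟨_, rfl⟩
    obtain ⟨A, hA⟩ : ∃ A : ℕ → Polynomial ℝ, A = fun l =>
      Polynomial.C (b (some (c l)) - eval b (G l)) + Polynomial.C (((b' (some (c l)) -
        eval b' (G l)) - (b (some (c l)) - eval b (G l))) / (2 * δ)) * Polynomial.X := ⟨_, rfl⟩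
    have hlin : ∀ α β : ℝ, (Polynomial.C α + Polynomial.C β * Polynomial.X).natDegree ≤ 1 := by
      intro α β
      refine (Polynomial.natDegree_add_le _ _).trans (max_le ?_ ?_)
      · rw [Polynomial.natDegree_C]
        exact Nat.zero_le _
      · exact (Polynomial.natDegree_C_mul_le _ _).trans Polynomial.natDegree_X_le
    have hle : ∀ α β s : ℝ, (Polynomial.C α + Polynomial.C β * Polynomial.X).eval s =
        α + β * s := by
      intro α β s
      simp
    obtain ⟨p, hp⟩ : ∃ p, p = ncv c G B A b i := ⟨_, rfl⟩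
    have hpd : ∀ o, (p o).natDegree ≤ dg K i := by
      rw [hp]
      exact ncv_deg hdeg (by rw [hB]; exact hlin _ _) (fun l => by rw [hA]; exact hlin _ _) i
    have hp0 : ∀ s, (p none).eval s = b none + (b' none - b none) / (2 * δ) * s := by
      intro s
      rw [hp, ncv_none, hB, hle]
    have hpl : ∀ l < i, ∀ s, (p (some (c l))).eval s - eval (fun o => (p o).eval s) (G l) =
        (b (some (c l)) - eval b (G l)) + ((b' (some (c l)) - eval b' (G l)) -
          (b (some (c l)) - eval b (G l))) / (2 * δ) * s := by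
      intro l hl s
      rw [hp, ncv_eval hc hdep hl s, hA]
      simp only [hle]
      ring
    have hδ2 : 0 < 2 * δ := by linarith
    have hst : ∀ {x y s r : ℝ} {n : ℕ}, |x| ≤ 1 / 2 / 2 ^ n → |y - x| ≤ δ / 2 ^ n → |s| ≤ 1 →
        |x + (y - x) / (2 * δ) * s| ≤ 1 / 2 ^ n := by
      intro x y s r n hx hy hs
      have h1 : |(y - x) / (2 * δ) * s| ≤ 1 / 2 / 2 ^ n := by
        rw [abs_mul, abs_div, abs_of_pos hδ2]
        calc |y - x| / (2 * δ) * |s| ≤ (δ / 2 ^ n) / (2 * δ) * 1 := by
              refine mul_le_mul (div_le_div_of_nonneg_right hy hδ2.le) hs (abs_nonneg _) (by positivity)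
          _ = 1 / 2 / 2 ^ n := by field_simp
      have h2 : (1 : ℝ) / 2 ^ n = 1 / 2 / 2 ^ n + 1 / 2 / 2 ^ n := by ring
      rw [h2]
      exact (abs_add_le _ _).trans (add_le_add hx h1)
    have hN : ∀ s : ℝ, |s| ≤ 1 → NBx c G q a t i (fun o => (p o).eval s) := by
      intro s hs
      refine ⟨?_, fun l hl => ?_⟩
      · simp only [hp0]
        have e1 : b none + (b' none - b none) / (2 * δ) * s - t =
            (b none - t) + ((b' none - t) - (b none - t)) / (2 * δ) * s := by ring
        rw [e1]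
        refine hst (r := 0) hb0 ?_ hs
        have e2 : b' none - t - (b none - t) = -(b none - b' none) := by ring
        rw [e2, abs_neg]
        exact hbb
      · simp only [hpl l hl]
        refine hst (r := 0) (hb l hl) ?_ hs
        rw [abs_sub_comm]
        exact hbv l hl
    have hval : ∀ (s : ℝ) (b₁ : Option (Fin m) → ℝ), (p none).eval s = b₁ none →
        (∀ l < i, (p (some (c l))).eval s - eval (fun o => (p o).eval s) (G l) =
          b₁ (some (c l)) - eval b₁ (G l)) →
        (MvPolynomial.aeval p Q).eval s = eval b₁ Q := by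
      intro s b₁ h0 h1
      rw [Pool.KBX.eval_aeval_poly]
      exact hQ _ _ h0 (nbu (b := fun o => (p o).eval s) hdep h0 h1)
    have hqd : (MvPolynomial.aeval p Q).natDegree ≤ D :=
      (Pool.CHT.natDegree_aeval_mul Q p hpd hQd).trans hD
    have h1 := (h (MvPolynomial.aeval p Q) M hqd fun s hs => by
      rw [Pool.KBX.eval_aeval_poly]
      exact hM _ (hN s hs)).2 0 (2 * δ) (by simp) (by
        rw [abs_of_pos hδ2]
        linarith)
    rw [hval 0 b (by rw [hp0]; ring) fun l hl => by rw [hpl l hl]; ring,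
      hval (2 * δ) b' (by rw [hp0]; field_simp; ring) fun l hl => by
        rw [hpl l hl]; field_simp; ring] at h1
    refine h1.trans ?_
    rw [zero_sub, abs_neg, abs_of_pos hδ2]
    have : C * M * (2 * δ) ≤ 4 * C * M * δ := by
      have : 0 ≤ C * M * δ := by positivity
      linarith
    exact this

/-! ### The maximum -/

/-- The natural chart. -/
noncomputable def nch (c : ℕ → Fin m) (G : ℕ → MvPolynomial (Option (Fin m)) ℝ)
    (b₀ : Option (Fin m) → ℝ) : ℕ → ℝ × (ℕ → ℝ) → Option (Fin m) → ℝ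
  | 0, v => fun o => match o with
    | none => v.1
    | some k => b₀ (some k)
  | k + 1, v => Function.update (nch c G b₀ k v) (some (c k))
      (eval (nch c G b₀ k v) (G k) + v.2 k)

theorem nch_cont (c : ℕ → Fin m) (G : ℕ → MvPolynomial (Option (Fin m)) ℝ)
    (b₀ : Option (Fin m) → ℝ) (k : ℕ) : Continuous (nch c G b₀ k) := by
  induction k with
  | zero =>
    refine continuous_pi fun o => ?_
    rcases o with _ | k
    · exact continuous_fst
    · exact continuous_const
  | succ k ih =>
    refine continuous_pi fun o => ?_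
    by_cases h : o = some (c k)
    · subst h
      have : (fun v => nch c G b₀ (k + 1) v (some (c k))) =
          fun v => eval (nch c G b₀ k v) (G k) + v.2 k := by
        funext v
        rw [nch, Function.update_self]
      rw [this]
      refine Continuous.add ?_ ((continuous_apply k).comp continuous_snd)
      exact (MvPolynomial.continuous_eval (G k)).comp ih
    · have : (fun v => nch c G b₀ (k + 1) v o) = fun v => nch c G b₀ k v o := by
        funext v
        rw [nch, Function.update_of_ne h]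
      rw [this]
      exact (continuous_apply o).comp ih

theorem nch_none (c : ℕ → Fin m) (G : ℕ → MvPolynomial (Option (Fin m)) ℝ)
    (b₀ : Option (Fin m) → ℝ) (k : ℕ) (v : ℝ × (ℕ → ℝ)) : nch c G b₀ k v none = v.1 := by
  induction k with
  | zero => rfl
  | succ k ih =>
    rw [nch, Function.update_of_ne (by simp)]
    exact ih

theorem nch_lt {c : ℕ → Fin m} {G : ℕ → MvPolynomial (Option (Fin m)) ℝ}
    {b₀ : Option (Fin m) → ℝ} {i : ℕ} (hc : Set.InjOn c (Set.Iio i)) (v : ℝ × (ℕ → ℝ)) {l k : ℕ}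
    (hl : l < k) (hk : k ≤ i) :
    nch c G b₀ k v (some (c l)) = eval (nch c G b₀ l v) (G l) + v.2 l := by
  induction k with
  | zero => omega
  | succ k ih =>
    rw [nch]
    rcases Nat.lt_or_ge l k with h | h
    · have hne : (some (c l) : Option (Fin m)) ≠ some (c k) := by
        intro he
        have := hc (Set.mem_Iio.2 (by omega)) (Set.mem_Iio.2 (by omega)) (Option.some_injective _ he)
        omega
      rw [Function.update_of_ne hne]
      exact ih h (by omega)
    · have : l = k := by omega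
      subst this
      rw [Function.update_self]

theorem nch_eval {c : ℕ → Fin m} {G : ℕ → MvPolynomial (Option (Fin m)) ℝ}
    {b₀ : Option (Fin m) → ℝ} {i : ℕ} (hc : Set.InjOn c (Set.Iio i))
    (hdep : ∀ l, DepC c l (G l)) (v : ℝ × (ℕ → ℝ)) {l : ℕ} (hl : l < i) :
    nch c G b₀ i v (some (c l)) - eval (nch c G b₀ i v) (G l) = v.2 l := by
  rw [nch_lt hc v hl le_rfl]
  have : eval (nch c G b₀ l v) (G l) = eval (nch c G b₀ i v) (G l) := by
    refine hdep l _ _ ?_ fun l' hl' => ?_
    · rw [nch_none, nch_none]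
    · rw [nch_lt hc v hl' hl.le, nch_lt hc v (hl'.trans hl) le_rfl]
  rw [this]
  ring

/-- **The maximum** of a polynomial on a natural box is attained. -/
theorem nmax {c : ℕ → Fin m} {i : ℕ} {G : ℕ → MvPolynomial (Option (Fin m)) ℝ}
    {Q : MvPolynomial (Option (Fin m)) ℝ} {q : ℕ → ℕ} {a : ℕ} {t : ℝ}
    (hc : Set.InjOn c (Set.Iio i)) (hdep : ∀ l, DepC c l (G l)) (hQ : DepC c i Q) :
    ∃ b, NBx c G q a t i b ∧ ∀ b', NBx c G q a t i b' → |eval b' Q| ≤ |eval b Q| := by
  obtain ⟨S, hS⟩ : ∃ S : Set (ℝ × (ℕ → ℝ)), S = Set.Icc (t - 1 / 2 ^ a) (t + 1 / 2 ^ a) ×ˢ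
      Set.pi Set.univ (fun l => Set.Icc (-(1 / 2 ^ q l)) (1 / 2 ^ q l)) := ⟨_, rfl⟩
  have hcp : IsCompact S := by
    rw [hS]
    exact isCompact_Icc.prod (isCompact_univ_pi fun l => isCompact_Icc)
  have hne : S.Nonempty := by
    refine ⟨(t, fun _ => 0), ?_⟩
    rw [hS]
    refine ⟨⟨?_, ?_⟩, fun l _ => ⟨?_, ?_⟩⟩
    · show t - 1 / 2 ^ a ≤ t
      have : (0 : ℝ) < 1 / 2 ^ a := by positivity
      linarith
    · show t ≤ t + 1 / 2 ^ a
      have : (0 : ℝ) < 1 / 2 ^ a := by positivity
      linarith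
    · show -(1 / 2 ^ q l) ≤ (0 : ℝ)
      have : (0 : ℝ) < 1 / 2 ^ q l := by positivity
      linarith
    · show (0 : ℝ) ≤ 1 / 2 ^ q l
      positivity
  have hcont : Continuous fun v => |eval (nch c G (fun _ => 0) i v) Q| :=
    ((MvPolynomial.continuous_eval Q).comp (nch_cont c G _ i)).abs
  obtain ⟨v, hv, hmax⟩ := hcp.exists_isMaxOn hne hcont.continuousOn
  refine ⟨nch c G (fun _ => 0) i v, ⟨?_, fun l hl => ?_⟩, fun b' hb' => ?_⟩
  · rw [nch_none, abs_le]
    rw [hS] at hv
    have := hv.1
    constructor <;> linarith [this.1, this.2]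
  · rw [nch_eval hc hdep v hl, abs_le]
    rw [hS] at hv
    have := hv.2 l (Set.mem_univ _)
    exact ⟨this.1, this.2⟩
  · obtain ⟨v', hv'⟩ : ∃ v' : ℝ × (ℕ → ℝ), v' = (b' none, fun l => if l < i then
      b' (some (c l)) - eval b' (G l) else 0) := ⟨_, rfl⟩
    have h1 : v' ∈ S := by
      rw [hS, hv']
      refine ⟨?_, fun l _ => ?_⟩
      · have := abs_le.1 hb'.1
        exact ⟨by linarith [this.1], by linarith [this.2]⟩
      · show (if l < i then b' (some (c l)) - eval b' (G l) else 0) ∈ _
        split_ifs with hl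
        · exact abs_le.1 (hb'.2 l hl)
        · have : (0 : ℝ) < 1 / 2 ^ q l := by positivity
          exact ⟨by linarith, this.le⟩
    have h2 : |eval (nch c G (fun _ => 0) i v') Q| ≤ |eval (nch c G (fun _ => 0) i v) Q| :=
      hmax h1
    have h3 : eval (nch c G (fun _ => 0) i v') Q = eval b' Q := by
      have h0 : nch c G (fun _ => 0) i v' none = b' none := by rw [nch_none, hv']
      refine hQ _ _ h0 (nbu hdep h0 fun l hl => ?_)
      rw [nch_eval hc hdep v' hl, hv']
      simp only [if_pos hl]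
    rw [h3] at h2
    exact h2

end Pool.RLV
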