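import Pool.Agent.H95.GN.Nwb

/-!
# Newton's iteration on natural boxes: the root of a relation

A relation `Rx` (with its line side `Rl`) which is small at the own point and has a derivative
which is not small defines, by the iteration, a better label of the last coordinate.
-/

set_option autoImplicit false

namespace Pool.RLV

open Finset Real MvPolynomial
open Pool.GEN

variable {m : ℕ}

theorem NwD.nrb {c : ℕ → Fin m} {j : ℕ} {K : ℕ → ℕ} {G H : ℕ → MvPolynomial (Option (Fin m)) ℝ}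
    {q p : ℕ → ℕ} {a e o : ℕ} {b₀ : Option (Fin m) → ℝ} {ox : ℕ → ℝ} {ol : ℕ → Polynomial ℝ}
    (hD : NwD c j K G H q p a e b₀) (hO : Ofs c j G H q a o b₀ ox ol)
    (hgap : ∀ l ≤ j, q l + 2 ≤ p l) (ho : 3 ≤ o) {i : ℕ} (hi : i ≤ j + 1)
    {G' : ℕ → MvPolynomial (Option (Fin m)) ℝ} {g' : ℕ → ℕ}
    (hG' : ∀ l < i, G' l = G l + C (ox l)) (hg' : ∀ l < i, q l + o ≤ g' l)
    {b : Option (Fin m) → ℝ} (hb : NBx c G' g' (a + o) (b₀ none) i b) :
    Nrb c G q a i b₀ (2 / 2 ^ o) b := by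
  have h := hD.box hO hgap ho hi hG' hg' hb
  refine ⟨h.1.trans (div_le_div_of_nonneg_right ?_ (by positivity)), h.2.2.2⟩
  exact div_le_div_of_nonneg_right (by norm_num) (by positivity)

/-- **A relation with its line side**, at one sample. -/
structure NwR (c : ℕ → Fin m) (j : ℕ) (G : ℕ → MvPolynomial (Option (Fin m)) ℝ) (q : ℕ → ℕ)
    (a Kd : ℕ) (b₀ : Option (Fin m) → ℝ) (M : ℝ) (μ ν : ℕ)
    (Rx Rl : MvPolynomial (Option (Fin m)) ℝ) : Prop where
  degx : Rx.totalDegree ≤ Kd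
  degl : Rl.totalDegree ≤ Kd
  depx : DepC c (j + 1) Rx
  depl : DepC c (j + 1) Rl
  M0 : 0 < M
  up : ∀ b, NBx c G q a (b₀ none) (j + 1) b → |eval b Rx| ≤ M
  two : ∀ b, NBx c G q a (b₀ none) (j + 1) b → |eval b Rx - eval b Rl| ≤ M / 2 ^ ν
  own : |eval b₀ Rx| ≤ M / 2 ^ ν
  der : M / 2 ^ μ * 2 ^ q j ≤ |eval b₀ (pderiv (some (c j)) Rx)|

/-- **The iteration near the own point.** -/
theorem newt_core (j Kd : ℕ) (K : ℕ → ℕ) : ∃ κ : ℕ, 6 ≤ κ ∧ ∀ {m : ℕ} {c : ℕ → Fin m}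
    {G H : ℕ → MvPolynomial (Option (Fin m)) ℝ} {q p : ℕ → ℕ} {a e o μ ν : ℕ}
    {b₀ : Option (Fin m) → ℝ} {ox : ℕ → ℝ} {ol : ℕ → Polynomial ℝ} {M Ax Al : ℝ}
    {Rx Rl : MvPolynomial (Option (Fin m)) ℝ}, NwD c j K G H q p a e b₀ →
    Ofs c j G H q a o b₀ ox ol → NwR c j G q a Kd b₀ M μ ν Rx Rl →
    (∀ l ≤ j, q l + 2 ≤ p l) → 3 * μ + 2 * κ ≤ o → 3 * μ + 2 * κ ≤ ν →
    |Ax - eval b₀ (pderiv (some (c j)) Rx)| ≤
      |eval b₀ (pderiv (some (c j)) Rx)| / 2 ^ (μ + 4) →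
    |Al - eval b₀ (pderiv (some (c j)) Rx)| ≤
      |eval b₀ (pderiv (some (c j)) Rx)| / 2 ^ (μ + 4) →
    ∀ b, Nrb c G q a j b₀ (2 / 2 ^ o) b → |b none - b₀ none| ≤ 1 / 2 ^ (a + o) →
      (Ax ≠ 0 ∧ Al ≠ 0 ∧ M / 2 ^ (μ + 1) * 2 ^ q j ≤ |Ax| ∧
        |Ax| ≤ 2 ^ κ * M * 2 ^ q j ∧ |Al| ≤ 2 ^ κ * M * 2 ^ q j) ∧
      (∀ y, |y - (eval b (G j) + ox j)| ≤ 1 / 2 ^ (q j + (2 * μ + κ)) →
        NBx c G q a (b₀ none) (j + 1) (Function.update b (some (c j)) y) ∧
        (|(Function.update b (some (c j)) y) none - b₀ none| ≤ 1 / 2 / 2 ^ a ∧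
          ∀ l < j + 1, |(Function.update b (some (c j)) y) (some (c l)) -
            eval (Function.update b (some (c j)) y) (G l)| ≤ 1 / 2 / 2 ^ q l) ∧
        |eval (Function.update b (some (c j)) y) (pderiv (some (c j)) Rx) - Ax| ≤
          1 / 2 ^ (μ + 2) * |Ax| ∧
        |eval (Function.update b (some (c j)) y) (pderiv (some (c j)) Rl) - Al| ≤
          1 / 2 ^ (μ + 2) * |Al|) ∧
      |eval b (H j + toN m (ol j)) - (eval b (G j) + ox j)| ≤
        1 / 2 ^ (q j + (2 * μ + κ)) / 2 ∧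
      |eval (Function.update b (some (c j)) (eval b (G j) + ox j)) Rx| ≤
        1 / 2 ^ (q j + (2 * μ + κ)) / 4 * |Ax| ∧
      |eval (Function.update b (some (c j)) (eval b (H j + toN m (ol j)))) Rl| ≤
        1 / 2 ^ (q j + (2 * μ + κ)) / 4 * |Al| := by
  obtain ⟨C₁, hC₁, h₁⟩ := ntop Kd
  obtain ⟨C₂, hC₂, h₂⟩ := var_own (max Kd (K j) * dg K (j + 1))
  obtain ⟨κ, hκ⟩ := pow_unbounded_of_one_lt (1024 * (C₁ * C₂)) (one_lt_two (α := ℝ))
  have hC1κ₀ : C₁ ≤ C₁ * C₂ := le_mul_of_one_le_right (by linarith) hC₂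
  have hC2κ₀ : C₂ ≤ C₁ * C₂ := le_mul_of_one_le_left (by linarith) hC₁
  refine ⟨κ + 6, by omega, ?_⟩
  intro m c G H q p a e o μ ν b₀ ox ol M Ax Al Rx Rl hD hO hR hgap ho hν hAx hAl b hb hbt
  have hκ' : (1024 * (C₁ * C₂) : ℝ) ≤ 2 ^ (κ + 6) :=
    hκ.le.trans (pow_le_pow_right₀ (by norm_num) (by omega))
  have hC12 : 1 ≤ C₁ * C₂ := hC₁.trans hC1κ₀
  obtain ⟨κ', hκe⟩ : ∃ κ' : ℕ, κ' = κ + 6 := ⟨_, rfl⟩
  rw [← hκe] at hκ' ho hν ⊢
  have h6 : 6 ≤ κ' := by omega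
  have hM := hR.M0
  obtain ⟨A₀, hA₀⟩ : ∃ A₀, A₀ = eval b₀ (pderiv (some (c j)) Rx) := ⟨_, rfl⟩
  have hder := hR.der
  rw [← hA₀] at hAx hAl hder
  have hQ0 : (0 : ℝ) < 2 ^ q j := by positivity
  have hown := hD.own hgap
  have hown0 : NBx c G q a (b₀ none) (j + 1) b₀ := by
    refine half_box ⟨?_, fun l hl => (hown l (by omega)).trans ?_⟩
    · rw [sub_self, abs_zero]; positivity
    · exact div_le_div_of_nonneg_right (by norm_num) (by positivity)
  -- bounds of the derivatives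
  have hdx : ∀ b, NBx c G q a (b₀ none) (j + 1) b →
      |eval b (pderiv (some (c j)) Rx)| ≤ C₁ * M * 2 ^ q j := by
    intro b hb
    have := h₁ hD.inj hD.depG hR.degx hR.up b hb 1
    simpa using this
  have hdl : ∀ b, NBx c G q a (b₀ none) (j + 1) b →
      |eval b (pderiv (some (c j)) Rx) - eval b (pderiv (some (c j)) Rl)| ≤
        C₁ * (M / 2 ^ ν) * 2 ^ q j := by
    intro b hb
    have := h₁ (Q := Rx - Rl) hD.inj hD.depG ((totalDegree_sub _ _).trans
      (max_le hR.degx hR.degl)) (fun b hb => by rw [map_sub]; exact hR.two b hb) b hb 1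
    simpa using this
  have hA0up : |A₀| ≤ C₁ * M * 2 ^ q j := by
    rw [hA₀]
    exact hdx b₀ hown0
  have hA0pos : 0 < |A₀| := lt_of_lt_of_le (by positivity) hder
  have hAq : ∀ n : ℕ, |A₀| / 2 ^ (n + 4) ≤ |A₀| / 16 := by
    intro n
    refine div_le_div_of_nonneg_left hA0pos.le (by norm_num) ?_
    calc (16 : ℝ) = 2 ^ 4 := by norm_num
      _ ≤ 2 ^ (n + 4) := pow_le_pow_right₀ (by norm_num) (by omega)
  have hlow : ∀ A : ℝ, |A - A₀| ≤ |A₀| / 2 ^ (μ + 4) → 15 / 16 * |A₀| ≤ |A| ∧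
      |A| ≤ 17 / 16 * |A₀| := by
    intro A hA
    have h1 := hA.trans (hAq μ)
    have h2 : |A₀| ≤ |A| + |A - A₀| := by
      have := abs_sub_abs_le_abs_sub A₀ A
      rw [abs_sub_comm A₀ A] at this
      linarith
    have h3 : |A| ≤ |A₀| + |A - A₀| := by
      have := abs_sub_abs_le_abs_sub A A₀
      linarith
    constructor <;> linarith
  obtain ⟨hx1, hx2⟩ := hlow Ax hAx
  obtain ⟨hl1, hl2⟩ := hlow Al hAl
  have hμ0 : (0 : ℝ) < 2 ^ μ := by positivity
  have hMμ : M / 2 ^ (μ + 1) * 2 ^ q j ≤ 1 / 2 * |A₀| := by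
    have e1 : M / 2 ^ (μ + 1) * 2 ^ q j = 1 / 2 * (M / 2 ^ μ * 2 ^ q j) := by
      rw [pow_succ]
      field_simp
    rw [e1]
    exact mul_le_mul_of_nonneg_left hder (by norm_num)
  have hup : 17 / 16 * |A₀| ≤ 2 ^ κ' * M * 2 ^ q j := by
    have h1 : 2 * C₁ ≤ (2 : ℝ) ^ κ' := by linarith only [hκ', hC1κ₀, hC12]
    have h2 : 0 < M * 2 ^ q j := by positivity
    have h3 := mul_le_mul_of_nonneg_right h1 h2.le
    have h4 : 17 / 16 * |A₀| ≤ 17 / 16 * (C₁ * M * 2 ^ q j) :=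
      mul_le_mul_of_nonneg_left hA0up (by norm_num)
    have h5 : 0 < C₁ * (M * 2 ^ q j) := by positivity
    have e5 : 17 / 16 * (C₁ * M * 2 ^ q j) = 17 / 16 * (C₁ * (M * 2 ^ q j)) := by ring
    have e6 : 2 ^ κ' * M * 2 ^ q j = 2 ^ κ' * (M * 2 ^ q j) := by ring
    have e7 : 2 * C₁ * (M * 2 ^ q j) = 2 * (C₁ * (M * 2 ^ q j)) := by ring
    rw [e6]
    rw [e5] at h4
    rw [e7] at h3
    linarith only [h3, h4, h5]
  -- the ball
  obtain ⟨ρ, hρ⟩ : ∃ ρ : ℝ, ρ = 1 / 2 ^ (q j + (2 * μ + κ')) := ⟨_, rfl⟩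
  have hρ0 : 0 < ρ := by rw [hρ]; positivity
  obtain ⟨δ, hδ⟩ : ∃ δ : ℝ, δ = 2 / 2 ^ (2 * μ + κ') := ⟨_, rfl⟩
  have hδ0 : 0 < δ := by rw [hδ]; positivity
  have hδ4 : δ ≤ 1 / 4 := by
    rw [hδ, div_le_div_iff₀ (by positivity) (by norm_num)]
    calc (2 : ℝ) * 4 = 2 ^ 3 := by norm_num
      _ ≤ 2 ^ (2 * μ + κ') := pow_le_pow_right₀ (by norm_num) (by omega)
      _ = 1 * 2 ^ (2 * μ + κ') := (one_mul _).symm
  have hδo : (2 : ℝ) / 2 ^ o ≤ δ := by
    rw [hδ]
    exact div_le_div_of_nonneg_left (by norm_num) (by positivity)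
      (pow_le_pow_right₀ (by norm_num) (by omega))
  have ho2 : (1 : ℝ) / 2 ^ (q j + o + 2) ≤ ρ / 4 := by
    rw [hρ, div_div, div_le_div_iff₀ (by positivity) (by positivity), one_mul, one_mul]
    calc (2 : ℝ) ^ (q j + (2 * μ + κ')) * 4 = 2 ^ (q j + (2 * μ + κ') + 2) := by ring
      _ ≤ 2 ^ (q j + o + 2) := pow_le_pow_right₀ (by norm_num) (by omega)
  have hρδ : ρ + ρ / 4 ≤ δ / 2 ^ q j := by
    have e1 : δ / 2 ^ q j = 2 * ρ := by
      rw [hδ, hρ, pow_add (2 : ℝ) (q j)]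
      field_simp
    rw [e1]
    linarith
  have hnr : ∀ y, |y - (eval b (G j) + ox j)| ≤ ρ →
      Nrb c G q a (j + 1) b₀ δ (Function.update b (some (c j)) y) := by
    intro y hy
    refine Nrb.upd hD.inj hD.depG ⟨hb.1.trans (div_le_div_of_nonneg_right hδo (by positivity)),
      fun l hl => (hb.2 l hl).trans (div_le_div_of_nonneg_right hδo (by positivity))⟩ ?_
    have e1 : y - eval b (G j) - (b₀ (some (c j)) - eval b₀ (G j)) =
        (y - (eval b (G j) + ox j)) + (ox j - (b₀ (some (c j)) - eval b₀ (G j))) := by ring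
    rw [e1]
    exact (abs_add_le _ _).trans ((add_le_add hy ((hO.x j le_rfl).trans ho2)).trans hρδ)
  have hownj : ∀ l < j + 1, |b₀ (some (c l)) - eval b₀ (G l)| ≤ 1 / 4 / 2 ^ q l := fun l hl =>
    hown l (by omega)
  have hbox : ∀ y, |y - (eval b (G j) + ox j)| ≤ ρ →
      NBx c G q a (b₀ none) (j + 1) (Function.update b (some (c j)) y) := fun y hy =>
    half_box ((hnr y hy).half hδ4 hownj)
  -- the derivative in the ball
  have hpdeg : (pderiv (some (c j)) Rx).totalDegree ≤ Kd :=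
    Pool.KS3.SML.totalDegree_pderiv_le _ _ _ (hR.degx.trans (Nat.le_succ _))
  have hvd : ∀ y, |y - (eval b (G j) + ox j)| ≤ ρ →
      |eval (Function.update b (some (c j)) y) (pderiv (some (c j)) Rx) - A₀| ≤
        |A₀| / 2 ^ (μ + 6) := by
    intro y hy
    have h1 := h₂ hD.inj hD.degG hD.depG (hR.depx.pderiv j) hpdeg
      (Nat.mul_le_mul_right _ (le_max_left _ _)) hdx hδ0 hδ4 hownj (hnr y hy)
    rw [← hA₀] at h1
    refine h1.trans ?_
    have h3 : C₂ * (C₁ * M * 2 ^ q j) * δ ≤ (M / 2 ^ μ * 2 ^ q j) / 2 ^ (μ + 6) := by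
      have e1 : C₂ * (C₁ * M * 2 ^ q j) * δ = (C₁ * C₂ * 2) * (M * 2 ^ q j) / 2 ^ (2 * μ + κ') := by
        rw [hδ]
        ring
      have e2 : (M / 2 ^ μ * 2 ^ q j) / 2 ^ (μ + 6) = (M * 2 ^ q j) / 2 ^ (2 * μ + 6) := by
        rw [div_mul_eq_mul_div, div_div, ← pow_add]
        congr 2
        ring
      rw [e1, e2, div_le_div_iff₀ (by positivity) (by positivity)]
      have e3 : (2 : ℝ) ^ (2 * μ + κ') = 2 ^ (2 * μ) * 2 ^ κ' := pow_add _ _ _
      have e4 : (2 : ℝ) ^ (2 * μ + 6) = 2 ^ (2 * μ) * 64 := by rw [pow_add]; norm_num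
      rw [e3, e4]
      have h4 : (C₁ * C₂ * 2) * 64 ≤ (2 : ℝ) ^ κ' := by linarith only [hκ', hC12]
      have h5 : 0 < M * 2 ^ q j * 2 ^ (2 * μ) := by positivity
      have h6 := mul_le_mul_of_nonneg_right h4 h5.le
      calc C₁ * C₂ * 2 * (M * 2 ^ q j) * (2 ^ (2 * μ) * 64) =
            C₁ * C₂ * 2 * 64 * (M * 2 ^ q j * 2 ^ (2 * μ)) := by ring
        _ ≤ 2 ^ κ' * (M * 2 ^ q j * 2 ^ (2 * μ)) := h6
        _ = M * 2 ^ q j * (2 ^ (2 * μ) * 2 ^ κ') := by ring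
    exact h3.trans (div_le_div_of_nonneg_right hder (by positivity))
  have hvl : ∀ y, |y - (eval b (G j) + ox j)| ≤ ρ →
      |eval (Function.update b (some (c j)) y) (pderiv (some (c j)) Rl) - A₀| ≤
        |A₀| / 2 ^ (μ + 5) := by
    intro y hy
    have h1 := hdl _ (hbox y hy)
    have h3 : C₁ * (M / 2 ^ ν) * 2 ^ q j ≤ |A₀| / 2 ^ (μ + 6) := by
      refine le_trans ?_ (div_le_div_of_nonneg_right hder (by positivity))
      have e1 : C₁ * (M / 2 ^ ν) * 2 ^ q j = C₁ * (M * 2 ^ q j) / 2 ^ ν := by ring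
      have e2 : (M / 2 ^ μ * 2 ^ q j) / 2 ^ (μ + 6) = (M * 2 ^ q j) / 2 ^ (2 * μ + 6) := by
        rw [div_mul_eq_mul_div, div_div, ← pow_add]
        congr 2
        ring
      rw [e1, e2, div_le_div_iff₀ (by positivity) (by positivity)]
      have h4 : C₁ * 2 ^ (2 * μ + 6) ≤ (2 : ℝ) ^ ν := by
        calc C₁ * (2 : ℝ) ^ (2 * μ + 6) ≤ 2 ^ κ' * 2 ^ (2 * μ + 6) :=
              mul_le_mul_of_nonneg_right (by linarith only [hκ', hC1κ₀, hC12]) (by positivity)
          _ = 2 ^ (2 * μ + 6 + κ') := by ring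
          _ ≤ 2 ^ ν := pow_le_pow_right₀ (by norm_num) (by omega)
      have h5 : 0 < M * 2 ^ q j := by positivity
      have h6 := mul_le_mul_of_nonneg_right h4 h5.le
      calc C₁ * (M * 2 ^ q j) * 2 ^ (2 * μ + 6) = C₁ * 2 ^ (2 * μ + 6) * (M * 2 ^ q j) := by ring
        _ ≤ 2 ^ ν * (M * 2 ^ q j) := h6
        _ = M * 2 ^ q j * 2 ^ ν := by ring
    have h2 := hvd y hy
    have e1 : eval (Function.update b (some (c j)) y) (pderiv (some (c j)) Rl) - A₀ =
        (eval (Function.update b (some (c j)) y) (pderiv (some (c j)) Rx) - A₀) -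
          (eval (Function.update b (some (c j)) y) (pderiv (some (c j)) Rx) -
            eval (Function.update b (some (c j)) y) (pderiv (some (c j)) Rl)) := by ring
    rw [e1]
    refine (abs_sub _ _).trans ((add_le_add h2 (h1.trans h3)).trans (le_of_eq ?_))
    rw [show μ + 6 = (μ + 5) + 1 from rfl, pow_succ]
    field_simp
    ring
  have hfin : ∀ {A z : ℝ}, |A - A₀| ≤ |A₀| / 2 ^ (μ + 4) → 15 / 16 * |A₀| ≤ |A| →
      |z - A₀| ≤ |A₀| / 2 ^ (μ + 5) → |z - A| ≤ 1 / 2 ^ (μ + 2) * |A| := by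
    intro A z h1 h2 h3
    have e1 : z - A = (z - A₀) - (A - A₀) := by ring
    rw [e1]
    refine (abs_sub _ _).trans ((add_le_add h3 h1).trans ?_)
    have e2 : |A₀| / 2 ^ (μ + 5) + |A₀| / 2 ^ (μ + 4) = 3 / 32 * (|A₀| / 2 ^ μ) := by
      rw [pow_add, pow_add]
      field_simp
      ring
    have e3 : 1 / 2 ^ (μ + 2) * |A| = 1 / 4 * (|A| / 2 ^ μ) := by
      have e4 : (2 : ℝ) ^ (μ + 2) = 4 * 2 ^ μ := by
        rw [pow_add]
        norm_num
        ring
      rw [e4]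
      field_simp
    rw [e2, e3]
    have h4 : 15 / 16 * (|A₀| / 2 ^ μ) ≤ |A| / 2 ^ μ := by
      rw [← mul_div_assoc]
      exact div_le_div_of_nonneg_right h2 hμ0.le
    have h5 : 0 ≤ |A₀| / 2 ^ μ := by positivity
    linarith
  -- the line side at the start
  have hdegGH : (G j - H j).totalDegree ≤ K j :=
    (totalDegree_sub _ _).trans (max_le (hD.degG j) (hD.degH j))
  have hinj : Set.InjOn c (Set.Iio j) := fun x hx y hy h =>
    hD.inj (Set.mem_Iio.2 ((Set.mem_Iio.1 hx).trans (Nat.lt_succ_self j)))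
      (Set.mem_Iio.2 ((Set.mem_Iio.1 hy).trans (Nat.lt_succ_self j))) h
  have ho3 : (2 : ℝ) / 2 ^ o ≤ 1 / 4 := hδo.trans hδ4
  have hgh := h₂ (Q := G j - H j) hinj hD.degG hD.depG (dep_sub (hD.depG j) (hD.depH j)) hdegGH
    (Nat.mul_le_mul (le_max_right _ _) (dg_mono K (Nat.le_succ j)))
    (fun b hb => by rw [map_sub]; exact hD.agr j le_rfl b hb) (by positivity) ho3
    (fun l hl => hown l hl.le) hb
  rw [map_sub, map_sub] at hgh
  have hlv := hO.lv j le_rfl _ hbt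
  have hl0 := hO.l0 j le_rfl
  have hxj := hO.x j le_rfl
  have hst : |eval b (H j + toN m (ol j)) - (eval b (G j) + ox j)| ≤ ρ / 64 := by
    have e1 : eval b (H j + toN m (ol j)) - (eval b (G j) + ox j) =
        -(eval b (G j) - eval b (H j) - (eval b₀ (G j) - eval b₀ (H j))) +
          (((ol j).eval (b none) - (ol j).eval (b₀ none)) -
            (ox j - (b₀ (some (c j)) - eval b₀ (G j)))) := by
      rw [map_add, toN_eval, hl0]
      ring
    rw [e1]
    refine (abs_add_le _ _).trans ?_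
    rw [abs_neg]
    refine (add_le_add hgh ((abs_sub _ _).trans (add_le_add hlv hxj))).trans ?_
    have h1 : (1 : ℝ) / 2 ^ p j ≤ 1 / 2 ^ q j := p2le ((Nat.le_add_right _ 2).trans (hgap j le_rfl))
    have h2 : C₂ * (1 / 2 ^ p j) * (2 / 2 ^ o) ≤ C₂ * (1 / 2 ^ q j) * (2 / 2 ^ o) :=
      mul_le_mul_of_nonneg_right (mul_le_mul_of_nonneg_left h1 (by linarith)) (by positivity)
    have h3 : C₂ * (1 / 2 ^ q j) * (2 / 2 ^ o) + (1 / 2 ^ (q j + o + 2) + 1 / 2 ^ (q j + o + 2)) ≤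
        4 * C₂ / 2 ^ (q j + o) := by
      have e2 : (2 : ℝ) ^ (q j + o + 2) = 4 * 2 ^ (q j + o) := by
        rw [pow_add (2 : ℝ) (q j + o)]
        norm_num
        ring
      have e3 : C₂ * (1 / 2 ^ q j) * (2 / 2 ^ o) = 2 * C₂ / 2 ^ (q j + o) := by
        rw [pow_add]
        field_simp
      rw [e2, e3]
      have e4 : (2 : ℝ) * C₂ / 2 ^ (q j + o) + (1 / (4 * 2 ^ (q j + o)) +
          1 / (4 * 2 ^ (q j + o))) = (2 * C₂ + 1 / 2) / 2 ^ (q j + o) := by
        field_simp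
        ring
      rw [e4]
      exact div_le_div_of_nonneg_right (by linarith) (by positivity)
    refine (add_le_add h2 le_rfl).trans (h3.trans ?_)
    rw [hρ, div_div, div_le_div_iff₀ (by positivity) (by positivity)]
    have h4 : 4 * C₂ * 64 ≤ (2 : ℝ) ^ κ' := by linarith only [hκ', hC2κ₀, hC12]
    calc 4 * C₂ * (2 ^ (q j + (2 * μ + κ')) * 64) = (4 * C₂ * 64) * 2 ^ (q j + (2 * μ + κ')) := by
          ring
      _ ≤ 2 ^ κ' * 2 ^ (q j + (2 * μ + κ')) := mul_le_mul_of_nonneg_right h4 (by positivity)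
      _ = 2 ^ (q j + (2 * μ + κ') + κ') := by ring
      _ ≤ 2 ^ (q j + o) := pow_le_pow_right₀ (by norm_num) (by omega)
      _ = 1 * 2 ^ (q j + o) := (one_mul _).symm
  -- the residuals
  have hAρ : ∀ {A : ℝ}, 15 / 16 * |A₀| ≤ |A| → 15 / 16 * (M / 2 ^ (3 * μ + κ')) ≤ ρ * |A| := by
    intro A hA
    have h1 : M / 2 ^ (3 * μ + κ') = ρ * (M / 2 ^ μ * 2 ^ q j) := by
      rw [hρ]
      have e2 : (2 : ℝ) ^ (3 * μ + κ') = 2 ^ (2 * μ + κ') * 2 ^ μ := by
        rw [← pow_add]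
        congr 1
        ring
      rw [e2, pow_add (2 : ℝ) (q j)]
      field_simp
    rw [h1]
    have h2 := mul_le_mul_of_nonneg_left hder hρ0.le
    have h3 := mul_le_mul_of_nonneg_left hA hρ0.le
    linarith
  have hMν : M / 2 ^ ν ≤ M / 2 ^ (3 * μ + κ') / 64 := by
    rw [div_div]
    refine div_le_div_of_nonneg_left hM.le (by positivity) ?_
    calc (2 : ℝ) ^ (3 * μ + κ') * 64 = 2 ^ (3 * μ + κ' + 6) := by rw [pow_add _ _ 6]; norm_num
      _ ≤ 2 ^ ν := pow_le_pow_right₀ (by norm_num) (by omega)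
  have hyc : |eval b (G j) + ox j - (eval b (G j) + ox j)| ≤ ρ := by
    rw [sub_self, abs_zero]
    exact hρ0.le
  have hrx : |eval (Function.update b (some (c j)) (eval b (G j) + ox j)) Rx| ≤
      M / 2 ^ (3 * μ + κ') / 32 := by
    have h1 := h₂ hD.inj hD.degG hD.depG hR.depx hR.degx
      (Nat.mul_le_mul_right _ (le_max_left _ _)) hR.up (δ := 2 / 2 ^ o) (by positivity) ho3 hownj
      (b := Function.update b (some (c j)) (eval b (G j) + ox j)) (by
        refine Nrb.upd hD.inj hD.depG hb ?_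
        have e1 : eval b (G j) + ox j - eval b (G j) - (b₀ (some (c j)) - eval b₀ (G j)) =
            ox j - (b₀ (some (c j)) - eval b₀ (G j)) := by ring
        rw [e1]
        refine hxj.trans ?_
        rw [div_div, ← pow_add, div_le_div_iff₀ (by positivity) (by positivity), one_mul]
        calc (2 : ℝ) ^ (o + q j) ≤ 2 ^ (q j + o + 2) := pow_le_pow_right₀ (by norm_num) (by omega)
          _ ≤ 2 * 2 ^ (q j + o + 2) := by
            have : (0 : ℝ) < 2 ^ (q j + o + 2) := by positivity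
            linarith)
    have h2 : C₂ * M * (2 / 2 ^ o) ≤ M / 2 ^ (3 * μ + κ') / 64 := by
      have e1 : C₂ * M * (2 / 2 ^ o) = (2 * C₂) * M / 2 ^ o := by ring
      rw [e1, div_div, div_le_div_iff₀ (by positivity) (by positivity)]
      have h4 : 2 * C₂ * 64 ≤ (2 : ℝ) ^ κ' := by linarith only [hκ', hC2κ₀, hC12]
      calc 2 * C₂ * M * (2 ^ (3 * μ + κ') * 64) = (2 * C₂ * 64) * (M * 2 ^ (3 * μ + κ')) := by ring
        _ ≤ 2 ^ κ' * (M * 2 ^ (3 * μ + κ')) := mul_le_mul_of_nonneg_right h4 (by positivity)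
        _ = M * 2 ^ (3 * μ + κ' + κ') := by ring
        _ ≤ M * 2 ^ o := mul_le_mul_of_nonneg_left
            (pow_le_pow_right₀ (by norm_num) (by omega)) hM.le
    have e2 : eval (Function.update b (some (c j)) (eval b (G j) + ox j)) Rx =
        (eval (Function.update b (some (c j)) (eval b (G j) + ox j)) Rx - eval b₀ Rx) +
          eval b₀ Rx := by ring
    rw [e2]
    refine (abs_add_le _ _).trans ((add_le_add (h1.trans h2) (hR.own.trans hMν)).trans
      (le_of_eq ?_))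
    ring
  have hrx' : |eval (Function.update b (some (c j)) (eval b (G j) + ox j)) Rx| ≤
      ρ / 16 * |Ax| := by
    refine hrx.trans ?_
    have := hAρ hx1
    have h0 : 0 < M / 2 ^ (3 * μ + κ') := by positivity
    linarith
  obtain ⟨yl, hyl⟩ : ∃ yl, yl = eval b (H j + toN m (ol j)) := ⟨_, rfl⟩
  rw [← hyl] at hst ⊢
  have hylρ : |yl - (eval b (G j) + ox j)| ≤ ρ := hst.trans (by linarith)
  have hAxb : ∀ y, |y - (eval b (G j) + ox j)| ≤ ρ →
      |eval (Function.update b (some (c j)) y) (pderiv (some (c j)) Rx) - Ax| ≤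
        1 / 2 ^ (μ + 2) * |Ax| := by
    intro y hy
    refine hfin hAx hx1 ((hvd y hy).trans ?_)
    exact div_le_div_of_nonneg_left hA0pos.le (by positivity)
      (pow_le_pow_right₀ (by norm_num) (by omega))
  have hrl : |eval (Function.update b (some (c j)) yl) Rl| ≤ ρ / 4 * |Al| := by
    have h1 := hR.two _ (hbox yl hylρ)
    have h2 := nw_lin (R := Rx) (b := b) hAxb hyc hylρ
    have h3 : |eval (Function.update b (some (c j)) yl) Rx| ≤ ρ / 16 * |Ax| + ρ / 32 * |Ax| := by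
      have e1 : eval (Function.update b (some (c j)) yl) Rx =
          eval (Function.update b (some (c j)) (eval b (G j) + ox j)) Rx +
          ((eval (Function.update b (some (c j)) yl) Rx -
            eval (Function.update b (some (c j)) (eval b (G j) + ox j)) Rx -
              Ax * (yl - (eval b (G j) + ox j))) + Ax * (yl - (eval b (G j) + ox j))) := by ring
      rw [e1]
      refine (abs_add_le _ _).trans (add_le_add hrx' ?_)
      refine (abs_add_le _ _).trans ?_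
      rw [abs_mul]
      have h4 : (1 : ℝ) / 2 ^ (μ + 2) ≤ 1 := by
        rw [div_le_one (by positivity)]
        exact one_le_pow₀ (by norm_num)
      have h5 : 0 ≤ |Ax| := abs_nonneg _
      have h6 : 1 / 2 ^ (μ + 2) * |Ax| ≤ 1 * |Ax| := mul_le_mul_of_nonneg_right h4 h5
      have h7 : 1 / 2 ^ (μ + 2) * |Ax| * |yl - (eval b (G j) + ox j)| ≤ 1 * |Ax| * (ρ / 64) :=
        mul_le_mul h6 hst (abs_nonneg _) (by positivity)
      have h8 : |Ax| * |yl - (eval b (G j) + ox j)| ≤ |Ax| * (ρ / 64) :=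
        mul_le_mul_of_nonneg_left hst h5
      linarith
    have e1 : eval (Function.update b (some (c j)) yl) Rl =
        eval (Function.update b (some (c j)) yl) Rx -
          (eval (Function.update b (some (c j)) yl) Rx -
            eval (Function.update b (some (c j)) yl) Rl) := by ring
    rw [e1]
    refine (abs_sub _ _).trans ((add_le_add h3 (h1.trans hMν)).trans ?_)
    have h9 := hAρ hl1
    have h10 : ρ * |Ax| ≤ 17 / 16 * (ρ * |A₀|) := by
      have := mul_le_mul_of_nonneg_left hx2 hρ0.le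
      linarith
    have h11 : 15 / 16 * (ρ * |A₀|) ≤ ρ * |Al| := by
      have := mul_le_mul_of_nonneg_left hl1 hρ0.le
      linarith
    have h12 : 0 < M / 2 ^ (3 * μ + κ') := by positivity
    have e13 : ρ / 16 * |Ax| + ρ / 32 * |Ax| = 3 / 32 * (ρ * |Ax|) := by ring
    have e14 : ρ / 4 * |Al| = 1 / 4 * (ρ * |Al|) := by ring
    rw [e13, e14]
    linarith only [h9, h10, h11, h12]
  refine ⟨⟨?_, ?_, ?_, hx2.trans hup, hl2.trans hup⟩, fun y hy => ?_, ?_, ?_, ?_⟩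
  · intro h
    rw [h, abs_zero] at hx1
    linarith
  · intro h
    rw [h, abs_zero] at hl1
    linarith
  · linarith
  · rw [← hρ] at hy
    exact ⟨hbox y hy, (hnr y hy).half hδ4 hownj, hAxb y hy, hfin hAl hl1 (hvl y hy)⟩
  · rw [← hρ]
    linarith
  · rw [← hρ]
    refine hrx'.trans (mul_le_mul_of_nonneg_right ?_ (abs_nonneg _))
    linarith
  · rw [← hρ]
    exact hrl

end Pool.RLV
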