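import Pool.Agent.H95.GN.Nwc

/-!
# Newton's iteration on natural boxes: the new chain

The labels before the last one are moved by the offsets, the last one is the root of the relation.
-/

set_option autoImplicit false

namespace Pool.RLV

open Finset Real MvPolynomial
open Pool.GEN

/-- **The new labels** at one sample. -/
theorem newt (j Kd n : ℕ) (K : ℕ → ℕ) : ∃ κ : ℕ, 6 ≤ κ ∧ ∀ {m : ℕ} {c : ℕ → Fin m}
    {G H : ℕ → MvPolynomial (Option (Fin m)) ℝ} {q p : ℕ → ℕ} {a e o μ ν : ℕ}
    {b₀ : Option (Fin m) → ℝ} {ox : ℕ → ℝ} {ol : ℕ → Polynomial ℝ} {M Ax Al : ℝ}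
    {Rx Rl : MvPolynomial (Option (Fin m)) ℝ}, NwD c j K G H q p a e b₀ →
    Ofs c j G H q a o b₀ ox ol → NwR c j G q a Kd b₀ M μ ν Rx Rl →
    (∀ l ≤ j, q l + κ ≤ p l) → 3 * μ + 2 * κ ≤ o → 3 * μ + 2 * κ ≤ ν → ν ≤ n * μ →
    |Ax - eval b₀ (pderiv (some (c j)) Rx)| ≤
      |eval b₀ (pderiv (some (c j)) Rx)| / 2 ^ (μ + 4) →
    |Al - eval b₀ (pderiv (some (c j)) Rx)| ≤
      |eval b₀ (pderiv (some (c j)) Rx)| / 2 ^ (μ + 4) →
    ∀ {G' H' : ℕ → MvPolynomial (Option (Fin m)) ℝ} {g' : ℕ → ℕ} {e' : ℕ},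
    (∀ l < j, G' l = G l + C (ox l)) → G' j = nw (some (c j)) Ax (G j + C (ox j)) Rx n →
    (∀ l < j, H' l = H l + toN m (ol l)) →
    H' j = nw (some (c j)) Al (H j + toN m (ol j)) Rl n →
    (∀ l < j, g' l = q l + o) → g' j + μ + κ ≤ q j + ν →
    (∀ l ≤ j, q l + e + μ + κ ≤ q j + e') →
    (∀ l ≤ j, |b₀ (some (c l)) - eval b₀ (G' l)| ≤ 1 / 2 ^ g' l) ∧
    (∀ l ≤ j, ∀ b, NBx c G' g' (a + o) (b₀ none) l b →
      |eval b (G' l) - eval b (H' l)| ≤ 1 / 2 ^ g' l) ∧
    (∀ l ≤ j, ∀ b, NBx c G' g' (a + o) (b₀ none) l b → ∀ l' < l,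
      |eval b (pderiv (some (c l')) (G' l))| ≤ 2 ^ e') := by
  obtain ⟨κ₁, hκ₁, hcore⟩ := newt_core j Kd K
  obtain ⟨C₂, hC₂, h₂⟩ := var_own ((range (j + 1)).sup fun l => K l * dg K l)
  obtain ⟨C₃, hC₃, h₃⟩ := nslp Kd
  obtain ⟨κ₂, hκ₂⟩ := pow_unbounded_of_one_lt (16 * C₂) (one_lt_two (α := ℝ))
  obtain ⟨κ₃, hκ₃⟩ := pow_unbounded_of_one_lt (16 * C₃) (one_lt_two (α := ℝ))
  refine ⟨κ₁ + κ₂ + κ₃ + 6, by omega, ?_⟩
  intro m c G H q p a e o μ ν b₀ ox ol M Ax Al Rx Rl hD hO hR hgap ho hν hn hAx hAl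
    G' H' g' e' hG1 hG2 hH1 hH2 hg1 hg2 he
  have hgap2 : ∀ l ≤ j, q l + 2 ≤ p l := fun l hl => by have := hgap l hl; omega
  have hown := hD.own hgap2
  have hM := hR.M0
  have hQ0 : (0 : ℝ) < 2 ^ q j := by positivity
  have core := hcore hD hO hR hgap2 (by omega) (by omega) hAx hAl
  have ho3 : (2 : ℝ) / 2 ^ o ≤ 1 / 4 := by
    rw [div_le_div_iff₀ (by positivity) (by norm_num)]
    calc (2 : ℝ) * 4 = 2 ^ 3 := by norm_num
      _ ≤ 2 ^ o := pow_le_pow_right₀ (by norm_num) (by omega)
      _ = 1 * 2 ^ o := (one_mul _).symm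
  have hnrb : ∀ l ≤ j, ∀ b, NBx c G' g' (a + o) (b₀ none) l b →
      Nrb c G q a l b₀ (2 / 2 ^ o) b := fun l hl b hb =>
    hD.nrb hO hgap2 (by omega) (by omega) (fun l' hl' => hG1 l' (by omega))
      (fun l' hl' => (hg1 l' (by omega)).ge) hb
  -- the ball
  obtain ⟨ρ, hρ⟩ : ∃ ρ : ℝ, ρ = 1 / 2 ^ (q j + (2 * μ + κ₁)) := ⟨_, rfl⟩
  have hρ0 : 0 < ρ := by rw [hρ]; positivity
  have hε0 : (0 : ℝ) ≤ 1 / 2 ^ (μ + 2) := by positivity
  have hε4 : (1 : ℝ) / 2 ^ (μ + 2) ≤ 1 / 4 := by
    rw [div_le_div_iff₀ (by positivity) (by norm_num), one_mul, one_mul]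
    calc (4 : ℝ) = 2 ^ 2 := by norm_num
      _ ≤ 2 ^ (μ + 2) := pow_le_pow_right₀ (by norm_num) (by omega)
  have hres : ∀ {A : ℝ}, |A| ≤ 2 ^ κ₁ * M * 2 ^ q j →
      (1 / 2 ^ (μ + 2)) ^ n * (ρ / 4 * |A|) ≤ M / 2 ^ ν := by
    intro A hA
    have h1 : (1 / 2 ^ (μ + 2) : ℝ) ^ n ≤ 1 / 2 ^ ν := by
      rw [one_div_pow, ← pow_mul]
      refine p2le ?_
      calc ν ≤ n * μ := hn
        _ ≤ (μ + 2) * n := by
          rw [Nat.mul_comm]
          exact Nat.mul_le_mul_right _ (by omega)
    have h2 : ρ / 4 * |A| ≤ M := by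
      calc ρ / 4 * |A| ≤ ρ / 4 * (2 ^ κ₁ * M * 2 ^ q j) :=
            mul_le_mul_of_nonneg_left hA (by positivity)
        _ = M / (4 * 2 ^ (2 * μ)) := by
          rw [hρ, pow_add (2 : ℝ) (q j), pow_add (2 : ℝ) (2 * μ)]
          field_simp
        _ ≤ M := by
          refine div_le_self hM.le ?_
          have : (1 : ℝ) ≤ 2 ^ (2 * μ) := one_le_pow₀ (by norm_num)
          linarith only [this]
    calc (1 / 2 ^ (μ + 2)) ^ n * (ρ / 4 * |A|) ≤ 1 / 2 ^ ν * M :=
          mul_le_mul h1 h2 (by positivity) (by positivity)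
      _ = M / 2 ^ ν := by ring
  -- from the residual to the distance
  have hdist : ∀ {z r : ℝ}, M / 2 ^ (μ + 1) * 2 ^ q j ≤ |Ax| → |Ax| * z ≤ 2 * r →
      r ≤ 3 * (M / 2 ^ ν) → z ≤ 1 / 2 ^ g' j := by
    intro z r h1 h2 h3
    rcases le_or_gt z 0 with hz | hz
    · exact hz.trans (by positivity)
    · have h4 : M / 2 ^ (μ + 1) * 2 ^ q j * z ≤ 6 * (M / 2 ^ ν) :=
        (mul_le_mul_of_nonneg_right h1 hz.le).trans (by linarith only [h2, h3])
      have h5 : z ≤ 6 * 2 ^ (μ + 1) / 2 ^ (q j + ν) := by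
        have e1 : M / 2 ^ (μ + 1) * 2 ^ q j * z = M * (2 ^ q j * z / 2 ^ (μ + 1)) := by ring
        have e2 : 6 * (M / 2 ^ ν) = M * (6 / 2 ^ ν) := by ring
        rw [e1, e2] at h4
        have h6 := le_of_mul_le_mul_left h4 hM
        rw [div_le_div_iff₀ (by positivity) (by positivity)] at h6
        rw [le_div_iff₀ (by positivity), pow_add (2 : ℝ) (q j)]
        linarith only [h6]
      refine h5.trans ?_
      rw [div_le_div_iff₀ (by positivity) (by positivity), one_mul]
      calc 6 * (2 : ℝ) ^ (μ + 1) * 2 ^ g' j ≤ 2 ^ 3 * 2 ^ (μ + 1) * 2 ^ g' j := by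
            refine mul_le_mul_of_nonneg_right (mul_le_mul_of_nonneg_right (by norm_num) ?_) ?_
            · positivity
            · positivity
        _ = 2 ^ (g' j + μ + 4) := by rw [← pow_add, ← pow_add]; congr 1; ring
        _ ≤ 2 ^ (q j + ν) := pow_le_pow_right₀ (by norm_num) (by omega)
  have hLx : ∀ b, eval b (G j + C (ox j)) = eval b (G j) + ox j := fun b => by
    rw [map_add, eval_C]
  refine ⟨fun l hl => ?_, fun l hl b hb => ?_, fun l hl b hb l' hl' => ?_⟩
  · -- the positions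
    rcases Nat.lt_or_ge l j with h | h
    · rw [hG1 l h, map_add, eval_C, hg1 l h]
      have h1 := hO.x l hl
      have e1 : b₀ (some (c l)) - (eval b₀ (G l) + ox l) =
          -(ox l - (b₀ (some (c l)) - eval b₀ (G l))) := by ring
      rw [e1, abs_neg]
      exact h1.trans (p2le (by omega))
    · have : l = j := by omega
      subst this
      obtain ⟨⟨hA1, -, hA3, hA4, -⟩, hball, -, hr, -⟩ := core b₀ ⟨by
        rw [sub_self, abs_zero]; positivity, fun l _ => by
          rw [sub_self, abs_zero]; positivity⟩ (by rw [sub_self, abs_zero]; positivity)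
      rw [← hρ] at hball hr
      have hA := fun y hy => (hball y hy).2.2.1
      have hyc : |eval b₀ (G l + C (ox l)) - (eval b₀ (G l) + ox l)| ≤ ρ / 2 := by
        rw [hLx, sub_self, abs_zero]
        positivity
      have hr' : |eval (Function.update b₀ (some (c l)) (eval b₀ (G l + C (ox l)))) Rx| ≤
          ρ / 4 * |Ax| := by rw [hLx]; exact hr
      have h1 := (nw_res hA1 hA hε0 hε4 hρ0.le hyc hr' n).1
      have h2 := nw_near hA1 hA hε0 hε4 hρ0.le hyc hr' n
      rw [← hG2] at h1 h2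
      have hy : |b₀ (some (c l)) - (eval b₀ (G l) + ox l)| ≤ ρ := by
        have e1 : b₀ (some (c l)) - (eval b₀ (G l) + ox l) =
            -(ox l - (b₀ (some (c l)) - eval b₀ (G l))) := by ring
        rw [e1, abs_neg, hρ]
        exact (hO.x l le_rfl).trans (p2le (by omega))
      have h3 := nw_inj hA hε4 h2 hy
      refine hdist hA3 h3 ?_
      rw [Function.update_eq_self]
      refine (abs_sub _ _).trans ?_
      have h4 := hR.own
      have h5 := h1.trans (hres hA4)
      linarith only [h4, h5, (by positivity : 0 ≤ M / 2 ^ ν)]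
  · -- the agreement
    have hb' := hnrb l hl b hb
    rcases Nat.lt_or_ge l j with h | h
    · rw [hG1 l h, hH1 l h, hg1 l h, map_add, map_add, eval_C, toN_eval]
      have hinj : Set.InjOn c (Set.Iio l) := fun x hx y hy h' =>
        hD.inj (Set.mem_Iio.2 ((Set.mem_Iio.1 hx).trans (by omega)))
          (Set.mem_Iio.2 ((Set.mem_Iio.1 hy).trans (by omega))) h'
      have hDl : K l * dg K l ≤ (range (j + 1)).sup fun l => K l * dg K l :=
        Finset.le_sup (f := fun l => K l * dg K l) (mem_range.2 (by omega))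
      have h1 := h₂ (Q := G l - H l) hinj hD.degG hD.depG (dep_sub (hD.depG l) (hD.depH l))
        ((totalDegree_sub _ _).trans (max_le (hD.degG l) (hD.degH l))) hDl
        (fun b hb => by rw [map_sub]; exact hD.agr l hl b hb) (by positivity) ho3
        (fun l' hl' => hown l' (by omega)) hb'
      rw [map_sub, map_sub] at h1
      have h2 := hO.lv l hl _ hb.1
      have h3 := hO.x l hl
      have h4 := hO.l0 l hl
      have e1 : eval b (G l) + ox l - (eval b (H l) + (ol l).eval (b none)) =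
          (eval b (G l) - eval b (H l) - (eval b₀ (G l) - eval b₀ (H l))) +
            ((ox l - (b₀ (some (c l)) - eval b₀ (G l))) -
              ((ol l).eval (b none) - (ol l).eval (b₀ none))) := by
        rw [h4]
        ring
      rw [e1]
      refine (abs_add_le _ _).trans ((add_le_add h1 ((abs_sub _ _).trans
        (add_le_add h3 h2))).trans ?_)
      have h5 : C₂ * (1 / 2 ^ p l) * (2 / 2 ^ o) ≤ 1 / 4 * (1 / 2 ^ (q l + o)) := by
        have e2 : C₂ * (1 / 2 ^ p l) * (2 / 2 ^ o) = 2 * C₂ / 2 ^ (p l + o) := by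
          rw [pow_add]
          field_simp
        have e3 : (1 : ℝ) / 4 * (1 / 2 ^ (q l + o)) = 1 / (4 * 2 ^ (q l + o)) := by
          rw [one_div_mul_one_div]
        rw [e2, e3, div_le_div_iff₀ (by positivity) (by positivity), one_mul]
        have h6 : 2 * C₂ * 4 ≤ (2 : ℝ) ^ κ₂ := by linarith only [hκ₂, hC₂]
        calc 2 * C₂ * (4 * 2 ^ (q l + o)) = 2 * C₂ * 4 * 2 ^ (q l + o) := by ring
          _ ≤ 2 ^ κ₂ * 2 ^ (q l + o) := mul_le_mul_of_nonneg_right h6 (by positivity)
          _ = 2 ^ (q l + κ₂ + o) := by rw [← pow_add]; congr 1; ring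
          _ ≤ 2 ^ (p l + o) := pow_le_pow_right₀ (by norm_num) (by
            have := hgap l hl
            omega)
      have h7 : (1 : ℝ) / 2 ^ (q l + o + 2) = 1 / 4 * (1 / 2 ^ (q l + o)) := by
        rw [pow_add _ (q l + o), one_div_mul_one_div]
        norm_num
        ring
      rw [h7]
      have h8 : (0 : ℝ) < 1 / 2 ^ (q l + o) := by positivity
      linarith only [h5, h8]
    · have : l = j := by omega
      subst this
      obtain ⟨⟨hA1, hA2, hA3, hA4, hA5⟩, hball, hst, hrx, hrl⟩ := core b hb' hb.1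
      rw [← hρ] at hball hst hrx hrl
      have hAx' := fun y hy => (hball y hy).2.2.1
      have hAl' := fun y hy => (hball y hy).2.2.2
      have hyc : |eval b (G l + C (ox l)) - (eval b (G l) + ox l)| ≤ ρ / 2 := by
        rw [hLx, sub_self, abs_zero]
        positivity
      have hrx' : |eval (Function.update b (some (c l)) (eval b (G l + C (ox l)))) Rx| ≤
          ρ / 4 * |Ax| := by rw [hLx]; exact hrx
      have x1 := (nw_res hA1 hAx' hε0 hε4 hρ0.le hyc hrx' n).1
      have x2 := nw_near hA1 hAx' hε0 hε4 hρ0.le hyc hrx' n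
      have l1 := (nw_res hA2 hAl' hε0 hε4 hρ0.le hst hrl n).1
      have l2 := nw_near hA2 hAl' hε0 hε4 hρ0.le hst hrl n
      rw [← hG2] at x1 x2
      rw [← hH2] at l1 l2
      have h3 := nw_inj hAx' hε4 l2 x2
      refine hdist hA3 h3 ?_
      have h4 := hR.two _ (hball _ l2).1
      have h5 := x1.trans (hres hA4)
      have h6 := l1.trans (hres hA5)
      have e1 : eval (Function.update b (some (c l)) (eval b (G' l))) Rx -
          eval (Function.update b (some (c l)) (eval b (H' l))) Rx =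
          eval (Function.update b (some (c l)) (eval b (G' l))) Rx -
            ((eval (Function.update b (some (c l)) (eval b (H' l))) Rx -
              eval (Function.update b (some (c l)) (eval b (H' l))) Rl) +
              eval (Function.update b (some (c l)) (eval b (H' l))) Rl) := by ring
      rw [e1]
      refine (abs_sub _ _).trans ?_
      have h7 := abs_add_le (eval (Function.update b (some (c l)) (eval b (H' l))) Rx -
              eval (Function.update b (some (c l)) (eval b (H' l))) Rl)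
              (eval (Function.update b (some (c l)) (eval b (H' l))) Rl)
      linarith only [h4, h5, h6, h7]
  · -- the gradients
    have hb' := hnrb l hl b hb
    have hbx : NBx c G q a (b₀ none) l b := half_box (hb'.half ho3 fun l' hl' =>
      hown l' (by omega))
    have hee : e ≤ e' := by
      have := he j le_rfl
      omega
    rcases Nat.lt_or_ge l j with h | h
    · rw [hG1 l h, map_add, pderiv_C, add_zero]
      exact (hD.lip l hl b hbx l' hl').trans (pow_le_pow_right₀ (by norm_num) hee)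
    · have : l = j := by omega
      subst this
      obtain ⟨⟨hA1, -, hA3, hA4, -⟩, hball, -, hrx, -⟩ := core b hb' hb.1
      rw [← hρ] at hball hrx
      have hAx' := fun y hy => (hball y hy).2.2.1
      have hyc : |eval b (G l + C (ox l)) - (eval b (G l) + ox l)| ≤ ρ / 2 := by
        rw [hLx, sub_self, abs_zero]
        positivity
      have hrx' : |eval (Function.update b (some (c l)) (eval b (G l + C (ox l)))) Rx| ≤
          ρ / 4 * |Ax| := by rw [hLx]; exact hrx
      obtain ⟨W, hW⟩ : ∃ W, W = (range (l + 1)).sup q + e + 1 := ⟨_, rfl⟩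
      have hWq : ∀ l'' ≤ l, q l'' + e + 1 ≤ W := by
        intro l'' hl''
        have h11 : q l'' ≤ (range (l + 1)).sup q :=
          Finset.le_sup (f := q) (mem_range.2 (Nat.lt_succ_of_le hl''))
        omega
      have hWe : W + μ + κ₁ + κ₃ + 5 ≤ q l + e' := by
        obtain ⟨l'', hl'', he''⟩ := Finset.exists_mem_eq_sup (range (l + 1)) ⟨0, by simp⟩ q
        have h11 := he l'' (Nat.lt_succ_iff.1 (mem_range.1 hl''))
        have h12 : (range (l + 1)).sup q = q l'' := he''
        rw [h12] at hW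
        omega
      have hAx0 : 0 < |Ax| := abs_pos.2 hA1
      have hR1 : ∀ y, |y - (eval b (G l) + ox l)| ≤ ρ →
          |eval (Function.update b (some (c l)) y) (pderiv (some (c l')) Rx)| ≤
            (C₃ * M * 2 ^ W / |Ax|) * |Ax| := by
        intro y hy
        rw [div_mul_cancel₀ _ hAx0.ne']
        have h5 := (hball y hy).2.1
        refine h₃ hD.inj hD.depG hR.degx hR.up (by omega) (fun l'' _ hl'' => ?_)
          (by have := hWq l' hl'.le; omega) (fun l'' _ hl'' => hWq l'' (by omega)) _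
          (h5.1.trans ?_) h5.2
        · exact fun b hb => hD.lip l'' (by omega) b hb l' (by omega)
        · exact div_le_div_of_nonneg_right (by norm_num) (by positivity)
      have hne : (some (c l') : Option (Fin m)) ≠ some (c l) := by
        intro h'
        have := hD.inj (Set.mem_Iio.2 (by omega)) (Set.mem_Iio.2 (Nat.lt_succ_self l))
          (Option.some_injective _ h')
        omega
      have h6 := nw_pd hA1 hAx' hε0 hε4 hρ0.le hyc hrx' hne (L₀ := 2 ^ e) (by
        rw [map_add, pderiv_C, add_zero]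
        exact hD.lip l hl b hbx l' hl') hR1 n
      rw [← hG2] at h6
      refine h6.trans ?_
      have h7 : C₃ * M * 2 ^ W / |Ax| ≤ 2 ^ e' / 8 := by
        rw [div_le_div_iff₀ hAx0 (by norm_num)]
        have h8 : 2 ^ e' * (M / 2 ^ (μ + 1) * 2 ^ q l) ≤ 2 ^ e' * |Ax| :=
          mul_le_mul_of_nonneg_left hA3 (by positivity)
        refine le_trans ?_ h8
        have e1 : 2 ^ e' * (M / 2 ^ (μ + 1) * 2 ^ q l) = M * (2 ^ (q l + e') / 2 ^ (μ + 1)) := by
          rw [pow_add (2 : ℝ) (q l)]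
          ring
        have e2 : C₃ * M * 2 ^ W * 8 = M * (8 * C₃ * 2 ^ W) := by ring
        rw [e1, e2]
        refine mul_le_mul_of_nonneg_left ?_ hM.le
        rw [le_div_iff₀ (by positivity)]
        calc 8 * C₃ * 2 ^ W * 2 ^ (μ + 1) ≤ 2 ^ κ₃ * 2 ^ W * 2 ^ (μ + 1) := by
              refine mul_le_mul_of_nonneg_right (mul_le_mul_of_nonneg_right ?_ ?_) ?_
              · linarith only [hκ₃, hC₃]
              · positivity
              · positivity
          _ = 2 ^ (W + μ + κ₃ + 1) := by rw [← pow_add, ← pow_add]; congr 1; ring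
          _ ≤ 2 ^ (q l + e') := pow_le_pow_right₀ (by norm_num) (by omega)
      have h9 : (2 : ℝ) ^ e ≤ 2 ^ e' / 2 := by
        rw [le_div_iff₀ (by norm_num)]
        calc (2 : ℝ) ^ e * 2 = 2 ^ (e + 1) := (pow_succ _ _).symm
          _ ≤ 2 ^ e' := pow_le_pow_right₀ (by norm_num) (by
            have := he l le_rfl
            omega)
      have h10 : (0 : ℝ) < 2 ^ e' := by positivity
      linarith only [h7, h9, h10]

end Pool.RLV
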