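import Pool.Agent.H95.GN.Nbd
import Pool.Agent.H71.GEN.Poly

/-!
# The simplified Newton iteration

`nw κ A S R k`: the iteration `S ↦ S - R(·, S) / A` for the variable `κ`, with a constant
denominator. Pointwise: the residual contracts, the values stay near, the gradients are bounded.
-/

set_option autoImplicit false

namespace Pool.RLV

open Finset Real MvPolynomial
open Pool.GEN

section
variable {σ : Type} [DecidableEq σ]

/-- The substitution of `S` for the variable `κ`. -/
noncomputable def sbk (κ : σ) (S : MvPolynomial σ ℝ) : σ → MvPolynomial σ ℝ :=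
  fun o => if o = κ then S else X o

theorem eval_sbk (κ : σ) (S R : MvPolynomial σ ℝ) (b : σ → ℝ) :
    eval b (aeval (sbk κ S) R) = eval (Function.update b κ (eval b S)) R := by
  rw [eval_aevalσ]
  congr 1
  congr 1
  funext o
  by_cases h : o = κ
  · subst h
    simp [sbk]
  · simp [sbk, h]

theorem deg_sbk (κ : σ) {S R : MvPolynomial σ ℝ} {K d : ℕ} (hR : R.totalDegree ≤ K) (hd : 1 ≤ d)
    (hS : S.totalDegree ≤ d) : (aeval (sbk κ S) R).totalDegree ≤ d * K := by
  refine totalDegree_aevalσ (fun o => ?_) hR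
  unfold sbk
  split_ifs
  · exact hS
  · exact (totalDegree_X _).le.trans hd

theorem pd_sbk [Fintype σ] {κ o : σ} (ho : o ≠ κ) (S R : MvPolynomial σ ℝ) (b : σ → ℝ) :
    eval b (pderiv o (aeval (sbk κ S) R)) =
      eval (Function.update b κ (eval b S)) (pderiv κ R) * eval b (pderiv o S) +
        eval (Function.update b κ (eval b S)) (pderiv o R) := by
  rw [pd_aeval, map_sum]
  simp only [map_mul, eval_sbk]
  have h1 : ∀ i, eval b (pderiv o (sbk κ S i)) =
      if i = κ then eval b (pderiv o S) else if i = o then 1 else 0 := by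
    intro i
    unfold sbk
    by_cases h : i = κ
    · rw [if_pos h, if_pos h]
    · rw [if_neg h, if_neg h, pderiv_X]
      by_cases h' : i = o
      · subst h'
        simp
      · rw [if_neg h', Pi.single_eq_of_ne h']
        simp
  rw [Finset.sum_congr rfl fun i _ => by rw [h1 i],
    Finset.sum_eq_add_of_mem κ o (Finset.mem_univ _) (Finset.mem_univ _) ho.symm]
  · rw [if_pos rfl, if_neg ho, if_pos rfl, mul_one]
  · intro i _ hi
    rw [if_neg hi.1, if_neg hi.2, mul_zero]

/-- **The iteration.** -/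
noncomputable def nw (κ : σ) (A : ℝ) (S R : MvPolynomial σ ℝ) : ℕ → MvPolynomial σ ℝ
  | 0 => S
  | k + 1 => nw κ A S R k - C A⁻¹ * aeval (sbk κ (nw κ A S R k)) R

theorem nw_eval (κ : σ) (A : ℝ) (S R : MvPolynomial σ ℝ) (b : σ → ℝ) (k : ℕ) :
    eval b (nw κ A S R (k + 1)) = eval b (nw κ A S R k) -
      A⁻¹ * eval (Function.update b κ (eval b (nw κ A S R k))) R := by
  rw [nw, map_sub, map_mul, eval_C, eval_sbk]

theorem nw_deg (κ : σ) (A : ℝ) {S R : MvPolynomial σ ℝ} {K d : ℕ} (hR : R.totalDegree ≤ K)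
    (hd : 1 ≤ d) (hS : S.totalDegree ≤ d) (k : ℕ) :
    (nw κ A S R k).totalDegree ≤ d * (K + 1) ^ k := by
  induction k with
  | zero => rw [pow_zero, mul_one]; exact hS
  | succ k ih =>
    have h1 : 1 ≤ d * (K + 1) ^ k := Nat.one_le_iff_ne_zero.2 (by positivity)
    rw [nw]
    refine (totalDegree_sub _ _).trans (max_le (ih.trans ?_) ?_)
    · exact Nat.mul_le_mul_left d (Nat.pow_le_pow_right (Nat.succ_pos K) (by omega))
    · refine (totalDegree_mul _ _).trans ?_
      rw [totalDegree_C, zero_add]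
      refine (deg_sbk κ hR h1 ih).trans ?_
      rw [pow_succ, ← mul_assoc]
      exact Nat.mul_le_mul_left _ (Nat.le_succ K)

/-! ### Pointwise -/

variable {κ : σ} {A ε ρ yc : ℝ} {S R : MvPolynomial σ ℝ} {b : σ → ℝ}

/-- Almost linear. -/
theorem nw_lin (hA : ∀ y, |y - yc| ≤ ρ →
    |eval (Function.update b κ y) (pderiv κ R) - A| ≤ ε * |A|) {y y' : ℝ} (hy : |y - yc| ≤ ρ)
    (hy' : |y' - yc| ≤ ρ) :
    |eval (Function.update b κ y') R - eval (Function.update b κ y) R - A * (y' - y)| ≤
      ε * |A| * |y' - y| := by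
  have h1 : |(slc κ b R - Polynomial.C A * Polynomial.X).eval y' -
      (slc κ b R - Polynomial.C A * Polynomial.X).eval y| ≤ ε * |A| * |y' - y| := by
    refine umv fun z hz => ?_
    rw [Polynomial.derivative_sub, Polynomial.derivative_C_mul, Polynomial.derivative_X, mul_one,
      slc_der, Polynomial.eval_sub, Polynomial.eval_C, slc_eval]
    refine hA z ?_
    have h4 := Set.mem_uIcc.1 hz
    rw [abs_le] at hy hy' ⊢
    rcases h4 with h4 | h4 <;> constructor <;> linarith [h4.1, h4.2, hy.1, hy.2, hy'.1, hy'.2]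
  rw [Polynomial.eval_sub, Polynomial.eval_sub, slc_eval, slc_eval] at h1
  simp only [Polynomial.eval_mul, Polynomial.eval_C, Polynomial.eval_X] at h1
  have e1 : eval (Function.update b κ y') R - eval (Function.update b κ y) R - A * (y' - y) =
      eval (Function.update b κ y') R - A * y' - (eval (Function.update b κ y) R - A * y) := by
    ring
  rw [e1]
  exact h1

/-- Injectivity. -/
theorem nw_inj (hA : ∀ y, |y - yc| ≤ ρ →
    |eval (Function.update b κ y) (pderiv κ R) - A| ≤ ε * |A|) (hε : ε ≤ 1 / 4) {y y' : ℝ}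
    (hy : |y - yc| ≤ ρ) (hy' : |y' - yc| ≤ ρ) :
    |A| * |y' - y| ≤
      2 * |eval (Function.update b κ y') R - eval (Function.update b κ y) R| := by
  have h1 := nw_lin hA hy hy'
  have h2 : |A * (y' - y)| ≤ |eval (Function.update b κ y') R - eval (Function.update b κ y) R| +
      ε * |A| * |y' - y| := by
    have e1 : A * (y' - y) = (eval (Function.update b κ y') R - eval (Function.update b κ y) R) -
        (eval (Function.update b κ y') R - eval (Function.update b κ y) R - A * (y' - y)) := by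
      ring
    rw [e1]
    exact (abs_sub _ _).trans (add_le_add le_rfl h1)
  rw [abs_mul] at h2
  have h3 : 0 ≤ |A| * |y' - y| := by positivity
  have h4 : ε * |A| * |y' - y| ≤ 1 / 4 * (|A| * |y' - y|) := by
    rw [mul_assoc]
    exact mul_le_mul_of_nonneg_right hε h3
  linarith

/-- **The residual** and the values. -/
theorem nw_res (hA0 : A ≠ 0) (hA : ∀ y, |y - yc| ≤ ρ →
    |eval (Function.update b κ y) (pderiv κ R) - A| ≤ ε * |A|) (hε0 : 0 ≤ ε) (hε : ε ≤ 1 / 4)
    (hρ : 0 ≤ ρ) (h0 : |eval b S - yc| ≤ ρ / 2)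
    (h1 : |eval (Function.update b κ (eval b S)) R| ≤ ρ / 4 * |A|) (k : ℕ) :
    |eval (Function.update b κ (eval b (nw κ A S R k))) R| ≤ ε ^ k * (ρ / 4 * |A|) ∧
      |eval b (nw κ A S R k) - eval b S| ≤ ρ / 2 * (1 - (1 / 2) ^ k) := by
  have hA1 : 0 < |A| := abs_pos.2 hA0
  induction k with
  | zero =>
    refine ⟨by simpa [nw] using h1, ?_⟩
    simp [nw]
  | succ k ih =>
    obtain ⟨ih1, ih2⟩ := ih
    obtain ⟨y, hy⟩ : ∃ y, y = eval b (nw κ A S R k) := ⟨_, rfl⟩
    obtain ⟨y', hy'⟩ : ∃ y', y' = eval b (nw κ A S R (k + 1)) := ⟨_, rfl⟩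
    rw [← hy] at ih1 ih2
    rw [← hy']
    have hstep : y' = y - A⁻¹ * eval (Function.update b κ y) R := by
      rw [hy', hy, nw_eval]
    have hp0 : (0 : ℝ) < (1 / 2) ^ k := by positivity
    have hεk : ε ^ k ≤ (1 / 4) ^ k := pow_le_pow_left₀ hε0 hε k
    have hd : |y' - y| ≤ (1 / 4) ^ k * (ρ / 4) := by
      rw [hstep, sub_sub_cancel_left, abs_neg, abs_mul, abs_inv]
      calc |A|⁻¹ * |eval (Function.update b κ y) R| ≤ |A|⁻¹ * (ε ^ k * (ρ / 4 * |A|)) :=
            mul_le_mul_of_nonneg_left ih1 (by positivity)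
        _ = ε ^ k * (ρ / 4) := by field_simp
        _ ≤ (1 / 4) ^ k * (ρ / 4) := mul_le_mul_of_nonneg_right hεk (by positivity)
    have h42 : (1 / 4 : ℝ) ^ k ≤ (1 / 2) ^ k := pow_le_pow_left₀ (by norm_num) (by norm_num) k
    have hd2 : |y' - y| ≤ (1 / 2) ^ k * (ρ / 4) :=
      hd.trans (mul_le_mul_of_nonneg_right h42 (by positivity))
    have hy2 : |y' - eval b S| ≤ ρ / 2 * (1 - (1 / 2) ^ (k + 1)) := by
      have e1 : y' - eval b S = (y' - y) + (y - eval b S) := by ring
      rw [e1]
      refine (abs_add_le _ _).trans ((add_le_add hd2 ih2).trans (le_of_eq ?_))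
      ring
    have hyρ : ∀ k' : ℕ, ρ / 2 * (1 - (1 / 2) ^ k') ≤ ρ / 2 := by
      intro k'
      have : (0 : ℝ) < (1 / 2) ^ k' := by positivity
      nlinarith
    have hyc : |y - yc| ≤ ρ := by
      have e1 : y - yc = (y - eval b S) + (eval b S - yc) := by ring
      rw [e1]
      exact (abs_add_le _ _).trans (by linarith [ih2.trans (hyρ k)])
    have hyc' : |y' - yc| ≤ ρ := by
      have e1 : y' - yc = (y' - eval b S) + (eval b S - yc) := by ring
      rw [e1]
      exact (abs_add_le _ _).trans (by linarith [hy2.trans (hyρ (k + 1))])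
    refine ⟨?_, hy2⟩
    have h2 := nw_lin hA hyc hyc'
    have e2 : A * (y' - y) = -eval (Function.update b κ y) R := by
      rw [hstep]
      field_simp
      ring
    rw [e2] at h2
    have e3 : eval (Function.update b κ y') R - eval (Function.update b κ y) R -
        -eval (Function.update b κ y) R = eval (Function.update b κ y') R := by ring
    rw [e3] at h2
    refine h2.trans ?_
    have e4 : |A| * |y' - y| = |eval (Function.update b κ y) R| := by
      rw [← abs_mul, e2, abs_neg]
    calc ε * |A| * |y' - y| = ε * |eval (Function.update b κ y) R| := by rw [mul_assoc, e4]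
      _ ≤ ε * (ε ^ k * (ρ / 4 * |A|)) := mul_le_mul_of_nonneg_left ih1 hε0
      _ = ε ^ (k + 1) * (ρ / 4 * |A|) := by ring

theorem nw_near (hA0 : A ≠ 0) (hA : ∀ y, |y - yc| ≤ ρ →
    |eval (Function.update b κ y) (pderiv κ R) - A| ≤ ε * |A|) (hε0 : 0 ≤ ε) (hε : ε ≤ 1 / 4)
    (hρ : 0 ≤ ρ) (h0 : |eval b S - yc| ≤ ρ / 2)
    (h1 : |eval (Function.update b κ (eval b S)) R| ≤ ρ / 4 * |A|) (k : ℕ) :
    |eval b (nw κ A S R k) - yc| ≤ ρ := by
  have h2 := (nw_res hA0 hA hε0 hε hρ h0 h1 k).2
  have h3 : (0 : ℝ) < (1 / 2) ^ k := by positivity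
  have e1 : eval b (nw κ A S R k) - yc = (eval b (nw κ A S R k) - eval b S) + (eval b S - yc) := by
    ring
  rw [e1]
  refine (abs_add_le _ _).trans ?_
  nlinarith

/-- **The gradients.** -/
theorem nw_pd [Fintype σ] (hA0 : A ≠ 0) (hA : ∀ y, |y - yc| ≤ ρ →
    |eval (Function.update b κ y) (pderiv κ R) - A| ≤ ε * |A|) (hε0 : 0 ≤ ε) (hε : ε ≤ 1 / 4)
    (hρ : 0 ≤ ρ) (h0 : |eval b S - yc| ≤ ρ / 2)
    (h1 : |eval (Function.update b κ (eval b S)) R| ≤ ρ / 4 * |A|) {o : σ} (ho : o ≠ κ)
    {L₀ L₁ : ℝ} (hS : |eval b (pderiv o S)| ≤ L₀)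
    (hR : ∀ y, |y - yc| ≤ ρ → |eval (Function.update b κ y) (pderiv o R)| ≤ L₁ * |A|) (k : ℕ) :
    |eval b (pderiv o (nw κ A S R k))| ≤ L₀ + 2 * L₁ := by
  have hA1 : 0 < |A| := abs_pos.2 hA0
  have hL1 : 0 ≤ L₁ := by
    have := (abs_nonneg _).trans (hR yc (by rw [sub_self, abs_zero]; exact hρ))
    by_contra h
    push Not at h
    nlinarith
  have hL0 : 0 ≤ L₀ := (abs_nonneg _).trans hS
  induction k with
  | zero =>
    change |eval b (pderiv o S)| ≤ _
    linarith
  | succ k ih =>
    have hn := nw_near hA0 hA hε0 hε hρ h0 h1 k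
    have h2 := hA _ hn
    have h3 := hR _ hn
    have e1 : eval b (pderiv o (nw κ A S R (k + 1))) =
        -(A⁻¹ * ((eval (Function.update b κ (eval b (nw κ A S R k))) (pderiv κ R) - A) *
          eval b (pderiv o (nw κ A S R k)))) -
        A⁻¹ * eval (Function.update b κ (eval b (nw κ A S R k))) (pderiv o R) := by
      rw [nw, map_sub, map_sub, pderiv_C_mul, map_mul, eval_C, pd_sbk ho]
      field_simp
      ring
    rw [e1]
    refine (abs_sub _ _).trans ?_
    rw [abs_neg, abs_mul, abs_mul, abs_mul, abs_inv]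
    have h4 : |A|⁻¹ * (|eval (Function.update b κ (eval b (nw κ A S R k))) (pderiv κ R) - A| *
        |eval b (pderiv o (nw κ A S R k))|) ≤ 1 / 4 * (L₀ + 2 * L₁) := by
      calc _ ≤ |A|⁻¹ * ((ε * |A|) * (L₀ + 2 * L₁)) :=
            mul_le_mul_of_nonneg_left (mul_le_mul h2 ih (abs_nonneg _) (by positivity))
              (by positivity)
        _ = ε * (L₀ + 2 * L₁) := by field_simp
        _ ≤ 1 / 4 * (L₀ + 2 * L₁) := mul_le_mul_of_nonneg_right hε (by positivity)
    have h5 : |A|⁻¹ * |eval (Function.update b κ (eval b (nw κ A S R k))) (pderiv o R)| ≤ L₁ := by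
      calc _ ≤ |A|⁻¹ * (L₁ * |A|) := mul_le_mul_of_nonneg_left h3 (by positivity)
        _ = L₁ := by field_simp
    linarith

end

/-- The iteration sees the variables before. -/
theorem nw_dep {m : ℕ} {c : ℕ → Fin m} {i : ℕ} (A : ℝ) {S R : MvPolynomial (Option (Fin m)) ℝ}
    (hS : DepC c i S) (hR : DepC c (i + 1) R) (k : ℕ) :
    DepC c i (nw (some (c i)) A S R k) := by
  induction k with
  | zero => exact hS
  | succ k ih =>
    intro b b' h0 h
    rw [nw_eval, nw_eval, ih b b' h0 h]
    congr 2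
    refine hR _ _ ?_ fun l hl => ?_
    · rw [Function.update_of_ne (by simp), Function.update_of_ne (by simp), h0]
    · by_cases he : c l = c i
      · rw [he, Function.update_self, Function.update_self]
      · have hne : (some (c l) : Option (Fin m)) ≠ some (c i) := fun h' =>
          he (Option.some_injective _ h')
        rw [Function.update_of_ne hne, Function.update_of_ne hne]
        refine h l ?_
        rcases Nat.lt_or_ge l i with h1 | h1
        · exact h1
        · have : l = i := by omega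
          rw [this] at he
          exact absurd rfl he

theorem sbk_dep {m : ℕ} {c : ℕ → Fin m} {i : ℕ} {S R : MvPolynomial (Option (Fin m)) ℝ}
    (hS : DepC c i S) (hR : DepC c (i + 1) R) :
    DepC c i (aeval (sbk (some (c i)) S) R) := by
  intro b b' h0 h
  rw [eval_sbk, eval_sbk, hS b b' h0 h]
  refine hR _ _ ?_ fun l hl => ?_
  · rw [Function.update_of_ne (by simp), Function.update_of_ne (by simp), h0]
  · by_cases he : c l = c i
    · rw [he, Function.update_self, Function.update_self]
    · have hne : (some (c l) : Option (Fin m)) ≠ some (c i) := fun h' =>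
        he (Option.some_injective _ h')
      rw [Function.update_of_ne hne, Function.update_of_ne hne]
      refine h l ?_
      rcases Nat.lt_or_ge l i with h1 | h1
      · exact h1
      · have : l = i := by omega
        rw [this] at he
        exact absurd rfl he

theorem iter_dep {m : ℕ} {c : ℕ → Fin m} {i : ℕ} (l : ℕ) {Q : MvPolynomial (Option (Fin m)) ℝ}
    (h : DepC c i Q) (k : ℕ) : DepC c i ((pderiv (some (c l)))^[k] Q) := by
  induction k with
  | zero => exact h
  | succ k ih =>
    rw [Function.iterate_succ_apply']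
    exact ih.pderiv l

end Pool.RLV
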