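import Pool.Agent.H95.GN.Elm

/-!
# The own value of the derivative of a label in a contact direction

`own_val`: the derivative of the label over the closed ball chart, in the direction of a contact
coordinate, at the own point, from the labels at a later window.
-/

set_option autoImplicit false

namespace Pool.VFD

open Finset Real MvPolynomial
open Pool.Agent.H49.Ent Pool.Agent.H32.Dense Pool.STK Pool.KA Pool.KSAT Pool.K2S Pool.PB Pool.S6C
open Pool.GEN Pool.CHT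

variable {m : ℕ}

/-- The derivative does not depend on the number of coordinates. -/
theorem dvf_ext {c : ℕ → Fin m} {G : ℕ → MvPolynomial (Option (Fin m)) ℝ} {j l i : ℕ}
    (hc : Set.InjOn c (Set.Iio i)) {Q : MvPolynomial (Option (Fin m)) ℝ} (hQ : DepC c l Q)
    (hl : l ≤ i) : dvf c G j l Q = dvf c G j i Q := by
  unfold dvf
  refine Finset.sum_subset (fun x hx => ?_) fun x hx hx' => ?_
  · rw [Finset.mem_Ico] at hx ⊢
    omega
  · rw [Finset.mem_Ico] at hx hx'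
    have h6 : pderiv (some (c x)) Q = 0 := by
      refine MvPolynomial.funext fun y => ?_
      rw [map_zero]
      refine DepC.pd_zero hQ (by simp) (fun l' hl' hh => ?_) y
      have := hc (show x ∈ Set.Iio i from hx.2) (show l' ∈ Set.Iio i from hl'.trans_le hl)
        (Option.some_injective _ hh)
      omega
    rw [h6, mul_zero]

/-- **The change to the chain of the ball.** -/
theorem own_ball (D r : ℕ) : ∃ C : ℝ, 1 ≤ C ∧ ∀ {m : ℕ} {c : ℕ → Fin m} {ct : ℕ → Prop} {i : ℕ}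
    {T₁ B : ℕ → MvPolynomial (Option (Fin m)) ℝ} {Q : MvPolynomial (Option (Fin m)) ℝ}
    {gT gB : ℕ → ℕ} {w v : ℕ} {t ε E : ℝ} {x : Option (Fin m) → ℝ} {j : ℕ}, i ≤ r →
    Set.InjOn c (Set.Iio i) → (∀ l, (B l).totalDegree ≤ D) → (∀ l, DepC c l (B l)) →
    Q.totalDegree ≤ D → 0 ≤ ε → 1 ≤ E → j < i →
    (∀ l < i, ¬ ct l → DepC c 0 (T₁ l - B l)) →
    (∀ b, NBx c B gB w t i b → |eval b Q| ≤ ε) → NBx c B gB w t i x →
    (∀ l, j < l → l < i → ct l →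
      |eval x (dvf c T₁ j l (T₁ l - B l))| ≤ E * 2 ^ gT j / 2 ^ (gB l + v)) →
    gB j + v ≤ gT j → |eval x (dvf c T₁ j i Q)| ≤ C * ε * E * 2 ^ gT j / 2 ^ v := by
  obtain ⟨C₀, hC₀, hmk⟩ := dvf_mk D r
  refine ⟨(1 + r) * C₀, by
    have : (0 : ℝ) ≤ r := Nat.cast_nonneg r
    nlinarith only [hC₀, this], ?_⟩
  intro m c ct i T₁ B Q gT gB w v t ε E x j hi hc dB hB dQ hε hE hj htm hQ hx hτ hjv
  have hmk' : ∀ l < i, |eval x (dvf c B l i Q)| ≤ C₀ * ε * 2 ^ gB l := fun l hl =>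
    hmk hi hc dB hB dQ hQ hx hl
  have hC0 : 0 ≤ C₀ := by linarith only [hC₀]
  have h0 : (0 : ℝ) ≤ C₀ * ε * E * 2 ^ gT j / 2 ^ v := by positivity
  rw [dvf_chg (G' := B) i Q, map_add, map_sum]
  have h1 : |eval x (dvf c B j i Q)| ≤ C₀ * ε * E * 2 ^ gT j / 2 ^ v := by
    refine (hmk' j hj).trans ?_
    rw [le_div_iff₀ (by positivity)]
    calc C₀ * ε * 2 ^ gB j * 2 ^ v = C₀ * ε * 1 * 2 ^ (gB j + v) := by rw [pow_add]; ring
      _ ≤ C₀ * ε * E * 2 ^ gT j := by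
          refine mul_le_mul ?_ (pow_le_pow_right₀ (by norm_num) hjv) (by positivity)
            (by positivity)
          exact mul_le_mul_of_nonneg_left hE (by positivity)
  have h2 : |∑ l ∈ Ico (j + 1) i, eval x (dvf c T₁ j l (T₁ l - B l) * dvf c B l i Q)| ≤
      ∑ l ∈ Ico (j + 1) i, C₀ * ε * E * 2 ^ gT j / 2 ^ v := by
    refine (Finset.abs_sum_le_sum_abs _ _).trans (Finset.sum_le_sum fun l hl => ?_)
    rw [Finset.mem_Ico] at hl
    rw [map_mul, abs_mul]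
    by_cases h : ct l
    · calc |eval x (dvf c T₁ j l (T₁ l - B l))| * |eval x (dvf c B l i Q)| ≤
            E * 2 ^ gT j / 2 ^ (gB l + v) * (C₀ * ε * 2 ^ gB l) :=
            mul_le_mul (hτ l (by omega) hl.2 h) (hmk' l hl.2) (abs_nonneg _) (by positivity)
        _ = _ := by
          rw [pow_add]
          field_simp
    · rw [dvf_time l (htm l hl.2 h), map_zero, abs_zero, zero_mul]
      exact h0
  rw [Finset.sum_const, Nat.card_Ico, nsmul_eq_mul] at h2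
  have h3 : ((i - (j + 1) : ℕ) : ℝ) ≤ r := by
    have : i - (j + 1) ≤ r := by omega
    exact_mod_cast this
  calc _ ≤ |eval x (dvf c B j i Q)| +
        |∑ l ∈ Ico (j + 1) i, eval x (dvf c T₁ j l (T₁ l - B l) * dvf c B l i Q)| :=
        abs_add_le _ _
    _ ≤ C₀ * ε * E * 2 ^ gT j / 2 ^ v + r * (C₀ * ε * E * 2 ^ gT j / 2 ^ v) :=
        add_le_add h1 (h2.trans (mul_le_mul_of_nonneg_right h3 h0))
    _ = _ := by ring

/-- **The own value** in a contact direction. -/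
theorem own_val (D r : ℕ) : ∃ C : ℝ, 1 ≤ C ∧ ∀ {m : ℕ} {c : ℕ → Fin m} {ct : ℕ → Prop} {i : ℕ}
    {Φ T T₁ B : ℕ → MvPolynomial (Option (Fin m)) ℝ} {Gt Γ Γ₁ : MvPolynomial (Option (Fin m)) ℝ}
    {g gT gB g₀ : ℕ → ℕ} {a w gc p v h : ℕ} {t E : ℝ} {L : ℕ → ℝ} {x : Option (Fin m) → ℝ}
    {j : ℕ}, i ≤ r → Set.InjOn c (Set.Iio i) → (∀ l, (Φ l).totalDegree ≤ D) →
    (∀ l, (T l).totalDegree ≤ D) → (∀ l, (T₁ l).totalDegree ≤ D) →
    (∀ l, (B l).totalDegree ≤ D) → Gt.totalDegree ≤ D → Γ.totalDegree ≤ D →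
    Γ₁.totalDegree ≤ D → (∀ l, DepC c l (Φ l)) → (∀ l, DepC c l (T l)) →
    (∀ l, DepC c l (T₁ l)) → (∀ l, DepC c l (B l)) → 1 ≤ E → (∀ l, 0 ≤ L l) → j < i →
    (∀ l < i, ¬ ct l → DepC c 0 (T l - Φ l)) → (∀ l < i, ¬ ct l → DepC c 0 (T₁ l - B l)) →
    DepC c 0 (Γ - Φ i) → DepC c 0 (Γ₁ - B i) →
    NBx c T g a t i x → NBx c T₁ gT a t i x → NBx c B gB w t i x →
    (∀ b, NBx c T₁ gT a t i b → |eval b Gt - eval b Γ₁| ≤ E / 2 ^ p) →
    (∀ l, j < l → l ≤ i → ∀ b, NBx c B gB w t i b → |eval b (B l) - eval b (Φ l)| ≤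
      E / 2 ^ g₀ l) →
    (∀ l, j < l → l < i → ct l → ∀ b, NBx c T₁ gT a t i b →
      |eval b (T₁ l) - eval b (T l)| ≤ E / 2 ^ g l) →
    (∀ b, NBx c T g a t i b → |eval b Gt - eval b Γ| ≤ E / 2 ^ gc) →
    (∀ l, j < l → l < i → ct l →
      |eval x (dvf c T l i (Gt - Φ i))| ≤ L l * 2 ^ g l / 2 ^ p) →
    (∀ l, j < l → l < i → ct l →
      |eval x (dvf c T₁ j l (T₁ l - B l))| ≤ E * 2 ^ gT j / 2 ^ (gB l + v)) →
    g₀ i + v = p → gB j + v ≤ gT j →
    (∀ l, j < l → l < i → ¬ ct l → g l + g₀ i ≤ g₀ l + gc + h) →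
    |eval x (dvf c T j i (Gt - Φ i))| ≤
      C * E ^ 3 * 2 ^ h * (1 + ∑ l ∈ Ico (j + 1) i, L l) * 2 ^ gT j / 2 ^ p := by
  obtain ⟨C₁, hC₁, hmk⟩ := dvf_mk D r
  obtain ⟨C₂, hC₂, hob⟩ := own_ball D r
  have hC1 : 0 ≤ C₁ := by linarith only [hC₁]
  have hC2 : 0 ≤ C₂ := by linarith only [hC₂]
  refine ⟨(2 + r) * (C₁ * C₂), by
    have h1 : (1 : ℝ) ≤ C₁ * C₂ := by nlinarith only [hC₁, hC₂]
    have h2 : (0 : ℝ) ≤ r := Nat.cast_nonneg r
    nlinarith only [h1, h2], ?_⟩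
  intro m c ct i Φ T T₁ B Gt Γ Γ₁ g gT gB g₀ a w gc p v h t E L x j hi hc dΦ dT dT₁ dB dG dΓ dΓ₁
    hΦ hT hT₁ hB hE hL hj tm tm₁ tmΓ tmΓ₁ hx hx₁ hxB e1 e2 e3 e4 e5 e6 hpv hjv hrg
  have hE0 : 0 ≤ E := by linarith only [hE]
  have hSL : ∀ l, j < l → l < i → L l ≤ ∑ l ∈ Ico (j + 1) i, L l := fun l h1 h2 =>
    Finset.single_le_sum (fun l _ => hL l) (Finset.mem_Ico.2 ⟨h1, h2⟩)
  have hS0 : 0 ≤ ∑ l ∈ Ico (j + 1) i, L l := Finset.sum_nonneg fun l _ => hL l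
  obtain ⟨S, hS⟩ : ∃ S, S = 1 + ∑ l ∈ Ico (j + 1) i, L l := ⟨_, rfl⟩
  have hS1 : 1 ≤ S := by rw [hS]; linarith only [hS0]
  rw [← hS]
  -- the unit
  obtain ⟨U, hU⟩ : ∃ U : ℝ, U = C₁ * C₂ * E ^ 3 * 2 ^ h * S * 2 ^ gT j / 2 ^ p := ⟨_, rfl⟩
  have h2h : (1 : ℝ) ≤ 2 ^ h := one_le_pow₀ (by norm_num)
  have hE2 : E ≤ E ^ 2 := by nlinarith only [hE]
  have hE3 : E ^ 2 ≤ E ^ 3 := by
    have : 0 ≤ E ^ 2 := by positivity
    nlinarith only [this, hE]
  have hUle : ∀ y : ℝ, y ≤ C₁ * C₂ * E ^ 3 * 2 ^ h * S → y * 2 ^ gT j / 2 ^ p ≤ U := by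
    intro y hy
    rw [hU]
    exact div_le_div_of_nonneg_right (mul_le_mul_of_nonneg_right hy (by positivity))
      (by positivity)
  -- the chain of the ball
  have hball : ∀ (Q : MvPolynomial (Option (Fin m)) ℝ) (ε : ℝ), Q.totalDegree ≤ D → 0 ≤ ε →
      (∀ b, NBx c B gB w t i b → |eval b Q| ≤ ε) →
      |eval x (dvf c T₁ j i Q)| ≤ C₂ * ε * E * 2 ^ gT j / 2 ^ v := fun Q ε dQ hε hQ =>
    hob hi hc dB hB dQ hε hE hj tm₁ hQ hxB e6 hjv
  -- the first derivative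
  have t1 : |eval x (dvf c T₁ j i (Gt - Γ₁))| ≤ U := by
    have h1 := hmk hi hc dT₁ hT₁ ((totalDegree_sub _ _).trans (max_le dG dΓ₁))
      (fun b hb => by rw [map_sub]; exact e1 b hb) hx₁ hj
    refine h1.trans ?_
    have h2 : C₁ * (E / 2 ^ p) * 2 ^ gT j = (C₁ * E) * 2 ^ gT j / 2 ^ p := by ring
    rw [h2]
    refine hUle _ ?_
    calc C₁ * E = C₁ * 1 * E * 1 * 1 := by ring
      _ ≤ C₁ * C₂ * E ^ 3 * 2 ^ h * S := by
        refine mul_le_mul (mul_le_mul (mul_le_mul ?_ (hE2.trans hE3) hE0 (by positivity)) h2h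
          (by norm_num) (by positivity)) hS1 (by norm_num) (by positivity)
        exact mul_le_mul_of_nonneg_left hC₂ hC1
  -- the second
  have t2 : |eval x (dvf c T₁ j i (B i - Φ i))| ≤ U := by
    have h1 := hball (B i - Φ i) (E / 2 ^ g₀ i) ((totalDegree_sub _ _).trans
      (max_le (dB i) (dΦ i))) (by positivity) (fun b hb => by
        rw [map_sub]
        exact e2 i hj le_rfl b hb)
    refine h1.trans ?_
    have h2 : C₂ * (E / 2 ^ g₀ i) * E * 2 ^ gT j / 2 ^ v = (C₂ * E ^ 2) * 2 ^ gT j / 2 ^ p := by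
      rw [← hpv, pow_add]
      field_simp
    rw [h2]
    refine hUle _ ?_
    calc C₂ * E ^ 2 = 1 * C₂ * E ^ 2 * 1 * 1 := by ring
      _ ≤ C₁ * C₂ * E ^ 3 * 2 ^ h * S := by
        refine mul_le_mul (mul_le_mul (mul_le_mul ?_ hE3 (by positivity) (by positivity)) h2h
          (by norm_num) (by positivity)) hS1 (by norm_num) (by positivity)
        exact mul_le_mul_of_nonneg_right hC₁ hC2
  -- the later coordinates
  have t3 : ∀ l ∈ Ico (j + 1) i,
      |eval x (dvf c T₁ j l (T₁ l - T l) * dvf c T l i (Gt - Φ i))| ≤ U := by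
    intro l hl
    rw [Finset.mem_Ico] at hl
    rw [map_mul, abs_mul]
    by_cases hct : ct l
    · have h1 : |eval x (dvf c T₁ j l (T₁ l - T l))| ≤ C₁ * (E / 2 ^ g l) * 2 ^ gT j := by
        rw [dvf_ext hc (dep_sub (hT₁ l) (hT l)) hl.2.le]
        exact hmk hi hc dT₁ hT₁ ((totalDegree_sub _ _).trans (max_le (dT₁ l) (dT l)))
          (fun b hb => by rw [map_sub]; exact e3 l (by omega) hl.2 hct b hb) hx₁ hj
      have h2 := e5 l (by omega) hl.2 hct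
      calc |eval x (dvf c T₁ j l (T₁ l - T l))| * |eval x (dvf c T l i (Gt - Φ i))| ≤
            C₁ * (E / 2 ^ g l) * 2 ^ gT j * (L l * 2 ^ g l / 2 ^ p) :=
            mul_le_mul h1 h2 (abs_nonneg _) (by positivity)
        _ = (C₁ * E * L l) * 2 ^ gT j / 2 ^ p := by field_simp
        _ ≤ U := by
          refine hUle _ ?_
          have h3 : L l ≤ S := by rw [hS]; linarith only [hSL l (by omega) hl.2]
          calc C₁ * E * L l = C₁ * 1 * E * 1 * L l := by ring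
            _ ≤ C₁ * C₂ * E ^ 3 * 2 ^ h * S := by
              refine mul_le_mul (mul_le_mul (mul_le_mul ?_ (hE2.trans hE3) hE0
                (by positivity)) h2h (by norm_num) (by positivity)) h3 (hL l) (by positivity)
              exact mul_le_mul_of_nonneg_left hC₂ hC1
    · have h0 : dvf c T₁ j l (T₁ l - T l) = dvf c T₁ j i (B l - Φ l) := by
        have e7 : T₁ l - T l = (T₁ l - B l) + (B l - Φ l) - (T l - Φ l) := by ring
        rw [e7, dvf_sub, dvf_add, dvf_time l (tm₁ l hl.2 hct), dvf_time l (tm l hl.2 hct),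
          zero_add, sub_zero, dvf_ext hc (dep_sub (hB l) (hΦ l)) hl.2.le]
      have h1 : |eval x (dvf c T₁ j l (T₁ l - T l))| ≤
          C₂ * (E / 2 ^ g₀ l) * E * 2 ^ gT j / 2 ^ v := by
        rw [h0]
        exact hball _ _ ((totalDegree_sub _ _).trans (max_le (dB l) (dΦ l))) (by positivity)
          (fun b hb => by rw [map_sub]; exact e2 l (by omega) hl.2.le b hb)
      have h2 : |eval x (dvf c T l i (Gt - Φ i))| ≤ C₁ * (E / 2 ^ gc) * 2 ^ g l := by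
        have e7 : Gt - Φ i = (Gt - Γ) + (Γ - Φ i) := by ring
        rw [e7, dvf_add, dvf_time i tmΓ, add_zero]
        exact hmk hi hc dT hT ((totalDegree_sub _ _).trans (max_le dG dΓ))
          (fun b hb => by rw [map_sub]; exact e4 b hb) hx hl.2
      have h3 : (2 : ℝ) ^ g l * 2 ^ g₀ i ≤ 2 ^ g₀ l * 2 ^ gc * 2 ^ h := by
        rw [← pow_add, ← pow_add, ← pow_add]
        exact pow_le_pow_right₀ (by norm_num) (hrg l (by omega) hl.2 hct)
      calc |eval x (dvf c T₁ j l (T₁ l - T l))| * |eval x (dvf c T l i (Gt - Φ i))| ≤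
            C₂ * (E / 2 ^ g₀ l) * E * 2 ^ gT j / 2 ^ v * (C₁ * (E / 2 ^ gc) * 2 ^ g l) :=
            mul_le_mul h1 h2 (abs_nonneg _) (by positivity)
        _ = (C₁ * C₂ * E ^ 3 * 2 ^ gT j) / 2 ^ v * (2 ^ g l / (2 ^ g₀ l * 2 ^ gc)) := by
          field_simp
        _ ≤ (C₁ * C₂ * E ^ 3 * 2 ^ gT j) / 2 ^ v * (2 ^ h / 2 ^ g₀ i) := by
          refine mul_le_mul_of_nonneg_left ?_ (by positivity)
          rw [div_le_div_iff₀ (by positivity) (by positivity)]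
          linarith only [h3]
        _ = (C₁ * C₂ * E ^ 3 * 2 ^ h * 1) * 2 ^ gT j / 2 ^ p := by
          rw [← hpv, pow_add]
          field_simp
        _ ≤ U := by
          refine hUle _ ?_
          exact mul_le_mul_of_nonneg_left hS1 (by positivity)
  have h1 := dvf_chg (c := c) (G := T₁) (G' := T) (j := j) i (Gt - Φ i)
  have h2 : dvf c T₁ j i (Gt - Φ i) = dvf c T₁ j i (Gt - Γ₁) + dvf c T₁ j i (B i - Φ i) := by
    have e7 : Gt - Φ i = (Gt - Γ₁) + (Γ₁ - B i) + (B i - Φ i) := by ring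
    rw [e7, dvf_add, dvf_add, dvf_time i tmΓ₁, add_zero]
  have h3 : eval x (dvf c T j i (Gt - Φ i)) = eval x (dvf c T₁ j i (Gt - Γ₁)) +
      eval x (dvf c T₁ j i (B i - Φ i)) -
      ∑ l ∈ Ico (j + 1) i, eval x (dvf c T₁ j l (T₁ l - T l) * dvf c T l i (Gt - Φ i)) := by
    rw [← map_add, ← h2, h1, map_add, map_sum]
    ring
  have h4 : |∑ l ∈ Ico (j + 1) i,
      eval x (dvf c T₁ j l (T₁ l - T l) * dvf c T l i (Gt - Φ i))| ≤ r * U := by
    refine (Finset.abs_sum_le_sum_abs _ _).trans ((Finset.sum_le_sum t3).trans ?_)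
    rw [Finset.sum_const, Nat.card_Ico, nsmul_eq_mul]
    have h5 : ((i - (j + 1) : ℕ) : ℝ) ≤ r := by
      have : i - (j + 1) ≤ r := by omega
      exact_mod_cast this
    exact mul_le_mul_of_nonneg_right h5 ((abs_nonneg _).trans t1)
  rw [h3]
  calc _ ≤ |eval x (dvf c T₁ j i (Gt - Γ₁))| + |eval x (dvf c T₁ j i (B i - Φ i))| +
        |∑ l ∈ Ico (j + 1) i,
          eval x (dvf c T₁ j l (T₁ l - T l) * dvf c T l i (Gt - Φ i))| :=
        (abs_sub _ _).trans (add_le_add (abs_add_le _ _) le_rfl)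
    _ ≤ U + U + r * U := add_le_add (add_le_add t1 t2) h4
    _ = _ := by
      rw [hU]
      ring

end Pool.VFD
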