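import Pool.Agent.H95.GN.Nwe
import Pool.Agent.H2.GEN.ChS

/-!
# Relations: rounding and windows, at one sample

The rounded point is in the natural box, with natural coordinates near those of the sample; the
offsets of the labels; the derivatives at the rounded point and at the window time.
-/

set_option autoImplicit false

namespace Pool.RLV

open Finset Real MvPolynomial
open Pool.GEN

/-! ### Windows -/

/-- **The variation in the time.** -/
theorem wvar (D : ℕ) : ∃ C : ℝ, 1 ≤ C ∧ ∀ (f : Polynomial ℝ) (S t t' : ℝ) (w : ℕ),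
    f.natDegree ≤ D → (∀ s, |s - t| ≤ 1 / 2 ^ w → |f.eval s| ≤ S) → |t' - t| ≤ 1 / 2 ^ w →
    |f.eval t' - f.eval t| ≤ C * S * (2 ^ w * |t' - t|) := by
  obtain ⟨C, hC, h⟩ := umark D
  refine ⟨C, hC, fun f S t t' w hf hS ht => ?_⟩
  have h2w : (0 : ℝ) < 2 ^ w := by positivity
  have h1 := (h (f.comp (Polynomial.C t + Polynomial.C (1 / 2 ^ w : ℝ) * Polynomial.X)) S
    (comp_lin_deg hf _ _) fun x hx => by
      rw [comp_lin_eval]
      refine hS _ ?_
      rw [add_sub_cancel_left, abs_mul, abs_of_pos (by positivity : (0 : ℝ) < 1 / 2 ^ w)]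
      calc 1 / 2 ^ w * |x| ≤ 1 / 2 ^ w * 1 := mul_le_mul_of_nonneg_left hx (by positivity)
        _ = 1 / 2 ^ w := mul_one _).2 (2 ^ w * (t' - t)) 0 (by
      rw [abs_mul, abs_of_pos h2w]
      calc 2 ^ w * |t' - t| ≤ 2 ^ w * (1 / 2 ^ w) := mul_le_mul_of_nonneg_left ht h2w.le
        _ = 1 := by field_simp) (by rw [abs_zero]; norm_num)
  rw [comp_lin_eval, comp_lin_eval, mul_zero, add_zero, sub_zero, abs_mul, abs_of_pos h2w] at h1
  have e1 : t + 1 / 2 ^ w * (2 ^ w * (t' - t)) = t' := by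
    field_simp
    ring
  rw [e1] at h1
  exact h1

section
variable {m : ℕ} {c : ℕ → Fin m} {j : ℕ} {K : ℕ → ℕ}
  {G H : ℕ → MvPolynomial (Option (Fin m)) ℝ} {q p : ℕ → ℕ} {a e : ℕ}
  {b₀ : Option (Fin m) → ℝ} {δ : ℝ}

/-! ### The rounded point -/

/-- **The rounding**: points near the own point are in the natural box, and the labels at these
points are near the labels at the own point. -/
theorem NwD.rnd (hD : NwD c j K G H q p a e b₀) (hgap : ∀ l ≤ j, q l + 2 ≤ p l) (hδ0 : 0 ≤ δ)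
    (hδ : ∀ l ≤ j, (1 + 2 ^ e * j) * δ ≤ 1 / 2 / 2 ^ q l) :
    ∀ l ≤ j + 1, ∀ y : Option (Fin m) → ℝ, y none = b₀ none →
      (∀ l' < l, |y (some (c l')) - b₀ (some (c l'))| ≤ δ) →
      NBx c G q a (b₀ none) l y ∧ (l ≤ j → |eval y (G l) - eval b₀ (G l)| ≤ 2 ^ e * (j * δ)) := by
  intro l
  have hown := hD.own hgap
  induction l with
  | zero =>
    intro _ y hy _
    refine ⟨⟨?_, fun l' hl' => absurd hl' (Nat.not_lt_zero l')⟩, fun _ => ?_⟩
    · rw [hy, sub_self, abs_zero]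
      positivity
    · rw [hD.depG 0 y b₀ hy fun l' hl' => absurd hl' (Nat.not_lt_zero l'), sub_self, abs_zero]
      positivity
  | succ l ih =>
    intro hl y hy hyd
    have box : ∀ y : Option (Fin m) → ℝ, y none = b₀ none →
        (∀ l' < l + 1, |y (some (c l')) - b₀ (some (c l'))| ≤ δ) →
        NBx c G q a (b₀ none) (l + 1) y := by
      intro y hy hyd
      obtain ⟨k1, k2⟩ := ih (by omega) y hy fun l' hl' => hyd l' (by omega)
      refine ⟨k1.1, fun l' hl' => ?_⟩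
      rcases Nat.lt_or_ge l' l with h1 | h1
      · exact k1.2 l' h1
      · have hll : l' = l := by omega
        subst hll
        have h2 := k2 (by omega)
        have h3 := hown l' (by omega)
        have h4 := hyd l' (Nat.lt_succ_self l')
        have h5 := hδ l' (by omega)
        have e1 : y (some (c l')) - eval y (G l') = (y (some (c l')) - b₀ (some (c l'))) +
            (b₀ (some (c l')) - eval b₀ (G l')) + (eval b₀ (G l') - eval y (G l')) := by ring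
        rw [e1]
        refine (abs_add_le _ _).trans ?_
        have h6 := abs_add_le (y (some (c l')) - b₀ (some (c l')))
          (b₀ (some (c l')) - eval b₀ (G l'))
        rw [abs_sub_comm (eval b₀ (G l')) (eval y (G l'))]
        have h7 : (1 : ℝ) / 2 / 2 ^ q l' + 1 / 4 / 2 ^ q l' ≤ 1 / 2 ^ q l' := by
          have : (0 : ℝ) < 1 / 2 ^ q l' := by positivity
          have e2 : (1 : ℝ) / 2 / 2 ^ q l' = 1 / 2 * (1 / 2 ^ q l') := by ring
          have e3 : (1 : ℝ) / 4 / 2 ^ q l' = 1 / 4 * (1 / 2 ^ q l') := by ring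
          rw [e2, e3]
          linarith only [this]
        have h8 : (1 + 2 ^ e * (j : ℝ)) * δ = δ + 2 ^ e * (j * δ) := by ring
        rw [h8] at h5
        linarith only [h2, h3, h4, h5, h6, h7]
    refine ⟨box y hy hyd, fun hj => ?_⟩
    have h1 := Pool.CHT.mv_chain (hD.depG (l + 1)) (b := b₀) (b' := y) (L := 2 ^ e) (δ := δ)
      (by positivity) hδ0 hy hyd fun z hz hzd l' hl' =>
        hD.lip (l + 1) hj z (box z hz hzd) l' hl'
    refine h1.trans (mul_le_mul_of_nonneg_left ?_ (by positivity))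
    refine mul_le_mul_of_nonneg_right ?_ hδ0
    exact_mod_cast hj

/-- The natural coordinates of the rounded point. -/
theorem NwD.rnb (hD : NwD c j K G H q p a e b₀) (hgap : ∀ l ≤ j, q l + 2 ≤ p l) (hδ0 : 0 ≤ δ)
    (hδ : ∀ l ≤ j, (1 + 2 ^ e * j) * δ ≤ 1 / 2 / 2 ^ q l) {y : Option (Fin m) → ℝ}
    (hy : y none = b₀ none) (hyd : ∀ l ≤ j, |y (some (c l)) - b₀ (some (c l))| ≤ δ) :
    ∀ l ≤ j, |(y (some (c l)) - eval y (G l)) - (b₀ (some (c l)) - eval b₀ (G l))| ≤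
      (1 + 2 ^ e * j) * δ := by
  intro l hl
  have h1 := (hD.rnd hgap hδ0 hδ l (by omega) y hy fun l' hl' => hyd l' (by omega)).2 hl
  have h2 := hyd l hl
  have e1 : (y (some (c l)) - eval y (G l)) - (b₀ (some (c l)) - eval b₀ (G l)) =
      (y (some (c l)) - b₀ (some (c l))) - (eval y (G l) - eval b₀ (G l)) := by ring
  rw [e1]
  refine (abs_sub _ _).trans ?_
  have h8 : (1 + 2 ^ e * (j : ℝ)) * δ = δ + 2 ^ e * (j * δ) := by ring
  rw [h8]
  linarith only [h1, h2]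

end

/-- The constant of the rounding. -/
theorem rnd_num (j : ℕ) : ∃ κ : ℕ, ∀ {e x n J : ℕ}, n + e + x + κ ≤ J →
    (1 + 2 ^ e * (j : ℝ)) * (1 / 2 ^ J) ≤ 1 / 2 ^ x / 2 ^ n := by
  obtain ⟨κ, hκ⟩ := pow_unbounded_of_one_lt (1 + (j : ℝ)) (one_lt_two (α := ℝ))
  refine ⟨κ, fun {e x n J} h => ?_⟩
  have h1 : (1 : ℝ) ≤ 2 ^ e := one_le_pow₀ (by norm_num)
  have h2 : (1 + 2 ^ e * (j : ℝ)) ≤ 2 ^ e * 2 ^ κ := by
    calc (1 + 2 ^ e * (j : ℝ)) ≤ 2 ^ e * (1 + j) := by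
          have : (0 : ℝ) ≤ j := Nat.cast_nonneg j
          linarith
      _ ≤ 2 ^ e * 2 ^ κ := mul_le_mul_of_nonneg_left hκ.le (by positivity)
  rw [mul_one_div, div_div, div_le_div_iff₀ (by positivity) (by positivity), one_mul]
  calc (1 + 2 ^ e * (j : ℝ)) * (2 ^ x * 2 ^ n) ≤ 2 ^ e * 2 ^ κ * (2 ^ x * 2 ^ n) :=
        mul_le_mul_of_nonneg_right h2 (by positivity)
    _ = 2 ^ (n + e + x + κ) := by ring
    _ ≤ 2 ^ J := pow_le_pow_right₀ (by norm_num) h

/-! ### The offsets -/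

/-- **The offsets**: the exact distance at the rounded point, and the polynomial of the line. -/
theorem ofs_of (j D : ℕ) : ∃ κ : ℕ, 2 ≤ κ ∧ ∀ {m : ℕ} {c : ℕ → Fin m} {K : ℕ → ℕ}
    {G H : ℕ → MvPolynomial (Option (Fin m)) ℝ} {q p : ℕ → ℕ} {a e o w E J : ℕ}
    {b₀ bh : Option (Fin m) → ℝ} {ox : ℕ → ℝ} {ol : ℕ → Polynomial ℝ},
    NwD c j K G H q p a e b₀ → w ≤ a → (∀ l ≤ j, q l + E + κ ≤ p l) →
    (∀ l ≤ j, q l + e + o + κ ≤ J) → bh none = b₀ none →
    (∀ l ≤ j, |bh (some (c l)) - b₀ (some (c l))| ≤ 1 / 2 ^ J) →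
    (∀ l ≤ j, ox l = bh (some (c l)) - eval bh (G l)) → (∀ l ≤ j, (ol l).natDegree ≤ D) →
    (∀ l ≤ j, (ol l).eval (b₀ none) = b₀ (some (c l)) - eval b₀ (H l)) →
    (∀ l ≤ j, ∀ s, |s - b₀ none| ≤ 1 / 2 ^ w →
      |(ol l).eval s| ≤ 2 ^ E * |(ol l).eval (b₀ none)|) →
    Ofs c j G H q a o b₀ ox ol := by
  obtain ⟨κ₁, hκ₁⟩ := rnd_num j
  obtain ⟨C, hC, hw⟩ := wvar D
  obtain ⟨κ₂, hκ₂⟩ := pow_unbounded_of_one_lt C (one_lt_two (α := ℝ))
  refine ⟨κ₁ + κ₂ + 3, by omega, ?_⟩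
  intro m c K G H q p a e o w E J b₀ bh ox ol hD hwa hgap hJ hb0 hbd hox hdeg hl0 hrt
  have hgap2 : ∀ l ≤ j, q l + 2 ≤ p l := fun l hl => by have := hgap l hl; omega
  refine ⟨fun l hl => ?_, hl0, fun l hl t' ht' => ?_⟩
  · rw [hox l hl]
    refine (hD.rnb hgap2 (by positivity) (fun l hl => ?_) hb0 hbd l hl).trans ?_
    · have h1 := hκ₁ (e := e) (x := 1) (n := q l) (J := J) (by have := hJ l hl; omega)
      rw [pow_one] at h1
      exact h1
    · refine (hκ₁ (e := e) (x := o + 2) (n := q l) (J := J) (by have := hJ l hl; omega)).trans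
        (le_of_eq ?_)
      rw [div_div, ← pow_add]
      congr 2
      omega
  · have hS : |(ol l).eval (b₀ none)| ≤ 2 / 2 ^ p l := by
      rw [hl0 l hl]
      have h1 := hD.pos l hl
      have h2 := hD.agr l hl b₀ ⟨by rw [sub_self, abs_zero]; positivity, fun l' hl' => ?_⟩
      · have h4 : (2 : ℝ) / 2 ^ p l = 1 / 2 ^ p l + 1 / 2 ^ p l := by ring
        rw [h4]
        rw [abs_le] at h1 h2 ⊢
        constructor <;> linarith only [h1.1, h1.2, h2.1, h2.2]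
      · refine (hD.pos l' (by omega)).trans (p2le ?_)
        have := hgap l' (by omega)
        omega
    have h1 := hw (ol l) (2 ^ E * (2 / 2 ^ p l)) (b₀ none) t' w (hdeg l hl)
      (fun s hs => (hrt l hl s hs).trans (mul_le_mul_of_nonneg_left hS (by positivity)))
      (ht'.trans (p2le (by omega)))
    refine h1.trans ?_
    have h2 : 2 ^ w * |t' - b₀ none| ≤ 1 / 2 ^ o := by
      calc 2 ^ w * |t' - b₀ none| ≤ 2 ^ w * (1 / 2 ^ (a + o)) :=
            mul_le_mul_of_nonneg_left ht' (by positivity)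
        _ ≤ 2 ^ a * (1 / 2 ^ (a + o)) := mul_le_mul_of_nonneg_right
            (pow_le_pow_right₀ (by norm_num) hwa) (by positivity)
        _ = 1 / 2 ^ o := by
            rw [pow_add]
            field_simp
    calc C * (2 ^ E * (2 / 2 ^ p l)) * (2 ^ w * |t' - b₀ none|)
        ≤ 2 ^ κ₂ * (2 ^ E * (2 / 2 ^ p l)) * (1 / 2 ^ o) :=
          mul_le_mul (mul_le_mul_of_nonneg_right hκ₂.le (by positivity)) h2 (by positivity)
            (by positivity)
      _ = 2 ^ (κ₂ + E + 1) / 2 ^ (p l + o) := by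
          rw [pow_add (2 : ℝ) (p l), pow_succ, pow_add]
          field_simp
      _ ≤ 1 / 2 ^ (q l + o + 2) := by
          rw [div_le_div_iff₀ (by positivity) (by positivity), one_mul, ← pow_add]
          refine pow_le_pow_right₀ (by norm_num) ?_
          have := hgap l hl
          omega

/-! ### The derivatives -/

/-- **The derivative at the rounded point.** -/
theorem ax_near (j Kd : ℕ) (K : ℕ → ℕ) : ∃ κ : ℕ, 6 ≤ κ ∧ ∀ {m : ℕ} {c : ℕ → Fin m}
    {G H : ℕ → MvPolynomial (Option (Fin m)) ℝ} {q p : ℕ → ℕ} {a e μ ν J : ℕ} {M : ℝ}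
    {b₀ bh : Option (Fin m) → ℝ} {Rx Rl : MvPolynomial (Option (Fin m)) ℝ},
    NwD c j K G H q p a e b₀ → NwR c j G q a Kd b₀ M μ ν Rx Rl → (∀ l ≤ j, q l + 2 ≤ p l) →
    (∀ l ≤ j, q l + e + 2 * μ + κ ≤ J) → bh none = b₀ none →
    (∀ l ≤ j, |bh (some (c l)) - b₀ (some (c l))| ≤ 1 / 2 ^ J) →
    |eval bh (pderiv (some (c j)) Rx) - eval b₀ (pderiv (some (c j)) Rx)| ≤
      |eval b₀ (pderiv (some (c j)) Rx)| / 2 ^ (μ + 4) := by
  obtain ⟨κ₁, hκ₁⟩ := rnd_num j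
  obtain ⟨C₁, hC₁, h₁⟩ := ntop Kd
  obtain ⟨C₂, hC₂, h₂⟩ := var_own (Kd * dg K (j + 1))
  obtain ⟨κ₂, hκ₂⟩ := pow_unbounded_of_one_lt (C₁ * C₂) (one_lt_two (α := ℝ))
  refine ⟨κ₁ + κ₂ + 6, by omega, ?_⟩
  intro m c G H q p a e μ ν J M b₀ bh Rx Rl hD hR hgap hJ hb0 hbd
  have hown := hD.own hgap
  have hbound : ∀ b, NBx c G q a (b₀ none) (j + 1) b →
      |eval b (pderiv (some (c j)) Rx)| ≤ C₁ * M * 2 ^ q j := by
    intro b hb
    have h3 := h₁ hD.inj hD.depG hR.degx hR.up b hb 1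
    rw [pow_one] at h3
    exact h3
  have hnr : Nrb c G q a (j + 1) b₀ (1 / 2 ^ (2 * μ + κ₂ + 4)) bh := by
    refine ⟨by rw [hb0, sub_self, abs_zero]; positivity, fun l hl => ?_⟩
    refine (hD.rnb hgap (by positivity) (fun l hl => ?_) hb0 hbd l (by omega)).trans ?_
    · have h3 := hκ₁ (e := e) (x := 1) (n := q l) (J := J) (by have := hJ l hl; omega)
      rw [pow_one] at h3
      exact h3
    · exact hκ₁ (e := e) (x := 2 * μ + κ₂ + 4) (n := q l) (J := J)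
        (by have := hJ l (by omega); omega)
  have h4 := h₂ (i := j + 1) (Q := pderiv (some (c j)) Rx) (D₀ := Kd)
    (M := C₁ * M * 2 ^ q j) (δ := 1 / 2 ^ (2 * μ + κ₂ + 4)) (b := bh) (b₀ := b₀)
    hD.inj hD.degG hD.depG (hR.depx.pderiv j) (totalDegree_pdσ hR.degx _) le_rfl
    hbound (by positivity) (by
      calc (1 : ℝ) / 2 ^ (2 * μ + κ₂ + 4) ≤ 1 / 2 ^ 2 := p2le (by omega)
        _ = 1 / 4 := by norm_num) (fun l hl => hown l (by omega)) hnr
  refine h4.trans ?_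
  have hM := hR.M0
  have hder := hR.der
  have h5 : C₂ * (C₁ * M * 2 ^ q j) * (1 / 2 ^ (2 * μ + κ₂ + 4)) ≤
      (M / 2 ^ μ * 2 ^ q j) / 2 ^ (μ + 4) := by
    have e1 : C₂ * (C₁ * M * 2 ^ q j) * (1 / 2 ^ (2 * μ + κ₂ + 4)) =
        (C₁ * C₂) * (M * 2 ^ q j / 2 ^ (2 * μ + κ₂ + 4)) := by ring
    have e2 : (M / 2 ^ μ * 2 ^ q j) / 2 ^ (μ + 4) =
        2 ^ κ₂ * (M * 2 ^ q j / 2 ^ (2 * μ + κ₂ + 4)) := by
      have : (2 : ℝ) ^ (2 * μ + κ₂ + 4) = 2 ^ μ * 2 ^ (μ + 4) * 2 ^ κ₂ := by ring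
      rw [this]
      field_simp
    rw [e1, e2]
    exact mul_le_mul_of_nonneg_right hκ₂.le (by positivity)
  exact h5.trans (div_le_div_of_nonneg_right hder (by positivity))

/-- **The derivative at the window time.** The polynomial `f` of the time is the derivative of the
line side, along the line. -/
theorem al_near (j Kd : ℕ) (K : ℕ → ℕ) : ∃ κ : ℕ, 6 ≤ κ ∧ ∀ {m : ℕ} {c : ℕ → Fin m}
    {G H : ℕ → MvPolynomial (Option (Fin m)) ℝ} {q p : ℕ → ℕ} {a e w o E μ ν : ℕ} {M T Al : ℝ}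
    {b₀ : Option (Fin m) → ℝ} {Rx Rl : MvPolynomial (Option (Fin m)) ℝ} {f : Polynomial ℝ},
    NwD c j K G H q p a e b₀ → NwR c j G q a Kd b₀ M μ ν Rx Rl → (∀ l ≤ j, q l + 2 ≤ p l) →
    f.natDegree ≤ Kd → f.eval (b₀ none) = eval b₀ (pderiv (some (c j)) Rl) →
    (∀ s, |s - b₀ none| ≤ 1 / 2 ^ w → |f.eval s| ≤ 2 ^ E * |f.eval (b₀ none)|) →
    |T - b₀ none| ≤ 1 / 2 ^ (w + o) → E + μ + κ ≤ o → 2 * μ + κ ≤ ν → Al = f.eval T →
    |Al - eval b₀ (pderiv (some (c j)) Rx)| ≤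
      |eval b₀ (pderiv (some (c j)) Rx)| / 2 ^ (μ + 4) := by
  obtain ⟨C₁, hC₁, h₁⟩ := ntop Kd
  obtain ⟨C₂, hC₂, h₂⟩ := wvar Kd
  obtain ⟨κ₁, hκ₁⟩ := pow_unbounded_of_one_lt (C₁ * C₂) (one_lt_two (α := ℝ))
  have hC1κ : C₁ ≤ C₁ * C₂ := le_mul_of_one_le_right (by linarith) hC₂
  have hC2κ : C₂ ≤ C₁ * C₂ := le_mul_of_one_le_left (by linarith) hC₁
  refine ⟨κ₁ + 8, by omega, ?_⟩
  intro m c G H q p a e w o E μ ν M T Al b₀ Rx Rl f hD hR hgap hf hf0 hrt hT ho hν hAl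
  have hown := hD.own hgap
  have hself : NBx c G q a (b₀ none) (j + 1) b₀ := by
    refine ⟨by rw [sub_self, abs_zero]; positivity, fun l hl => (hown l (by omega)).trans ?_⟩
    exact div_le_div_of_nonneg_right (by norm_num) (by positivity)
  obtain ⟨g, hg⟩ : ∃ g : ℝ, g = |eval b₀ (pderiv (some (c j)) Rx)| := ⟨_, rfl⟩
  have hM := hR.M0
  have hder := hR.der
  rw [← hg] at hder ⊢
  have hg0 : 0 ≤ g := by rw [hg]; exact abs_nonneg _
  -- the two sides
  have h3 := h₁ (i := j) (Q := Rx - Rl) (M := M / 2 ^ ν) (q := q) (a := a) (t := b₀ none) hD.inj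
    hD.depG ((totalDegree_sub _ _).trans (max_le hR.degx hR.degl))
    (fun b hb => by rw [map_sub]; exact hR.two b hb) b₀ hself 1
  rw [pow_one, Function.iterate_one, map_sub, map_sub, ← hf0] at h3
  have h4 : C₁ * (M / 2 ^ ν) * 2 ^ q j ≤ g / 2 ^ (μ + 5) := by
    have h5 : (M / 2 ^ μ * 2 ^ q j) / 2 ^ (μ + 5) ≤ g / 2 ^ (μ + 5) :=
      div_le_div_of_nonneg_right hder (by positivity)
    refine le_trans ?_ h5
    have e1 : C₁ * (M / 2 ^ ν) * 2 ^ q j = C₁ * (M * 2 ^ q j) / 2 ^ ν := by ring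
    have e2 : (M / 2 ^ μ * 2 ^ q j) / 2 ^ (μ + 5) = (M * 2 ^ q j) / 2 ^ (2 * μ + 5) := by
      have : (2 : ℝ) ^ (2 * μ + 5) = 2 ^ μ * 2 ^ (μ + 5) := by ring
      rw [this]
      field_simp
    rw [e1, e2, div_le_div_iff₀ (by positivity) (by positivity)]
    calc C₁ * (M * 2 ^ q j) * 2 ^ (2 * μ + 5) ≤ 2 ^ κ₁ * (M * 2 ^ q j) * 2 ^ (2 * μ + 5) :=
          mul_le_mul_of_nonneg_right (mul_le_mul_of_nonneg_right (hC1κ.trans hκ₁.le)
            (by positivity)) (by positivity)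
      _ = M * 2 ^ q j * 2 ^ (2 * μ + 5 + κ₁) := by ring
      _ ≤ M * 2 ^ q j * 2 ^ ν := mul_le_mul_of_nonneg_left
          (pow_le_pow_right₀ (by norm_num) (by omega)) (by positivity)
  have h6 : |f.eval (b₀ none)| ≤ 2 * g := by
    have h7 : g / 2 ^ (μ + 5) ≤ g := div_le_self hg0 (one_le_pow₀ (by norm_num))
    have h8 := h3.trans h4
    have e1 : f.eval (b₀ none) = eval b₀ (pderiv (some (c j)) Rx) -
      (eval b₀ (pderiv (some (c j)) Rx) - f.eval (b₀ none)) := by ring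
    rw [e1]
    refine (abs_sub _ _).trans ?_
    rw [← hg]
    linarith only [h7, h8]
  -- the window
  have h7 := h₂ f (2 ^ E * (2 * g)) (b₀ none) T w hf (fun s hs => (hrt s hs).trans
    (mul_le_mul_of_nonneg_left h6 (by positivity))) (hT.trans (p2le (by omega)))
  have h8 : 2 ^ w * |T - b₀ none| ≤ 1 / 2 ^ o := by
    calc 2 ^ w * |T - b₀ none| ≤ 2 ^ w * (1 / 2 ^ (w + o)) :=
          mul_le_mul_of_nonneg_left hT (by positivity)
      _ = 1 / 2 ^ o := by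
          rw [pow_add]
          field_simp
  have h9 : C₂ * (2 ^ E * (2 * g)) * (2 ^ w * |T - b₀ none|) ≤ g / 2 ^ (μ + 5) := by
    calc C₂ * (2 ^ E * (2 * g)) * (2 ^ w * |T - b₀ none|)
        ≤ 2 ^ κ₁ * (2 ^ E * (2 * g)) * (1 / 2 ^ o) :=
          mul_le_mul (mul_le_mul_of_nonneg_right (hC2κ.trans hκ₁.le) (by positivity)) h8
            (by positivity) (by positivity)
      _ = g * 2 ^ (κ₁ + E + 1) / 2 ^ o := by
          rw [pow_succ, pow_add]
          ring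
      _ ≤ g / 2 ^ (μ + 5) := by
          rw [div_le_div_iff₀ (by positivity) (by positivity), mul_assoc, ← pow_add]
          exact mul_le_mul_of_nonneg_left (pow_le_pow_right₀ (by norm_num) (by omega)) hg0
  have h10 := h7.trans h9
  have h11 := h3.trans h4
  rw [hAl]
  have e1 : f.eval T - eval b₀ (pderiv (some (c j)) Rx) = (f.eval T - f.eval (b₀ none)) -
      (eval b₀ (pderiv (some (c j)) Rx) - f.eval (b₀ none)) := by ring
  rw [e1]
  refine (abs_sub _ _).trans ?_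
  have e2 : g / 2 ^ (μ + 4) = g / 2 ^ (μ + 5) + g / 2 ^ (μ + 5) := by
    rw [pow_succ (2 : ℝ) (μ + 4)]
    field_simp
    ring
  rw [e2]
  linarith only [h10, h11]

end Pool.RLV
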