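import Pool.Agent.H95.GN.Rla
import Pool.Agent.H20.GEN.Rt

/-!
# Relations in a family: the new label

A relation with small values and large derivatives in the direction of the last coordinate gives,
on a large subevent, a chain with a better label of this coordinate, on a smaller radius and on a
smaller window.
-/

set_option autoImplicit false

namespace Pool.RLV

open Finset Real MvPolynomial
open Pool.Agent.H49.Ent Pool.Agent.H32.Dense Pool.STK Pool.KA Pool.KSAT Pool.K2S Pool.PB Pool.S6C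
open Pool.GEN

variable {m J : ℕ}

/-! ### Along the line -/

/-- The line, as polynomials in the time. -/
noncomputable def lpp {ζ : Type} (s : ((Fin m → ℝ) × (Fin m → ℝ)) × ζ × ℕ) :
    Option (Fin m) → Polynomial ℝ
  | none => Polynomial.X
  | some k => Polynomial.C (s.1.1 k) + Polynomial.X * Polynomial.C (s.1.2 k)

theorem lpp_deg {ζ : Type} (s : ((Fin m → ℝ) × (Fin m → ℝ)) × ζ × ℕ) (o : Option (Fin m)) :
    (lpp s o).natDegree ≤ 1 := by
  cases o with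
  | none => exact Polynomial.natDegree_X_le
  | some k =>
    show (Polynomial.C (s.1.1 k) + Polynomial.X * Polynomial.C (s.1.2 k)).natDegree ≤ 1
    refine (Polynomial.natDegree_add_le _ _).trans (max_le ?_ ?_)
    · rw [Polynomial.natDegree_C]
      exact Nat.zero_le _
    · exact (Polynomial.natDegree_mul_C_le _ _).trans Polynomial.natDegree_X_le

/-- A polynomial along the line. -/
noncomputable def alg {ζ : Type} (s : ((Fin m → ℝ) × (Fin m → ℝ)) × ζ × ℕ)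
    (Q : MvPolynomial (Option (Fin m)) ℝ) : Polynomial ℝ := MvPolynomial.aeval (lpp s) Q

theorem alg_deg {ζ : Type} (s : ((Fin m → ℝ) × (Fin m → ℝ)) × ζ × ℕ)
    {Q : MvPolynomial (Option (Fin m)) ℝ} {D : ℕ} (h : Q.totalDegree ≤ D) :
    (alg s Q).natDegree ≤ D := by
  have h1 := Pool.CHT.natDegree_aeval_mul Q (lpp s) (E := 1) (lpp_deg s) h
  rw [mul_one] at h1
  exact h1

theorem alg_own (F : Fam m J) (w : ℕ) (ω : F.Ω) (Q : MvPolynomial (Option (Fin m)) ℝ) :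
    (alg (slam F w ω) Q).eval (F.t ω) = eval (bt F ω) Q := by
  unfold alg
  rw [Pool.KBX.eval_aeval_poly]
  congr 1
  congr 1
  funext o
  cases o with
  | none => exact Polynomial.eval_X
  | some k =>
    show (Polynomial.C (F.u ω k) + Polynomial.X * Polynomial.C (F.d ω k)).eval (F.t ω) =
      F.u ω k + F.t ω * F.d ω k
    rw [Polynomial.eval_add, Polynomial.eval_mul, Polynomial.eval_C, Polynomial.eval_C,
      Polynomial.eval_X]

/-- The offsets of the labels, on the line. -/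
noncomputable def ofl {ζ : Type} (c : ℕ → Fin m) (H : ℕ → MvPolynomial (Option (Fin m)) ℝ)
    (s : ((Fin m → ℝ) × (Fin m → ℝ)) × ζ × ℕ) (l : ℕ) : Polynomial ℝ :=
  lpp s (some (c l)) - alg s (H l)

theorem ofl_deg {ζ : Type} (c : ℕ → Fin m) {H : ℕ → MvPolynomial (Option (Fin m)) ℝ}
    (s : ((Fin m → ℝ) × (Fin m → ℝ)) × ζ × ℕ) {l D : ℕ} (h : (H l).totalDegree ≤ D)
    (hD : 1 ≤ D) : (ofl c H s l).natDegree ≤ D :=
  (Polynomial.natDegree_sub_le _ _).trans (max_le ((lpp_deg s _).trans hD) (alg_deg s h))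

theorem ofl_own (F : Fam m J) (c : ℕ → Fin m) (H : ℕ → MvPolynomial (Option (Fin m)) ℝ)
    (w : ℕ) (ω : F.Ω) (l : ℕ) : (ofl c H (slam F w ω) l).eval (F.t ω) =
      bt F ω (some (c l)) - eval (bt F ω) (H l) := by
  unfold ofl
  rw [Polynomial.eval_sub, alg_own]
  congr 1
  show (Polynomial.C (F.u ω (c l)) + Polynomial.X * Polynomial.C (F.d ω (c l))).eval (F.t ω) =
    F.u ω (c l) + F.t ω * F.d ω (c l)
  rw [Polynomial.eval_add, Polynomial.eval_mul, Polynomial.eval_C, Polynomial.eval_C,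
    Polynomial.eval_X]

theorem win_time (F : Fam m J) {w : ℕ} (hw : w ≤ J) (ω : F.Ω) :
    |((slam F w ω).2.2 : ℝ) / 2 ^ w - F.t ω| ≤ 1 / 2 ^ w := by
  have h2w : (0 : ℝ) < 2 ^ w := by positivity
  have h1 := T1_real F hw ω
  have e1 : ((slam F w ω).2.2 : ℝ) = (F.T1 w ω : ℝ) := rfl
  have e2 : ((F.T1 w ω : ℝ)) / 2 ^ w - F.t ω = -((2 ^ w * F.t ω - F.T1 w ω) / 2 ^ w) := by
    field_simp
    ring
  rw [e1, e2, abs_neg, abs_div, abs_of_pos h2w]
  refine div_le_div_of_nonneg_right ?_ h2w.le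
  rw [abs_le]
  constructor <;> linarith only [h1.1, h1.2]

/-! ### Chains on coarse boxes -/

/-- **A chain on coarse boxes**: sides `2 ^ (-q l)`, precisions `2 ^ (-p l)`. -/
structure CBx (F : Fam m J) (c : ℕ → Fin m) (r : ℕ) (K : ℕ → ℕ) (a w e : ℕ) (q p : ℕ → ℕ)
    (A : F.Ω → Prop) (G : PtT F → ℕ → MvPolynomial (Option (Fin m)) ℝ)
    (H : LnT F → ℕ → MvPolynomial (Option (Fin m)) ℝ) : Prop where
  inj : Set.InjOn c (Set.Iio r)
  degG : ∀ y i, (G y i).totalDegree ≤ K i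
  degH : ∀ s i, (H s i).totalDegree ≤ K i
  depG : ∀ y i, DepC c i (G y i)
  depH : ∀ s i, DepC c i (H s i)
  pos : ∀ ω, A ω → ∀ i < r, |F.x ω (c i) - eval (bt F ω) (G (ptr F J ω) i)| ≤ 1 / 2 ^ p i
  agr : ∀ ω, A ω → ∀ i < r, ∀ b : Option (Fin m) → ℝ, NBx c (G (ptr F J ω)) q a (F.t ω) i b →
    |eval b (G (ptr F J ω) i) - eval b (H (slam F w ω) i)| ≤ 1 / 2 ^ p i
  lip : ∀ ω, A ω → ∀ i < r, ∀ b : Option (Fin m) → ℝ, NBx c (G (ptr F J ω)) q a (F.t ω) i b →
    ∀ l < i, |eval b (pderiv (some (c l)) (G (ptr F J ω) i))| ≤ 2 ^ e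

theorem CBx.sub {F : Fam m J} {c : ℕ → Fin m} {r : ℕ} {K : ℕ → ℕ} {a w e : ℕ} {q p : ℕ → ℕ}
    {A B : F.Ω → Prop} {G : PtT F → ℕ → MvPolynomial (Option (Fin m)) ℝ}
    {H : LnT F → ℕ → MvPolynomial (Option (Fin m)) ℝ} (h : CBx F c r K a w e q p A G H)
    (hB : Sub B A) : CBx F c r K a w e q p B G H :=
  ⟨h.inj, h.degG, h.degH, h.depG, h.depH, fun ω hω => h.pos ω (hB ω hω),
    fun ω hω => h.agr ω (hB ω hω), fun ω hω => h.lip ω (hB ω hω)⟩

theorem CBx.pre {F : Fam m J} {c : ℕ → Fin m} {r r' : ℕ} {K : ℕ → ℕ} {a w e : ℕ} {q p : ℕ → ℕ}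
    {A : F.Ω → Prop} {G : PtT F → ℕ → MvPolynomial (Option (Fin m)) ℝ}
    {H : LnT F → ℕ → MvPolynomial (Option (Fin m)) ℝ} (h : CBx F c r K a w e q p A G H)
    (hr : r' ≤ r) : CBx F c r' K a w e q p A G H :=
  ⟨h.inj.mono fun _ hx => lt_of_lt_of_le hx hr, h.degG, h.degH, h.depG, h.depH,
    fun ω hω i hi => h.pos ω hω i (hi.trans_le hr), fun ω hω i hi => h.agr ω hω i (hi.trans_le hr),
    fun ω hω i hi => h.lip ω hω i (hi.trans_le hr)⟩

/-- The data at one sample. -/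
theorem CBx.at {F : Fam m J} {c : ℕ → Fin m} {j : ℕ} {K : ℕ → ℕ} {a w e : ℕ} {q p : ℕ → ℕ}
    {A : F.Ω → Prop} {G : PtT F → ℕ → MvPolynomial (Option (Fin m)) ℝ}
    {H : LnT F → ℕ → MvPolynomial (Option (Fin m)) ℝ} (h : CBx F c (j + 1) K a w e q p A G H)
    {ω : F.Ω} (hω : A ω) :
    NwD c j K (G (ptr F J ω)) (H (slam F w ω)) q p a e (bt F ω) :=
  ⟨h.inj, h.degG _, h.degH _, h.depG _, h.depH _, fun l hl => h.pos ω hω l (by omega),
    fun l hl => h.agr ω hω l (by omega), fun l hl => h.lip ω hω l (by omega)⟩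

theorem dep_zero (c : ℕ → Fin m) (i : ℕ) : DepC c i (0 : MvPolynomial (Option (Fin m)) ℝ) := by
  intro b b' _ _
  rw [map_zero, map_zero]

/-- A power of two above an exponential. -/
theorem exp_le_two (C : ℝ) : ∃ κ : ℕ, ∀ n : ℕ, Real.exp (C * ((n : ℝ) + 1)) ≤ 2 ^ (κ * (n + 1)) ∧
    C * ((n : ℝ) + 1) ≤ ((κ * (n + 1) : ℕ) : ℝ) * Real.log 2 := by
  have hl2 : 0 < Real.log 2 := Real.log_pos (by norm_num)
  obtain ⟨κ, hκ⟩ := exists_nat_ge (C / Real.log 2)
  rw [div_le_iff₀ hl2] at hκ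
  have key : ∀ n : ℕ, C * ((n : ℝ) + 1) ≤ ((κ * (n + 1) : ℕ) : ℝ) * Real.log 2 := by
    intro n
    push_cast
    have : (0 : ℝ) ≤ (n : ℝ) + 1 := by positivity
    calc C * ((n : ℝ) + 1) ≤ (κ * Real.log 2) * ((n : ℝ) + 1) :=
          mul_le_mul_of_nonneg_right hκ this
      _ = _ := by ring
  refine ⟨κ, fun n => ⟨?_, key n⟩⟩
  calc Real.exp (C * ((n : ℝ) + 1)) ≤ Real.exp (((κ * (n + 1) : ℕ) : ℝ) * Real.log 2) :=
        Real.exp_le_exp.2 (key n)
    _ = 2 ^ (κ * (n + 1)) := by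
        rw [mul_comm, Real.exp_mul, Real.exp_log (by norm_num), Real.rpow_natCast]

/-- The time is full on all large subevents. -/
def TmN (F : Fam m J) (N e₀ : ℕ) (A : F.Ω → Prop) : Prop :=
  ∀ B : F.Ω → Prop, Sub B A → Pe F.p A ≤ N * Pe F.p B →
    (J : ℝ) * Real.log 2 - e₀ ≤ CH (cond F.p B True) F.T (fun ω => (F.l ω, F.Z ω))

theorem TmN.sub {F : Fam m J} {N N' k e₀ : ℕ} {A B : F.Ω → Prop} (h : TmN F N e₀ A)
    (hB : Sub B A) (hk : Pe F.p A ≤ k * Pe F.p B) (hN : k * N' ≤ N) : TmN F N' e₀ B := by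
  intro B' h1 h2
  refine h B' (fun ω hω => hB ω (h1 ω hω)) ?_
  have h3 : (k : ℝ) * N' ≤ N := by exact_mod_cast hN
  have h4 : 0 ≤ Pe F.p B' := Pe_nonneg F.isLaw B'
  calc Pe F.p A ≤ k * Pe F.p B := hk
    _ ≤ k * (N' * Pe F.p B') := mul_le_mul_of_nonneg_left h2 (Nat.cast_nonneg k)
    _ = (k * N') * Pe F.p B' := by ring
    _ ≤ N * Pe F.p B' := mul_le_mul_of_nonneg_right h3 h4

/-- **The new label.** -/
theorem rel_new (j Kd n : ℕ) (K : ℕ → ℕ) : ∃ κ N Kn : ℕ, 6 ≤ κ ∧ ∀ {m J : ℕ} {F : Fam m J}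
    {c : ℕ → Fin m} {a w e e' e₀ o μ ν : ℕ} {q p g' : ℕ → ℕ} {A : F.Ω → Prop}
    {G : PtT F → ℕ → MvPolynomial (Option (Fin m)) ℝ}
    {H : LnT F → ℕ → MvPolynomial (Option (Fin m)) ℝ}
    {Rx : PtT F → MvPolynomial (Option (Fin m)) ℝ} {Rl : LnT F → MvPolynomial (Option (Fin m)) ℝ}
    {M : F.Ω → ℝ}, 0 < Pe F.p A → w ≤ a → CBx F c (j + 1) K a w e q p A G H →
    (∀ y, (Rx y).totalDegree ≤ Kd) → (∀ s, (Rl s).totalDegree ≤ Kd) →
    (∀ y, DepC c (j + 1) (Rx y)) → (∀ s, DepC c (j + 1) (Rl s)) →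
    (∀ ω, A ω → NwR c j (G (ptr F J ω)) q a Kd (bt F ω) (M ω) μ ν (Rx (ptr F J ω))
      (Rl (slam F w ω))) → TmN F N e₀ A →
    (∀ l ≤ j, q l + κ * (e₀ + 1) ≤ p l) → κ * (e₀ + 1) ≤ μ → 3 * μ + 2 * κ ≤ o →
    3 * μ + 2 * κ ≤ ν → ν ≤ n * μ → (∀ l ≤ j, q l + e + o + 2 * μ + κ ≤ J) → w + o ≤ J →
    (∀ l < j, g' l = q l + o) → g' j + μ + κ ≤ q j + ν →
    (∀ l ≤ j, q l + e + μ + κ ≤ q j + e') →
    ∃ B : F.Ω → Prop, Sub B A ∧ Pe F.p A ≤ 2 * Pe F.p B ∧
      ChN F c (j + 1) (fun _ => Kn) (a + o) (w + o) e' g' B := by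
  classical
  obtain ⟨Ks, hKs⟩ : ∃ Ks, Ks = (range (j + 1)).sup K + 1 := ⟨_, rfl⟩
  have hKs1 : 1 ≤ Ks := by omega
  have hKsl : ∀ l ≤ j, K l ≤ Ks := fun l hl => by
    have : K l ≤ (range (j + 1)).sup K :=
      Finset.le_sup (f := K) (mem_range.2 (Nat.lt_succ_of_le hl))
    omega
  obtain ⟨C₀, hC₀, hrt⟩ := Pool.GEN.Rt.rt (max Ks Kd)
  obtain ⟨κE, hκE⟩ := exp_le_two C₀
  obtain ⟨κ₁, hκ₁, h₁⟩ := ofs_of j Ks
  obtain ⟨κ₂, hκ₂, h₂⟩ := ax_near j Kd K
  obtain ⟨κ₃, hκ₃, h₃⟩ := al_near j Kd K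
  obtain ⟨κ₄, hκ₄, h₄⟩ := newt j Kd n K
  refine ⟨κE + κ₁ + κ₂ + κ₃ + κ₄, 2 * (j + 2), Ks * (Kd + 1) ^ n, by omega, ?_⟩
  intro m J F c a w e e' e₀ o μ ν q p g' A G H Rx Rl M hA hwa hL hRxd hRld hRxp hRlp hR hT
    hgap hμ ho hν hn hJ hwJ hg1 hg2 he
  obtain ⟨κ, hκ⟩ : ∃ κ, κ = κE + κ₁ + κ₂ + κ₃ + κ₄ := ⟨_, rfl⟩
  rw [← hκ] at hgap hμ ho hν hJ hg2 he
  obtain ⟨E, hE⟩ : ∃ E, E = κE * (e₀ + 1) := ⟨_, rfl⟩
  have hκsplit : κ * (e₀ + 1) = E + (κ₁ + κ₂ + κ₃ + κ₄) * (e₀ + 1) := by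
    rw [hκ, hE]
    ring
  have hκe : κ₁ + κ₂ + κ₃ + κ₄ ≤ (κ₁ + κ₂ + κ₃ + κ₄) * (e₀ + 1) :=
    Nat.le_mul_of_pos_right _ (Nat.succ_pos e₀)
  have hJJ : w ≤ J := by omega
  -- the polynomials of the lines
  obtain ⟨f, hf⟩ : ∃ f : Fin (j + 2) → LnT F → Polynomial ℝ, f = fun (i : Fin (j + 2)) s =>
      if (i : ℕ) = j + 1 then alg s (pderiv (some (c j)) (Rl s)) else ofl c (H s) s i := ⟨_, rfl⟩
  have hfd : ∀ i s, (f i s).natDegree ≤ max Ks Kd := by
    intro i s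
    rw [hf]
    simp only
    split_ifs with hi
    · exact (alg_deg s (totalDegree_pdσ (hRld s) _)).trans (le_max_right _ _)
    · have : (i : ℕ) ≤ j := by
        have := i.2
        omega
      exact (ofl_deg c s ((hL.degH s i).trans (hKsl i this)) hKs1).trans (le_max_left _ _)
  have hN2 : (0 : ℝ) < 1 / (2 * (j + 2)) := by positivity
  obtain ⟨B, hBA, hBP, hB⟩ := hrt m J F A w o e₀ (1 / (2 * (j + 2))) (j + 2) f F.isLaw hA hfd
    hwJ (Nat.cast_nonneg _) hN2 (fun B hB h => hT B hB (by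
      rw [one_div_mul_eq_div, div_le_iff₀ (by positivity)] at h
      push_cast
      linarith only [h])) (by
      refine (hκE e₀).2.trans (mul_le_mul_of_nonneg_right ?_ (Real.log_nonneg (by norm_num)))
      have : κE * (e₀ + 1) ≤ o := by omega
      exact_mod_cast this)
  have hBP' : Pe F.p A ≤ 2 * Pe F.p B := by
    have h5 : (1 - ((j + 2 : ℕ) : ℝ) * (1 / (2 * (j + 2)))) = 1 / 2 := by
      push_cast
      have : (j : ℝ) + 2 ≠ 0 := by positivity
      field_simp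
      ring
    rw [h5] at hBP
    linarith only [hBP]
  have hB' : ∀ ω, B ω → ∀ (i : Fin (j + 2)) (s : ℝ), |s - F.t ω| ≤ 1 / 2 ^ w →
      |(f i (slam F w ω)).eval s| ≤ 2 ^ E * |(f i (slam F w ω)).eval (F.t ω)| := by
    intro ω hω i s hs
    refine (hB ω hω i s (hs.trans ?_)).trans (mul_le_mul_of_nonneg_right ?_ (abs_nonneg _))
    · exact div_le_div_of_nonneg_right (by norm_num) (by positivity)
    · rw [hE]
      exact (hκE e₀).1
  -- the new labels
  obtain ⟨ox, hox⟩ : ∃ ox : PtT F → ℕ → ℝ, ox = fun y l =>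
      bho J J y (some (c l)) - eval (bho J J y) (G y l) := ⟨_, rfl⟩
  obtain ⟨cs, hcs⟩ : ∃ cs : LnT F → LnT F, cs = fun s => (s.1, s.2.1, s.2.2 / 2 ^ o) := ⟨_, rfl⟩
  have hslam : ∀ ω, cs (slam F (w + o) ω) = slam F w ω := by
    intro ω
    rw [slam_coarse F (Nat.le_add_right w o) hwJ ω, hcs, Nat.add_sub_cancel_left]
  obtain ⟨Ax, hAx⟩ : ∃ Ax : PtT F → ℝ, Ax = fun y =>
      eval (bho J J y) (pderiv (some (c j)) (Rx y)) := ⟨_, rfl⟩
  obtain ⟨Al, hAl⟩ : ∃ Al : LnT F → ℝ, Al = fun s =>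
      (alg (cs s) (pderiv (some (c j)) (Rl (cs s)))).eval ((s.2.2 : ℝ) / 2 ^ (w + o)) := ⟨_, rfl⟩
  obtain ⟨G', hG'⟩ : ∃ G' : PtT F → ℕ → MvPolynomial (Option (Fin m)) ℝ, G' = fun y l =>
      if l < j then G y l + C (ox y l) else if l = j then
        nw (some (c j)) (Ax y) (G y j + C (ox y j)) (Rx y) n else 0 := ⟨_, rfl⟩
  obtain ⟨H', hH'⟩ : ∃ H' : LnT F → ℕ → MvPolynomial (Option (Fin m)) ℝ, H' = fun s l =>
      if l < j then H (cs s) l + toN m (ofl c (H (cs s)) (cs s) l) else if l = j then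
        nw (some (c j)) (Al s) (H (cs s) j + toN m (ofl c (H (cs s)) (cs s) j)) (Rl (cs s)) n
      else 0 := ⟨_, rfl⟩
  have key : ∀ ω, B ω →
      (∀ l ≤ j, |bt F ω (some (c l)) - eval (bt F ω) (G' (ptr F J ω) l)| ≤ 1 / 2 ^ g' l) ∧
      (∀ l ≤ j, ∀ b, NBx c (G' (ptr F J ω)) g' (a + o) (F.t ω) l b →
        |eval b (G' (ptr F J ω) l) - eval b (H' (slam F (w + o) ω) l)| ≤ 1 / 2 ^ g' l) ∧
      (∀ l ≤ j, ∀ b, NBx c (G' (ptr F J ω)) g' (a + o) (F.t ω) l b → ∀ l' < l,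
        |eval b (pderiv (some (c l')) (G' (ptr F J ω) l))| ≤ 2 ^ e') := by
    intro ω hω
    have hAω := hBA ω hω
    have hD := hL.at hAω
    have hRω := hR ω hAω
    have hgap2 : ∀ l ≤ j, q l + 2 ≤ p l := fun l hl => by have := hgap l hl; omega
    have hbn : bho J J (ptr F J ω) none = bt F ω none := rfl
    have hbd : ∀ l ≤ j, |bho J J (ptr F J ω) (some (c l)) - bt F ω (some (c l))| ≤
        1 / 2 ^ J := fun l _ => Pool.PB.Trl.x_near F J ω (c l)
    have hfl : ∀ l ≤ j, ∀ s, |s - bt F ω none| ≤ 1 / 2 ^ w →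
        |(ofl c (H (slam F w ω)) (slam F w ω) l).eval s| ≤
          2 ^ E * |(ofl c (H (slam F w ω)) (slam F w ω) l).eval (bt F ω none)| := by
      intro l hl s hs
      have h5 := hB' ω hω ⟨l, by omega⟩ s hs
      rw [hf] at h5
      simp only at h5
      rw [if_neg (by omega : ¬ l = j + 1)] at h5
      exact h5
    have hofs : Ofs c j (G (ptr F J ω)) (H (slam F w ω)) q a o (bt F ω) (ox (ptr F J ω))
        (ofl c (H (slam F w ω)) (slam F w ω)) :=
      h₁ (bh := bho J J (ptr F J ω)) (w := w) (E := E) (J := J) hD hwa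
        (fun l hl => by have := hgap l hl; omega) (fun l hl => by have := hJ l hl; omega) hbn hbd
        (fun l _ => by rw [hox]) (fun l hl => ofl_deg c _ ((hL.degH _ l).trans (hKsl l hl)) hKs1)
        (fun l _ => ofl_own F c _ w ω l) hfl
    have hAx' : |Ax (ptr F J ω) - eval (bt F ω) (pderiv (some (c j)) (Rx (ptr F J ω)))| ≤
        |eval (bt F ω) (pderiv (some (c j)) (Rx (ptr F J ω)))| / 2 ^ (μ + 4) := by
      rw [hAx]
      exact h₂ (J := J) hD hRω hgap2 (fun l hl => by have := hJ l hl; omega) hbn hbd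
    have hAl' : |Al (slam F (w + o) ω) -
        eval (bt F ω) (pderiv (some (c j)) (Rx (ptr F J ω)))| ≤
        |eval (bt F ω) (pderiv (some (c j)) (Rx (ptr F J ω)))| / 2 ^ (μ + 4) := by
      refine h₃ (w := w) (o := o) (E := E) (T := ((slam F (w + o) ω).2.2 : ℝ) / 2 ^ (w + o))
        (f := alg (slam F w ω) (pderiv (some (c j)) (Rl (slam F w ω)))) hD hRω hgap2
        (alg_deg _ (totalDegree_pdσ (hRld _) _)) (alg_own F w ω _) ?_ (win_time F hwJ ω)
        (by omega) (by omega) ?_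
      · intro s hs
        have h5 := hB' ω hω ⟨j + 1, by omega⟩ s hs
        rw [hf] at h5
        simp only [if_true] at h5
        exact h5
      · rw [hAl]
        simp only
        rw [hslam]
    have h5 := h₄ (G' := G' (ptr F J ω)) (H' := H' (slam F (w + o) ω)) (g' := g') (e' := e') hD
      hofs hRω (fun l hl => by have := hgap l hl; omega) (by omega) (by omega) hn hAx' hAl'
      (fun l hl => by
        rw [hG']
        simp only
        rw [if_pos hl]) (by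
        rw [hG']
        simp only
        rw [if_neg (lt_irrefl j)]
        simp only [if_true]) (fun l hl => by
        rw [hH']
        simp only
        rw [if_pos hl, hslam]) (by
        rw [hH']
        simp only
        rw [if_neg (lt_irrefl j)]
        simp only [if_true]
        rw [hslam]) hg1 (by omega) fun l hl => by have := he l hl; omega
    exact h5
  have hKn : Ks ≤ Ks * (Kd + 1) ^ n := Nat.le_mul_of_pos_right _ (by positivity)
  refine ⟨B, hBA, hBP', G', H', fun y l => ?_, fun s l => ?_, fun y l => ?_, fun s l => ?_,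
    fun ω hω l hl => (key ω hω).1 l (by omega), fun ω hω l hl => (key ω hω).2.1 l (by omega),
    fun ω hω l hl b hb l' hl' => ((key ω hω).2.2 l (by omega) b hb l' hl').trans
      (pow_le_pow_right₀ (by norm_num) (Nat.le_add_right _ _))⟩
  · rw [hG']
    simp only
    split_ifs with h5 h6
    · refine (totalDegree_add _ _).trans (max_le ?_ ?_)
      · exact (hL.degG y l).trans ((hKsl l h5.le).trans hKn)
      · rw [totalDegree_C]
        exact Nat.zero_le _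
    · refine nw_deg _ _ (hRxd y) hKs1 ((totalDegree_add _ _).trans (max_le ?_ ?_)) n
      · exact (hL.degG y j).trans (hKsl j le_rfl)
      · rw [totalDegree_C]
        exact Nat.zero_le _
    · rw [totalDegree_zero]
      exact Nat.zero_le _
  · rw [hH']
    simp only
    split_ifs with h5 h6
    · refine (totalDegree_add _ _).trans (max_le ?_ ?_)
      · exact (hL.degH _ l).trans ((hKsl l h5.le).trans hKn)
      · exact (toN_deg (ofl_deg c _ ((hL.degH _ l).trans (hKsl l h5.le)) hKs1)).trans hKn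
    · refine nw_deg _ _ (hRld _) hKs1 ((totalDegree_add _ _).trans (max_le ?_ ?_)) n
      · exact (hL.degH _ j).trans (hKsl j le_rfl)
      · exact toN_deg (ofl_deg c _ ((hL.degH _ j).trans (hKsl j le_rfl)) hKs1)
    · rw [totalDegree_zero]
      exact Nat.zero_le _
  · rw [hG']
    simp only
    split_ifs with h5 h6
    · exact dep_add (hL.depG y l) (dep_C _)
    · subst h6
      exact nw_dep _ (dep_add (hL.depG y l) (dep_C _)) (hRxp y) n
    · exact dep_zero c l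
  · rw [hH']
    simp only
    split_ifs with h5 h6
    · exact dep_add (hL.depH _ l) (toN_dep c l _)
    · subst h6
      exact nw_dep _ (dep_add (hL.depH _ l) (toN_dep c l _)) (hRlp _) n
    · exact dep_zero c l

end Pool.RLV
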