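import Pool.Agent.H95.GN.Rlb
import Pool.Agent.H95.GN.Rlc

/-!
# Relations in a family: the induction

A two-sided relation over the coordinates of a chain which is small at the samples and not small on
the natural boxes is impossible if there are no better labels of the coordinates of the chain.
-/

set_option autoImplicit false

namespace Pool.RLV

open Finset Real MvPolynomial
open Pool.Agent.H49.Ent Pool.Agent.H32.Dense Pool.STK Pool.KA Pool.KSAT Pool.K2S Pool.PB Pool.S6C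
open Pool.GEN
open Pool.CHT (dgp dgp_self dgp_succ)

/-- Finitely many parts. -/
theorem pgn {Ω : Type} [Fintype Ω] {p : Ω → ℝ} (hp : IsLaw p) {A : Ω → Prop} {n : ℕ}
    {P : ℕ → Ω → Prop} (hA : 0 < Pe p A) (h : ∀ ω, A ω → ∃ k < n, P k ω) :
    ∃ k < n, Pe p A ≤ n * Pe p (fun ω => A ω ∧ P k ω) := by
  classical
  by_contra hcon
  push Not at hcon
  obtain ⟨Q, hQ⟩ : ∃ Q : ℕ → Ω → Prop, Q = fun k ω => A ω ∧ P k ω := ⟨_, rfl⟩
  have hQ' : ∀ k, Pe p (fun ω => A ω ∧ P k ω) = Pe p (Q k) := fun k => by rw [hQ]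
  simp only [hQ'] at hcon
  have h1 : Pe p A ≤ ∑ k ∈ range n, Pe p (Q k) := by
    have e1 : ∑ k ∈ range n, Pe p (Q k) = ∑ ω, ∑ k ∈ range n, if Q k ω then p ω else 0 := by
      rw [Finset.sum_comm]
      exact Finset.sum_congr rfl fun k _ => Pe_eq _ _
    rw [e1, Pe_eq]
    refine Finset.sum_le_sum fun ω _ => ?_
    have h0 : ∀ k ∈ range n, 0 ≤ if Q k ω then p ω else 0 := fun k _ => by
      split_ifs
      · exact hp.nonneg ω
      · exact le_rfl
    by_cases hω : A ω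
    · rw [if_pos hω]
      obtain ⟨k, hk, hP⟩ := h ω hω
      refine le_trans ?_ (Finset.single_le_sum h0 (mem_range.2 hk))
      rw [if_pos (by rw [hQ]; exact ⟨hω, hP⟩)]
    · rw [if_neg hω]
      exact Finset.sum_nonneg h0
  rcases Nat.eq_zero_or_pos n with h0 | h0
  · subst h0
    rw [range_zero, sum_empty] at h1
    linarith
  · have hn : (0 : ℝ) < n := by exact_mod_cast h0
    have h2 : ∑ k ∈ range n, Pe p (Q k) < ∑ _k ∈ range n, Pe p A / n := by
      refine Finset.sum_lt_sum_of_nonempty ⟨0, mem_range.2 h0⟩ fun k hk => ?_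
      rw [lt_div_iff₀ hn, mul_comm]
      exact hcon k (mem_range.1 hk)
    rw [Finset.sum_const, card_range, nsmul_eq_mul, mul_div_cancel₀ _ hn.ne'] at h2
    linarith

variable {m J : ℕ}

/-- **A relation** over the coordinates `c l`, `l < i`, with its line side: small at the samples, up
to the depth `h`, and not small on the natural boxes. -/
structure Rel (F : Fam m J) (c : ℕ → Fin m) (i Kd a w : ℕ) (q : ℕ → ℕ) (h L : ℕ) (A : F.Ω → Prop)
    (G : PtT F → ℕ → MvPolynomial (Option (Fin m)) ℝ)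
    (Dx : PtT F → MvPolynomial (Option (Fin m)) ℝ)
    (Dl : LnT F → MvPolynomial (Option (Fin m)) ℝ) (M : F.Ω → ℝ) : Prop where
  degx : ∀ y, (Dx y).totalDegree ≤ Kd
  degl : ∀ s, (Dl s).totalDegree ≤ Kd
  depx : ∀ y, DepC c i (Dx y)
  depl : ∀ s, DepC c i (Dl s)
  M0 : ∀ ω, A ω → 0 < M ω
  own : ∀ ω, A ω → |eval (bt F ω) (Dx (ptr F J ω))| ≤ M ω / 2 ^ h
  two : ∀ ω, A ω → ∀ b, NBx c (G (ptr F J ω)) q a (F.t ω) i b →
    |eval b (Dx (ptr F J ω)) - eval b (Dl (slam F w ω))| ≤ M ω / 2 ^ h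
  up : ∀ ω, A ω → ∀ b, NBx c (G (ptr F J ω)) q a (F.t ω) i b →
    |eval b (Dx (ptr F J ω))| ≤ M ω
  low : ∀ ω, A ω → ∃ b, NBx c (G (ptr F J ω)) q a (F.t ω) i b ∧
    M ω ≤ 2 ^ L * |eval b (Dx (ptr F J ω))|

/-- **No relations in the time.** -/
theorem rel_time (Kd L : ℕ) : ∃ κ : ℕ, 1 ≤ κ ∧ ∀ {m J : ℕ} {F : Fam m J} {c : ℕ → Fin m}
    {a w e₀ h : ℕ} {q : ℕ → ℕ} {A : F.Ω → Prop}
    {G : PtT F → ℕ → MvPolynomial (Option (Fin m)) ℝ}
    {Dx : PtT F → MvPolynomial (Option (Fin m)) ℝ}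
    {Dl : LnT F → MvPolynomial (Option (Fin m)) ℝ} {M : F.Ω → ℝ}, 0 < Pe F.p A → w ≤ a →
    Rel F c 0 Kd a w q h L A G Dx Dl M → TmN F 2 e₀ A → κ * (e₀ + 1) ≤ h → w + h ≤ J → False := by
  classical
  obtain ⟨C, hC, hrt⟩ := Pool.GEN.Rt.rt Kd
  obtain ⟨κE, hκE⟩ := exp_le_two C
  refine ⟨κE + L + 3, by omega, ?_⟩
  intro m J F c a w e₀ h q A G Dx Dl M hA hwa hR hT hh hwJ
  obtain ⟨E, hE⟩ : ∃ E, E = κE * (e₀ + 1) := ⟨_, rfl⟩
  have hEh : E + L + 3 ≤ h := by
    have h1 : (κE + L + 3) * (e₀ + 1) = E + (L + 3) * (e₀ + 1) := by rw [hE]; ring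
    have h2 : L + 3 ≤ (L + 3) * (e₀ + 1) := Nat.le_mul_of_pos_right _ (Nat.succ_pos e₀)
    omega
  obtain ⟨B, hBA, hBP, hB⟩ := hrt m J F A w h e₀ (1 / 2) 1
    (fun _ s => alg s (Dl s)) F.isLaw hA (fun _ s => alg_deg s (hR.degl s)) hwJ
    (Nat.cast_nonneg _) (by norm_num) (fun B hB hP => hT B hB (by
      push_cast
      linarith only [hP])) (by
      refine (hκE e₀).2.trans (mul_le_mul_of_nonneg_right ?_ (Real.log_nonneg (by norm_num)))
      have : κE * (e₀ + 1) ≤ h := by omega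
      exact_mod_cast this)
  have hBpos : 0 < Pe F.p B := by
    have h1 : (1 - ((1 : ℕ) : ℝ) * (1 / 2)) = 1 / 2 := by norm_num
    rw [h1] at hBP
    linarith only [hBP, hA]
  have hne : ∃ ω, B ω := by
    by_contra hcon
    push Not at hcon
    have : Pe F.p B = 0 := by
      rw [Pe_eq]
      refine Finset.sum_eq_zero fun ω _ => ?_
      rw [if_neg (hcon ω)]
    linarith only [this, hBpos]
  obtain ⟨ω, hω⟩ := hne
  have hAω := hBA ω hω
  have hM := hR.M0 ω hAω
  obtain ⟨b, hb, hbl⟩ := hR.low ω hAω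
  have hown := hR.own ω hAω
  have htwo := hR.two ω hAω b hb
  have hself : NBx c (G (ptr F J ω)) q a (F.t ω) 0 (bt F ω) := by
    refine ⟨?_, fun l hl => absurd hl (Nat.not_lt_zero l)⟩
    show |F.t ω - F.t ω| ≤ _
    rw [sub_self, abs_zero]
    positivity
  have htwo' := hR.two ω hAω (bt F ω) hself
  have h1 := hB ω hω 0 (b none) (hb.1.trans (by
    refine (p2le hwa).trans ?_
    exact div_le_div_of_nonneg_right (by norm_num) (by positivity)))
  -- the value along the line at the time of `b`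
  have h2 : (alg (slam F w ω) (Dl (slam F w ω))).eval (b none) = eval b (Dl (slam F w ω)) := by
    unfold alg
    rw [Pool.KBX.eval_aeval_poly]
    refine hR.depl _ _ _ ?_ fun l hl => absurd hl (Nat.not_lt_zero l)
    exact Polynomial.eval_X
  rw [h2, alg_own] at h1
  have h3 : |eval (bt F ω) (Dl (slam F w ω))| ≤ 2 * (M ω / 2 ^ h) := by
    rw [abs_le] at hown htwo' ⊢
    constructor <;> linarith only [hown.1, hown.2, htwo'.1, htwo'.2]
  have h4 : |eval b (Dl (slam F w ω))| ≤ 2 ^ E * (2 * (M ω / 2 ^ h)) := by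
    refine h1.trans (mul_le_mul ?_ h3 (abs_nonneg _) (by positivity))
    rw [hE]
    exact (hκE e₀).1
  have h5 : |eval b (Dx (ptr F J ω))| ≤ 2 ^ E * (2 * (M ω / 2 ^ h)) + M ω / 2 ^ h := by
    have := abs_sub_abs_le_abs_sub (eval b (Dx (ptr F J ω))) (eval b (Dl (slam F w ω)))
    linarith only [this, h4, htwo]
  have h6 : M ω ≤ 2 ^ L * (2 ^ E * (2 * (M ω / 2 ^ h)) + M ω / 2 ^ h) :=
    hbl.trans (mul_le_mul_of_nonneg_left h5 (by positivity))
  have h7 : 2 ^ L * (2 ^ E * (2 * (M ω / 2 ^ h)) + M ω / 2 ^ h) ≤ M ω / 2 := by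
    have e1 : 2 ^ L * (2 ^ E * (2 * (M ω / 2 ^ h)) + M ω / 2 ^ h) =
        M ω * (2 ^ L * (2 * 2 ^ E + 1)) / 2 ^ h := by ring
    rw [e1, div_le_div_iff₀ (by positivity) (by norm_num)]
    have h8 : (2 : ℝ) ^ L * (2 * 2 ^ E + 1) * 2 ≤ 2 ^ h := by
      have h9 : (1 : ℝ) ≤ 2 ^ E := one_le_pow₀ (by norm_num)
      calc (2 : ℝ) ^ L * (2 * 2 ^ E + 1) * 2 ≤ 2 ^ L * (4 * 2 ^ E) * 2 := by
            have h10 : (0 : ℝ) < 2 ^ L := by positivity
            nlinarith only [h9, h10]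
        _ = 2 ^ (E + L + 3) := by ring
        _ ≤ 2 ^ h := pow_le_pow_right₀ (by norm_num) hEh
    calc M ω * (2 ^ L * (2 * 2 ^ E + 1)) * 2 = M ω * (2 ^ L * (2 * 2 ^ E + 1) * 2) := by ring
      _ ≤ M ω * 2 ^ h := mul_le_mul_of_nonneg_left h8 hM.le
  linarith only [h6, h7, hM]

/-- **No relations**, if there are no better labels. `E 0` bounds the defect of the time,
`E (l + 1)` is the distance between the precision and the side of `c l`, `E (i + 1)` is the depth
of the relation. -/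
theorem rel_core (V : ℕ) (K : ℕ → ℕ) (i : ℕ) : ∀ Kd L : ℕ, ∃ κ N Kn : ℕ, 1 ≤ κ ∧
    ∀ {m J : ℕ} {F : Fam m J} {c : ℕ → Fin m} {a w e e' e₀ : ℕ} {q p E : ℕ → ℕ}
      {A : F.Ω → Prop} {G : PtT F → ℕ → MvPolynomial (Option (Fin m)) ℝ}
      {H : LnT F → ℕ → MvPolynomial (Option (Fin m)) ℝ}
      {Dx : PtT F → MvPolynomial (Option (Fin m)) ℝ}
      {Dl : LnT F → MvPolynomial (Option (Fin m)) ℝ} {M : F.Ω → ℝ}, 0 < Pe F.p A → w ≤ a →
      CBx F c i K a w e q p A G H → Rel F c i Kd a w q (E (i + 1)) L A G Dx Dl M →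
      TmN F N e₀ A → e₀ + 1 ≤ E 0 → (∀ l < i, p l = q l + E (l + 1)) →
      (∀ l ≤ i, κ * E 0 ≤ E (l + 1)) →
      (∀ l < i, (V + 4) ^ (Kd * dgp K l i + 1) * E (l + 1) ≤ E (l + 2)) →
      (∀ l < i, q l + e + 7 * E (i + 1) ≤ J) → w + 4 * E (i + 1) ≤ J →
      (∀ l < i, ∀ l' ≤ l, q l' + e + E (i + 1) ≤ q l + e') →
      (∀ l < i, ∀ μ, E (l + 1) ≤ μ → μ ≤ E (i + 1) → ∀ B : F.Ω → Prop, Sub B A →
        Pe F.p A ≤ N * Pe F.p B → ¬ ChN F c (l + 1) (fun _ => Kn) (a + 4 * μ) (w + 4 * μ) e'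
          (fun l' => if l' < l then q l' + 4 * μ else p l + V * μ) B) → False := by
  classical
  induction i with
  | zero =>
    intro Kd L
    obtain ⟨κ, hκ, hh⟩ := rel_time Kd L
    refine ⟨κ, 2, 0, hκ, ?_⟩
    intro m J F c a w e e' e₀ q p E A G H Dx Dl M hA hwa _ hR hT hE0 _ hE _ _ hwJ _ _
    exact hh hA hwa hR hT ((Nat.mul_le_mul_left κ hE0).trans (hE 0 le_rfl)) (by omega)
  | succ j ih =>
    intro Kd L
    obtain ⟨Λ, hΛ⟩ : ∃ Λ, Λ = V + 4 := ⟨_, rfl⟩
    obtain ⟨κc, hcof⟩ := cof_step Kd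
    obtain ⟨κd, hκd⟩ := pow_unbounded_of_one_lt ((Kd : ℝ) + 1) (one_lt_two (α := ℝ))
    obtain ⟨C₁, hC₁, htop⟩ := ntop Kd
    obtain ⟨κ₁, hκ₁⟩ := pow_unbounded_of_one_lt C₁ (one_lt_two (α := ℝ))
    obtain ⟨κn, Nn, Knn, hκn, hnew⟩ := rel_new j Kd Λ K
    obtain ⟨κi, Ni, Kni, hκi, hind⟩ := ih (max (K j) 1 * Kd) (L + κc + κd)
    obtain ⟨n₀, hn₀⟩ : ∃ n₀, n₀ = 2 * (Kd + 1) := ⟨_, rfl⟩
    refine ⟨κi + 3 * κ₁ + 2 * κn + 1, n₀ * (Ni + Nn + 2), Kni + Knn, by omega, ?_⟩
    intro m J F c a w e e' e₀ q p E A G H Dx Dl M hA hwa hL hR hT hE0 hpE hEt hE hJ hwJ hsl hno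
    obtain ⟨κ, hκ⟩ : ∃ κ, κ = κi + 3 * κ₁ + 2 * κn + 1 := ⟨_, rfl⟩
    rw [← hκ] at hEt
    obtain ⟨h, hhE⟩ : ∃ h, h = E (j + 1 + 1) := ⟨_, rfl⟩
    rw [← hhE] at hR hJ hwJ hsl
    simp only [← hhE] at hno
    have hκpos : 1 ≤ κ := by omega
    have hEκ : ∀ l ≤ j, κ * (e₀ + 1) ≤ E (l + 1) := fun l hl =>
      (Nat.mul_le_mul_left κ hE0).trans (hEt l (by omega))
    have hEj : Λ ^ (Kd + 1) * E (j + 1) ≤ h := by
      have h1 := hE j (Nat.lt_succ_self j)
      rw [Pool.CHT.dgp_self, mul_one, ← hΛ] at h1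
      rw [hhE]
      exact h1
    have hκE : κ ≤ E (j + 1) := by
      have h1 := hEκ j le_rfl
      have h2 : κ ≤ κ * (e₀ + 1) := Nat.le_mul_of_pos_right _ (Nat.succ_pos e₀)
      omega
    -- the ladder
    obtain ⟨θ, hθ⟩ : ∃ θ : ℕ → ℕ, θ = fun k => Λ ^ (Kd + 1 - k) * E (j + 1) := ⟨_, rfl⟩
    have hΛ1 : 1 ≤ Λ := by omega
    have hθE : ∀ k, E (j + 1) ≤ θ k := fun k => by
      rw [hθ]
      exact Nat.le_mul_of_pos_left _ (Nat.pos_of_ne_zero (by positivity))
    have hθh : ∀ k, θ k ≤ h := fun k => by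
      rw [hθ]
      refine le_trans ?_ hEj
      exact Nat.mul_le_mul_right _ (Nat.pow_le_pow_right hΛ1 (Nat.sub_le _ _))
    have hθs : ∀ k ≤ Kd, θ k = Λ * θ (k + 1) := fun k hk => by
      rw [hθ]
      simp only
      rw [← mul_assoc, ← pow_succ']
      congr 2
      omega
    obtain ⟨P, hP⟩ : ∃ P : ℕ → F.Ω → Prop, P = fun k ω => if k < Kd + 1 then
        (∀ k ≤ Kd, |eval (bt F ω) ((pderiv (some (c j)))^[k] (Dx (ptr F J ω)))| ≤
          M ω / 2 ^ E (j + 1) * (2 ^ q j) ^ k) ∧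
        (∃ b, NBx c (G (ptr F J ω)) q a (F.t ω) (j + 1) b ∧ M ω ≤ 2 ^ L * ((Kd + 1) *
          |eval b (cof (some (c j)) (1 / 2 ^ q j) (G (ptr F J ω) j) (Dx (ptr F J ω)) k)|)) else
        (|eval (bt F ω) ((pderiv (some (c j)))^[k - (Kd + 1)] (Dx (ptr F J ω)))| ≤
          M ω / 2 ^ θ (k - (Kd + 1)) * (2 ^ q j) ^ (k - (Kd + 1))) ∧
        (M ω / 2 ^ θ (k - (Kd + 1) + 1) * (2 ^ q j) ^ (k - (Kd + 1) + 1) ≤
          |eval (bt F ω) ((pderiv (some (c j)))^[k - (Kd + 1) + 1] (Dx (ptr F J ω)))|) :=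
      ⟨_, rfl⟩
    have hcov : ∀ ω, A ω → ∃ k < n₀, P k ω := by
      intro ω hω
      have hM := hR.M0 ω hω
      by_cases hc1 : ∀ k ≤ Kd + 1, |eval (bt F ω) ((pderiv (some (c j)))^[k] (Dx (ptr F J ω)))| ≤
          M ω / 2 ^ θ k * (2 ^ q j) ^ k
      · obtain ⟨b, hb, hbl⟩ := hR.low ω hω
        obtain ⟨k, hk, hkb⟩ := cof_low (hR.degx (ptr F J ω)) hb
        refine ⟨k, by omega, ?_⟩
        rw [hP]
        simp only
        rw [if_pos hk]
        refine ⟨fun k' hk' => (hc1 k' (by omega)).trans ?_, b, hb, hbl.trans ?_⟩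
        · refine mul_le_mul_of_nonneg_right ?_ (by positivity)
          exact div_le_div_of_nonneg_left hM.le (by positivity)
            (pow_le_pow_right₀ (by norm_num) (hθE k'))
        · exact mul_le_mul_of_nonneg_left hkb (by positivity)
      · push Not at hc1
        obtain ⟨k₀, hk₀⟩ : ∃ k₀, k₀ = Nat.find hc1 := ⟨_, rfl⟩
        have hsp := Nat.find_spec hc1
        rw [← hk₀] at hsp
        have hmin : ∀ k < k₀, |eval (bt F ω) ((pderiv (some (c j)))^[k] (Dx (ptr F J ω)))| ≤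
            M ω / 2 ^ θ k * (2 ^ q j) ^ k := by
          intro k hk
          by_contra hcon
          push Not at hcon
          rw [hk₀] at hk
          exact Nat.find_min hc1 hk ⟨by omega, hcon⟩
        have hk0 : k₀ ≠ 0 := by
          intro h0
          have h1 := hsp.2
          rw [h0, pow_zero, mul_one, Function.iterate_zero, id] at h1
          have h2 := hR.own ω hω
          have h3 : M ω / 2 ^ h ≤ M ω / 2 ^ θ 0 :=
            div_le_div_of_nonneg_left hM.le (by positivity)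
              (pow_le_pow_right₀ (by norm_num) (hθh 0))
          linarith only [h1, h2, h3]
        obtain ⟨k, hk⟩ : ∃ k, k₀ = k + 1 := ⟨k₀ - 1, by omega⟩
        refine ⟨Kd + 1 + k, by omega, ?_⟩
        rw [hP]
        simp only
        rw [if_neg (by omega), Nat.add_sub_cancel_left]
        refine ⟨hmin k (by omega), ?_⟩
        rw [← hk]
        exact hsp.2.le
    obtain ⟨k, hk, hkP⟩ := pgn F.isLaw hA hcov
    obtain ⟨B, hB⟩ : ∃ B : F.Ω → Prop, B = fun ω => A ω ∧ P k ω := ⟨_, rfl⟩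
    have hBω : ∀ ω, B ω → A ω ∧ P k ω := fun ω hω => by rw [hB] at hω; exact hω
    have hBA : Sub B A := fun ω hω => (hBω ω hω).1
    rw [← hB] at hkP
    have hBpos : 0 < Pe F.p B := by
      have : (0 : ℝ) ≤ n₀ := Nat.cast_nonneg _
      by_contra hcon
      push Not at hcon
      nlinarith only [hkP, hA, hcon, this]
    have hNsub : ∀ {N' : ℕ}, N' ≤ Ni + Nn + 2 → ∀ B' : F.Ω → Prop, Sub B' B →
        Pe F.p B ≤ N' * Pe F.p B' → Pe F.p A ≤ (n₀ * (Ni + Nn + 2) : ℕ) * Pe F.p B' := by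
      intro N' hN' B' _ hP'
      have h1 : (N' : ℝ) ≤ (Ni + Nn + 2 : ℕ) := by exact_mod_cast hN'
      have h2 : 0 ≤ Pe F.p B' := Pe_nonneg F.isLaw B'
      push_cast at h1 ⊢
      calc Pe F.p A ≤ n₀ * Pe F.p B := hkP
        _ ≤ n₀ * (N' * Pe F.p B') := mul_le_mul_of_nonneg_left hP' (Nat.cast_nonneg _)
        _ ≤ n₀ * ((Ni + Nn + 2) * Pe F.p B') := mul_le_mul_of_nonneg_left
            (mul_le_mul_of_nonneg_right h1 h2) (Nat.cast_nonneg _)
        _ = _ := by ring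
    have hT' : TmN F (Ni + Nn + 2) e₀ B := hT.sub hBA hkP le_rfl
    rcases Nat.lt_or_ge k (Kd + 1) with hk' | hk'
    · -- the coefficient step
      have hPk : ∀ ω, B ω → (∀ k ≤ Kd, |eval (bt F ω) ((pderiv (some (c j)))^[k]
            (Dx (ptr F J ω)))| ≤ M ω / 2 ^ E (j + 1) * (2 ^ q j) ^ k) ∧
          (∃ b, NBx c (G (ptr F J ω)) q a (F.t ω) (j + 1) b ∧ M ω ≤ 2 ^ L * ((Kd + 1) *
            |eval b (cof (some (c j)) (1 / 2 ^ q j) (G (ptr F J ω) j)
              (Dx (ptr F J ω)) k)|)) := by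
        intro ω hω
        have h1 := (hBω ω hω).2
        rw [hP] at h1
        rw [if_pos hk'] at h1
        exact h1
      have hstep : ∀ ω, B ω → _ := fun ω hω => hcof (h := h) (h' := E (j + 1)) (hL.at (hBA ω hω))
        (hR.degx (ptr F J ω)) (hR.degl (slam F w ω)) (hR.M0 ω (hBA ω hω))
        (hR.up ω (hBA ω hω)) (hR.two ω (hBA ω hω)) (hPk ω hω).1 ((hθE 0).trans (hθh 0))
        (by rw [hpE j (Nat.lt_succ_self j)])
      refine hind (e := e) (e' := e') (E := E) (A := B) (G := G) (H := H) (p := p)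
        (Dx := fun y => cof (some (c j)) (1 / 2 ^ q j) (G y j) (Dx y) k)
        (Dl := fun s => cof (some (c j)) (1 / 2 ^ q j) (H s j) (Dl s) k)
        (M := fun ω => 2 ^ κc * M ω) hBpos hwa ((hL.sub hBA).pre (Nat.le_succ j))
        ⟨fun y => ?_, fun s => ?_, fun y => ?_, fun s => ?_, fun ω hω => ?_, fun ω hω => ?_,
          fun ω hω b hb => ?_, fun ω hω b hb => ?_, fun ω hω => ?_⟩
        (hT'.sub (fun _ h => h) (by push_cast; linarith only : Pe F.p B ≤ (1 : ℕ) * Pe F.p B)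
          (by omega)) hE0
        (fun l hl => hpE l (by omega)) (fun l hl => ?_) (fun l hl => ?_) (fun l hl => ?_) ?_
        (fun l hl l' hl' => ?_) fun l hl μ hμ1 hμ2 B' hB' hP' hch => ?_
      · exact cof_deg _ _ (hR.degx y) (le_max_right _ _) ((hL.degG y j).trans (le_max_left _ _)) k
      · exact cof_deg _ _ (hR.degl s) (le_max_right _ _) ((hL.degH s j).trans (le_max_left _ _)) k
      · exact cof_dep _ (hL.depG y j) (hR.depx y) k
      · exact cof_dep _ (hL.depH s j) (hR.depl s) k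
      · have := hR.M0 ω (hBA ω hω)
        positivity
      · exact (hstep ω hω).2.2 k
      · exact (hstep ω hω).2.1 k b hb
      · exact (hstep ω hω).1 k b hb
      · obtain ⟨b, hb, hbl⟩ := (hPk ω hω).2
        refine ⟨b, ⟨hb.1, fun l hl => hb.2 l (by omega)⟩, ?_⟩
        have h1 : 0 ≤ |eval b (cof (some (c j)) (1 / 2 ^ q j) (G (ptr F J ω) j)
              (Dx (ptr F J ω)) k)| := abs_nonneg _
        calc 2 ^ κc * M ω ≤ 2 ^ κc * (2 ^ L * ((Kd + 1) * |eval b (cof (some (c j)) (1 / 2 ^ q j)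
              (G (ptr F J ω) j) (Dx (ptr F J ω)) k)|)) :=
              mul_le_mul_of_nonneg_left hbl (by positivity)
          _ ≤ 2 ^ κc * (2 ^ L * (2 ^ κd * |eval b (cof (some (c j)) (1 / 2 ^ q j)
              (G (ptr F J ω) j) (Dx (ptr F J ω)) k)|)) := by
              refine mul_le_mul_of_nonneg_left (mul_le_mul_of_nonneg_left ?_ (by positivity))
                (by positivity)
              exact mul_le_mul_of_nonneg_right hκd.le h1
          _ = _ := by ring
      · exact (Nat.mul_le_mul_right _ (by omega)).trans (hEt l (by omega))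
      · have h1 := hE l (by omega)
        rw [Pool.CHT.dgp_succ K (show l + 1 ≤ j by omega)] at h1
        have h2 : max (K j) 1 * Kd * Pool.CHT.dgp K l j =
            Kd * (Pool.CHT.dgp K l j * max (K j) 1) := by ring
        rw [h2]
        exact h1
      · have h1 := hJ l (by omega)
        have h2 := hθE 0
        have h3 := hθh 0
        omega
      · have h2 := hθE 0
        have h3 := hθh 0
        omega
      · have h1 := hsl l (by omega) l' hl'
        have h2 := hθE 0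
        have h3 := hθh 0
        omega
      · have h2 := hθE 0
        have h3 := hθh 0
        exact hno l (by omega) μ hμ1 (by omega) B' (fun ω hω => hBA ω (hB' ω hω))
          (hNsub (N' := Ni) (by omega) B' hB' hP') (hch.cls fun _ _ => by omega)
    · -- the new label
      obtain ⟨k₀, hk₀⟩ : ∃ k₀, k₀ = k - (Kd + 1) := ⟨_, rfl⟩
      have hk0K : k₀ ≤ Kd := by omega
      have hPk : ∀ ω, B ω → |eval (bt F ω) ((pderiv (some (c j)))^[k₀] (Dx (ptr F J ω)))| ≤
            M ω / 2 ^ θ k₀ * (2 ^ q j) ^ k₀ ∧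
          M ω / 2 ^ θ (k₀ + 1) * (2 ^ q j) ^ (k₀ + 1) ≤
            |eval (bt F ω) ((pderiv (some (c j)))^[k₀ + 1] (Dx (ptr F J ω)))| := by
        intro ω hω
        have h1 := (hBω ω hω).2
        rw [hP] at h1
        rw [if_neg (by omega), ← hk₀] at h1
        exact h1
      obtain ⟨μ, hμ⟩ : ∃ μ, μ = θ (k₀ + 1) := ⟨_, rfl⟩
      have hν : θ k₀ = Λ * μ := by rw [hμ]; exact hθs k₀ hk0K
      have hμE : E (j + 1) ≤ μ := by rw [hμ]; exact hθE _
      have hμh : μ ≤ h := by rw [hμ]; exact hθh _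
      have hνh : Λ * μ ≤ h := by rw [← hν]; exact hθh _
      have h4μ : 4 * μ ≤ Λ * μ := Nat.mul_le_mul_right μ (by omega)
      have hVμ : Λ * μ = V * μ + 4 * μ := by rw [hΛ]; ring
      obtain ⟨s, hs⟩ : ∃ s : ℝ, s = 1 / 2 ^ q j := ⟨_, rfl⟩
      have hs0 : 0 < s := by rw [hs]; positivity
      have hsq : s * 2 ^ q j = 1 := by rw [hs]; field_simp
      have hsk : s ^ k₀ * (2 ^ q j) ^ k₀ = 1 := by rw [← mul_pow, hsq, one_pow]
      have h2κ : (0 : ℝ) < 2 ^ κ₁ := by positivity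
      have h2κ1 : (1 : ℝ) ≤ 2 ^ κ₁ := one_le_pow₀ (by norm_num)
      obtain ⟨Rx, hRx⟩ : ∃ Rx : PtT F → MvPolynomial (Option (Fin m)) ℝ, Rx = fun y =>
          C (s ^ k₀) * (pderiv (some (c j)))^[k₀] (Dx y) := ⟨_, rfl⟩
      obtain ⟨Rl, hRl⟩ : ∃ Rl : LnT F → MvPolynomial (Option (Fin m)) ℝ, Rl = fun y =>
          C (s ^ k₀) * (pderiv (some (c j)))^[k₀] (Dl y) := ⟨_, rfl⟩
      have hdeg : ∀ Q : MvPolynomial (Option (Fin m)) ℝ, Q.totalDegree ≤ Kd →
          (C (s ^ k₀) * (pderiv (some (c j)))^[k₀] Q).totalDegree ≤ Kd := by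
        intro Q hQ
        refine (totalDegree_mul _ _).trans ?_
        rw [totalDegree_C, zero_add]
        exact iter_deg _ hQ k₀
      have hdep : ∀ Q : MvPolynomial (Option (Fin m)) ℝ, DepC c (j + 1) Q →
          DepC c (j + 1) (C (s ^ k₀) * (pderiv (some (c j)))^[k₀] Q) := fun Q hQ =>
        dep_mul (dep_C _) (iter_dep j hQ k₀)
      have hRω : ∀ ω, B ω → NwR c j (G (ptr F J ω)) q a Kd (bt F ω) (2 ^ κ₁ * M ω)
          (μ + κ₁) (Λ * μ) (Rx (ptr F J ω)) (Rl (slam F w ω)) := by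
        intro ω hω
        have hAω := hBA ω hω
        have hM := hR.M0 ω hAω
        have htop' : ∀ (Q : MvPolynomial (Option (Fin m)) ℝ) (M' : ℝ), Q.totalDegree ≤ Kd →
            0 ≤ M' →
            (∀ b, NBx c (G (ptr F J ω)) q a (F.t ω) (j + 1) b → |eval b Q| ≤ M') →
            ∀ b, NBx c (G (ptr F J ω)) q a (F.t ω) (j + 1) b →
              |s ^ k₀ * eval b ((pderiv (some (c j)))^[k₀] Q)| ≤ 2 ^ κ₁ * M' := by
          intro Q M' hQ hM' hb' b hb
          rw [abs_mul, abs_of_pos (pow_pos hs0 k₀)]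
          calc s ^ k₀ * |eval b ((pderiv (some (c j)))^[k₀] Q)| ≤
                s ^ k₀ * (C₁ * M' * (2 ^ q j) ^ k₀) := mul_le_mul_of_nonneg_left
                  (htop hL.inj (hL.depG _) hQ hb' b hb k₀) (by positivity)
            _ = C₁ * M' * (s ^ k₀ * (2 ^ q j) ^ k₀) := by ring
            _ = C₁ * M' := by rw [hsk, mul_one]
            _ ≤ 2 ^ κ₁ * M' := mul_le_mul_of_nonneg_right hκ₁.le hM'
        refine ⟨?_, ?_, ?_, ?_, by positivity, fun b hb => ?_, fun b hb => ?_, ?_, ?_⟩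
        · rw [hRx]
          exact hdeg _ (hR.degx _)
        · rw [hRl]
          exact hdeg _ (hR.degl _)
        · rw [hRx]
          exact hdep _ (hR.depx _)
        · rw [hRl]
          exact hdep _ (hR.depl _)
        · rw [hRx, map_mul, eval_C]
          exact htop' _ (M ω) (hR.degx _) hM.le (hR.up ω hAω) b hb
        · have h1 := htop' (Dx (ptr F J ω) - Dl (slam F w ω)) (M ω / 2 ^ h)
            ((totalDegree_sub _ _).trans (max_le (hR.degx _) (hR.degl _))) (by positivity)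
            (fun b hb => by rw [map_sub]; exact hR.two ω hAω b hb) b hb
          have hit : (pderiv (some (c j)))^[k₀] (Dx (ptr F J ω) - Dl (slam F w ω)) =
              (pderiv (some (c j)))^[k₀] (Dx (ptr F J ω)) -
                (pderiv (some (c j)))^[k₀] (Dl (slam F w ω)) :=
            iterate_map_sub (pderiv (some (c j))) k₀ _ _
          rw [hit, map_sub] at h1
          rw [hRx, hRl, map_mul, map_mul, eval_C, ← mul_sub]
          refine h1.trans ?_
          rw [mul_div_assoc]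
          refine mul_le_mul_of_nonneg_left ?_ h2κ.le
          exact div_le_div_of_nonneg_left hM.le (by positivity)
            (pow_le_pow_right₀ (by norm_num) hνh)
        · rw [hRx, map_mul, eval_C, abs_mul, abs_of_pos (pow_pos hs0 k₀)]
          calc s ^ k₀ * |eval (bt F ω) ((pderiv (some (c j)))^[k₀] (Dx (ptr F J ω)))| ≤
                s ^ k₀ * (M ω / 2 ^ θ k₀ * (2 ^ q j) ^ k₀) :=
                mul_le_mul_of_nonneg_left (hPk ω hω).1 (by positivity)
            _ = M ω / 2 ^ θ k₀ * (s ^ k₀ * (2 ^ q j) ^ k₀) := by ring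
            _ = M ω / 2 ^ (Λ * μ) := by rw [hsk, mul_one, hν]
            _ ≤ 2 ^ κ₁ * M ω / 2 ^ (Λ * μ) := by
                refine div_le_div_of_nonneg_right ?_ (by positivity)
                exact le_mul_of_one_le_left hM.le h2κ1
        · have e1 : pderiv (some (c j)) (Rx (ptr F J ω)) =
              C (s ^ k₀) * (pderiv (some (c j)))^[k₀ + 1] (Dx (ptr F J ω)) := by
            rw [hRx]
            simp only
            rw [pderiv_C_mul, Function.iterate_succ_apply']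
          rw [e1, map_mul, eval_C, abs_mul, abs_of_pos (pow_pos hs0 k₀)]
          have h1 := mul_le_mul_of_nonneg_left (hPk ω hω).2 (pow_pos hs0 k₀).le
          refine le_trans (le_of_eq ?_) h1
          rw [← hμ, pow_succ, pow_add (2 : ℝ) μ κ₁]
          have e2 : s ^ k₀ * (M ω / 2 ^ μ * ((2 ^ q j) ^ k₀ * 2 ^ q j)) =
              M ω / 2 ^ μ * (s ^ k₀ * (2 ^ q j) ^ k₀) * 2 ^ q j := by ring
          rw [e2, hsk, mul_one]
          field_simp
      have hκμ : κ ≤ μ := hκE.trans hμE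
      obtain ⟨B', hB', hP', hch⟩ := hnew (e := e) (e' := e') (e₀ := e₀) (o := 4 * μ)
        (μ := μ + κ₁) (ν := Λ * μ) (q := q) (p := p) (A := B) (G := G) (H := H) (Rx := Rx)
        (Rl := Rl) (M := fun ω => 2 ^ κ₁ * M ω)
        (g' := fun l' => if l' < j then q l' + 4 * μ else p j + V * μ) hBpos hwa (hL.sub hBA)
        (fun y => by rw [hRx]; exact hdeg _ (hR.degx y))
        (fun s => by rw [hRl]; exact hdeg _ (hR.degl s))
        (fun y => by rw [hRx]; exact hdep _ (hR.depx y))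
        (fun s => by rw [hRl]; exact hdep _ (hR.depl s)) hRω
        (hT'.sub (fun _ h => h) (by push_cast; linarith only : Pe F.p B ≤ (1 : ℕ) * Pe F.p B)
          (by omega))
        (fun l hl => by
          rw [hpE l (by omega)]
          have h1 := hEκ l hl
          have h2 : κn * (e₀ + 1) ≤ κ * (e₀ + 1) := Nat.mul_le_mul_right _ (by omega)
          omega)
        (by
          have h1 := hEκ j le_rfl
          have h2 : κn * (e₀ + 1) ≤ κ * (e₀ + 1) := Nat.mul_le_mul_right _ (by omega)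
          omega) (by omega) (by omega)
        (by
          calc Λ * μ ≤ Λ * (μ + κ₁) := Nat.mul_le_mul_left _ (Nat.le_add_right _ _)
            _ = Λ * (μ + κ₁) := rfl)
        (fun l hl => by
          have h1 := hJ l (by omega)
          omega) (by omega) (fun l hl => by
          show (if l < j then q l + 4 * μ else p j + V * μ) = q l + 4 * μ
          rw [if_pos hl]) (by
          show (if j < j then q j + 4 * μ else p j + V * μ) + (μ + κ₁) + κn ≤ q j + Λ * μ
          rw [if_neg (lt_irrefl j), hpE j (Nat.lt_succ_self j), hVμ]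
          omega) (fun l hl => by
          have h1 := hsl j (Nat.lt_succ_self j) l hl
          omega)
      refine hno j (Nat.lt_succ_self j) μ hμE hμh B' (fun ω hω => hBA ω (hB' ω hω))
        (hNsub (N' := 2) (by omega) B' hB' (by push_cast; exact hP')) (hch.cls fun _ _ => ?_)
      omega

end Pool.RLV
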