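import Pool.Agent.H95.GN.UniT

/-!
# Rounding of polynomials

`rdv s P`: the coefficients, rounded to multiples of `2 ^ (-s)`; `unr s K v`: the polynomial with
these coefficients. Two polynomials which are close on a small box have rounded coefficients whose
difference is in a finite set.
-/

set_option autoImplicit false

namespace Pool.UNJ

open Finset Real
open Pool.Agent.H49.Ent Pool.Agent.H32.Dense Pool.STK Pool.BFL Pool.KA Pool.KSAT Pool.KAL Pool.FLF

/-- The rounded coefficients. -/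
noncomputable def rdv {n : ℕ} (s : ℕ) (P : Pl n) : (Fin n →₀ ℕ) → ℤ :=
  fun α => ⌊(2 : ℝ) ^ s * MvPolynomial.coeff α P⌋

/-- The polynomial with the coefficients `v α / 2 ^ s`. -/
noncomputable def unr {n : ℕ} (s K : ℕ) (v : (Fin n →₀ ℕ) → ℤ) : Pl n :=
  ∑ α ∈ expBox (Fin n) K, MvPolynomial.monomial α ((v α : ℝ) / 2 ^ s)

theorem coeff_unr {n : ℕ} (s K : ℕ) (v : (Fin n →₀ ℕ) → ℤ) (α : Fin n →₀ ℕ) :
    MvPolynomial.coeff α (unr s K v) = if α ∈ expBox (Fin n) K then (v α : ℝ) / 2 ^ s else 0 := by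
  classical
  unfold unr
  rw [MvPolynomial.coeff_sum]
  simp only [MvPolynomial.coeff_monomial]
  rw [Finset.sum_ite_eq']

theorem deg_unr {n : ℕ} (s K : ℕ) (v : (Fin n →₀ ℕ) → ℤ) : (unr s K v).totalDegree ≤ K := by
  unfold unr
  refine MvPolynomial.totalDegree_finsetSum_le fun α hα => ?_
  refine (MvPolynomial.totalDegree_monomial_le _ _).trans ?_
  rw [mem_expBox] at hα
  rw [Finsupp.degree_apply] at hα
  exact hα

/-- The error of the rounding. -/
theorem near_unr {n : ℕ} {s K : ℕ} {P : Pl n} (hP : P.totalDegree ≤ K) {R : ℝ} (hR : 1 ≤ R)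
    {y : Fin n → ℝ} (hy : ∀ i, |y i| ≤ R) :
    |MvPolynomial.eval y P - MvPolynomial.eval y (unr s K (rdv s P))| ≤
      (expBox (Fin n) K).card * R ^ K / 2 ^ s := by
  classical
  have hs0 : (0 : ℝ) < 2 ^ s := by positivity
  have e : ∀ Q : Pl n, Q.totalDegree ≤ K → MvPolynomial.eval y Q =
      ∑ α ∈ expBox (Fin n) K, MvPolynomial.coeff α Q * ∏ i, y i ^ α i := by
    intro Q hQ
    rw [MvPolynomial.eval_eq']
    refine Finset.sum_subset (support_subset_expBox Q K hQ) fun α _ hα => ?_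
    rw [MvPolynomial.notMem_support_iff] at hα
    rw [hα, zero_mul]
  rw [e P hP, e _ (deg_unr s K _), ← Finset.sum_sub_distrib]
  refine (Finset.abs_sum_le_sum_abs _ _).trans ?_
  rw [mul_div_assoc, ← nsmul_eq_mul]
  refine Finset.sum_le_card_nsmul _ _ _ fun α hα => ?_
  rw [← sub_mul, abs_mul]
  have h1 : |MvPolynomial.coeff α P - MvPolynomial.coeff α (unr s K (rdv s P))| ≤ 1 / 2 ^ s := by
    rw [coeff_unr, if_pos hα]
    unfold rdv
    rw [le_div_iff₀ hs0]
    have h2 := Int.floor_le ((2 : ℝ) ^ s * MvPolynomial.coeff α P)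
    have h3 := Int.lt_floor_add_one ((2 : ℝ) ^ s * MvPolynomial.coeff α P)
    have h4 : (MvPolynomial.coeff α P -
        (⌊(2 : ℝ) ^ s * MvPolynomial.coeff α P⌋ : ℝ) / 2 ^ s) * 2 ^ s =
        2 ^ s * MvPolynomial.coeff α P - ⌊(2 : ℝ) ^ s * MvPolynomial.coeff α P⌋ := by
      field_simp
    rw [← abs_of_pos hs0, ← abs_mul, abs_of_pos hs0, h4, abs_le]
    constructor <;> linarith
  have h2 : |∏ i, y i ^ α i| ≤ R ^ K := by
    rw [Finset.abs_prod]
    calc ∏ i, |y i ^ α i| ≤ ∏ i, R ^ α i := by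
          refine Finset.prod_le_prod (fun i _ => abs_nonneg _) fun i _ => ?_
          rw [abs_pow]
          exact pow_le_pow_left₀ (abs_nonneg _) (hy i) _
      _ = R ^ (∑ i, α i) := by rw [Finset.prod_pow_eq_pow_sum]
      _ ≤ R ^ K := by
          refine pow_le_pow_right₀ hR ?_
          rw [mem_expBox, Finsupp.degree_apply] at hα
          refine le_trans (le_of_eq ?_) hα
          exact (Finset.sum_subset (Finset.subset_univ _)
            fun i _ h => Finsupp.notMem_support_iff.1 h).symm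
  calc |MvPolynomial.coeff α P - MvPolynomial.coeff α (unr s K (rdv s P))| * |∏ i, y i ^ α i| ≤
        1 / 2 ^ s * R ^ K := mul_le_mul h1 h2 (abs_nonneg _) (by positivity)
    _ = _ := by ring

/-- From a small box to larger boxes. -/
theorem ext_half (n K : ℕ) (R : ℝ) (hR : 1 ≤ R) : ∃ C : ℝ, 1 ≤ C ∧ ∀ (P : Pl n) (M : ℝ),
    P.totalDegree ≤ K → (∀ y : Fin n → ℝ, (∀ i, 0 ≤ y i ∧ y i ≤ 1 / 2) →
      |MvPolynomial.eval y P| ≤ M) → ∀ x : Fin n → ℝ, (∀ i, |x i| ≤ R) →
      |MvPolynomial.eval x P| ≤ C * M := by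
  obtain ⟨C, hC, h⟩ := lagm n K (2 * R) (by linarith)
  refine ⟨C, hC, ?_⟩
  intro P M hP hM x hx
  obtain ⟨f, hf⟩ : ∃ f : Fin n → Pl n, f = fun i =>
    MvPolynomial.C (1 / 2) * MvPolynomial.X i + MvPolynomial.C 0 := ⟨_, rfl⟩
  have hfe : ∀ z : Fin n → ℝ, MvPolynomial.eval z (MvPolynomial.aeval f P) =
      MvPolynomial.eval (fun i => z i / 2) P := by
    intro z
    rw [eval_aff]
    congr 2
    funext i
    rw [hf]
    simp only [map_add, map_mul, MvPolynomial.eval_C, MvPolynomial.eval_X]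
    ring
  have h1 := h (MvPolynomial.aeval f P) M ((deg_aff (fun i => by rw [hf]; exact deg_lin _ _ _)
    P).trans hP) (by
      intro k
      rw [hfe]
      refine hM _ fun i => ?_
      have h2 : (0 : ℝ) ≤ (((k i : Fin (K + 1)) : ℕ) : ℝ) / (K + 1) := by positivity
      have h3 : (((k i : Fin (K + 1)) : ℕ) : ℝ) / (K + 1) ≤ 1 := by
        rw [div_le_one (by positivity)]
        have h7 : (((k i : Fin (K + 1)) : ℕ) : ℝ) < ((K + 1 : ℕ) : ℝ) := by
          exact_mod_cast (k i).2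
        push_cast at h7
        exact h7.le
      constructor <;> linarith) (fun i => 2 * x i) (by
      intro i
      rw [abs_mul, abs_of_pos (by norm_num : (0 : ℝ) < 2)]
      exact mul_le_mul_of_nonneg_left (hx i) (by norm_num))
  rw [hfe] at h1
  have e : (fun i => 2 * x i / 2) = x := by
    funext i
    ring
  rw [e] at h1
  exact h1

/-- **The differences of the rounded coefficients of two polynomials which are close.** -/
theorem off_rdv (n K s : ℕ) (M : ℝ) : ∃ Off : Finset ((Fin n →₀ ℕ) → ℤ), ∀ P Q : Pl n,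
    P.totalDegree ≤ K → Q.totalDegree ≤ K → (∀ y : Fin n → ℝ, (∀ i, 0 ≤ y i ∧ y i ≤ 1 / 2) →
      |MvPolynomial.eval y P - MvPolynomial.eval y Q| ≤ M) → rdv s P - rdv s Q ∈ Off := by
  classical
  obtain ⟨C₁, hC₁, h1⟩ := ext_half n K 1 le_rfl
  obtain ⟨C₂, hC₂, h2⟩ := coefSum_le_unit n K
  obtain ⟨c₀, hc₀⟩ := exists_nat_ge (2 ^ s * (C₂ * (C₁ * M)) + 1)
  obtain ⟨Q₀, hQ₀⟩ : ∃ S : Finset ((α : ↥(expBox (Fin n) K)) → ℤ), S = Fintype.piFinset fun _ =>
    Finset.Icc (-(c₀ : ℤ)) c₀ := ⟨_, rfl⟩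
  refine ⟨Q₀.image fun v α => if h : α ∈ expBox (Fin n) K then v ⟨α, h⟩ else 0, ?_⟩
  intro P Q hP hQ hPQ
  rw [Finset.mem_image]
  refine ⟨fun α => rdv s P α - rdv s Q α, ?_, ?_⟩
  · rw [hQ₀, Fintype.mem_piFinset]
    intro α
    have h3 : coefSum (P - Q) ≤ C₂ * (C₁ * M) := by
      refine h2 (P - Q) _ ((MvPolynomial.totalDegree_sub _ _).trans (max_le hP hQ)) ?_
      intro y hy
      refine h1 (P - Q) M ((MvPolynomial.totalDegree_sub _ _).trans (max_le hP hQ)) (by
        intro z hz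
        rw [map_sub]
        exact hPQ z hz) y fun i => ?_
      have h3 : (0 : ℝ) ≤ y i ∧ y i ≤ 0 + 1 := hy i
      rw [abs_le]
      constructor <;> linarith [h3.1, h3.2]
    have h4 : |MvPolynomial.coeff (α : Fin n →₀ ℕ) (P - Q)| ≤ C₂ * (C₁ * M) := by
      refine le_trans ?_ h3
      rw [coefSum_eq_box (P - Q) K ((MvPolynomial.totalDegree_sub _ _).trans (max_le hP hQ))]
      exact Finset.single_le_sum (f := fun α => |MvPolynomial.coeff α (P - Q)|)
        (fun β _ => abs_nonneg _) α.2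
    rw [MvPolynomial.coeff_sub] at h4
    have h5 : |(2 : ℝ) ^ s * MvPolynomial.coeff (α : Fin n →₀ ℕ) P -
        2 ^ s * MvPolynomial.coeff (α : Fin n →₀ ℕ) Q| ≤ 2 ^ s * (C₂ * (C₁ * M)) := by
      rw [← mul_sub, abs_mul, abs_of_nonneg (by positivity : (0 : ℝ) ≤ 2 ^ s)]
      exact mul_le_mul_of_nonneg_left h4 (by positivity)
    have h6 : |((rdv s P α - rdv s Q α : ℤ) : ℝ)| ≤ c₀ := by
      refine le_trans ?_ hc₀
      unfold rdv
      have k1 := Int.floor_le ((2 : ℝ) ^ s * MvPolynomial.coeff (α : Fin n →₀ ℕ) P)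
      have k2 := Int.lt_floor_add_one ((2 : ℝ) ^ s * MvPolynomial.coeff (α : Fin n →₀ ℕ) P)
      have k3 := Int.floor_le ((2 : ℝ) ^ s * MvPolynomial.coeff (α : Fin n →₀ ℕ) Q)
      have k4 := Int.lt_floor_add_one ((2 : ℝ) ^ s * MvPolynomial.coeff (α : Fin n →₀ ℕ) Q)
      rw [abs_le] at h5 ⊢
      push_cast
      constructor <;> linarith [h5.1, h5.2]
    rw [Finset.mem_Icc]
    rw [abs_le] at h6
    constructor
    · have := h6.1
      exact_mod_cast this
    · have := h6.2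
      exact_mod_cast this
  · funext α
    by_cases h : α ∈ expBox (Fin n) K
    · rw [dif_pos h]
      rfl
    · rw [dif_neg h]
      have e : ∀ R : Pl n, R.totalDegree ≤ K → MvPolynomial.coeff α R = 0 := by
        intro R hR
        rw [← MvPolynomial.notMem_support_iff]
        exact fun h' => h (support_subset_expBox R K hR h')
      show 0 = rdv s P α - rdv s Q α
      unfold rdv
      rw [e P hP, e Q hQ, sub_self]

end Pool.UNJ
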