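import Pool.Agent.H95.GN.Own

/-!
# The tilts of the contact coordinates

`own_tau`: the derivative of the label of a contact coordinate in the direction of an earlier
contact coordinate, relative to the ball chart, from a label of the coordinate on boxes which are
large in the contact directions.
-/

set_option autoImplicit false

namespace Pool.VFD

open Finset Real MvPolynomial
open Pool.Agent.H49.Ent Pool.Agent.H32.Dense Pool.STK Pool.KA Pool.KSAT Pool.K2S Pool.PB Pool.S6C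
open Pool.GEN Pool.CHT

variable {m : ℕ}

/-- Points of the box of the first coordinates are in the box. -/
theorem nbx_ext {c : ℕ → Fin m} {G : ℕ → MvPolynomial (Option (Fin m)) ℝ} {g : ℕ → ℕ} {a l i : ℕ}
    {t ε : ℝ} (hc : Set.InjOn c (Set.Iio i)) (hG : ∀ l, DepC c l (G l))
    {Q : MvPolynomial (Option (Fin m)) ℝ} (hQ : DepC c l Q) (hl : l ≤ i)
    (h : ∀ b, NBx c G g a t i b → |eval b Q| ≤ ε) (b : Option (Fin m) → ℝ)
    (hb : NBx c G g a t l b) : |eval b Q| ≤ ε := by
  obtain ⟨b', h1, h2⟩ := pt_adapt hc hG (b none) (fun k => if k < l then hgt c G b k else 0) i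
    le_rfl
  have h3 : ∀ k < l, b' (some (c k)) = b (some (c k)) := by
    refine hgt_inj hG h1 fun k hk => ?_
    unfold hgt
    rw [h2 k (by omega), add_sub_cancel_left, if_pos hk]
    rfl
  rw [← hQ b' b h1 h3]
  refine h b' ⟨by rw [h1]; exact hb.1, fun k hk => ?_⟩
  rw [h2 k hk, add_sub_cancel_left]
  split_ifs with h4
  · exact hb.2 k h4
  · rw [abs_zero]
    positivity

/-- **The tilts.** -/
theorem own_tau (D r : ℕ) : ∃ C : ℝ, 1 ≤ C ∧ ∀ {m : ℕ} {c : ℕ → Fin m} {ct : ℕ → Prop} {i : ℕ}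
    {Φ Γ T₁ B f : ℕ → MvPolynomial (Option (Fin m)) ℝ} {gT gB g₀ gc gf : ℕ → ℕ}
    {a w v s h : ℕ} {t E : ℝ} {x : Option (Fin m) → ℝ} {j : ℕ}, i ≤ r →
    Set.InjOn c (Set.Iio i) → (∀ l, (Φ l).totalDegree ≤ D) → (∀ l, (Γ l).totalDegree ≤ D) →
    (∀ l, (T₁ l).totalDegree ≤ D) → (∀ l, (B l).totalDegree ≤ D) →
    (∀ l, j < l → l < i → ct l → (f l).totalDegree ≤ D ∧ DepC c l (f l)) →
    (∀ l, DepC c l (Φ l)) → (∀ l, DepC c l (Γ l)) →
    (∀ l, DepC c l (T₁ l)) → (∀ l, DepC c l (B l)) → 1 ≤ E → j < i → ct j →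
    (∀ l < i, ¬ ct l → DepC c 0 (T₁ l - B l)) → (∀ l < i, DepC c 0 (Γ l - Φ l)) →
    NBx c T₁ gT a t i x → NBx c B gB w t i x → NBx c Γ gc a t i x →
    (∀ l, j < l → l < i → ∀ b, NBx c B gB w t i b → |eval b (B l) - eval b (Φ l)| ≤
      E / 2 ^ g₀ l) →
    (∀ l, j < l → l < i → ct l → ∀ b, NBx c T₁ gT a t i b →
      |eval b (T₁ l) - eval b (f l)| ≤ E / 2 ^ gf l) →
    (∀ l, j < l → l < i → ct l → ∀ b : Option (Fin m) → ℝ, |b none - t| ≤ 1 / 2 ^ a →
      (∀ l' < l, ¬ ct l' → |b (some (c l')) - eval b (Γ l')| ≤ 1 / 2 ^ gc l') →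
      |eval b (f l) - eval b (Γ l)| ≤ E / 2 ^ gc l) →
    gB j + (v + (i - j) * s) ≤ gT j → (∀ l, j < l → l < i → gB l ≤ g₀ l + s) →
    (∀ l, j < l → l < i → ct l → gB l + (v + (i - l) * s) ≤ gf l ∧ gB l ≤ gc l ∧
      ∀ l', j < l' → l' < l → ¬ ct l' → gc l' + g₀ l ≤ gc l + g₀ l' + h) →
    ∀ l, j < l → l < i → ct l → |eval x (dvf c T₁ j l (T₁ l - B l))| ≤
      (C * E ^ 2 * 2 ^ h) ^ (l + 1) * 2 ^ gT j / 2 ^ (gB l + (v + (i - l) * s)) := by
  obtain ⟨C₁, hC₁, hmk⟩ := dvf_mk D r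
  obtain ⟨C₂, hC₂, hob⟩ := own_ball D r
  have hC1 : 0 ≤ C₁ := by linarith only [hC₁]
  have hC2 : 0 ≤ C₂ := by linarith only [hC₂]
  have hr0 : (0 : ℝ) ≤ r := Nat.cast_nonneg r
  refine ⟨(3 + 2 * r) * (C₁ * C₂), by
    have h1 : (1 : ℝ) ≤ C₁ * C₂ := by nlinarith only [hC₁, hC₂]
    nlinarith only [h1, hr0], ?_⟩
  intro m c ct i Φ Γ T₁ B f gT gB g₀ gc gf a w v s h t E x j hi hc dΦ dΓ dT₁ dB hff hΦ hΓ hT₁ hB
    hE hj hctj tm₁ tmΓ hx₁ hxB hxΓ e2 f1 f2 hjv hs hnum l
  obtain ⟨Z, hZ⟩ : ∃ Z : ℝ, Z = (3 + 2 * r) * (C₁ * C₂) * E ^ 2 * 2 ^ h := ⟨_, rfl⟩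
  rw [← hZ]
  have hE0 : 0 ≤ E := by linarith only [hE]
  have h2h : (1 : ℝ) ≤ 2 ^ h := one_le_pow₀ (by norm_num)
  have hE2 : E ≤ E ^ 2 := by nlinarith only [hE]
  have hcc : (1 : ℝ) ≤ C₁ * C₂ := by nlinarith only [hC₁, hC₂]
  have hZ1 : 1 ≤ Z := by
    rw [hZ]
    have h1 : (1 : ℝ) ≤ (3 + 2 * r) * (C₁ * C₂) := by nlinarith only [hcc, hr0]
    have h2 : (1 : ℝ) ≤ (3 + 2 * r) * (C₁ * C₂) * E ^ 2 := by nlinarith only [h1, hE, hE2]
    nlinarith only [h2, h2h]
  induction l using Nat.strong_induction_on with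
  | _ l ih =>
    intro hjl hli hct
    obtain ⟨vv, hvv⟩ : ∃ vv, vv = v + (i - l) * s := ⟨_, rfl⟩
    rw [← hvv]
    obtain ⟨q1, q2, q3⟩ := hnum l hjl hli hct
    obtain ⟨df, hf⟩ := hff l hjl hli hct
    rw [← hvv] at q1
    have hmono : ∀ l', j ≤ l' → l' < l → vv + s ≤ v + (i - l') * s := by
      intro l' _ hl'
      have h1 : (i - l) * s + s ≤ (i - l') * s := by
        have h2 : (i - l + 1) * s ≤ (i - l') * s := Nat.mul_le_mul_right s (by omega)
        calc (i - l) * s + s = (i - l + 1) * s := by ring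
          _ ≤ _ := h2
      omega
    have hjv' : gB j + (vv + s) ≤ gT j := by
      have := hmono j le_rfl hjl
      omega
    obtain ⟨Y, hY⟩ : ∃ Y : ℝ, Y = Z ^ l := ⟨_, rfl⟩
    have hY1 : 1 ≤ Y := by rw [hY]; exact one_le_pow₀ hZ1
    have hY0 : 0 ≤ Y := by linarith only [hY1]
    -- the earlier tilts
    have hτ : ∀ l', j < l' → l' < l → ct l' → |eval x (dvf c T₁ j l' (T₁ l' - B l'))| ≤
        Y * 2 ^ gT j / 2 ^ (gB l' + (vv + s)) := by
      intro l' h1 h2 h3
      refine (ih l' h2 h1 (by omega) h3).trans ?_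
      rw [hY]
      refine div_le_div₀ (by positivity) ?_ (by positivity) ?_
      · exact mul_le_mul_of_nonneg_right (pow_le_pow_right₀ hZ1 (by omega)) (by positivity)
      · have := hmono l' h1.le h2
        exact pow_le_pow_right₀ (by norm_num) (by omega)
    -- the ball charts
    have hκ : ∀ l', j < l' → l' ≤ l → |eval x (dvf c T₁ j l' (B l' - Φ l'))| ≤
        C₂ * (E / 2 ^ g₀ l') * Y * 2 ^ gT j / 2 ^ (vv + s) := by
      intro l' h1 h2
      refine hob (by omega) (hc.mono fun y hy => lt_trans hy (by omega : l' < i)) dB hB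
        ((totalDegree_sub _ _).trans (max_le (dB l') (dΦ l'))) (by positivity) hY1 h1
        (fun l₁ h3 h4 => tm₁ l₁ (by omega) h4) ?_ (hxB.mono le_rfl (by omega))
        (fun l₁ h3 h4 h5 => hτ l₁ h3 (by omega) h5) hjv'
      refine nbx_ext hc hB (dep_sub (hB l') (hΦ l')) (by omega) fun b hb => ?_
      rw [map_sub]
      exact e2 l' h1 (by omega) b hb
    have hcl : Set.InjOn c (Set.Iio l) := hc.mono fun y hy => lt_trans hy hli
    -- the unit
    obtain ⟨U, hU⟩ : ∃ U : ℝ, U = C₁ * C₂ * E ^ 2 * 2 ^ h * Y * 2 ^ gT j / 2 ^ (gB l + vv) :=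
      ⟨_, rfl⟩
    have hU0 : 0 ≤ U := by rw [hU]; positivity
    have hUle : ∀ (y : ℝ) (n : ℕ), 0 ≤ y → y ≤ C₁ * C₂ * E ^ 2 * 2 ^ h * Y → gB l + vv ≤ n →
        y * 2 ^ gT j / 2 ^ n ≤ U := by
      intro y n hy0 hy hn
      rw [hU]
      refine div_le_div₀ (by positivity) (mul_le_mul_of_nonneg_right hy (by positivity))
        (by positivity) (pow_le_pow_right₀ (by norm_num) hn)
    have ta : |eval x (dvf c T₁ j l (T₁ l - f l))| ≤ U := by
      have h1 := hmk (by omega : l ≤ r) hcl dT₁ hT₁ ((totalDegree_sub _ _).trans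
        (max_le (dT₁ l) df)) (nbx_ext (c := c) (G := T₁) (g := gT) (a := a) (t := t)
          (ε := E / 2 ^ gf l) hc hT₁ (dep_sub (hT₁ l) hf) hli.le fun b hb => by
            rw [map_sub]; exact f1 l hjl hli hct b hb) (hx₁.mono le_rfl hli.le) hjl
      refine h1.trans ?_
      have h2 : C₁ * (E / 2 ^ gf l) * 2 ^ gT j = (C₁ * E) * 2 ^ gT j / 2 ^ gf l := by ring
      rw [h2]
      refine hUle _ _ (by positivity) ?_ (by omega)
      calc C₁ * E = C₁ * 1 * E * 1 * 1 := by ring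
        _ ≤ C₁ * C₂ * E ^ 2 * 2 ^ h * Y := by
          refine mul_le_mul (mul_le_mul (mul_le_mul ?_ hE2 hE0 (by positivity)) h2h
            (by norm_num) (by positivity)) hY1 (by norm_num) (by positivity)
          exact mul_le_mul_of_nonneg_left hC₂ hC1
    have tc : |eval x (dvf c T₁ j l (B l - Φ l))| ≤ U := by
      refine (hκ l hjl le_rfl).trans ?_
      have h2 : C₂ * (E / 2 ^ g₀ l) * Y * 2 ^ gT j / 2 ^ (vv + s) =
          (C₂ * E * Y) * 2 ^ gT j / 2 ^ (g₀ l + (vv + s)) := by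
        rw [pow_add 2 (g₀ l)]
        field_simp
      rw [h2]
      have := hs l hjl hli
      refine hUle _ _ (by positivity) ?_ (by omega)
      calc C₂ * E * Y = 1 * C₂ * E * 1 * Y := by ring
        _ ≤ C₁ * C₂ * E ^ 2 * 2 ^ h * Y := by
          refine mul_le_mul_of_nonneg_right ?_ hY0
          refine mul_le_mul (mul_le_mul ?_ hE2 hE0 (by positivity)) h2h
            (by norm_num) (by positivity)
          exact mul_le_mul_of_nonneg_right hC₁ hC2
    -- the label on the large boxes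
    obtain ⟨gF, hgF⟩ : ∃ gF : ℕ → ℕ, gF = fun l' => open Classical in if ct l' then 0 else gc l' :=
      ⟨_, rfl⟩
    have hgFc : ∀ l', ct l' → gF l' = 0 := fun l' h' => by
      rw [hgF]
      exact if_pos h'
    have hgFr : ∀ l', ¬ ct l' → gF l' = gc l' := fun l' h' => by
      rw [hgF]
      exact if_neg h'
    have hxF : NBx c Γ gF a t l x := by
      refine ⟨hxΓ.1, fun l' hl' => ?_⟩
      by_cases h' : ct l'
      · rw [hgFc l' h']
        refine (hxΓ.2 l' (by omega)).trans ?_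
        exact inv_mono (Nat.zero_le _)
      · rw [hgFr l' h']
        exact hxΓ.2 l' (by omega)
    have hΓb : ∀ l' < l, |eval x (dvf c Γ l' l (f l - Γ l))| ≤ C₁ * (E / 2 ^ gc l) * 2 ^ gF l' := by
      intro l' hl'
      refine hmk (by omega : l ≤ r) hcl dΓ hΓ ((totalDegree_sub _ _).trans
        (max_le df (dΓ l))) (fun b hb => ?_) hxF hl'
      rw [map_sub]
      refine f2 l hjl hli hct b hb.1 fun l₁ h3 h4 => ?_
      have := hb.2 l₁ h3
      rw [hgFr l₁ h4] at this
      exact this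
    have tb1 : |eval x (dvf c Γ j l (f l - Γ l))| ≤ C₁ * (E / 2 ^ gc l) * 2 ^ gF j := hΓb j hjl
    have tb2 : ∀ l' ∈ Ico (j + 1) l,
        |eval x (dvf c T₁ j l' (T₁ l' - Γ l') * dvf c Γ l' l (f l - Γ l))| ≤ 2 * U := by
      intro l' hl'
      rw [Finset.mem_Ico] at hl'
      have e7 : T₁ l' - Γ l' = (T₁ l' - B l') + (B l' - Φ l') - (Γ l' - Φ l') := by ring
      have e8 : dvf c T₁ j l' (T₁ l' - Γ l') = dvf c T₁ j l' (T₁ l' - B l') +
          dvf c T₁ j l' (B l' - Φ l') := by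
        rw [e7, dvf_sub, dvf_add, dvf_time l' (tmΓ l' (by omega)), sub_zero]
      have h1 := hκ l' (by omega) (by omega)
      have h2 := hΓb l' hl'.2
      rw [map_mul, abs_mul]
      by_cases h' : ct l'
      · rw [hgFc l' h', pow_zero, mul_one] at h2
        have h3 := hτ l' (by omega) hl'.2 h'
        have h4 : |eval x (dvf c T₁ j l' (T₁ l' - Γ l'))| ≤
            (2 * (C₂ * E * Y)) * 2 ^ gT j / 2 ^ vv := by
          rw [e8, map_add]
          refine (abs_add_le _ _).trans ((add_le_add h3 h1).trans ?_)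
          have h5 : Y * 2 ^ gT j / 2 ^ (gB l' + (vv + s)) ≤ (C₂ * E * Y) * 2 ^ gT j / 2 ^ vv := by
            refine div_le_div₀ (by positivity) (mul_le_mul_of_nonneg_right ?_ (by positivity))
              (by positivity) (pow_le_pow_right₀ (by norm_num) (by omega))
            have : (1 : ℝ) ≤ C₂ * E := by nlinarith only [hC₂, hE]
            nlinarith only [this, hY1]
          have h6 : C₂ * (E / 2 ^ g₀ l') * Y * 2 ^ gT j / 2 ^ (vv + s) ≤
              (C₂ * E * Y) * 2 ^ gT j / 2 ^ vv := by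
            have e9 : C₂ * (E / 2 ^ g₀ l') * Y * 2 ^ gT j / 2 ^ (vv + s) =
                (C₂ * E * Y) * 2 ^ gT j / 2 ^ (g₀ l' + (vv + s)) := by
              rw [pow_add 2 (g₀ l')]
              field_simp
            rw [e9]
            exact div_le_div_of_nonneg_left (by positivity) (by positivity)
              (pow_le_pow_right₀ (by norm_num) (by omega))
          calc _ ≤ (C₂ * E * Y) * 2 ^ gT j / 2 ^ vv + (C₂ * E * Y) * 2 ^ gT j / 2 ^ vv :=
                add_le_add h5 h6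
            _ = _ := by ring
        calc _ ≤ (2 * (C₂ * E * Y)) * 2 ^ gT j / 2 ^ vv * (C₁ * (E / 2 ^ gc l)) :=
              mul_le_mul h4 h2 (abs_nonneg _) (by positivity)
          _ = 2 * ((C₁ * C₂ * E ^ 2 * 1 * Y) * 2 ^ gT j / 2 ^ (gc l + vv)) := by
              rw [pow_add 2 (gc l)]
              field_simp
          _ ≤ 2 * U := by
              refine mul_le_mul_of_nonneg_left (hUle _ _ (by positivity) ?_ (by omega))
                (by norm_num)
              refine mul_le_mul_of_nonneg_right (mul_le_mul_of_nonneg_left h2h (by positivity))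
                hY0
      · rw [hgFr l' h'] at h2
        have h3 : dvf c T₁ j l' (T₁ l' - Γ l') = dvf c T₁ j l' (B l' - Φ l') := by
          rw [e8, dvf_time l' (tm₁ l' (by omega) h'), zero_add]
        have h4 : (2 : ℝ) ^ gc l' * 2 ^ g₀ l ≤ 2 ^ gc l * 2 ^ g₀ l' * 2 ^ h := by
          rw [← pow_add, ← pow_add, ← pow_add]
          exact pow_le_pow_right₀ (by norm_num) (q3 l' (by omega) hl'.2 h')
        have := hs l hjl hli
        rw [h3]
        calc _ ≤ C₂ * (E / 2 ^ g₀ l') * Y * 2 ^ gT j / 2 ^ (vv + s) *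
              (C₁ * (E / 2 ^ gc l) * 2 ^ gc l') :=
              mul_le_mul h1 h2 (abs_nonneg _) (by positivity)
          _ = (C₁ * C₂ * E ^ 2 * Y * 2 ^ gT j) / 2 ^ (vv + s) *
              (2 ^ gc l' / (2 ^ gc l * 2 ^ g₀ l')) := by field_simp
          _ ≤ (C₁ * C₂ * E ^ 2 * Y * 2 ^ gT j) / 2 ^ (vv + s) * (2 ^ h / 2 ^ g₀ l) := by
              refine mul_le_mul_of_nonneg_left ?_ (by positivity)
              rw [div_le_div_iff₀ (by positivity) (by positivity)]
              linarith only [h4]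
          _ = (C₁ * C₂ * E ^ 2 * 2 ^ h * Y) * 2 ^ gT j / 2 ^ (g₀ l + (vv + s)) := by
              rw [pow_add 2 (g₀ l)]
              field_simp
          _ ≤ U := hUle _ _ (by positivity) le_rfl (by omega)
          _ ≤ 2 * U := by linarith only [hU0]
    have tb : |eval x (dvf c T₁ j l (f l - Γ l))| ≤ U + r * (2 * U) := by
      rw [dvf_chg (G' := Γ) l (f l - Γ l), map_add, map_sum]
      refine (abs_add_le _ _).trans (add_le_add (tb1.trans ?_) ?_)
      · rw [hgFc j hctj, pow_zero, mul_one]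
        calc C₁ * (E / 2 ^ gc l) = (C₁ * E) * 2 ^ gT j / 2 ^ (gc l + gT j) := by
              rw [pow_add]
              field_simp
          _ ≤ U := by
              refine hUle _ _ (by positivity) ?_ (by omega)
              calc C₁ * E = C₁ * 1 * E * 1 * 1 := by ring
                _ ≤ C₁ * C₂ * E ^ 2 * 2 ^ h * Y := by
                  refine mul_le_mul (mul_le_mul (mul_le_mul ?_ hE2 hE0 (by positivity)) h2h
                    (by norm_num) (by positivity)) hY1 (by norm_num) (by positivity)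
                  exact mul_le_mul_of_nonneg_left hC₂ hC1
      · refine (Finset.abs_sum_le_sum_abs _ _).trans ((Finset.sum_le_sum tb2).trans ?_)
        rw [Finset.sum_const, Nat.card_Ico, nsmul_eq_mul]
        have h5 : ((l - (j + 1) : ℕ) : ℝ) ≤ r := by
          have : l - (j + 1) ≤ r := by omega
          exact_mod_cast this
        exact mul_le_mul_of_nonneg_right h5 (by linarith only [hU0])
    have e9 : T₁ l - B l = (T₁ l - f l) + (f l - Γ l) - (B l - Φ l) + (Γ l - Φ l) := by ring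
    rw [e9, dvf_add, dvf_sub, dvf_add, dvf_time l (tmΓ l hli), add_zero, map_sub, map_add]
    calc _ ≤ U + (U + r * (2 * U)) + U :=
          (abs_sub _ _).trans (add_le_add ((abs_add_le _ _).trans (add_le_add ta tb)) tc)
      _ = Z * Y * 2 ^ gT j / 2 ^ (gB l + vv) := by
          rw [hU, hZ]
          ring
      _ = _ := by rw [hY, ← pow_succ']

end Pool.VFD
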