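import Pool.Agent.H95.GN.Uni
import Pool.Agent.H25.M5.H1F

/-!
# One germ per point, for families

`full_time`: the digits of the time and of the position are full given a context which is a
function of the line and of the window, and given their cells, if the digits of the position are
full given the context and the exact time.

`uni_fam`: a polynomial in the time and in the position, which is a function of such a context and
is small at the own points, is small on the whole box around the own point, for most samples. The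
sides of the box may be different, the position may be given in any coordinates.
-/

set_option autoImplicit false

namespace Pool.UNJ

open Finset Real
open Pool.Agent.H49.Ent Pool.Agent.H32.Dense Pool.STK Pool.BFL Pool.KA Pool.KSAT

variable {m J : ℕ}

theorem floor_t (F : Fam m J) {w : ℕ} (h : w ≤ J) (ω : F.Ω) :
    ⌊(2 : ℝ) ^ w * F.t ω⌋ = (F.T1 w ω : ℤ) := by
  have e1 : (2 : ℝ) ^ w * F.t ω = (F.T ω : ℝ) / ((2 ^ (J - w) : ℕ) : ℝ) := by
    unfold Fam.t
    have h1 : (2 : ℝ) ^ J = 2 ^ w * 2 ^ (J - w) := by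
      rw [← pow_add]
      congr 1
      omega
    push_cast
    rw [h1]
    field_simp
  rw [e1, Int.floor_div_natCast, Int.floor_natCast]
  unfold Fam.T1
  push_cast
  rfl

/-- **The digits of the time and of the position are full.** -/
theorem full_time {F : Fam m J} {q : F.Ω → ℝ} (hq : IsLaw q) {e : ℝ}
    (he : (J : ℝ) * Real.log 2 - e ≤ CH q F.T (fun ω => (F.l ω, F.Z ω))) {w X : ℕ}
    (hw : w + X ≤ J) {Γ S S' : Type} {c : F.Ω → Γ} {s : F.Ω → S} {s' : F.Ω → S'}
    (hc : Det q (slam F w) c) {κ θ v : ℝ} (hs : CH q s (slam F w) ≤ κ)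
    (hV : v - θ ≤ CH q s' (fun ω => (s ω, c ω, F.W ω))) :
    X * Real.log 2 + v - (θ + e + κ) ≤
      CH q (fun ω => (s' ω, F.T1 (w + X) ω)) (fun ω => ((F.T1 w ω, s ω), c ω)) := by
  have h0 := hq.nonneg
  have h1 := CH_chain h0 s' (F.T1 (w + X)) (fun ω => ((F.T1 w ω, s ω), c ω))
  have h2 : CH q (F.T1 (w + X)) (fun ω => (s ω, slam F w ω)) ≤
      CH q (F.T1 (w + X)) (fun ω => ((F.T1 w ω, s ω), c ω)) :=
    CH_mono_cond h0 fun ω ω' a a' h => by
      simp only [Prod.mk.injEq] at h
      refine Prod.ext (Prod.ext ?_ h.1) (hc ω ω' a a' h.2)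
      exact congrArg (fun s => s.2.2) h.2
  have h3 := CH_bayes h0 (F.T1 (w + X)) s (slam F w)
  have h4 := CH_nonneg h0 s (fun ω => (F.T1 (w + X) ω, slam F w ω))
  have h5 := Pool.Agent.H25.M5.time_full he hq (Nat.le_add_right w X) hw
  rw [Nat.add_sub_cancel_left] at h5
  have h6 : CH q s' (fun ω => (s ω, c ω, F.W ω)) ≤
      CH q s' (fun ω => (F.T1 (w + X) ω, ((F.T1 w ω, s ω), c ω))) :=
    CH_mono_cond h0 fun ω ω' a a' h => by
      simp only [Prod.mk.injEq] at h
      have hT : F.T ω = F.T ω' := congrArg Prod.fst h.2.2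
      have hT1 : ∀ j, F.T1 j ω = F.T1 j ω' := fun j => by
        unfold Fam.T1
        rw [hT]
      exact Prod.ext (hT1 _) (Prod.ext (Prod.ext (hT1 _) h.1) h.2.1)
  linarith

/-- **One germ per point.** -/
theorem uni_fam (n K : ℕ) (R : ℝ) (hR : 1 ≤ R) : ∃ C : ℝ, 1 ≤ C ∧
    ∀ (m J : ℕ) (F : Fam m J) (q : F.Ω → ℝ) (w X : ℕ) (Γ : Type) (c : F.Ω → Γ)
      (a : Fin n → ℕ) (B : F.Ω → Fin n → ℝ) (D : Γ → Pl (n + 1)) (Gd : F.Ω → Prop)
      (τ : Γ → ℝ) (θ e κ η : ℝ), IsLaw q →
      (J : ℝ) * Real.log 2 - e ≤ CH q F.T (fun ω => (F.l ω, F.Z ω)) → w + X ≤ J →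
      Det q (slam F w) c → (∀ x, (D x).totalDegree ≤ K) → 0 ≤ θ → 0 ≤ e → 0 ≤ κ → 0 < η →
      η ≤ 1 → (∀ x, 0 < τ x) → CH q (fun ω => cel a (B ω)) (slam F w) ≤ κ →
      n * (X * Real.log 2) - θ ≤ CH q (fun ω => cel (fun i => a i + X) (B ω))
        (fun ω => (cel a (B ω), c ω, F.W ω)) →
      Pb q (fun ω => ¬ Gd ω) ≤ η / 4 → C * (θ + e + κ + 1) / η ≤ X * Real.log 2 →
      (∀ ω, Gd ω →
        |MvPolynomial.eval (Fin.cons (F.t ω) (B ω)) (D (c ω))| ≤ τ (c ω)) →
      Pb q (fun ω => ¬ ∀ b : Fin (n + 1) → ℝ, |b 0 - F.t ω| ≤ R / 2 ^ w →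
        (∀ i : Fin n, |b i.succ - B ω i| ≤ R / 2 ^ a i) →
        |MvPolynomial.eval b (D (c ω))| ≤
          Real.exp (C * (θ + e + κ + 1) / η) * τ (c ω)) ≤ η := by
  obtain ⟨C, hC, hcore⟩ := uni_core (n + 1) K R hR
  refine ⟨C, hC, ?_⟩
  intro m J F q w X Γ c a B D Gd τ θ e κ η hq he hwX hc hD hθ he0 hκ hη hη1 hτ hcell hV hGd hX hsm
  have h0 := hq.nonneg
  have hw : w ≤ J := by omega
  obtain ⟨a', ha'⟩ : ∃ a' : Fin (n + 1) → ℕ, a' = Fin.cons w a := ⟨_, rfl⟩
  obtain ⟨B', hB'⟩ : ∃ B' : F.Ω → Fin (n + 1) → ℝ, B' = fun ω => Fin.cons (F.t ω) (B ω) :=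
    ⟨_, rfl⟩
  have hcel0 : ∀ ω, cel a' (B' ω) 0 = (F.T1 w ω : ℤ) := by
    intro ω
    rw [ha', hB']
    unfold cel
    simp only [Fin.cons_zero]
    exact floor_t F hw ω
  have hcel1 : ∀ ω i, cel a' (B' ω) i.succ = cel a (B ω) i := by
    intro ω i
    rw [ha', hB']
    unfold cel
    simp only [Fin.cons_succ]
  have hcelX0 : ∀ ω, cel (fun i => a' i + X) (B' ω) 0 = (F.T1 (w + X) ω : ℤ) := by
    intro ω
    rw [ha', hB']
    unfold cel
    simp only [Fin.cons_zero]
    exact floor_t F hwX ω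
  have hcelX1 : ∀ ω i, cel (fun i => a' i + X) (B' ω) i.succ =
      cel (fun i => a i + X) (B ω) i := by
    intro ω i
    rw [ha', hB']
    unfold cel
    simp only [Fin.cons_succ]
  have h1 := full_time hq he hwX hc hcell hV
  have h2 : CH q (fun ω => (cel (fun i => a i + X) (B ω), F.T1 (w + X) ω))
      (fun ω => ((F.T1 w ω, cel a (B ω)), c ω)) =
      CH q (fun ω => cel (fun i => a' i + X) (B' ω)) (fun ω => (cel a' (B' ω), c ω)) := by
    refine CH_congr h0 ?_ ?_ ?_ ?_
    · intro ω ω' _ _ h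
      simp only [Prod.mk.injEq] at h
      obtain ⟨⟨h3, h4⟩, -⟩ := h
      funext i
      refine Fin.cases ?_ (fun i => ?_) i
      · change cel (fun i => a' i + X) (B' ω) 0 = cel (fun i => a' i + X) (B' ω') 0
        rw [hcelX0, hcelX0, h4]
      · change cel (fun i => a' i + X) (B' ω) i.succ = cel (fun i => a' i + X) (B' ω') i.succ
        rw [hcelX1, hcelX1, h3]
    · intro ω ω' _ _ h
      have h3 : cel (fun i => a' i + X) (B' ω) = cel (fun i => a' i + X) (B' ω') :=
        (Prod.ext_iff.mp h).1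
      refine Prod.ext ?_ ?_
      · funext i
        have := congrFun h3 i.succ
        rwa [hcelX1, hcelX1] at this
      · have := congrFun h3 0
        rw [hcelX0, hcelX0] at this
        exact_mod_cast this
    · intro ω ω' _ _ h
      simp only [Prod.mk.injEq] at h
      refine Prod.ext ?_ h.2
      funext i
      refine Fin.cases ?_ (fun i => ?_) i
      · change cel a' (B' ω) 0 = cel a' (B' ω') 0
        rw [hcel0, hcel0, h.1.1]
      · change cel a' (B' ω) i.succ = cel a' (B' ω') i.succ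
        rw [hcel1, hcel1, h.1.2]
    · intro ω ω' _ _ h
      simp only [Prod.mk.injEq] at h
      refine Prod.ext (Prod.ext ?_ ?_) h.2
      · have := congrFun h.1 0
        rw [hcel0, hcel0] at this
        exact_mod_cast this
      · funext i
        have := congrFun h.1 i.succ
        rwa [hcel1, hcel1] at this
  rw [h2] at h1
  have h3 := hcore F.Ω Γ q X a' B' c D Gd τ (θ + e + κ) η hq hD (by linarith) hη hη1 hτ (by
    push_cast
    linarith) hGd hX (by
      intro ω hω
      rw [hB']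
      exact hsm ω hω)
  refine le_trans (Pb_mono' h0 fun ω hω => ?_) h3
  intro hall
  apply hω
  intro b hb0 hb1
  refine hall b fun i => ?_
  refine Fin.cases ?_ (fun i => ?_) i
  · rw [ha', hB']
    simp only [Fin.cons_zero]
    exact hb0
  · rw [ha', hB']
    simp only [Fin.cons_succ]
    exact hb1 i

end Pool.UNJ
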