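import Pool.Agent.H95.GN.Uni2
import Pool.Agent.H95.GN.Lag

/-!
# One germ per line: tubes

`uni_tube`: the digits of the position are full given the exact time, the context and the cell of
the position; the context is a function of the line and of the window. A polynomial in the time and
in the position, which is a function of the context and is small at the own points, is small on the
whole tube around the line, during the whole window. The sides of the tube may be different and are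
arbitrary (longer or shorter than the window).
-/

set_option autoImplicit false

namespace Pool.UNJ

open Finset Real
open Pool.Agent.H49.Ent Pool.Agent.H32.Dense Pool.STK Pool.BFL Pool.KA Pool.KSAT

variable {m J : ℕ}

theorem eval_aff {k n : ℕ} (f : Fin k → Pl n) (P : Pl k) (z : Fin n → ℝ) :
    MvPolynomial.eval z (MvPolynomial.aeval f P) =
      MvPolynomial.eval (fun i => MvPolynomial.eval z (f i)) P := by
  rw [MvPolynomial.aeval_def, MvPolynomial.eval₂_eq', map_sum, MvPolynomial.eval_eq']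
  refine Finset.sum_congr rfl fun d _ => ?_
  rw [map_mul, map_prod, MvPolynomial.algebraMap_eq, MvPolynomial.eval_C]
  congr 1
  refine Finset.prod_congr rfl fun i _ => ?_
  rw [map_pow]

/-- Affine functions of one variable. -/
theorem deg_lin {n : ℕ} (c y : ℝ) (i : Fin n) :
    (MvPolynomial.C c * MvPolynomial.X i + MvPolynomial.C y : Pl n).totalDegree ≤ 1 := by
  refine (MvPolynomial.totalDegree_add _ _).trans (max_le ?_ ?_)
  · refine (MvPolynomial.totalDegree_mul _ _).trans ?_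
    rw [MvPolynomial.totalDegree_C, zero_add]
    exact (MvPolynomial.totalDegree_X _).le
  · rw [MvPolynomial.totalDegree_C]
    exact Nat.zero_le _

/-- The time is `s`, the position is `y + z / 2 ^ a`. -/
noncomputable def ats {n : ℕ} (s : ℝ) (a : Fin n → ℕ) (y : Fin n → ℝ) (P : Pl (n + 1)) : Pl n :=
  MvPolynomial.aeval (Fin.cons (MvPolynomial.C s) (fun i =>
    MvPolynomial.C (1 / 2 ^ a i) * MvPolynomial.X i + MvPolynomial.C (y i)) :
      Fin (n + 1) → Pl n) P

theorem eval_ats {n : ℕ} (s : ℝ) (a : Fin n → ℕ) (y : Fin n → ℝ) (P : Pl (n + 1))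
    (z : Fin n → ℝ) : MvPolynomial.eval z (ats s a y P) =
      MvPolynomial.eval (Fin.cons s (fun i => 1 / 2 ^ a i * z i + y i)) P := by
  unfold ats
  rw [eval_aff]
  congr 2
  funext i
  refine Fin.cases ?_ (fun i => ?_) i
  · simp only [Fin.cons_zero, MvPolynomial.eval_C]
  · simp only [Fin.cons_succ, map_add, map_mul, MvPolynomial.eval_C, MvPolynomial.eval_X]

theorem deg_ats {n : ℕ} (s : ℝ) (a : Fin n → ℕ) (y : Fin n → ℝ) (P : Pl (n + 1)) :
    (ats s a y P).totalDegree ≤ P.totalDegree := by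
  refine deg_aff (fun i => ?_) P
  refine Fin.cases ?_ (fun i => ?_) i
  · simp only [Fin.cons_zero, MvPolynomial.totalDegree_C]
    exact Nat.zero_le _
  · simp only [Fin.cons_succ]
    exact deg_lin _ _ _

/-- The restriction to a line. -/
noncomputable def rln {n : ℕ} (y v : Fin n → ℝ) (P : Pl (n + 1)) : Pl 1 :=
  MvPolynomial.aeval (Fin.cons (MvPolynomial.X 0) (fun i =>
    MvPolynomial.C (v i) * MvPolynomial.X 0 + MvPolynomial.C (y i)) : Fin (n + 1) → Pl 1) P

theorem eval_rln {n : ℕ} (y v : Fin n → ℝ) (P : Pl (n + 1)) (z : Fin 1 → ℝ) :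
    MvPolynomial.eval z (rln y v P) =
      MvPolynomial.eval (Fin.cons (z 0) (fun i => v i * z 0 + y i)) P := by
  unfold rln
  rw [eval_aff]
  congr 2
  funext i
  refine Fin.cases ?_ (fun i => ?_) i
  · simp only [Fin.cons_zero, MvPolynomial.eval_X]
  · simp only [Fin.cons_succ, map_add, map_mul, MvPolynomial.eval_C, MvPolynomial.eval_X]

theorem deg_rln {n : ℕ} (y v : Fin n → ℝ) (P : Pl (n + 1)) :
    (rln y v P).totalDegree ≤ P.totalDegree := by
  refine deg_aff (fun i => ?_) P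
  refine Fin.cases ?_ (fun i => ?_) i
  · simp only [Fin.cons_zero]
    exact (MvPolynomial.totalDegree_X _).le
  · simp only [Fin.cons_succ]
    exact deg_lin _ _ _

/-- The digits of the time are full, in terms of cells. -/
theorem full_cel_t {F : Fam m J} {q : F.Ω → ℝ} (hq : IsLaw q) {e : ℝ}
    (he : (J : ℝ) * Real.log 2 - e ≤ CH q F.T (fun ω => (F.l ω, F.Z ω))) {w X : ℕ}
    (hw : w + X ≤ J) {Γ : Type} {c : F.Ω → Γ} (hc : Det q (slam F w) c) :
    ((1 : ℕ) : ℝ) * (X * Real.log 2) - e ≤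
      CH q (fun ω => cel (fun i : Fin 1 => (fun _ => w) i + X) ((fun ω _ => F.t ω) ω))
        (fun ω => (cel (fun _ : Fin 1 => w) ((fun ω _ => F.t ω) ω), (slam F w ω, c ω))) := by
  have h0 := hq.nonneg
  have h5 := Pool.Agent.H25.M5.time_full he hq (Nat.le_add_right w X) hw
  rw [Nat.add_sub_cancel_left] at h5
  have h1 : CH q (F.T1 (w + X)) (slam F w) = CH q
      (fun ω => cel (fun i : Fin 1 => (fun _ => w) i + X) ((fun ω _ => F.t ω) ω))
        (fun ω => (cel (fun _ : Fin 1 => w) ((fun ω _ => F.t ω) ω), (slam F w ω, c ω))) := by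
    refine CH_congr h0 ?_ ?_ ?_ ?_
    · intro ω ω' _ _ h
      have h4 : F.T1 (w + X) ω = F.T1 (w + X) ω' := (Prod.ext_iff.mp h).1
      funext i
      unfold cel
      simp only
      rw [floor_t F hw, floor_t F hw, h4]
    · intro ω ω' _ _ h
      have h3 := congrFun (Prod.ext_iff.mp h).1 0
      unfold cel at h3
      simp only at h3
      rw [floor_t F hw, floor_t F hw] at h3
      exact_mod_cast h3
    · intro ω ω' a a' h
      refine Prod.ext ?_ (Prod.ext h (hc ω ω' a a' h))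
      funext i
      unfold cel
      simp only
      rw [floor_t F (by omega), floor_t F (by omega)]
      have h3 := congrArg (fun s => s.2.2) h
      exact_mod_cast h3
    · intro ω ω' _ _ h
      exact congrArg (fun s => s.2.1) h
  rw [← h1]
  push_cast
  linarith

/-- **One germ per line.** -/
theorem uni_tube (n K : ℕ) (R : ℝ) (hR : 1 ≤ R) : ∃ C : ℝ, 1 ≤ C ∧
    ∀ (m J : ℕ) (F : Fam m J) (q : F.Ω → ℝ) (w X : ℕ) (Γ : Type) (c : F.Ω → Γ)
      (a : Fin n → ℕ) (σ : Fin n → Fin m) (D : Γ → Pl (n + 1)) (Gd : F.Ω → Prop)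
      (τ : Γ → ℝ) (θ e η : ℝ), IsLaw q →
      (J : ℝ) * Real.log 2 - e ≤ CH q F.T (fun ω => (F.l ω, F.Z ω)) → w + X ≤ J →
      Det q (slam F w) c → (∀ x, (D x).totalDegree ≤ K) → 0 ≤ θ → 0 ≤ e → 0 < η →
      η ≤ 1 → (∀ x, 0 < τ x) →
      n * (X * Real.log 2) - θ ≤ CH q (fun ω => cel (fun i => a i + X) (fun i => F.x ω (σ i)))
        (fun ω => (cel a (fun i => F.x ω (σ i)), c ω, F.W ω)) →
      Pb q (fun ω => ¬ Gd ω) ≤ η / C → C * (θ + e + 1) / η ≤ X * Real.log 2 →
      (∀ ω, Gd ω →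
        |MvPolynomial.eval (Fin.cons (F.t ω) (fun i => F.x ω (σ i))) (D (c ω))| ≤ τ (c ω)) →
      Pb q (fun ω => ¬ ∀ s : ℝ, |s - F.t ω| ≤ R / 2 ^ w → ∀ b : Fin n → ℝ,
        (∀ i, |b i - (F.u ω (σ i) + s * F.d ω (σ i))| ≤ R / 2 ^ a i) →
        |MvPolynomial.eval (Fin.cons s b) (D (c ω))| ≤
          Real.exp (C * (θ + e + 1) / η) * τ (c ω)) ≤ η := by
  classical
  obtain ⟨C₁, hC₁, h1⟩ := uni_core n K 1 le_rfl
  obtain ⟨C₂, hC₂, h2⟩ := uni_core 1 K R hR
  obtain ⟨C₃, hC₃, h3⟩ := lagm n K R hR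
  obtain ⟨N, hN⟩ : ∃ N : ℝ, N = Fintype.card (Fin n → Fin (K + 1)) := ⟨_, rfl⟩
  have hN1 : 1 ≤ N := by
    rw [hN]
    exact_mod_cast Fintype.card_pos
  obtain ⟨C, hC⟩ : ∃ C : ℝ, C = 32 * N * (C₁ + C₂) + C₃ := ⟨_, rfl⟩
  have hCC : 32 * N * (C₁ + C₂) ≤ C := by rw [hC]; linarith
  have hC1 : 1 ≤ C := by
    have : 32 * 1 * (1 + 1) ≤ 32 * N * (C₁ + C₂) := by
      refine mul_le_mul ?_ (by linarith) (by norm_num) (by positivity)
      linarith
    linarith
  refine ⟨C, hC1, ?_⟩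
  intro m J F q w X Γ c a σ D Gd τ θ e η hq he hwX hc hD hθ he0 hη hη1 hτ hV hGd hX hsm
  have h0 := hq.nonneg
  have hw : w ≤ J := by omega
  obtain ⟨η₁, hη₁⟩ : ∃ η₁ : ℝ, η₁ = η / (8 * N) := ⟨_, rfl⟩
  obtain ⟨η₂, hη₂⟩ : ∃ η₂ : ℝ, η₂ = η / (2 * N) := ⟨_, rfl⟩
  have hη₁p : 0 < η₁ := by rw [hη₁]; positivity
  have hη₂p : 0 < η₂ := by rw [hη₂]; positivity
  have hη₁1 : η₁ ≤ 1 := by
    rw [hη₁, div_le_one (by positivity)]
    linarith
  have hη₂1 : η₂ ≤ 1 := by
    rw [hη₂, div_le_one (by positivity)]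
    linarith
  have hS : 1 ≤ (θ + e + 1) / η := by
    rw [le_div_iff₀ hη]
    linarith
  have hA1 : C₁ * (θ + 1) / η₁ ≤ 8 * N * C₁ * ((θ + e + 1) / η) := by
    rw [hη₁]
    have e1 : C₁ * (θ + 1) / (η / (8 * N)) = 8 * N * C₁ * ((θ + 1) / η) := by
      field_simp
    rw [e1]
    refine mul_le_mul_of_nonneg_left ?_ (by positivity)
    exact div_le_div_of_nonneg_right (by linarith) hη.le
  have hA2 : C₂ * (e + 1) / η₂ ≤ 2 * N * C₂ * ((θ + e + 1) / η) := by
    rw [hη₂]
    have e1 : C₂ * (e + 1) / (η / (2 * N)) = 2 * N * C₂ * ((e + 1) / η) := by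
      field_simp
    rw [e1]
    refine mul_le_mul_of_nonneg_left ?_ (by positivity)
    exact div_le_div_of_nonneg_right (by linarith) hη.le
  have hCS : C * (θ + e + 1) / η = C * ((θ + e + 1) / η) := by ring
  have hNC : 0 ≤ N * C₁ := by positivity
  have hNC2 : 0 ≤ N * C₂ := by positivity
  have hB : 32 * N * (C₁ + C₂) = 32 * (N * C₁) + 32 * (N * C₂) := by ring
  -- the ball at the own time
  obtain ⟨M₁, hM₁⟩ : ∃ M₁ : ℝ, M₁ = Real.exp (C₁ * (θ + 1) / η₁) := ⟨_, rfl⟩
  have hM₁p : 0 < M₁ := by rw [hM₁]; exact Real.exp_pos _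
  have hstep1 : Pb q (fun ω => ¬ ∀ b : Fin n → ℝ, (∀ i, |b i - F.x ω (σ i)| ≤ 1 / 2 ^ a i) →
      |MvPolynomial.eval b (ats (F.t ω) (fun _ => 0) (fun _ => 0) (D (c ω)))| ≤
        M₁ * τ (c ω)) ≤ η₁ := by
    have h4 := h1 F.Ω (Γ × (ℕ × F.ζ)) q X a (fun ω i => F.x ω (σ i)) (fun ω => (c ω, F.W ω))
      (fun y => ats ((y.2.1 : ℝ) / 2 ^ J) (fun _ => 0) (fun _ => 0) (D y.1)) Gd
      (fun y => τ y.1) θ η₁ hq (fun y => (deg_ats _ _ _ _).trans (hD _)) hθ hη₁p hη₁1
      (fun y => hτ _) hV ?_ ?_ ?_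
    · rw [hM₁]
      exact h4
    · refine hGd.trans ?_
      rw [hη₁, div_div]
      refine div_le_div_of_nonneg_left hη.le (by positivity) ?_
      have : N * 1 ≤ N * (C₁ + C₂) := mul_le_mul_of_nonneg_left (by linarith) (by linarith)
      linarith
    · refine hA1.trans (le_trans ?_ (hCS ▸ hX))
      refine mul_le_mul_of_nonneg_right ?_ (by linarith)
      linarith
    · intro ω hω
      have h5 := hsm ω hω
      simp only
      rw [eval_ats]
      simp only [pow_zero, div_one, one_mul, add_zero]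
      exact h5
  -- the line at a node
  have hstep2 : ∀ k : Fin n → Fin (K + 1), Pb q (fun ω => ¬ ∀ s : ℝ, |s - F.t ω| ≤ R / 2 ^ w →
      |MvPolynomial.eval (Fin.cons s (fun i => F.u ω (σ i) + s * F.d ω (σ i) +
        1 / 2 ^ a i * ((((k i : Fin (K + 1)) : ℕ) : ℝ) / (K + 1)))) (D (c ω))| ≤
          Real.exp (C₂ * (e + 1) / η₂) * (M₁ * τ (c ω))) ≤ η₂ := by
    intro k
    obtain ⟨Dk, hDk⟩ : ∃ Dk : ((((Fin m → ℝ) × (Fin m → ℝ)) × F.ζ × ℕ) × Γ) → Pl 1,
      Dk = fun y => rln (fun i => y.1.1.1 (σ i) +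
        1 / 2 ^ a i * ((((k i : Fin (K + 1)) : ℕ) : ℝ) / (K + 1))) (fun i => y.1.1.2 (σ i))
          (D y.2) := ⟨_, rfl⟩
    have hev : ∀ ω s, MvPolynomial.eval (fun _ : Fin 1 => s) (Dk (slam F w ω, c ω)) =
        MvPolynomial.eval (Fin.cons s (fun i => F.u ω (σ i) + s * F.d ω (σ i) +
        1 / 2 ^ a i * ((((k i : Fin (K + 1)) : ℕ) : ℝ) / (K + 1)))) (D (c ω)) := by
      intro ω s
      rw [hDk]
      simp only
      rw [eval_rln]
      congr 2
      funext i
      refine Fin.cases ?_ (fun i => ?_) i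
      · simp only [Fin.cons_zero]
      · simp only [Fin.cons_succ]
        change F.d ω (σ i) * s + (F.u ω (σ i) + _) = _
        ring
    have h4 := h2 F.Ω _ q X (fun _ => w) (fun ω _ => F.t ω) (fun ω => (slam F w ω, c ω)) Dk
      (fun ω => ∀ b : Fin n → ℝ, (∀ i, |b i - F.x ω (σ i)| ≤ 1 / 2 ^ a i) →
      |MvPolynomial.eval b (ats (F.t ω) (fun _ => 0) (fun _ => 0) (D (c ω)))| ≤
        M₁ * τ (c ω)) (fun y => M₁ * τ y.2) e η₂ hq
        (fun y => by rw [hDk]; exact (deg_rln _ _ _).trans (hD _)) he0 hη₂p hη₂1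
        (fun y => mul_pos hM₁p (hτ _)) (full_cel_t hq he hwX hc) ?_ ?_ ?_
    · refine le_trans (Pb_mono' h0 fun ω hω => ?_) h4
      intro hall
      apply hω
      intro s hs
      have h5 := hall (fun _ => s) fun _ => hs
      rw [hev] at h5
      exact h5
    · refine hstep1.trans ?_
      rw [hη₁, hη₂]
      have e1 : η / (2 * N) / 4 = η / (8 * N) := by
        rw [div_div]
        congr 1
        ring
      rw [e1]
    · refine hA2.trans (le_trans ?_ (hCS ▸ hX))
      refine mul_le_mul_of_nonneg_right ?_ (by linarith)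
      linarith
    · intro ω hω
      change |MvPolynomial.eval (fun _ : Fin 1 => F.t ω) (Dk (slam F w ω, c ω))| ≤ _
      rw [hev]
      have h5 := hω (fun i => F.x ω (σ i) +
        1 / 2 ^ a i * ((((k i : Fin (K + 1)) : ℕ) : ℝ) / (K + 1))) fun i => by
          rw [add_sub_cancel_left, abs_mul, abs_of_nonneg (by positivity : (0 : ℝ) ≤ 1 / 2 ^ a i)]
          have h6 : |((((k i : Fin (K + 1)) : ℕ) : ℝ) / (K + 1))| ≤ 1 := by
            rw [abs_of_nonneg (by positivity), div_le_one (by positivity)]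
            have := (k i).2
            have h7 : (((k i : Fin (K + 1)) : ℕ) : ℝ) < ((K + 1 : ℕ) : ℝ) := by exact_mod_cast this
            push_cast at h7
            exact h7.le
          calc (1 : ℝ) / 2 ^ a i * _ ≤ 1 / 2 ^ a i * 1 :=
                mul_le_mul_of_nonneg_left h6 (by positivity)
            _ = _ := mul_one _
      rw [eval_ats] at h5
      simp only [pow_zero, div_one, one_mul, add_zero] at h5
      exact h5
  -- all nodes
  have hall : Pb q (fun ω => ∃ k : Fin n → Fin (K + 1), ¬ ∀ s : ℝ, |s - F.t ω| ≤ R / 2 ^ w →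
      |MvPolynomial.eval (Fin.cons s (fun i => F.u ω (σ i) + s * F.d ω (σ i) +
        1 / 2 ^ a i * ((((k i : Fin (K + 1)) : ℕ) : ℝ) / (K + 1)))) (D (c ω))| ≤
          Real.exp (C₂ * (e + 1) / η₂) * (M₁ * τ (c ω))) ≤ η := by
    have h5 : ∀ (B : (Fin n → Fin (K + 1)) → F.Ω → Prop), Pb q (fun ω => ∃ k, B k ω) ≤
        ∑ k, Pb q (B k) := by
      intro B
      unfold Pb
      rw [Finset.sum_comm]
      refine Finset.sum_le_sum fun ω _ => ?_
      by_cases hB : ∃ k, B k ω
      · rw [if_pos hB]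
        obtain ⟨k, hk⟩ := hB
        have h6 : q ω = if B k ω then q ω else 0 := by rw [if_pos hk]
        rw [h6]
        refine Finset.single_le_sum (f := fun k => if B k ω then q ω else 0) (fun j _ => ?_)
          (Finset.mem_univ k) |>.trans ?_
        · split_ifs
          · exact h0 ω
          · exact le_rfl
        · exact le_of_eq (Finset.sum_congr rfl fun j _ => by simp only [if_pos hk])
      · rw [if_neg hB]
        refine Finset.sum_nonneg fun j _ => ?_
        split_ifs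
        · exact h0 ω
        · exact le_rfl
    refine (h5 _).trans ((Finset.sum_le_sum fun k _ => hstep2 k).trans ?_)
    rw [Finset.sum_const, nsmul_eq_mul, Finset.card_univ, ← hN, hη₂]
    have e1 : N * (η / (2 * N)) = η / 2 := by
      field_simp
    rw [e1]
    linarith
  refine le_trans (Pb_mono' h0 fun ω hω => ?_) hall
  by_contra hcon
  push Not at hcon
  apply hω
  intro s hs b hb
  have h6 := h3 (ats s a (fun i => F.u ω (σ i) + s * F.d ω (σ i)) (D (c ω)))
    (Real.exp (C₂ * (e + 1) / η₂) * (M₁ * τ (c ω))) ((deg_ats _ _ _ _).trans (hD _)) (by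
      intro k
      rw [eval_ats]
      have h7 := hcon k s hs
      have e2 : (fun i => F.u ω (σ i) + s * F.d ω (σ i) +
        1 / 2 ^ a i * ((((k i : Fin (K + 1)) : ℕ) : ℝ) / (K + 1))) = fun i =>
        1 / 2 ^ a i * ((((k i : Fin (K + 1)) : ℕ) : ℝ) / (K + 1)) +
          (F.u ω (σ i) + s * F.d ω (σ i)) := by
        funext i
        ring
      rw [e2] at h7
      exact h7) (fun i => 2 ^ a i * (b i - (F.u ω (σ i) + s * F.d ω (σ i)))) (by
      intro i
      rw [abs_mul, abs_of_nonneg (by positivity : (0 : ℝ) ≤ 2 ^ a i)]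
      have h7 := mul_le_mul_of_nonneg_left (hb i) (by positivity : (0 : ℝ) ≤ 2 ^ a i)
      have e2 : (2 : ℝ) ^ a i * (R / 2 ^ a i) = R := by field_simp
      rw [e2] at h7
      exact h7)
  rw [eval_ats] at h6
  have e3 : (fun i => 1 / 2 ^ a i * (2 ^ a i * (b i - (F.u ω (σ i) + s * F.d ω (σ i)))) +
      (F.u ω (σ i) + s * F.d ω (σ i))) = b := by
    funext i
    field_simp
    ring
  rw [e3] at h6
  refine h6.trans ?_
  rw [hM₁]
  have h8 : C₃ ≤ Real.exp (C₃ * ((θ + e + 1) / η)) := by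
    have h9 := Real.add_one_le_exp (C₃ * ((θ + e + 1) / η))
    have h10 : C₃ * 1 ≤ C₃ * ((θ + e + 1) / η) := mul_le_mul_of_nonneg_left hS (by linarith)
    linarith
  have e4 : C₃ * (Real.exp (C₂ * (e + 1) / η₂) * (Real.exp (C₁ * (θ + 1) / η₁) * τ (c ω))) =
      C₃ * Real.exp (C₂ * (e + 1) / η₂ + C₁ * (θ + 1) / η₁) * τ (c ω) := by
    rw [Real.exp_add]
    ring
  rw [e4]
  refine mul_le_mul_of_nonneg_right ?_ (hτ _).le
  calc C₃ * Real.exp (C₂ * (e + 1) / η₂ + C₁ * (θ + 1) / η₁) ≤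
        Real.exp (C₃ * ((θ + e + 1) / η)) * Real.exp (C₂ * (e + 1) / η₂ + C₁ * (θ + 1) / η₁) :=
        mul_le_mul_of_nonneg_right h8 (Real.exp_pos _).le
    _ = Real.exp (C₃ * ((θ + e + 1) / η) + (C₂ * (e + 1) / η₂ + C₁ * (θ + 1) / η₁)) := by
        rw [← Real.exp_add]
    _ ≤ _ := by
        refine Real.exp_le_exp.2 ?_
        rw [hCS, hC]
        have h9 : (32 * N * (C₁ + C₂) + C₃) * ((θ + e + 1) / η) =
            32 * N * C₁ * ((θ + e + 1) / η) + 32 * N * C₂ * ((θ + e + 1) / η) +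
              C₃ * ((θ + e + 1) / η) := by ring
        rw [h9]
        have h10 : 8 * N * C₁ * ((θ + e + 1) / η) ≤ 32 * N * C₁ * ((θ + e + 1) / η) := by
          refine mul_le_mul_of_nonneg_right ?_ (by linarith)
          linarith
        have h11 : 2 * N * C₂ * ((θ + e + 1) / η) ≤ 32 * N * C₂ * ((θ + e + 1) / η) := by
          refine mul_le_mul_of_nonneg_right ?_ (by linarith)
          linarith
        linarith

end Pool.UNJ
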