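import Pool.Agent.H2.GEN.ChG

/-!
# Polynomials in one variable on an interval

Bounds for the derivatives and for the variation of polynomials which are bounded on `[-1, 1]`, and
slices of polynomials in several variables.
-/

set_option autoImplicit false

namespace Pool.RLV

open Finset Real MvPolynomial
open Pool.GEN

/-! ### One variable -/

theorem abs_pow_sub_le {x y : ℝ} (hx : |x| ≤ 1) (hy : |y| ≤ 1) (j : ℕ) :
    |x ^ j - y ^ j| ≤ j * |x - y| := by
  induction j with
  | zero => simp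
  | succ j ih =>
    have h1 : x ^ (j + 1) - y ^ (j + 1) = x * (x ^ j - y ^ j) + (x - y) * y ^ j := by ring
    have h2 : |y ^ j| ≤ 1 := by
      rw [abs_pow]
      exact pow_le_one₀ (abs_nonneg _) hy
    rw [h1]
    refine (abs_add_le _ _).trans ?_
    rw [abs_mul, abs_mul]
    have h3 : |x| * |x ^ j - y ^ j| ≤ 1 * (j * |x - y|) :=
      mul_le_mul hx ih (abs_nonneg _) zero_le_one
    have h4 : |x - y| * |y ^ j| ≤ |x - y| * 1 := mul_le_mul_of_nonneg_left h2 (abs_nonneg _)
    push_cast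
    linarith

theorem eval_le_coef {q : Polynomial ℝ} {D : ℕ} {S x : ℝ} (hq : q.natDegree ≤ D)
    (h : ∀ j, |q.coeff j| ≤ S) (hx : |x| ≤ 1) : |q.eval x| ≤ (D + 1) * S := by
  rw [Polynomial.eval_eq_sum_range' (Nat.lt_succ_of_le hq)]
  refine (Finset.abs_sum_le_sum_abs _ _).trans ?_
  refine (Finset.sum_le_sum (g := fun _ => S) fun j _ => ?_).trans ?_
  · rw [abs_mul, abs_pow]
    calc |q.coeff j| * |x| ^ j ≤ S * 1 := mul_le_mul (h j) (pow_le_one₀ (abs_nonneg _) hx)
          (pow_nonneg (abs_nonneg _) _) ((abs_nonneg _).trans (h j))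
      _ = S := mul_one S
  · rw [Finset.sum_const, Finset.card_range, nsmul_eq_mul]
    push_cast
    exact le_rfl

theorem var_le_coef {q : Polynomial ℝ} {D : ℕ} {S x y : ℝ} (hq : q.natDegree ≤ D)
    (h : ∀ j, |q.coeff j| ≤ S) (hx : |x| ≤ 1) (hy : |y| ≤ 1) :
    |q.eval x - q.eval y| ≤ (D + 1) * (D * S) * |x - y| := by
  have hS : 0 ≤ S := (abs_nonneg _).trans (h 0)
  rw [Polynomial.eval_eq_sum_range' (Nat.lt_succ_of_le hq),
    Polynomial.eval_eq_sum_range' (Nat.lt_succ_of_le hq), ← Finset.sum_sub_distrib]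
  refine (Finset.abs_sum_le_sum_abs _ _).trans ?_
  refine (Finset.sum_le_sum (g := fun _ => D * S * |x - y|) fun j hj => ?_).trans ?_
  · rw [← mul_sub, abs_mul]
    have hjD : (j : ℝ) ≤ D := by
      have := Finset.mem_range.1 hj
      exact_mod_cast Nat.lt_succ_iff.1 this
    calc |q.coeff j| * |x ^ j - y ^ j| ≤ S * (j * |x - y|) :=
          mul_le_mul (h j) (abs_pow_sub_le hx hy j) (abs_nonneg _) hS
      _ ≤ S * (D * |x - y|) := mul_le_mul_of_nonneg_left
          (mul_le_mul_of_nonneg_right hjD (abs_nonneg _)) hS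
      _ = D * S * |x - y| := by ring
  · rw [Finset.sum_const, Finset.card_range, nsmul_eq_mul]
    push_cast
    exact le_of_eq (by ring)

theorem coef_der {q : Polynomial ℝ} {D : ℕ} {S : ℝ} (hq : q.natDegree ≤ D)
    (h : ∀ j, |q.coeff j| ≤ S) (k : ℕ) :
    (Polynomial.derivative^[k] q).natDegree ≤ D ∧
      ∀ j, |(Polynomial.derivative^[k] q).coeff j| ≤ (D : ℝ) ^ k * S := by
  have hS : 0 ≤ S := (abs_nonneg _).trans (h 0)
  induction k with
  | zero => exact ⟨hq, fun j => by simpa using h j⟩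
  | succ k ih =>
    rw [Function.iterate_succ_apply']
    refine ⟨(Polynomial.natDegree_derivative_le _).trans (by omega), fun j => ?_⟩
    rw [Polynomial.coeff_derivative]
    rcases Nat.lt_or_ge D (j + 1) with hj | hj
    · rw [Polynomial.coeff_eq_zero_of_natDegree_lt (lt_of_le_of_lt ih.1 hj), zero_mul, abs_zero]
      positivity
    · have h1 : ((j : ℝ) + 1) ≤ D := by exact_mod_cast hj
      have h0 : (0 : ℝ) ≤ (j : ℝ) + 1 := by positivity
      rw [abs_mul, abs_of_nonneg h0]
      calc |(Polynomial.derivative^[k] q).coeff (j + 1)| * ((j : ℝ) + 1)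
          ≤ ((D : ℝ) ^ k * S) * D := mul_le_mul (ih.2 _) h1 h0 (by positivity)
        _ = (D : ℝ) ^ (k + 1) * S := by ring

/-- **Markov's inequality**, with some constant, for all the derivatives. -/
theorem umark (D : ℕ) : ∃ C : ℝ, 1 ≤ C ∧ ∀ (q : Polynomial ℝ) (M : ℝ), q.natDegree ≤ D →
    (∀ x : ℝ, |x| ≤ 1 → |q.eval x| ≤ M) →
    (∀ (k : ℕ) (x : ℝ), |x| ≤ 1 → |(Polynomial.derivative^[k] q).eval x| ≤ C * M) ∧
      ∀ x y : ℝ, |x| ≤ 1 → |y| ≤ 1 → |q.eval x - q.eval y| ≤ C * M * |x - y| := by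
  obtain ⟨C₀, hC₀, h⟩ := Pool.Agent.H40.FR.unit_coef D
  have hD : (0 : ℝ) ≤ D := Nat.cast_nonneg D
  have h1D : (1 : ℝ) ≤ (D : ℝ) + 1 := by linarith
  obtain ⟨C, hC⟩ : ∃ C : ℝ, C = (D + 1) * ((D + 1) ^ (D + 1) * C₀) := ⟨_, rfl⟩
  have hpow : (1 : ℝ) ≤ ((D : ℝ) + 1) ^ (D + 1) := one_le_pow₀ h1D
  have hCC : 1 ≤ C := by
    rw [hC]
    have : 1 ≤ ((D : ℝ) + 1) ^ (D + 1) * C₀ := by nlinarith
    nlinarith
  refine ⟨C, hCC, fun q M hq hM => ?_⟩
  have hM0 : 0 ≤ M := (abs_nonneg _).trans (hM 0 (by simp))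
  have hc : ∀ j, |q.coeff j| ≤ C₀ * M := h q M hq fun t ht =>
    hM t (abs_le.2 ⟨by linarith [ht.1], ht.2⟩)
  refine ⟨fun k x hx => ?_, fun x y hx hy => ?_⟩
  · rcases Nat.lt_or_ge D k with hk | hk
    · have h0 : Polynomial.derivative^[k] q = 0 :=
        Polynomial.iterate_derivative_eq_zero (lt_of_le_of_lt hq hk)
      rw [h0, Polynomial.eval_zero, abs_zero]
      positivity
    · have h1 := coef_der hq hc k
      refine (eval_le_coef h1.1 h1.2 hx).trans ?_
      have h2 : (D : ℝ) ^ k ≤ ((D : ℝ) + 1) ^ (D + 1) :=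
        (pow_le_pow_left₀ hD (by linarith) k).trans (pow_le_pow_right₀ h1D (by omega))
      have h3 : (D : ℝ) ^ k * (C₀ * M) ≤ ((D : ℝ) + 1) ^ (D + 1) * (C₀ * M) :=
        mul_le_mul_of_nonneg_right h2 (by positivity)
      calc ((D : ℝ) + 1) * ((D : ℝ) ^ k * (C₀ * M))
          ≤ ((D : ℝ) + 1) * (((D : ℝ) + 1) ^ (D + 1) * (C₀ * M)) :=
            mul_le_mul_of_nonneg_left h3 (by positivity)
        _ = C * M := by rw [hC]; ring
  · refine (var_le_coef hq hc hx hy).trans (mul_le_mul_of_nonneg_right ?_ (abs_nonneg _))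
    have h2 : (D : ℝ) ≤ ((D : ℝ) + 1) ^ (D + 1) := by
      calc (D : ℝ) ≤ (D : ℝ) + 1 := by linarith
        _ = ((D : ℝ) + 1) ^ 1 := (pow_one _).symm
        _ ≤ ((D : ℝ) + 1) ^ (D + 1) := pow_le_pow_right₀ h1D (by omega)
    have h3 : (D : ℝ) * (C₀ * M) ≤ ((D : ℝ) + 1) ^ (D + 1) * (C₀ * M) :=
      mul_le_mul_of_nonneg_right h2 (by positivity)
    calc ((D : ℝ) + 1) * (D * (C₀ * M)) ≤ ((D : ℝ) + 1) * (((D : ℝ) + 1) ^ (D + 1) * (C₀ * M)) :=
          mul_le_mul_of_nonneg_left h3 (by positivity)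
      _ = C * M := by rw [hC]; ring

/-- The coefficients of the Taylor polynomial. -/
theorem taylor_coef_le {q : Polynomial ℝ} {x₀ S : ℝ}
    (h : ∀ k, |(Polynomial.derivative^[k] q).eval x₀| ≤ S) (k : ℕ) :
    |(Polynomial.taylor x₀ q).coeff k| ≤ S := by
  rw [Polynomial.taylor_coeff]
  have h1 : (k.factorial : ℝ) * (Polynomial.hasseDeriv k q).eval x₀ =
      (Polynomial.derivative^[k] q).eval x₀ := by
    rw [← Polynomial.factorial_smul_hasseDeriv]
    simp
  have h2 : (1 : ℝ) ≤ k.factorial := by exact_mod_cast Nat.succ_le_of_lt (Nat.factorial_pos k)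
  have h3 := h k
  rw [← h1, abs_mul, abs_of_nonneg (by linarith : (0 : ℝ) ≤ k.factorial)] at h3
  have h4 : 0 ≤ |(Polynomial.hasseDeriv k q).eval x₀| := abs_nonneg _
  nlinarith

theorem taylor_der (q : Polynomial ℝ) (x₀ x : ℝ) (k : ℕ) :
    (Polynomial.derivative^[k] (Polynomial.taylor x₀ q)).eval x =
      (Polynomial.derivative^[k] q).eval (x + x₀) := by
  induction k generalizing q with
  | zero => simp [Polynomial.taylor_eval]
  | succ k ih =>
    rw [Function.iterate_succ_apply, Function.iterate_succ_apply, ← ih]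
    congr 2
    rw [Polynomial.taylor_apply, Polynomial.taylor_apply, Polynomial.derivative_comp]
    simp

/-- **The derivatives near a point at which all of them are small.** -/
theorem utay (D : ℕ) : ∃ C : ℝ, 1 ≤ C ∧ ∀ (q : Polynomial ℝ) (S x₀ : ℝ), q.natDegree ≤ D →
    (∀ k, |(Polynomial.derivative^[k] q).eval x₀| ≤ S) →
    ∀ (k : ℕ) (x : ℝ), |x - x₀| ≤ 1 → |(Polynomial.derivative^[k] q).eval x| ≤ C * S := by
  have hD : (0 : ℝ) ≤ D := Nat.cast_nonneg D
  have h1D : (1 : ℝ) ≤ (D : ℝ) + 1 := by linarith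
  refine ⟨(D + 1) * (D + 1) ^ (D + 1), ?_, fun q S x₀ hq h k x hx => ?_⟩
  · have : (1 : ℝ) ≤ ((D : ℝ) + 1) ^ (D + 1) := one_le_pow₀ h1D
    nlinarith
  · have hS : 0 ≤ S := (abs_nonneg _).trans (h 0)
    rcases Nat.lt_or_ge D k with hk | hk
    · have h0 : Polynomial.derivative^[k] q = 0 :=
        Polynomial.iterate_derivative_eq_zero (lt_of_le_of_lt hq hk)
      rw [h0, Polynomial.eval_zero, abs_zero]
      positivity
    · have hq' : (Polynomial.taylor x₀ q).natDegree ≤ D := by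
        rw [Polynomial.natDegree_taylor]
        exact hq
      have h1 := coef_der hq' (taylor_coef_le h) k
      have h2 := eval_le_coef h1.1 h1.2 hx
      rw [taylor_der, sub_add_cancel] at h2
      refine h2.trans ?_
      have h3 : (D : ℝ) ^ k ≤ ((D : ℝ) + 1) ^ (D + 1) :=
        (pow_le_pow_left₀ hD (by linarith) k).trans (pow_le_pow_right₀ h1D (by omega))
      calc ((D : ℝ) + 1) * ((D : ℝ) ^ k * S) ≤ ((D : ℝ) + 1) * (((D : ℝ) + 1) ^ (D + 1) * S) :=
            mul_le_mul_of_nonneg_left (mul_le_mul_of_nonneg_right h3 hS) (by positivity)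
        _ = _ := by ring

/-- The mean value theorem for polynomials. -/
theorem umv {p : Polynomial ℝ} {S x y : ℝ}
    (h : ∀ z ∈ Set.uIcc x y, |(Polynomial.derivative p).eval z| ≤ S) :
    |p.eval y - p.eval x| ≤ S * |y - x| := by
  have h1 := Convex.norm_image_sub_le_of_norm_deriv_le (f := fun z => p.eval z) (C := S)
    (s := Set.uIcc x y) (x := x) (y := y) (fun z _ => p.differentiable.differentiableAt)
    (fun z hz => by rw [Polynomial.deriv]; exact h z hz) (convex_uIcc x y) Set.left_mem_uIcc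
    Set.right_mem_uIcc
  simpa [Real.norm_eq_abs] using h1

/-! ### Slices -/

variable {σ : Type} [DecidableEq σ]

/-- The slice of a polynomial in the variable `κ`, at the point `b`. -/
noncomputable def slc (κ : σ) (b : σ → ℝ) (Q : MvPolynomial σ ℝ) : Polynomial ℝ :=
  MvPolynomial.aeval (fun o => if o = κ then Polynomial.X else Polynomial.C (b o)) Q

theorem slc_eval (κ : σ) (b : σ → ℝ) (Q : MvPolynomial σ ℝ) (y : ℝ) :
    (slc κ b Q).eval y = eval (Function.update b κ y) Q := by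
  unfold slc
  rw [Pool.KBX.eval_aeval_poly]
  congr 1
  congr 1
  funext o
  by_cases h : o = κ
  · subst h
    simp
  · simp [h]

theorem slc_deg (κ : σ) (b : σ → ℝ) {Q : MvPolynomial σ ℝ} {D : ℕ} (h : Q.totalDegree ≤ D) :
    (slc κ b Q).natDegree ≤ D := by
  have h1 := Pool.CHT.natDegree_aeval_mul Q
    (fun o => if o = κ then Polynomial.X else Polynomial.C (b o)) (E := 1) (fun o => by
      split_ifs
      · exact Polynomial.natDegree_X_le
      · rw [Polynomial.natDegree_C]
        exact Nat.zero_le _) h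
  rw [mul_one] at h1
  exact h1

theorem slc_der (κ : σ) (b : σ → ℝ) (Q : MvPolynomial σ ℝ) :
    Polynomial.derivative (slc κ b Q) = slc κ b (pderiv κ Q) := by
  unfold slc
  induction Q using MvPolynomial.induction_on with
  | C a =>
    rw [MvPolynomial.algHom_C, pderiv_C, map_zero]
    exact Polynomial.derivative_C
  | add p q hp hq => rw [map_add, Polynomial.derivative_add, hp, hq, map_add, map_add]
  | mul_X p o hp =>
    rw [map_mul, Polynomial.derivative_mul, hp, Derivation.leibniz, map_add, aeval_X, pderiv_X]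
    by_cases ho : o = κ
    · subst ho
      simp only [if_true, Polynomial.derivative_X, smul_eq_mul, map_mul, aeval_X, Pi.single_eq_same,
        map_one]
      ring
    · simp only [if_neg ho, Polynomial.derivative_C, smul_eq_mul, map_mul, aeval_X,
        Pi.single_eq_of_ne ho, map_zero]
      ring

theorem slc_iter (κ : σ) (b : σ → ℝ) (Q : MvPolynomial σ ℝ) (k : ℕ) :
    Polynomial.derivative^[k] (slc κ b Q) = slc κ b ((pderiv κ)^[k] Q) := by
  induction k generalizing Q with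
  | zero => rfl
  | succ k ih => rw [Function.iterate_succ_apply, Function.iterate_succ_apply, slc_der, ih]

end Pool.RLV
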