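import Pool.Agent.H95.GN.Til

/-!
# The vector fields of a chain

For a chain of polynomials `G l` in the time and the coordinates `c l'`, `l' < l`: `vfc c G j l` is
the velocity of the coordinate `c l` along the curve on which the coordinate `c j` moves with
velocity one, the coordinates before it are fixed, and the coordinates after it keep their distance
to the graphs. `dvf c G j i W` is the derivative of `W` along this curve.
-/

set_option autoImplicit false

namespace Pool.VFD

open Finset Real MvPolynomial
open Pool.Agent.H49.Ent Pool.Agent.H32.Dense Pool.STK Pool.KA Pool.KSAT Pool.K2S Pool.PB Pool.S6C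
open Pool.GEN Pool.CHT

variable {m : ℕ}

/-- The table of the velocities. -/
noncomputable def vft (c : ℕ → Fin m) (G : ℕ → MvPolynomial (Option (Fin m)) ℝ) (j : ℕ) :
    ℕ → ℕ → MvPolynomial (Option (Fin m)) ℝ
  | 0 => fun _ => 0
  | n + 1 => Function.update (vft c G j n) n
      (if n < j then 0 else if n = j then 1 else
        ∑ l ∈ Ico j n, vft c G j n l * pderiv (some (c l)) (G n))

/-- **The velocity** of the coordinate `c l` along the curve in the direction of `c j`. -/
noncomputable def vfc (c : ℕ → Fin m) (G : ℕ → MvPolynomial (Option (Fin m)) ℝ) (j l : ℕ) :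
    MvPolynomial (Option (Fin m)) ℝ := vft c G j (l + 1) l

/-- **The derivative** of `W` along the curve in the direction of `c j`. -/
noncomputable def dvf (c : ℕ → Fin m) (G : ℕ → MvPolynomial (Option (Fin m)) ℝ) (j i : ℕ)
    (W : MvPolynomial (Option (Fin m)) ℝ) : MvPolynomial (Option (Fin m)) ℝ :=
  ∑ l ∈ Ico j i, vfc c G j l * pderiv (some (c l)) W

variable {c : ℕ → Fin m} {G G' : ℕ → MvPolynomial (Option (Fin m)) ℝ} {j : ℕ}

theorem dvf_def (i : ℕ) (W : MvPolynomial (Option (Fin m)) ℝ) :
    dvf c G j i W = ∑ l ∈ Ico j i, vfc c G j l * pderiv (some (c l)) W := rfl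

theorem vft_eq {n l : ℕ} (h : l < n) : vft c G j n l = vfc c G j l := by
  induction n with
  | zero => omega
  | succ n ih =>
    rcases Nat.lt_or_ge l n with h1 | h1
    · rw [vft, Function.update_of_ne (by omega), ih h1]
    · have : l = n := by omega
      subst this
      rfl

theorem vfc_lt {l : ℕ} (h : l < j) : vfc c G j l = 0 := by
  rw [vfc, vft, Function.update_self, if_pos h]

theorem vfc_self : vfc c G j j = 1 := by
  rw [vfc, vft, Function.update_self, if_neg (lt_irrefl j), if_pos rfl]

theorem vfc_gt {l : ℕ} (h : j < l) : vfc c G j l = dvf c G j l (G l) := by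
  rw [vfc, vft, Function.update_self, if_neg (by omega), if_neg (by omega), dvf]
  refine Finset.sum_congr rfl fun l' hl' => ?_
  rw [vft_eq (Finset.mem_Ico.1 hl').2]

/-! ### Linearity -/

theorem dvf_add (i : ℕ) (W W' : MvPolynomial (Option (Fin m)) ℝ) :
    dvf c G j i (W + W') = dvf c G j i W + dvf c G j i W' := by
  unfold dvf
  rw [← Finset.sum_add_distrib]
  refine Finset.sum_congr rfl fun l _ => ?_
  rw [map_add, mul_add]

theorem dvf_sub (i : ℕ) (W W' : MvPolynomial (Option (Fin m)) ℝ) :
    dvf c G j i (W - W') = dvf c G j i W - dvf c G j i W' := by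
  unfold dvf
  rw [← Finset.sum_sub_distrib]
  refine Finset.sum_congr rfl fun l _ => ?_
  rw [map_sub, mul_sub]

/-! ### Degrees and dependence -/

theorem deg_pd (o : Option (Fin m)) {Q : MvPolynomial (Option (Fin m)) ℝ} {d : ℕ}
    (h : Q.totalDegree ≤ d) : (pderiv o Q).totalDegree ≤ d :=
  Pool.KS3.SML.totalDegree_pderiv_le o Q d (by omega)

theorem deg_vfc {K : ℕ} (hG : ∀ l, (G l).totalDegree ≤ K) (l : ℕ) :
    (vfc c G j l).totalDegree ≤ l * K := by
  induction l using Nat.strong_induction_on with
  | _ l ih =>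
    rcases lt_trichotomy l j with h | h | h
    · rw [vfc_lt h, totalDegree_zero]
      exact Nat.zero_le _
    · rw [h, vfc_self, totalDegree_one]
      exact Nat.zero_le _
    · rw [vfc_gt h, dvf]
      refine (totalDegree_finsetSum _ _).trans (Finset.sup_le fun l' hl' => ?_)
      have hl2 := (Finset.mem_Ico.1 hl').2
      refine (totalDegree_mul _ _).trans ?_
      have h1 := ih l' hl2
      have h2 := deg_pd (some (c l')) (hG l)
      have h3 : l' * K + K ≤ l * K := by
        have : (l' + 1) * K ≤ l * K := Nat.mul_le_mul_right K (by omega)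
        linarith only [this]
      omega

theorem deg_dvf {K D : ℕ} (hG : ∀ l, (G l).totalDegree ≤ K) {i : ℕ}
    {W : MvPolynomial (Option (Fin m)) ℝ} (hW : W.totalDegree ≤ D) :
    (dvf c G j i W).totalDegree ≤ i * K + D := by
  unfold dvf
  refine (totalDegree_finsetSum _ _).trans (Finset.sup_le fun l hl => ?_)
  have hl2 := (Finset.mem_Ico.1 hl).2
  refine (totalDegree_mul _ _).trans ?_
  have h1 := deg_vfc (c := c) (j := j) hG l
  have h2 := deg_pd (some (c l)) hW
  have h3 : l * K ≤ i * K := Nat.mul_le_mul_right K hl2.le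
  omega

theorem dep_sum {i : ℕ} {s : Finset ℕ} {f : ℕ → MvPolynomial (Option (Fin m)) ℝ}
    (h : ∀ l ∈ s, DepC c i (f l)) : DepC c i (∑ l ∈ s, f l) := by
  intro b b' hn hb
  rw [map_sum, map_sum]
  exact Finset.sum_congr rfl fun l hl => h l hl b b' hn hb

theorem dep_mul {i : ℕ} {P Q : MvPolynomial (Option (Fin m)) ℝ} (hP : DepC c i P)
    (hQ : DepC c i Q) : DepC c i (P * Q) := by
  intro b b' hn hb
  rw [map_mul, map_mul, hP b b' hn hb, hQ b b' hn hb]

theorem dep_add {i : ℕ} {P Q : MvPolynomial (Option (Fin m)) ℝ} (hP : DepC c i P)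
    (hQ : DepC c i Q) : DepC c i (P + Q) := by
  intro b b' hn hb
  rw [map_add, map_add, hP b b' hn hb, hQ b b' hn hb]

theorem dep_sub {i : ℕ} {P Q : MvPolynomial (Option (Fin m)) ℝ} (hP : DepC c i P)
    (hQ : DepC c i Q) : DepC c i (P - Q) := by
  intro b b' hn hb
  rw [map_sub, map_sub, hP b b' hn hb, hQ b b' hn hb]

theorem dep_vfc (hG : ∀ l, DepC c l (G l)) (l : ℕ) : DepC c l (vfc c G j l) := by
  induction l using Nat.strong_induction_on with
  | _ l ih =>
    rcases lt_trichotomy l j with h | h | h
    · rw [vfc_lt h]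
      intro b b' _ _
      rw [map_zero, map_zero]
    · rw [h, vfc_self]
      intro b b' _ _
      rw [map_one, map_one]
    · rw [vfc_gt h, dvf]
      refine dep_sum fun l' hl' => ?_
      have hl2 := (Finset.mem_Ico.1 hl').2
      exact dep_mul ((ih l' hl2).mono hl2.le) (DepC.pderiv (hG l) l')

theorem dep_dvf (hG : ∀ l, DepC c l (G l)) {i : ℕ} {W : MvPolynomial (Option (Fin m)) ℝ}
    (hW : DepC c i W) : DepC c i (dvf c G j i W) := by
  unfold dvf
  refine dep_sum fun l hl => ?_
  have hl2 := (Finset.mem_Ico.1 hl).2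
  exact dep_mul ((dep_vfc hG l).mono hl2.le) (DepC.pderiv hW l)

/-! ### The change of the chain -/

theorem vfc_chg {i n : ℕ} (hj : j ≤ n) (hn : n < i) : vfc c G j n = vfc c G' j n +
    ∑ l ∈ Ico (j + 1) i, dvf c G j l (G l - G' l) * vfc c G' l n := by
  induction n using Nat.strong_induction_on with
  | _ n ih =>
    rcases hj.eq_or_lt with h | h
    · subst h
      rw [vfc_self, vfc_self, Finset.sum_eq_zero, add_zero]
      intro l hl
      rw [vfc_lt (by have := (Finset.mem_Ico.1 hl).1; omega), mul_zero]
    · rw [vfc_gt h, vfc_gt h]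
      have h1 : dvf c G j n (G n) = dvf c G j n (G n - G' n) + dvf c G j n (G' n) := by
        rw [← dvf_add, sub_add_cancel]
      have h2 : dvf c G j n (G' n) = dvf c G' j n (G' n) + ∑ l ∈ (Ico (j + 1) i).erase n,
          dvf c G j l (G l - G' l) * vfc c G' l n := by
        have h3 : dvf c G j n (G' n) = ∑ l' ∈ Ico j n, (vfc c G' j l' +
            ∑ l ∈ Ico (j + 1) i, dvf c G j l (G l - G' l) * vfc c G' l l') *
              pderiv (some (c l')) (G' n) := by
          refine (dvf_def n (G' n)).trans (Finset.sum_congr rfl fun l' hl' => ?_)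
          have hl2 := Finset.mem_Ico.1 hl'
          rw [← ih l' hl2.2 hl2.1 (by omega)]
        have h4 : dvf c G' j n (G' n) = ∑ l' ∈ Ico j n, vfc c G' j l' *
            pderiv (some (c l')) (G' n) := rfl
        rw [h3, h4]
        simp_rw [add_mul, Finset.sum_mul]
        rw [Finset.sum_add_distrib, Finset.sum_comm]
        congr 1
        rw [← Finset.add_sum_erase _ _ (Finset.mem_Ico.2 ⟨h, hn⟩)]
        have h5 : ∑ l' ∈ Ico j n, dvf c G j n (G n - G' n) * vfc c G' n l' *
            pderiv (some (c l')) (G' n) = 0 := by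
          refine Finset.sum_eq_zero fun l' hl' => ?_
          rw [vfc_lt (Finset.mem_Ico.1 hl').2, mul_zero, zero_mul]
        rw [h5, zero_add]
        refine Finset.sum_congr rfl fun l hl => ?_
        rw [Finset.mem_erase, Finset.mem_Ico] at hl
        rcases Nat.lt_or_ge n l with h6 | h6
        · rw [vfc_lt h6, mul_zero]
          refine Finset.sum_eq_zero fun l' hl' => ?_
          rw [vfc_lt (by have := (Finset.mem_Ico.1 hl').2; omega), mul_zero, zero_mul]
        · have h7 : l < n := by omega
          rw [vfc_gt h7, dvf_def (G := G') n (G' n), Finset.mul_sum]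
          symm
          refine Finset.sum_subset_zero_on_sdiff (fun x hx => ?_) (fun x hx => ?_)
            (fun x hx => ?_)
          · rw [Finset.mem_Ico] at hx ⊢
            omega
          · rw [Finset.mem_sdiff, Finset.mem_Ico, Finset.mem_Ico] at hx
            rw [vfc_lt (by omega), mul_zero, zero_mul]
          · ring
      rw [h1, h2, ← Finset.add_sum_erase (Ico (j + 1) i) _ (Finset.mem_Ico.2 ⟨h, hn⟩), vfc_self,
        mul_one]
      ring

/-- **The change of the chain.** -/
theorem dvf_chg (i : ℕ) (W : MvPolynomial (Option (Fin m)) ℝ) :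
    dvf c G j i W = dvf c G' j i W +
      ∑ l ∈ Ico (j + 1) i, dvf c G j l (G l - G' l) * dvf c G' l i W := by
  have h1 : dvf c G j i W = ∑ n ∈ Ico j i, (vfc c G' j n +
      ∑ l ∈ Ico (j + 1) i, dvf c G j l (G l - G' l) * vfc c G' l n) *
        pderiv (some (c n)) W := by
    conv_lhs => rw [dvf]
    refine Finset.sum_congr rfl fun n hn => ?_
    rw [Finset.mem_Ico] at hn
    rw [← vfc_chg hn.1 hn.2]
  rw [h1]
  have h4 : dvf c G' j i W = ∑ n ∈ Ico j i, vfc c G' j n * pderiv (some (c n)) W := rfl
  rw [h4]
  simp_rw [add_mul, Finset.sum_mul]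
  rw [Finset.sum_add_distrib, Finset.sum_comm]
  congr 1
  refine Finset.sum_congr rfl fun l hl => ?_
  rw [Finset.mem_Ico] at hl
  rw [dvf_def (G := G') i W, Finset.mul_sum]
  symm
  refine Finset.sum_subset_zero_on_sdiff (fun x hx => ?_) (fun x hx => ?_) (fun x hx => ?_)
  · rw [Finset.mem_Ico] at hx ⊢
    omega
  · rw [Finset.mem_sdiff, Finset.mem_Ico, Finset.mem_Ico] at hx
    rw [vfc_lt (by omega), mul_zero, zero_mul]
  · ring

/-- Functions of the time. -/
theorem dvf_time (i : ℕ) {W : MvPolynomial (Option (Fin m)) ℝ} (hW : DepC c 0 W) :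
    dvf c G j i W = 0 := by
  unfold dvf
  refine Finset.sum_eq_zero fun l _ => ?_
  have h1 : pderiv (some (c l)) W = 0 := by
    refine MvPolynomial.funext fun b => ?_
    rw [map_zero]
    exact DepC.pd_zero hW (by simp) (fun l' hl' => absurd hl' (Nat.not_lt_zero l')) b
  rw [h1, mul_zero]

/-- The field depends on the graphs up to functions of the time. -/
theorem dvf_congr (i : ℕ) (W : MvPolynomial (Option (Fin m)) ℝ)
    (h : ∀ l, j < l → l < i → DepC c 0 (G l - G' l)) : dvf c G j i W = dvf c G' j i W := by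
  rw [dvf_chg (G' := G') i W, Finset.sum_eq_zero, add_zero]
  intro l hl
  rw [Finset.mem_Ico] at hl
  rw [dvf_time l (h l (by omega) hl.2), zero_mul]

/-! ### The curves -/

/-- **The derivative along a curve** of the chain. -/
theorem der_flow {i : ℕ} (hc : Set.InjOn c (Set.Iio i)) (hdep : ∀ l, DepC c l (G l))
    {b : Option (Fin m) → ℝ} {δ : ℝ} {p : Option (Fin m) → Polynomial ℝ}
    (h3 : ∀ o, (∀ l, j ≤ l → l < i → o ≠ some (c l)) → p o = Polynomial.C (b o))
    (h4 : p (some (c j)) = Polynomial.C (b (some (c j))) + Polynomial.C δ * Polynomial.X)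
    (h5 : ∀ l, j < l → l < i → ∀ s, (p (some (c l))).eval s =
      eval (fun o => (p o).eval s) (G l) + (b (some (c l)) - eval b (G l)))
    (W : MvPolynomial (Option (Fin m)) ℝ) :
    Polynomial.derivative (aeval p W) = Polynomial.C δ * aeval p (dvf c G j i W) := by
  classical
  have hinj : Set.InjOn (fun l => (some (c l) : Option (Fin m))) (Ico j i : Finset ℕ) := by
    intro l hl l' hl' h
    rw [Finset.mem_coe, Finset.mem_Ico] at hl hl'
    exact hc (show l ∈ Set.Iio i from hl.2) (show l' ∈ Set.Iio i from hl'.2)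
      (Option.some_injective _ h)
  have hA : ∀ R : MvPolynomial (Option (Fin m)) ℝ, Polynomial.derivative (aeval p R) =
      ∑ l ∈ Ico j i, aeval p (pderiv (some (c l)) R) *
        Polynomial.derivative (p (some (c l))) := by
    intro R
    rw [der_aevalσ, ← Finset.sum_image (s := Ico j i)
      (g := fun l => (some (c l) : Option (Fin m)))
      (f := fun o => aeval p (pderiv o R) * Polynomial.derivative (p o)) hinj]
    symm
    refine Finset.sum_subset (Finset.subset_univ _) fun o _ ho => ?_
    rw [h3 o (fun l l1 l2 h => ho (Finset.mem_image.2 ⟨l, Finset.mem_Ico.2 ⟨l1, l2⟩, h.symm⟩)),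
      Polynomial.derivative_C, mul_zero]
  have hB : ∀ l, j ≤ l → l < i → Polynomial.derivative (p (some (c l))) =
      Polynomial.C δ * aeval p (vfc c G j l) := by
    intro l
    induction l using Nat.strong_induction_on with
    | _ l ih =>
      intro l1 l2
      rcases l1.eq_or_lt with h | h
      · subst h
        rw [h4, vfc_self, map_one, mul_one]
        simp
      · have e1 : p (some (c l)) = aeval p (G l) +
            Polynomial.C (b (some (c l)) - eval b (G l)) := by
          refine Polynomial.funext fun s => ?_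
          rw [h5 l h l2 s, Polynomial.eval_add, Polynomial.eval_C, Pool.KBX.eval_aeval_poly]
        rw [e1, Polynomial.derivative_add, Polynomial.derivative_C, add_zero, hA (G l),
          vfc_gt h, dvf, map_sum, Finset.mul_sum]
        symm
        refine Finset.sum_subset_zero_on_sdiff (fun x hx => ?_) (fun x hx => ?_)
          (fun x hx => ?_)
        · rw [Finset.mem_Ico] at hx ⊢
          omega
        · rw [Finset.mem_sdiff, Finset.mem_Ico, Finset.mem_Ico] at hx
          have h6 : pderiv (some (c x)) (G l) = 0 := by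
            refine MvPolynomial.funext fun y => ?_
            rw [map_zero]
            refine DepC.pd_zero (hdep l) (by simp) (fun l' hl' hh => ?_) y
            have := hc (show x ∈ Set.Iio i from hx.1.2) (show l' ∈ Set.Iio i from
              hl'.trans l2) (Option.some_injective _ hh)
            omega
          rw [h6, map_zero, zero_mul]
        · rw [Finset.mem_Ico] at hx
          rw [map_mul, ih x hx.2 hx.1 (by omega)]
          ring
  rw [hA W, dvf, map_sum, Finset.mul_sum]
  refine Finset.sum_congr rfl fun l hl => ?_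
  rw [Finset.mem_Ico] at hl
  rw [map_mul, hB l hl.1 hl.2]
  ring

/-- **Markov's inequality** for the fields of the chain of the box. -/
theorem dvf_mk (D r : ℕ) : ∃ C : ℝ, 1 ≤ C ∧ ∀ {m : ℕ} {c : ℕ → Fin m} {i : ℕ}
    {G : ℕ → MvPolynomial (Option (Fin m)) ℝ} {W : MvPolynomial (Option (Fin m)) ℝ}
    {g : ℕ → ℕ} {a : ℕ} {t M : ℝ} {b : Option (Fin m) → ℝ} {j : ℕ}, i ≤ r →
    Set.InjOn c (Set.Iio i) → (∀ l, (G l).totalDegree ≤ D) → (∀ l, DepC c l (G l)) →
    W.totalDegree ≤ D → (∀ b, NBx c G g a t i b → |eval b W| ≤ M) →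
    NBx c G g a t i b → j < i → |eval b (dvf c G j i W)| ≤ C * M * 2 ^ g j := by
  obtain ⟨C, hC, h⟩ := Pool.Agent.H40.FR.unit_coef (D * max D 1 ^ r)
  refine ⟨C, hC, ?_⟩
  intro m c i G W g a t M b j hi hc hdeg hdep hWd hM hb hj
  obtain ⟨δ, hδ1, hδ2⟩ : ∃ δ : ℝ, |δ| = 1 / 2 ^ g j ∧ ∀ s ∈ Set.Icc (0 : ℝ) 1,
      |(b (some (c j)) - eval b (G j)) + s * δ| ≤ 1 / 2 ^ g j := by
    have h1 := abs_le.1 (hb.2 j hj)
    have h0 : (0 : ℝ) < 1 / 2 ^ g j := by positivity
    rcases le_or_gt 0 (b (some (c j)) - eval b (G j)) with h2 | h2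
    · refine ⟨-(1 / 2 ^ g j), by rw [abs_neg, abs_of_pos h0], fun s hs => ?_⟩
      have h3 := mul_nonneg hs.1 h0.le
      have h4 := mul_le_mul_of_nonneg_right hs.2 h0.le
      rw [abs_le]
      constructor <;> nlinarith only [h1.1, h1.2, h2, h3, h4]
    · refine ⟨1 / 2 ^ g j, abs_of_pos h0, fun s hs => ?_⟩
      have h3 := mul_nonneg hs.1 h0.le
      have h4 := mul_le_mul_of_nonneg_right hs.2 h0.le
      rw [abs_le]
      constructor <;> nlinarith only [h1.1, h1.2, h2, h3, h4]
  obtain ⟨p, p1, p2, p3, p4, p5⟩ := curve_dir (K := fun _ => D) hc hdeg hdep b δ (j := j) i hj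
    le_rfl
  have pn : p none = Polynomial.C (b none) := p3 none fun l _ _ => by simp
  have plt : ∀ l < j, p (some (c l)) = Polynomial.C (b (some (c l))) := fun l hl =>
    p3 _ fun l' h1 h2 h3 => by
      have h4 := hc (show l ∈ Set.Iio i from hl.trans hj) (show l' ∈ Set.Iio i from h2)
        (Option.some_injective _ h3)
      omega
  have hcst : ∀ (k : ℕ) (R : MvPolynomial (Option (Fin m)) ℝ), k ≤ j → DepC c k R →
      ∀ s, eval (fun o => (p o).eval s) R = eval b R := by
    intro k R hk hR s
    refine hR _ _ ?_ fun l hl => ?_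
    · show (p none).eval s = b none
      rw [pn, Polynomial.eval_C]
    · show (p (some (c l))).eval s = b (some (c l))
      rw [plt l (by omega), Polynomial.eval_C]
  have hin : ∀ s ∈ Set.Icc (0 : ℝ) 1, NBx c G g a t i (fun o => (p o).eval s) := by
    intro s hs
    refine ⟨?_, fun l hl => ?_⟩
    · show |(p none).eval s - t| ≤ _
      rw [pn, Polynomial.eval_C]
      exact hb.1
    · show |(p (some (c l))).eval s - eval (fun o => (p o).eval s) (G l)| ≤ _
      rcases lt_trichotomy l j with h1 | h1 | h1
      · rw [hcst l (G l) h1.le (hdep l), plt l h1, Polynomial.eval_C]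
        exact hb.2 l hl
      · subst h1
        rw [hcst l (G l) le_rfl (hdep l), p4]
        simp only [Polynomial.eval_add, Polynomial.eval_mul, Polynomial.eval_C,
          Polynomial.eval_X]
        have e1 : b (some (c l)) + δ * s - eval b (G l) =
            (b (some (c l)) - eval b (G l)) + s * δ := by ring
        rw [e1]
        exact hδ2 s hs
      · rw [p5 l h1 hl s, add_sub_cancel_left]
        exact hb.2 l hl
  have hdg : dgp (fun _ => D) j i ≤ max D 1 ^ r := by
    unfold dgp
    rw [Finset.prod_const, Nat.card_Ico]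
    exact Nat.pow_le_pow_right (by omega) (by omega)
  have hf1 := h (aeval p W) M ((natDegree_aeval_mul W p p1 hWd).trans
    (Nat.mul_le_mul_left D hdg)) (fun s hs => by
      rw [Pool.KBX.eval_aeval_poly]
      exact hM _ (hin s hs)) 1
  have hfe : (Polynomial.derivative (aeval p W)).eval 0 = (aeval p W).coeff 1 := by
    rw [← Polynomial.coeff_zero_eq_eval_zero, Polynomial.coeff_derivative]
    simp
  have hpb : (fun o => (p o).eval 0) = b := funext p2
  rw [der_flow hc hdep p3 p4 p5 W, Polynomial.eval_mul, Polynomial.eval_C,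
    Pool.KBX.eval_aeval_poly, hpb] at hfe
  rw [← hfe, abs_mul, hδ1] at hf1
  have h2 : (0 : ℝ) < 2 ^ g j := by positivity
  rw [one_div, inv_mul_le_iff₀ h2] at hf1
  calc _ ≤ 2 ^ g j * (C * M) := hf1
    _ = _ := by ring

/-- The distance of the coordinate `c l` to the graph. -/
noncomputable def hgt (c : ℕ → Fin m) (G : ℕ → MvPolynomial (Option (Fin m)) ℝ)
    (b : Option (Fin m) → ℝ) (l : ℕ) : ℝ := b (some (c l)) - eval b (G l)

/-- The heights determine the coordinates. -/
theorem hgt_inj {i : ℕ} (hdep : ∀ l, DepC c l (G l)) {b b' : Option (Fin m) → ℝ}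
    (hn : b' none = b none) (h : ∀ l < i, hgt c G b' l = hgt c G b l) :
    ∀ l < i, b' (some (c l)) = b (some (c l)) := by
  intro l
  induction l using Nat.strong_induction_on with
  | _ l ih =>
    intro hl
    have h1 := h l hl
    unfold hgt at h1
    rw [hdep l b' b hn fun l' hl' => ih l' hl' (by omega)] at h1
    linarith only [h1]

/-- **The mean value inequality** along a curve of the chain. -/
theorem dvf_mv {i : ℕ} (hc : Set.InjOn c (Set.Iio i)) {D : ℕ}
    (hdeg : ∀ l, (G l).totalDegree ≤ D) (hdep : ∀ l, DepC c l (G l))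
    (W : MvPolynomial (Option (Fin m)) ℝ) (b : Option (Fin m) → ℝ) (δ : ℝ) (hj : j < i) :
    ∃ b' : Option (Fin m) → ℝ, b' none = b none ∧ hgt c G b' j = hgt c G b j + δ ∧
      (∀ l < i, l ≠ j → hgt c G b' l = hgt c G b l) ∧
      ∀ M : ℝ, (∀ (y : Option (Fin m) → ℝ) (s : ℝ), 0 ≤ s → s ≤ 1 → y none = b none →
        (∀ l < i, l ≠ j → hgt c G y l = hgt c G b l) → hgt c G y j = hgt c G b j + s * δ →
        |eval y (dvf c G j i W)| ≤ M) → |eval b' W - eval b W| ≤ |δ| * M := by
  obtain ⟨p, p1, p2, p3, p4, p5⟩ := curve_dir (K := fun _ => D) hc hdeg hdep b δ (j := j) i hj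
    le_rfl
  have pn : p none = Polynomial.C (b none) := p3 none fun l _ _ => by simp
  have plt : ∀ l < j, p (some (c l)) = Polynomial.C (b (some (c l))) := fun l hl =>
    p3 _ fun l' h1 h2 h3 => by
      have h4 := hc (show l ∈ Set.Iio i from hl.trans hj) (show l' ∈ Set.Iio i from h2)
        (Option.some_injective _ h3)
      omega
  have hcst : ∀ (k : ℕ) (R : MvPolynomial (Option (Fin m)) ℝ), k ≤ j → DepC c k R →
      ∀ s, eval (fun o => (p o).eval s) R = eval b R := by
    intro k R hk hR s
    refine hR _ _ ?_ fun l hl => ?_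
    · show (p none).eval s = b none
      rw [pn, Polynomial.eval_C]
    · show (p (some (c l))).eval s = b (some (c l))
      rw [plt l (by omega), Polynomial.eval_C]
  have hn : ∀ s, (fun o => (p o).eval s) none = b none := by
    intro s
    show (p none).eval s = b none
    rw [pn, Polynomial.eval_C]
  have hoth : ∀ s, ∀ l < i, l ≠ j → hgt c G (fun o => (p o).eval s) l = hgt c G b l := by
    intro s l hl hlj
    unfold hgt
    show (p (some (c l))).eval s - eval (fun o => (p o).eval s) (G l) = _
    rcases Nat.lt_or_gt_of_ne hlj with h1 | h1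
    · rw [hcst l (G l) h1.le (hdep l), plt l h1, Polynomial.eval_C]
    · rw [p5 l h1 hl s, add_sub_cancel_left]
  have hown : ∀ s, hgt c G (fun o => (p o).eval s) j = hgt c G b j + s * δ := by
    intro s
    unfold hgt
    show (p (some (c j))).eval s - eval (fun o => (p o).eval s) (G j) = _
    rw [hcst j (G j) le_rfl (hdep j), p4]
    simp only [Polynomial.eval_add, Polynomial.eval_mul, Polynomial.eval_C, Polynomial.eval_X]
    ring
  refine ⟨fun o => (p o).eval 1, hn 1, by rw [hown 1, one_mul], hoth 1, fun M hM => ?_⟩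
  have h1 := Convex.norm_image_sub_le_of_norm_deriv_le (s := Set.Icc (0 : ℝ) 1)
    (f := fun s => (aeval p W).eval s) (C := |δ| * M) (x := 0) (y := 1)
    (fun s _ => (aeval p W).differentiable.differentiableAt) (fun s hs => by
      rw [Polynomial.deriv, der_flow hc hdep p3 p4 p5 W, Polynomial.eval_mul,
        Polynomial.eval_C, Pool.KBX.eval_aeval_poly, Real.norm_eq_abs, abs_mul]
      exact mul_le_mul_of_nonneg_left (hM _ s hs.1 hs.2 (hn s) (hoth s) (hown s)) (abs_nonneg _))
    (convex_Icc 0 1) (by simp) (by simp)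
  rw [Real.norm_eq_abs, Real.norm_eq_abs, sub_zero, abs_one, mul_one,
    Pool.KBX.eval_aeval_poly, Pool.KBX.eval_aeval_poly, funext p2] at h1
  exact h1

/-- **The path** between two points, one height after the other. -/
theorem path_le {i : ℕ} (hc : Set.InjOn c (Set.Iio i)) {D : ℕ}
    (hdeg : ∀ l, (G l).totalDegree ≤ D) (hdep : ∀ l, DepC c l (G l))
    {W : MvPolynomial (Option (Fin m)) ℝ} (hW : DepC c i W) {b₁ b₂ : Option (Fin m) → ℝ}
    (hn : b₂ none = b₁ none) (R M : ℕ → ℝ) (ct : ℕ → Prop) [DecidablePred ct]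
    (h1 : ∀ l < i, |hgt c G b₁ l| ≤ R l) (h2 : ∀ l < i, |hgt c G b₂ l| ≤ R l)
    (heq : ∀ l < i, ¬ ct l → hgt c G b₂ l = hgt c G b₁ l)
    (hM : ∀ l < i, ct l → ∀ y : Option (Fin m) → ℝ, y none = b₁ none →
      (∀ l' < i, |hgt c G y l'| ≤ R l') → |eval y (dvf c G l i W)| ≤ M l) :
    |eval b₂ W - eval b₁ W| ≤
      ∑ l ∈ range i, if ct l then |hgt c G b₂ l - hgt c G b₁ l| * M l else 0 := by
  have key : ∀ k ≤ i, ∃ y : Option (Fin m) → ℝ, y none = b₁ none ∧
      (∀ l < i, l < k → hgt c G y l = hgt c G b₂ l) ∧
      (∀ l < i, k ≤ l → hgt c G y l = hgt c G b₁ l) ∧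
      |eval y W - eval b₁ W| ≤
        ∑ l ∈ range k, if ct l then |hgt c G b₂ l - hgt c G b₁ l| * M l else 0 := by
    intro k
    induction k with
    | zero =>
      intro _
      refine ⟨b₁, rfl, fun l _ h => absurd h (Nat.not_lt_zero l), fun l _ _ => rfl, ?_⟩
      simp
    | succ k ih =>
      intro hk
      obtain ⟨y, y1, y2, y3, y4⟩ := ih (by omega)
      by_cases hct : ct k
      · obtain ⟨b', q1, q2, q3, q4⟩ := dvf_mv hc hdeg hdep W y
          (hgt c G b₂ k - hgt c G b₁ k) (j := k) (i := i) (by omega)
        have e0 : hgt c G y k = hgt c G b₁ k := y3 k (by omega) le_rfl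
        refine ⟨b', q1.trans y1, fun l hl hlk => ?_, fun l hl hlk => ?_, ?_⟩
        · rcases Nat.lt_or_ge l k with h | h
          · rw [q3 l hl (by omega)]
            exact y2 l hl h
          · have : l = k := by omega
            subst this
            rw [q2, e0]
            ring
        · rw [q3 l hl (by omega)]
          exact y3 l hl (by omega)
        · have h5 := q4 (M k) (fun z s s0 s1 zn zo zk => hM k (by omega) hct z (zn.trans y1)
            fun l' hl' => by
              rcases eq_or_ne l' k with h | h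
              · subst h
                rw [zk, e0]
                have a1 := abs_le.1 (h1 l' hl')
                have a2 := abs_le.1 (h2 l' hl')
                have e1 : hgt c G b₁ l' + s * (hgt c G b₂ l' - hgt c G b₁ l') =
                    (1 - s) * hgt c G b₁ l' + s * hgt c G b₂ l' := by ring
                rw [e1, abs_le]
                have s2 : 0 ≤ 1 - s := by linarith only [s1]
                have m1 := mul_le_mul_of_nonneg_left a1.1 s2
                have m2 := mul_le_mul_of_nonneg_left a1.2 s2
                have m3 := mul_le_mul_of_nonneg_left a2.1 s0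
                have m4 := mul_le_mul_of_nonneg_left a2.2 s0
                constructor <;> nlinarith only [m1, m2, m3, m4]
              · rw [zo l' hl' h]
                rcases Nat.lt_or_ge l' k with h' | h'
                · rw [y2 l' hl' h']
                  exact h2 l' hl'
                · rw [y3 l' hl' h']
                  exact h1 l' hl')
          rw [Finset.sum_range_succ, if_pos hct]
          calc |eval b' W - eval b₁ W| = |(eval y W - eval b₁ W) + (eval b' W - eval y W)| := by
                congr 1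
                ring
            _ ≤ |eval y W - eval b₁ W| + |eval b' W - eval y W| := abs_add_le _ _
            _ ≤ _ := add_le_add y4 h5
      · refine ⟨y, y1, fun l hl hlk => ?_, fun l hl hlk => y3 l hl (by omega), ?_⟩
        · rcases Nat.lt_or_ge l k with h | h
          · exact y2 l hl h
          · have : l = k := by omega
            subst this
            rw [y3 l hl le_rfl, heq l hl hct]
        · rw [Finset.sum_range_succ, if_neg hct, add_zero]
          exact y4
  obtain ⟨y, y1, y2, _, y4⟩ := key i le_rfl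
  have e1 : eval y W = eval b₂ W := hW _ _ (y1.trans hn.symm)
    (hgt_inj hdep (y1.trans hn.symm) fun l hl => y2 l hl hl)
  rw [← e1]
  exact y4

end Pool.VFD
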